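import Pool.Agent.Elliott.Defs

set_option autoImplicit false

/-! ELL-AP: a Chebyshev bound for the primes of `(X, 4X]` in a residue class. -/

namespace Pool.Agent.Elliott

open Finset

theorem fact_factorial_le {p : ℕ} (hp : p.Prime) (n : ℕ) : (n.factorial).factorization p ≤ n := by
  have : Fact p.Prime := ⟨hp⟩
  rw [Nat.factorization_def _ hp]
  have h := sub_one_mul_padicValNat_factorial (p := p) n
  have h2 : 1 ≤ p - 1 := by have := hp.two_le; omega
  calc padicValNat p n.factorial = 1 * padicValNat p n.factorial := by ring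
    _ ≤ (p - 1) * padicValNat p n.factorial := Nat.mul_le_mul_right _ h2
    _ = n - (p.digits n).sum := h
    _ ≤ n := Nat.sub_le _ _

theorem coprime_part {n d : ℕ} :
    Nat.Coprime (n.factorial / Nat.gcd n.factorial (d ^ n)) d := by
  set g := Nat.gcd n.factorial (d ^ n) with hg
  have hgd : g ∣ n.factorial := Nat.gcd_dvd_left _ _
  have hmul : g * (n.factorial / g) = n.factorial := Nat.mul_div_cancel' hgd
  apply Nat.Coprime.symm
  apply Nat.coprime_of_dvd
  intro p hp hpd hpm
  have hn0 : n.factorial ≠ 0 := Nat.factorial_ne_zero n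
  have h1 : p ^ (n.factorial).factorization p ∣ n.factorial := Nat.ordProj_dvd _ _
  have h2 : p ^ (n.factorial).factorization p ∣ d ^ n :=
    (pow_dvd_pow p (fact_factorial_le hp n)).trans (pow_dvd_pow_of_dvd hpd n)
  have h3 : p ^ (n.factorial).factorization p ∣ g := Nat.dvd_gcd h1 h2
  have h4 : p ^ ((n.factorial).factorization p + 1) ∣ n.factorial := by
    rw [pow_succ, ← hmul]
    exact mul_dvd_mul (by rw [hmul]; exact h3) hpm
  exact Nat.pow_succ_factorization_not_dvd hn0 hp h4

theorem part_dvd {n d a m : ℕ} (hm0 : m ≠ 0) (hm : m ∣ n.factorial) (hc : Nat.Coprime m d) :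
    m ∣ ∏ k ∈ range n, (k * d + a) := by
  have : NeZero m := ⟨hm0⟩
  rw [← ZMod.natCast_eq_zero_iff]
  set e : ZMod m := (d : ZMod m)⁻¹ with he
  have hde : (d : ZMod m) * e = 1 := ZMod.coe_mul_inv_eq_one d hc.symm
  set b : ℕ := ((a : ZMod m) * e).val with hb
  have hbc : ((b : ℕ) : ZMod m) = (a : ZMod m) * e := by
    rw [hb]; exact ZMod.natCast_zmod_val _
  have h1 : ((∏ k ∈ range n, (k * d + a) : ℕ) : ZMod m) =
      (d : ZMod m) ^ n * ((∏ k ∈ range n, (b + k) : ℕ) : ZMod m) := by
    push_cast
    rw [← Finset.card_range n, ← Finset.prod_const, Finset.card_range, ← Finset.prod_mul_distrib]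
    apply Finset.prod_congr rfl
    intro k _
    rw [hbc]
    have : (d : ZMod m) * ((a : ZMod m) * e + k) = ((d : ZMod m) * e) * a + k * d := by ring
    rw [this, hde]; ring
  rw [h1, ← Nat.ascFactorial_eq_prod_range]
  have h2 : m ∣ b.ascFactorial n := hm.trans (Nat.factorial_dvd_ascFactorial b n)
  rw [(ZMod.natCast_eq_zero_iff _ _).mpr h2, mul_zero]

theorem prod_primes_le {n d a : ℕ} (hd : 0 < d) (ha : 0 < a) (had : a < d) (Q : Finset ℕ)
    (hQ : ∀ q ∈ Q, q.Prime ∧ n < q ∧ ∃ k < n, q = k * d + a) : ∏ q ∈ Q, q ≤ d ^ (2 * n) := by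
  set g := Nat.gcd n.factorial (d ^ n) with hg
  set m := n.factorial / g with hm
  have hgd : g ∣ n.factorial := Nat.gcd_dvd_left _ _
  have hmul : g * m = n.factorial := Nat.mul_div_cancel' hgd
  have hn0 : n.factorial ≠ 0 := Nat.factorial_ne_zero n
  have hm0 : m ≠ 0 := by
    intro h; rw [h, mul_zero] at hmul; exact hn0 hmul.symm
  have hmd : m ∣ n.factorial := ⟨g, by rw [← hmul]; ring⟩
  have hcop : Nat.Coprime m d := coprime_part
  have h1 : m ∣ ∏ k ∈ range n, (k * d + a) := part_dvd hm0 hmd hcop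
  have h2 : ∏ q ∈ Q, q ∣ ∏ k ∈ range n, (k * d + a) := by
    apply Finset.prod_primes_dvd
    · intro q hq; exact (hQ q hq).1.prime
    · intro q hq
      obtain ⟨_, _, k, hk, rfl⟩ := hQ q hq
      exact Finset.dvd_prod_of_mem (fun k => k * d + a) (mem_range.mpr hk)
  have h3 : Nat.Coprime (∏ q ∈ Q, q) m := by
    apply Nat.Coprime.prod_left
    intro q hq
    rw [(hQ q hq).1.coprime_iff_not_dvd]
    intro h
    have := ((hQ q hq).1.dvd_factorial).mp (h.trans hmd)
    have := (hQ q hq).2.1
    omega
  have h4 : (∏ q ∈ Q, q) * m ∣ ∏ k ∈ range n, (k * d + a) := h3.mul_dvd_of_dvd_of_dvd h2 h1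
  have hpos : 0 < ∏ k ∈ range n, (k * d + a) := Finset.prod_pos fun k _ => by positivity
  have h5 : (∏ q ∈ Q, q) * m ≤ ∏ k ∈ range n, (k * d + a) := Nat.le_of_dvd hpos h4
  have h6 : ∏ k ∈ range n, (k * d + a) ≤ d ^ n * n.factorial := by
    rw [← Finset.prod_range_add_one_eq_factorial]
    calc ∏ k ∈ range n, (k * d + a) ≤ ∏ k ∈ range n, (d * (k + 1)) := by
          apply Finset.prod_le_prod'
          intro k _
          nlinarith
      _ = d ^ n * ∏ k ∈ range n, (k + 1) := by
          rw [Finset.prod_mul_distrib, Finset.prod_const, Finset.card_range]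
  have h7 : g ≤ d ^ n := Nat.gcd_le_right _ (pow_pos hd n)
  have h8 : (∏ q ∈ Q, q) * m ≤ d ^ (2 * n) * m := by
    calc (∏ q ∈ Q, q) * m ≤ d ^ n * n.factorial := h5.trans h6
      _ = d ^ n * (g * m) := by rw [hmul]
      _ ≤ d ^ n * (d ^ n * m) := by gcongr
      _ = d ^ (2 * n) * m := by ring
  exact Nat.le_of_mul_le_mul_right h8 (Nat.pos_of_ne_zero hm0)

theorem card_prime_modEq : ∃ C : ℝ, 0 < C ∧ ∀ X d a : ℕ, 2 ≤ X → 1 ≤ d → d ≤ 4 * X →
    (#((Ioc X (4 * X)).filter (fun p => p.Prime ∧ p % d = a)) : ℝ) * Real.log X ≤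
      C * (X / d) * (1 + Real.log d) := by
  refine ⟨60, by norm_num, ?_⟩
  intro X d a hX hd hdX
  set Q := (Ioc X (4 * X)).filter (fun p => p.Prime ∧ p % d = a) with hQ
  have hXr : (2 : ℝ) ≤ X := by exact_mod_cast hX
  have hdr : (1 : ℝ) ≤ d := by exact_mod_cast hd
  have hlX : 0 ≤ Real.log X := Real.log_nonneg (by linarith)
  have hld : 0 ≤ Real.log d := Real.log_nonneg hdr
  have hmem : ∀ q ∈ Q, X < q ∧ q ≤ 4 * X ∧ q.Prime ∧ q % d = a := by
    intro q hq
    rw [hQ, mem_filter, mem_Ioc] at hq
    exact ⟨hq.1.1, hq.1.2, hq.2.1, hq.2.2⟩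
  rcases lt_or_ge d 8 with hd8 | hd8
  · -- small `d`
    have h1 : (#Q : ℝ) * Real.log X ≤ Chebyshev.theta ((4 * X : ℕ) : ℝ) := by
      rw [Chebyshev.theta_eq_sum_primesLE_log]
      have hsub : Q ⊆ Nat.primesLE (4 * X) := by
        intro q hq
        have := hmem q hq
        rw [Nat.mem_primesLE]
        exact ⟨this.2.1, this.2.2.1⟩
      calc (#Q : ℝ) * Real.log X = ∑ q ∈ Q, Real.log X := by rw [sum_const, nsmul_eq_mul]
        _ ≤ ∑ q ∈ Q, Real.log q := by
            apply sum_le_sum
            intro q hq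
            apply Real.log_le_log (by linarith)
            exact_mod_cast (hmem q hq).1.le
        _ ≤ ∑ q ∈ Nat.primesLE (4 * X), Real.log q := by
            apply sum_le_sum_of_subset_of_nonneg hsub
            intro q hq _
            exact Real.log_natCast_nonneg q
    have h2 := Chebyshev.theta_le_log4_mul_x (x := ((4 * X : ℕ) : ℝ)) (by positivity)
    have hlog4 : Real.log 4 ≤ 1.4 := by
      rw [show (4 : ℝ) = 2 ^ 2 by norm_num, Real.log_pow]
      have := Real.log_two_lt_d9
      push_cast; linarith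
    have hd7 : (d : ℝ) ≤ 7 := by
      have : d ≤ 7 := by omega
      exact_mod_cast this
    have h3 : (X : ℝ) / 7 ≤ X / d := by
      apply div_le_div_of_nonneg_left (by linarith) (by linarith) hd7
    calc (#Q : ℝ) * Real.log X ≤ Real.log 4 * ((4 * X : ℕ) : ℝ) := h1.trans h2
      _ ≤ 1.4 * ((4 * X : ℕ) : ℝ) := by gcongr
      _ ≤ 60 * (X / 7) * 1 := by push_cast; linarith
      _ ≤ 60 * (X / d) * (1 + Real.log d) := by
          apply mul_le_mul _ (by linarith) (by norm_num) (by positivity)
          linarith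
  rcases lt_or_ge X d with hXd | hXd
  · -- `X < d ≤ 4 X`
    have hcard : #Q ≤ 4 := by
      have : Q.image (fun q => q / d) ⊆ range 4 := by
        intro y hy
        rw [mem_image] at hy
        obtain ⟨q, hq, rfl⟩ := hy
        rw [mem_range]
        have := hmem q hq
        rw [Nat.div_lt_iff_lt_mul (by omega)]
        omega
      have h2 : #(Q.image (fun q => q / d)) = #Q := by
        apply card_image_of_injOn
        intro q hq q' hq' h
        have e1 := (hmem q hq).2.2.2
        have e2 := (hmem q' hq').2.2.2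
        have h' : q / d = q' / d := h
        rw [← Nat.div_add_mod q d, ← Nat.div_add_mod q' d, e1, e2, h']
      rw [← h2]
      exact (card_le_card this).trans (by simp)
    have hc : (#Q : ℝ) ≤ 4 := by exact_mod_cast hcard
    have h4 : (1 : ℝ) / 4 ≤ X / d := by
      rw [div_le_div_iff₀ (by norm_num) (by linarith)]
      have : (d : ℝ) ≤ 4 * X := by exact_mod_cast hdX
      linarith
    have h5 : Real.log X ≤ Real.log d := Real.log_le_log (by linarith) (by exact_mod_cast hXd.le)
    calc (#Q : ℝ) * Real.log X ≤ 4 * Real.log d := by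
          apply mul_le_mul hc h5 hlX (by norm_num)
      _ ≤ 60 * (1 / 4) * (1 + Real.log d) := by linarith
      _ ≤ 60 * (X / d) * (1 + Real.log d) := by
          apply mul_le_mul_of_nonneg_right _ (by linarith)
          linarith
  · -- `8 ≤ d ≤ X`
    rcases Q.eq_empty_or_nonempty with hQe | hQne
    · rw [hQe]
      simp only [card_empty, Nat.cast_zero, zero_mul]
      positivity
    · obtain ⟨q0, hq0⟩ := hQne
      have m0 := hmem q0 hq0
      have had : a < d := by rw [← m0.2.2.2]; exact Nat.mod_lt _ (by omega)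
      have ha : 0 < a := by
        rw [Nat.pos_iff_ne_zero]
        intro h
        have h1 : d ∣ q0 := Nat.dvd_of_mod_eq_zero (by rw [m0.2.2.2, h])
        rcases (Nat.dvd_prime m0.2.2.1).mp h1 with h2 | h2
        · omega
        · have := m0.1
          omega
      set n := 4 * X / d + 1 with hn
      have hnX : n ≤ X := by
        have h1 : 4 * X / d ≤ 4 * X / 8 := Nat.div_le_div_left hd8 (by norm_num)
        have h2 : 4 * X / 8 ≤ X - 1 := by omega
        omega
      have hle : ∏ q ∈ Q, q ≤ d ^ (2 * n) := by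
        apply prod_primes_le (a := a) (by omega) ha had
        intro q hq
        have mq := hmem q hq
        refine ⟨mq.2.2.1, by omega, q / d, ?_, ?_⟩
        · rw [hn]
          have : q / d ≤ 4 * X / d := Nat.div_le_div_right mq.2.1
          omega
        · have := Nat.div_add_mod q d
          rw [mq.2.2.2] at this
          rw [Nat.mul_comm (q / d) d]
          exact this.symm
      have hpow : X ^ #Q ≤ ∏ q ∈ Q, q := by
        rw [← prod_const]
        apply prod_le_prod'
        intro q hq
        exact (hmem q hq).1.le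
      have hlog : (#Q : ℝ) * Real.log X ≤ 2 * n * Real.log d := by
        have h1 : ((X : ℝ)) ^ #Q ≤ (d : ℝ) ^ (2 * n) := by exact_mod_cast hpow.trans hle
        have h2 := Real.log_le_log (by positivity) h1
        rw [Real.log_pow, Real.log_pow] at h2
        push_cast at h2
        exact h2
      have hnr : (n : ℝ) ≤ 5 * (X / d) := by
        have h1 : ((4 * X / d : ℕ) : ℝ) ≤ ((4 * X : ℕ) : ℝ) / d := Nat.cast_div_le
        have h2 : (1 : ℝ) ≤ X / d := by
          rw [le_div_iff₀ (by linarith)]
          rw [one_mul]; exact_mod_cast hXd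
        rw [hn]
        push_cast at h1 ⊢
        have h3 : (4 * (X : ℝ)) / d = 4 * (X / d) := by ring
        rw [h3] at h1
        linarith
      calc (#Q : ℝ) * Real.log X ≤ 2 * n * Real.log d := hlog
        _ ≤ 2 * (5 * (X / d)) * Real.log d := by gcongr
        _ ≤ 60 * (X / d) * (1 + Real.log d) := by
            have : 0 ≤ (X : ℝ) / d := by positivity
            nlinarith

end Pool.Agent.Elliott
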