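import Pool.Agent.Elliott.Defs

/-! Chebyshev and Mertens type bounds by blocks. -/

set_option autoImplicit false

namespace Pool.Agent.Elliott

open Finset

theorem theta_nat (n : ℕ) : Chebyshev.theta (n : ℝ) = ∑ p ∈ (Ioc 0 n).filter Nat.Prime, Real.log p := by
  simp [Chebyshev.theta]

/-- `∑_{j ≤ J} min(1/j, a) ≤ 2 log(1 + a J)` -/
theorem sum_min_inv (a : ℝ) (ha : 0 ≤ a) (J : ℕ) :
    ∑ j ∈ Icc 1 J, min (1 / (j : ℝ)) a ≤ 2 * Real.log (1 + a * J) := by
  induction J with
  | zero => simp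
  | succ J ih =>
    rw [Finset.sum_Icc_succ_top (by omega)]
    push_cast
    have h0 : 0 < 1 + a * J := by positivity
    have h1 : 0 < 1 + a * (J + 1) := by positivity
    have h2 : a / (1 + a * (J + 1)) ≤ Real.log (1 + a * (J + 1)) - Real.log (1 + a * J) := by
      have h3 := Real.log_le_sub_one_of_pos (div_pos h0 h1)
      rw [Real.log_div h0.ne' h1.ne'] at h3
      have h4 : (1 + a * (J : ℝ)) / (1 + a * (J + 1)) - 1 = - (a / (1 + a * (J + 1))) := by
        field_simp
        ring
      linarith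
    have h5 : min (1 / ((J : ℝ) + 1)) a ≤ 2 * (a / (1 + a * (J + 1))) := by
      by_cases h : a * (J + 1) ≤ 1
      · refine (min_le_right _ _).trans ?_
        rw [← mul_div_assoc, le_div_iff₀ h1]
        nlinarith
      · push Not at h
        refine (min_le_left _ _).trans ?_
        rw [← mul_div_assoc, div_le_div_iff₀ (by positivity) h1]
        nlinarith
    linarith

theorem card_fiber (j : ℕ) (hj : 1 ≤ j) (S : Finset ℕ)
    (hS : ∀ p ∈ S, p.Prime ∧ 2 ^ j ≤ p ∧ p < 2 ^ (j + 1)) :
    (#S : ℝ) ≤ 4 * 2 ^ j / j := by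
  have hj' : (0 : ℝ) < j := by exact_mod_cast hj
  have hl2 : 0 < Real.log 2 := Real.log_pos (by norm_num)
  have h1 : ∑ p ∈ S, Real.log p ≤ Chebyshev.theta ((2 ^ (j + 1) : ℕ) : ℝ) := by
    rw [theta_nat]
    apply Finset.sum_le_sum_of_subset_of_nonneg
    · intro p hp
      obtain ⟨h, h', h''⟩ := hS p hp
      simp only [mem_filter, mem_Ioc]
      exact ⟨⟨h.pos, h''.le⟩, h⟩
    · intro p hp _
      exact Real.log_natCast_nonneg p
  have h2 : (#S : ℝ) * (j * Real.log 2) ≤ ∑ p ∈ S, Real.log p := by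
    rw [← nsmul_eq_mul]
    apply Finset.card_nsmul_le_sum
    intro p hp
    obtain ⟨h, h', h''⟩ := hS p hp
    rw [← Real.log_pow]
    apply Real.log_le_log (by positivity)
    exact_mod_cast h'
  have h3 := Chebyshev.theta_le_log4_mul_x (x := ((2 ^ (j + 1) : ℕ) : ℝ)) (by positivity)
  have h4 : Real.log 4 = 2 * Real.log 2 := by
    rw [show (4 : ℝ) = 2 ^ 2 by norm_num, Real.log_pow]; norm_num
  rw [h4] at h3
  have h5 : (#S : ℝ) * j * Real.log 2 ≤ (4 * 2 ^ j) * Real.log 2 := by
    have e : (((2 ^ (j + 1) : ℕ)) : ℝ) = 2 * 2 ^ j := by push_cast; ring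
    have h6 := h1.trans h3
    rw [e] at h6
    linarith
  rw [le_div_iff₀ hj']
  exact le_of_mul_le_mul_right h5 hl2

theorem sum_min_log : ∃ C : ℝ, 0 < C ∧ ∀ (z : ℝ) (y : ℕ), 0 ≤ z →
    ∑ p ∈ (Icc 1 y).filter Nat.Prime, min 1 (z * Real.log p) / p ≤
      C * Real.log (1 + z * Real.log y) := by
  refine ⟨16, by norm_num, ?_⟩
  intro z y hz
  have hl2 : 0 < Real.log 2 := Real.log_pos (by norm_num)
  rcases Nat.lt_or_ge y 2 with hy | hy
  · have : (Icc 1 y).filter Nat.Prime = ∅ := by
      apply Finset.filter_eq_empty_iff.2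
      intro p hp h
      have := (mem_Icc.1 hp).2
      have := h.two_le
      omega
    rw [this, Finset.sum_empty]
    have : 0 ≤ Real.log (1 + z * Real.log y) :=
      Real.log_nonneg (by have := mul_nonneg hz (Real.log_natCast_nonneg y); linarith)
    linarith
  set J := Nat.log 2 y with hJ
  set a := 2 * z * Real.log 2 with ha
  have ha0 : 0 ≤ a := by positivity
  have hmaps : ∀ p ∈ (Icc 1 y).filter Nat.Prime, Nat.log 2 p ∈ Icc 1 J := by
    intro p hp
    simp only [mem_filter, mem_Icc] at hp ⊢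
    exact ⟨Nat.log_pos (by norm_num) hp.2.two_le, Nat.log_mono_right hp.1.2⟩
  rw [← Finset.sum_fiberwise_of_maps_to hmaps]
  have hfib : ∀ j ∈ Icc 1 J, ∑ p ∈ ((Icc 1 y).filter Nat.Prime).filter (fun p => Nat.log 2 p = j),
      min 1 (z * Real.log p) / p ≤ 4 * min (1 / (j : ℝ)) a := by
    intro j hj
    have hj1 : 1 ≤ j := (mem_Icc.1 hj).1
    have hj' : (0 : ℝ) < j := by exact_mod_cast hj1
    have hS : ∀ p ∈ ((Icc 1 y).filter Nat.Prime).filter (fun p => Nat.log 2 p = j),
        p.Prime ∧ 2 ^ j ≤ p ∧ p < 2 ^ (j + 1) := by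
      intro p hp
      simp only [mem_filter] at hp
      have hp0 : p ≠ 0 := hp.1.2.ne_zero
      exact ⟨hp.1.2, (Nat.log_eq_iff (Or.inl (by omega))).1 hp.2⟩
    have hcard := card_fiber j hj1 _ hS
    have hterm : ∀ p ∈ ((Icc 1 y).filter Nat.Prime).filter (fun p => Nat.log 2 p = j),
        min 1 (z * Real.log p) / p ≤ min 1 (a * j) / 2 ^ j := by
      intro p hp
      obtain ⟨h, h', h''⟩ := hS p hp
      have h2 : (2 : ℝ) ^ j ≤ p := by exact_mod_cast h'
      have h3 : Real.log p ≤ (j + 1) * Real.log 2 := by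
        have : Real.log p ≤ Real.log (2 ^ (j + 1)) := by
          apply Real.log_le_log (by exact_mod_cast h.pos)
          exact_mod_cast h''.le
        rw [Real.log_pow] at this
        exact_mod_cast this
      have h4 : z * Real.log p ≤ a * j := by
        have h5 : (1 : ℝ) ≤ j := by exact_mod_cast hj1
        have h6 : z * Real.log p ≤ z * ((j + 1) * Real.log 2) := mul_le_mul_of_nonneg_left h3 hz
        have h7 : z * ((j + 1) * Real.log 2) ≤ a * j := by
          have : 0 ≤ z * Real.log 2 * (j - 1) :=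
            mul_nonneg (mul_nonneg hz hl2.le) (by linarith)
          rw [ha]
          nlinarith
        linarith
      apply div_le_div₀
      · exact le_min (by norm_num) (by positivity)
      · exact min_le_min le_rfl h4
      · positivity
      · exact h2
    refine (Finset.sum_le_card_nsmul _ _ _ hterm).trans ?_
    rw [nsmul_eq_mul]
    have h0 : (0 : ℝ) ≤ min 1 (a * j) / 2 ^ j := by
      apply div_nonneg (le_min (by norm_num) (by positivity)) (by positivity)
    refine (mul_le_mul_of_nonneg_right hcard h0).trans ?_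
    have h8 : min 1 (a * (j : ℝ)) = j * min (1 / (j : ℝ)) a := by
      rw [mul_min_of_nonneg _ _ hj'.le, mul_one_div_cancel hj'.ne', mul_comm a]
    rw [h8]
    apply le_of_eq
    field_simp
  refine (Finset.sum_le_sum hfib).trans ?_
  rw [← Finset.mul_sum]
  have h1 := sum_min_inv a ha0 J
  have h2 : a * J ≤ 2 * (z * Real.log y) := by
    have h3 : (J : ℝ) * Real.log 2 ≤ Real.log y := by
      rw [← Real.log_pow]
      apply Real.log_le_log (by positivity)
      exact_mod_cast Nat.pow_log_le_self 2 (by omega)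
    have := mul_le_mul_of_nonneg_left h3 hz
    rw [ha]
    linarith
  set u := z * Real.log y with hu
  have hu0 : 0 ≤ u := mul_nonneg hz (Real.log_natCast_nonneg y)
  have h3 : Real.log (1 + a * J) ≤ 2 * Real.log (1 + u) := by
    have : Real.log (1 + a * J) ≤ Real.log ((1 + u) ^ 2) := by
      apply Real.log_le_log (by positivity)
      nlinarith
    rw [Real.log_pow] at this
    exact_mod_cast this
  linarith

theorem pow_ineq (j : ℕ) (hj : 6 ≤ j) : 2 * (j + 2) + 8 * (j + 1) * 2 ^ j ≤ 4 ^ j := by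
  induction j, hj using Nat.le_induction with
  | base => norm_num
  | succ j hj ih =>
    have h1 : 4 ^ (j + 1) = 4 * 4 ^ j := by ring
    have h2 : 2 ^ (j + 1) = 2 * 2 ^ j := by ring
    rw [h1, h2]
    nlinarith [Nat.one_le_two_pow (n := j)]

theorem card_blk_lower : ∃ c : ℝ, 0 < c ∧ ∀ j : ℕ, 1 ≤ j → c * 4 ^ j / j ≤ (#(blk j) : ℝ) := by
  refine ⟨1 / 1024, by norm_num, ?_⟩
  intro j hj
  have hj' : (1 : ℝ) ≤ j := by exact_mod_cast hj
  have hl2 : 0 < Real.log 2 := Real.log_pos (by norm_num)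
  have h4 : Real.log 4 = 2 * Real.log 2 := by
    rw [show (4 : ℝ) = 2 ^ 2 by norm_num, Real.log_pow]; norm_num
  rcases Nat.lt_or_ge j 6 with h6 | h6
  · -- small j
    have hne : (blk j).Nonempty := by
      obtain ⟨p, hp, h1, h2⟩ := Nat.exists_prime_lt_and_le_two_mul (4 ^ j) (by positivity)
      refine ⟨p, ?_⟩
      simp only [blk, mem_filter, mem_Ioc]
      refine ⟨⟨h1, ?_⟩, hp⟩
      rw [pow_succ]
      omega
    have h1 : (1 : ℝ) ≤ #(blk j) := by exact_mod_cast hne.card_pos
    refine le_trans ?_ h1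
    rw [div_le_one (by linarith)]
    have : (4 : ℝ) ^ j ≤ 4 ^ 5 := pow_le_pow_right₀ (by norm_num) (by omega)
    linarith
  · -- large j
    have hlow := Chebyshev.theta_ge (4 ^ (j + 1))
    have hup := Chebyshev.theta_le_log4_mul_x (x := ((4 ^ j : ℕ) : ℝ)) (by positivity)
    have hsum : Chebyshev.theta ((4 ^ (j + 1) : ℕ) : ℝ) =
        Chebyshev.theta ((4 ^ j : ℕ) : ℝ) + ∑ p ∈ blk j, Real.log p := by
      rw [theta_nat, theta_nat, blk, ← Finset.sum_union]
      · rw [← Finset.filter_union]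
        congr 2
        rw [Finset.Ioc_union_Ioc_eq_Ioc (Nat.zero_le _)]
        exact Nat.pow_le_pow_right (by norm_num) (by omega)
      · apply Finset.disjoint_filter_filter
        rw [Finset.disjoint_left]
        intro p hp hp'
        simp only [mem_Ioc] at hp hp'
        omega
    have hcard : ∑ p ∈ blk j, Real.log p ≤ #(blk j) * ((j + 1) * Real.log 4) := by
      rw [← nsmul_eq_mul]
      apply Finset.sum_le_card_nsmul
      intro p hp
      simp only [blk, mem_filter, mem_Ioc] at hp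
      have : Real.log p ≤ Real.log (4 ^ (j + 1)) := by
        apply Real.log_le_log (by exact_mod_cast hp.2.pos)
        exact_mod_cast hp.1.2
      rw [Real.log_pow] at this
      exact_mod_cast this
    have hsq : √((4 ^ (j + 1) : ℕ) : ℝ) = 2 ^ (j + 1) := by
      rw [show (((4 ^ (j + 1) : ℕ)) : ℝ) = (2 ^ (j + 1)) ^ 2 by
        push_cast
        rw [← pow_mul, mul_comm (j + 1) 2, pow_mul]
        norm_num]
      exact Real.sqrt_sq (by positivity)
    have hlog1 : Real.log ((4 ^ (j + 1) : ℕ) + 1) ≤ (j + 2) * Real.log 4 := by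
      have : Real.log ((4 ^ (j + 1) : ℕ) + 1) ≤ Real.log (4 ^ (j + 2)) := by
        apply Real.log_le_log (by positivity)
        push_cast
        rw [pow_succ 4 (j + 1)]
        have : (1 : ℝ) ≤ 4 ^ (j + 1) := one_le_pow₀ (by norm_num)
        linarith
      rw [Real.log_pow] at this
      exact_mod_cast this
    have hlog2 : Real.log ((4 ^ (j + 1) : ℕ) : ℝ) = (j + 1) * Real.log 4 := by
      push_cast
      rw [Real.log_pow]
      push_cast
      ring
    rw [hsq, hlog2] at hlow
    have hpow : ((2 * (j + 2) + 8 * (j + 1) * 2 ^ j : ℕ) : ℝ) ≤ ((4 ^ j : ℕ) : ℝ) := by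
      exact_mod_cast pow_ineq j h6
    push_cast at hpow hlow hup hsum hcard hlog1
    rw [h4] at *
    have e1 : (4 : ℝ) ^ (j + 1) = 4 * 4 ^ j := by ring
    have e2 : (2 : ℝ) ^ (j + 1) = 2 * 2 ^ j := by ring
    rw [e1] at hlow hsum hlog1
    rw [e2] at hlow
    have key : 4 ^ j * Real.log 2 ≤ (#(blk j) : ℝ) * ((j + 1) * 2) * Real.log 2 := by
      have := mul_le_mul_of_nonneg_right hpow hl2.le
      nlinarith
    have key2 := le_of_mul_le_mul_right key hl2
    rw [div_le_iff₀ (by linarith)]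
    have hc0 : (0 : ℝ) ≤ #(blk j) := by positivity
    nlinarith
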