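import Pool.Agent.Elliott.Defs
import Pool.Agent.Elliott.Cheb

set_option autoImplicit false

/-! The `L²` distance of `gg` and `gz`. -/

namespace Pool.Agent.Elliott

open Finset

namespace Approx_

theorem sum_bb (G : ℕ → ℕ → ℂ) (h0 : ∀ l, G l 0 = 1) (l v : ℕ) :
    ∑ i ∈ range (v + 1), bb G l i = G l v := by
  induction v with
  | zero => simp [bb, h0]
  | succ v ih =>
    rw [sum_range_succ, ih]
    simp [bb]

theorem norm_exp_neg_le {w : ℂ} (hw : 0 ≤ w.re) : ‖Complex.exp (-w)‖ ≤ 1 := by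
  rw [Complex.norm_exp]
  apply Real.exp_le_one_iff.2
  simpa using hw

theorem norm_one_sub_exp_le_two {w : ℂ} (hw : 0 ≤ w.re) : ‖1 - Complex.exp (-w)‖ ≤ 2 := by
  refine (norm_sub_le _ _).trans ?_
  have := norm_exp_neg_le hw
  rw [norm_one]
  linarith

theorem norm_one_sub_exp_le {w : ℂ} (hw : 0 ≤ w.re) : ‖1 - Complex.exp (-w)‖ ≤ ‖w‖ := by
  have key := norm_image_sub_le_of_norm_deriv_le_segment_01' (f := fun t : ℝ => Complex.exp (-(t * w)))
    (f' := fun t : ℝ => Complex.exp (-(t * w)) * (-w)) (C := ‖w‖) (fun t _ => by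
      have h1 : HasDerivAt (fun t : ℝ => (t : ℂ)) 1 t := by
        simpa using (hasDerivAt_id t).ofReal_comp
      have h2 : HasDerivAt (fun t : ℝ => -((t : ℂ) * w)) (-(1 * w)) t := (h1.mul_const w).neg
      have h3 := h2.cexp
      rw [one_mul] at h3
      exact h3.hasDerivWithinAt) (fun t ht => by
      rw [norm_mul, norm_neg]
      have : ‖Complex.exp (-((t : ℂ) * w))‖ ≤ 1 := by
        apply norm_exp_neg_le
        rw [Complex.re_ofReal_mul]
        exact mul_nonneg ht.1 hw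
      calc _ ≤ 1 * ‖w‖ := mul_le_mul_of_nonneg_right this (norm_nonneg _)
        _ = ‖w‖ := one_mul _)
  rw [norm_sub_rev]
  simpa using key

theorem term_bound (G : ℕ → ℕ → ℂ) (hG : ∀ l i, ‖G l i‖ ≤ 1) {z : ℂ} (hz : 0 ≤ z.re) {l : ℕ}
    (i : ℕ) : ‖bb G l i * (1 - Complex.exp (-(i * z * Real.log l)))‖ ≤
      4 * i * min 1 (‖z‖ * Real.log l) := by
  have hlog : 0 ≤ Real.log l := Real.log_natCast_nonneg l
  rcases Nat.eq_zero_or_pos i with rfl | hi
  · simp
  have hi' : (1 : ℝ) ≤ i := by exact_mod_cast hi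
  have hre : 0 ≤ ((i : ℂ) * z * Real.log l).re := by
    have : (i : ℂ) * z * Real.log l = ((i * Real.log l : ℝ) : ℂ) * z := by push_cast; ring
    rw [this, Complex.re_ofReal_mul]
    positivity
  have hnorm : ‖(i : ℂ) * z * Real.log l‖ = i * (‖z‖ * Real.log l) := by
    rw [norm_mul, norm_mul, Complex.norm_natCast, Complex.norm_real, Real.norm_eq_abs,
      abs_of_nonneg hlog, mul_assoc]
  have hb : ‖bb G l i‖ ≤ 2 := by
    unfold bb
    rw [if_neg (by omega)]
    refine (norm_sub_le _ _).trans ?_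
    have h1 := hG l i
    have h2 := hG l (i - 1)
    linarith
  have he : ‖1 - Complex.exp (-((i : ℂ) * z * Real.log l))‖ ≤
      2 * i * min 1 (‖z‖ * Real.log l) := by
    have h1 := norm_one_sub_exp_le_two hre
    have h2 := norm_one_sub_exp_le hre
    rw [hnorm] at h2
    have h3 : 0 ≤ ‖z‖ * Real.log l := by positivity
    rcases le_total 1 (‖z‖ * Real.log l) with h | h
    · rw [min_eq_left h]
      linarith
    · rw [min_eq_right h]
      have : 0 ≤ (i : ℝ) * (‖z‖ * Real.log l) := by positivity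
      linarith
  rw [norm_mul]
  calc _ ≤ 2 * (2 * i * min 1 (‖z‖ * Real.log l)) :=
        mul_le_mul hb he (norm_nonneg _) (by norm_num)
    _ = _ := by ring

theorem local_diff (G : ℕ → ℕ → ℂ) (hG : ∀ l i, ‖G l i‖ ≤ 1) (h0 : ∀ l, G l 0 = 1) {z : ℂ}
    (hz : 0 ≤ z.re) (l v : ℕ) :
    ‖G l v - ∑ i ∈ range (v + 1), bb G l i * Complex.exp (-(i * z * Real.log l))‖ ≤
      4 * v ^ 2 * min 1 (‖z‖ * Real.log l) := by
  have hmin : 0 ≤ min 1 (‖z‖ * Real.log l) := by
    have hlog : 0 ≤ Real.log l := Real.log_natCast_nonneg l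
    positivity
  rw [← sum_bb G h0 l v, ← sum_sub_distrib]
  have h1 : ∀ i ∈ range (v + 1), bb G l i - bb G l i * Complex.exp (-(i * z * Real.log l)) =
      bb G l i * (1 - Complex.exp (-(i * z * Real.log l))) := fun i _ => by ring
  rw [sum_congr rfl h1]
  refine (norm_sum_le _ _).trans ?_
  refine (sum_le_sum fun i _ => term_bound G hG hz (l := l) i).trans ?_
  rw [← sum_mul, ← mul_sum]
  refine mul_le_mul_of_nonneg_right ?_ hmin
  have h2 : ∀ v : ℕ, ∑ i ∈ range (v + 1), (i : ℝ) ≤ (v : ℝ) ^ 2 := by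
    intro v
    induction v with
    | zero => simp
    | succ v ih =>
      rw [sum_range_succ]
      push_cast
      nlinarith [(Nat.cast_nonneg v : (0 : ℝ) ≤ v)]
  linarith [h2 v]

theorem prod_diff (Q : Finset ℕ) (a a' : ℕ → ℂ) (η : ℕ → ℝ) (ha : ∀ l ∈ Q, ‖a l‖ ≤ 1)
    (h : ∀ l ∈ Q, ‖a l - a' l‖ ≤ η l) :
    ‖∏ l ∈ Q, a l - ∏ l ∈ Q, a' l‖ ≤ ∏ l ∈ Q, (1 + η l) - 1 ∧
      ‖∏ l ∈ Q, a' l‖ ≤ ∏ l ∈ Q, (1 + η l) ∧ ‖∏ l ∈ Q, a l‖ ≤ 1 := by
  induction Q using Finset.induction_on with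
  | empty => simp
  | @insert p Q hp ih =>
    obtain ⟨h1, h2, h3⟩ := ih (fun l hl => ha l (mem_insert_of_mem hl))
      (fun l hl => h l (mem_insert_of_mem hl))
    have hap := ha p (mem_insert_self _ _)
    have hdp := h p (mem_insert_self _ _)
    have hη : 0 ≤ η p := (norm_nonneg _).trans hdp
    rw [prod_insert hp, prod_insert hp, prod_insert hp]
    have ha' : ‖a' p‖ ≤ 1 + η p := by
      have : a' p = a p - (a p - a' p) := by ring
      rw [this]
      refine (norm_sub_le _ _).trans ?_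
      linarith
    refine ⟨?_, ?_, ?_⟩
    · have e : a p * ∏ l ∈ Q, a l - a' p * ∏ l ∈ Q, a' l =
          a p * (∏ l ∈ Q, a l - ∏ l ∈ Q, a' l) + (a p - a' p) * ∏ l ∈ Q, a' l := by ring
      rw [e]
      refine (norm_add_le _ _).trans ?_
      rw [norm_mul, norm_mul]
      have e1 : ‖a p‖ * ‖∏ l ∈ Q, a l - ∏ l ∈ Q, a' l‖ ≤ 1 * (∏ l ∈ Q, (1 + η l) - 1) :=
        mul_le_mul hap h1 (norm_nonneg _) (by norm_num)
      have e2 : ‖a p - a' p‖ * ‖∏ l ∈ Q, a' l‖ ≤ η p * ∏ l ∈ Q, (1 + η l) :=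
        mul_le_mul hdp h2 (norm_nonneg _) hη
      linarith
    · rw [norm_mul]
      exact mul_le_mul ha' h2 (norm_nonneg _) (by linarith)
    · rw [norm_mul]
      calc _ ≤ (1 : ℝ) * 1 := mul_le_mul hap h3 (norm_nonneg _) (by norm_num)
        _ = 1 := one_mul _

theorem sum_dvd (f : ℕ → ℝ) (N d : ℕ) (hd : 0 < d) :
    ∑ n ∈ Icc 1 N, (if d ∣ n then f n else 0) = ∑ m ∈ Icc 1 (N / d), f (d * m) := by
  rw [← sum_filter]
  have e : (Icc 1 N).filter (fun n => d ∣ n) = (Icc 1 (N / d)).image (fun m => d * m) := by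
    ext n
    simp only [mem_filter, mem_Icc, mem_image]
    constructor
    · rintro ⟨⟨h1, h2⟩, m, rfl⟩
      refine ⟨m, ⟨?_, ?_⟩, rfl⟩
      · exact Nat.pos_of_ne_zero fun h => by simp [h] at h1
      · exact (Nat.le_div_iff_mul_le hd).2 (by rw [Nat.mul_comm]; exact h2)
    · rintro ⟨m, ⟨h1, h2⟩, rfl⟩
      refine ⟨⟨Nat.mul_pos hd h1, ?_⟩, dvd_mul_right _ _⟩
      have := (Nat.le_div_iff_mul_le hd).1 h2
      rw [Nat.mul_comm]
      exact this
  rw [e, sum_image]
  intro a _ b _ h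
  exact Nat.eq_of_mul_eq_mul_left hd h

theorem F_expand (F : ℕ → ℝ) (hF0 : F 0 = 1) {p : ℕ} (hp : p.Prime) {n N : ℕ} (hn : 1 ≤ n)
    (hnN : n ≤ N) : F (n.factorization p) =
      1 + ∑ i ∈ range N, (if p ^ (i + 1) ∣ n then F (i + 1) - F i else 0) := by
  have h1 : ∀ i ∈ range N, (if p ^ (i + 1) ∣ n then F (i + 1) - F i else 0) =
      if i ∈ range (n.factorization p) then F (i + 1) - F i else 0 := by
    intro i _
    have : p ^ (i + 1) ∣ n ↔ i ∈ range (n.factorization p) := by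
      rw [hp.pow_dvd_iff_le_factorization (by omega), mem_range]
      omega
    simp only [this]
  rw [sum_congr rfl h1, sum_ite_mem]
  have h2 : range N ∩ range (n.factorization p) = range (n.factorization p) := by
    apply inter_eq_right.2
    apply range_subset_range.2
    exact ((Nat.factorization_lt p (by omega)).le).trans hnN
  rw [h2, sum_range_sub, hF0]
  ring

theorem mean_value (F : ℕ → ℕ → ℝ) (c : ℕ → ℝ) (hF0 : ∀ l, F l 0 = 1)
    (hmono : ∀ l i, F l i ≤ F l (i + 1)) (Q : Finset ℕ) (hQ : ∀ l ∈ Q, l.Prime)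
    (hc : ∀ l ∈ Q, ∀ M, ∑ i ∈ range M, (F l (i + 1) - F l i) / (l : ℝ) ^ (i + 1) ≤ c l) :
    ∀ N : ℕ, ∑ n ∈ Icc 1 N, ∏ l ∈ Q, F l (n.factorization l) ≤ N * ∏ l ∈ Q, (1 + c l) := by
  induction Q using Finset.induction_on with
  | empty => intro N; simp
  | @insert p Q hp ih =>
    have ih' := ih (fun l hl => hQ l (mem_insert_of_mem hl))
      (fun l hl => hc l (mem_insert_of_mem hl))
    intro N
    have hpp : p.Prime := hQ p (mem_insert_self _ _)
    have hcp := hc p (mem_insert_self _ _)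
    have hprod : 0 ≤ ∏ l ∈ Q, (1 + c l) := by
      apply prod_nonneg
      intro l hl
      have := hc l (mem_insert_of_mem hl) 0
      rw [range_zero, sum_empty] at this
      linarith
    rw [prod_insert hp]
    have e1 : ∑ n ∈ Icc 1 N, ∏ l ∈ insert p Q, F l (n.factorization l) =
        ∑ n ∈ Icc 1 N, ∏ l ∈ Q, F l (n.factorization l) +
        ∑ i ∈ range N, (F p (i + 1) - F p i) *
          ∑ m ∈ Icc 1 (N / p ^ (i + 1)), ∏ l ∈ Q, F l (m.factorization l) := by
      have e2 : ∀ n ∈ Icc 1 N, ∏ l ∈ insert p Q, F l (n.factorization l) =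
          ∏ l ∈ Q, F l (n.factorization l) +
          ∑ i ∈ range N, (F p (i + 1) - F p i) *
            (if p ^ (i + 1) ∣ n then ∏ l ∈ Q, F l (n.factorization l) else 0) := by
        intro n hn
        rw [mem_Icc] at hn
        rw [prod_insert hp, F_expand (F p) (hF0 p) hpp hn.1 hn.2, add_mul, one_mul, sum_mul]
        congr 1
        apply sum_congr rfl
        intro i _
        split_ifs <;> ring
      rw [sum_congr rfl e2, sum_add_distrib, sum_comm]
      congr 1
      apply sum_congr rfl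
      intro i _
      rw [← mul_sum, sum_dvd (fun n => ∏ l ∈ Q, F l (n.factorization l)) N _
        (pow_pos hpp.pos _)]
      congr 1
      apply sum_congr rfl
      intro m hm
      rw [mem_Icc] at hm
      apply prod_congr rfl
      intro l hl
      have hlp : p ≠ l := by
        rintro rfl
        exact hp hl
      rw [Nat.factorization_mul (pow_pos hpp.pos _).ne' (by omega), Finsupp.add_apply,
        Nat.Prime.factorization_pow hpp, Finsupp.single_apply, if_neg hlp, zero_add]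
    rw [e1]
    have e3 : ∑ i ∈ range N, (F p (i + 1) - F p i) *
          ∑ m ∈ Icc 1 (N / p ^ (i + 1)), ∏ l ∈ Q, F l (m.factorization l) ≤
        N * (∏ l ∈ Q, (1 + c l)) * c p := by
      calc _ ≤ ∑ i ∈ range N, (F p (i + 1) - F p i) *
            ((N : ℝ) / (p : ℝ) ^ (i + 1) * ∏ l ∈ Q, (1 + c l)) := by
            apply sum_le_sum
            intro i _
            refine mul_le_mul_of_nonneg_left ?_ (sub_nonneg.2 (hmono p i))
            refine (ih' _).trans (mul_le_mul_of_nonneg_right ?_ hprod)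
            have := @Nat.cast_div_le ℝ _ _ _ N (p ^ (i + 1))
            rw [Nat.cast_pow] at this
            exact this
        _ = N * (∏ l ∈ Q, (1 + c l)) *
            ∑ i ∈ range N, (F p (i + 1) - F p i) / (p : ℝ) ^ (i + 1) := by
            rw [mul_sum]
            apply sum_congr rfl
            intro i _
            ring
        _ ≤ _ := by
            refine mul_le_mul_of_nonneg_left (hcp N) ?_
            positivity
    have := ih' N
    nlinarith [this, e3]

theorem cubes (M : ℕ) : ∑ i ∈ range M, ((i : ℝ) + 1) ^ 3 / 2 ^ i =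
    52 - (2 * (M : ℝ) ^ 3 + 12 * M ^ 2 + 36 * M + 52) / 2 ^ M := by
  induction M with
  | zero => norm_num
  | succ M ih =>
    rw [sum_range_succ, ih, pow_succ]
    push_cast
    field_simp
    ring

theorem loc_sum {μ : ℝ} (h0 : 0 ≤ μ) (h1 : μ ≤ 1) {l : ℕ} (hl : 2 ≤ l) (M : ℕ) :
    ∑ i ∈ range M, ((1 + 4 * ((i + 1 : ℕ) : ℝ) ^ 2 * μ) ^ 2 - (1 + 4 * (i : ℝ) ^ 2 * μ) ^ 2) /
      (l : ℝ) ^ (i + 1) ≤ 4160 * μ / l := by
  have hl' : (2 : ℝ) ≤ l := by exact_mod_cast hl
  have hlpos : (0 : ℝ) < l := by linarith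
  calc _ ≤ ∑ i ∈ range M, 80 * μ / l * (((i : ℝ) + 1) ^ 3 / 2 ^ i) := by
        apply sum_le_sum
        intro i _
        have hi : (0 : ℝ) ≤ i := Nat.cast_nonneg i
        have e1 : (1 + 4 * ((i + 1 : ℕ) : ℝ) ^ 2 * μ) ^ 2 - (1 + 4 * (i : ℝ) ^ 2 * μ) ^ 2 ≤
            80 * μ * ((i : ℝ) + 1) ^ 3 := by
          push_cast
          have h2 : μ ^ 2 ≤ μ := by nlinarith
          have h3 : 0 ≤ (((i : ℝ) + 1) ^ 4 - (i : ℝ) ^ 4) := by
            ring_nf
            positivity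
          have h4 : μ ^ 2 * (((i : ℝ) + 1) ^ 4 - (i : ℝ) ^ 4) ≤
              μ * (((i : ℝ) + 1) ^ 4 - (i : ℝ) ^ 4) := mul_le_mul_of_nonneg_right h2 h3
          have h5 : μ * (8 * (2 * (i : ℝ) + 1) + 16 * (((i : ℝ) + 1) ^ 4 - (i : ℝ) ^ 4)) ≤
              μ * (80 * ((i : ℝ) + 1) ^ 3) := by
            apply mul_le_mul_of_nonneg_left _ h0
            nlinarith [pow_nonneg hi 2, pow_nonneg hi 3]
          nlinarith [h4, h5]
        have e2 : (l : ℝ) * 2 ^ i ≤ (l : ℝ) ^ (i + 1) := by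
          rw [pow_succ, mul_comm]
          exact mul_le_mul_of_nonneg_right (pow_le_pow_left₀ (by norm_num) hl' i) hlpos.le
        calc _ ≤ 80 * μ * ((i : ℝ) + 1) ^ 3 / (l : ℝ) ^ (i + 1) := by
              apply div_le_div_of_nonneg_right e1
              positivity
          _ ≤ 80 * μ * ((i : ℝ) + 1) ^ 3 / ((l : ℝ) * 2 ^ i) := by
              apply div_le_div_of_nonneg_left _ _ e2
              · positivity
              · positivity
          _ = _ := by
              field_simp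
    _ = 80 * μ / l * ∑ i ∈ range M, (((i : ℝ) + 1) ^ 3 / 2 ^ i) := by rw [mul_sum]
    _ ≤ 80 * μ / l * 52 := by
        apply mul_le_mul_of_nonneg_left
        · rw [cubes]
          have : 0 ≤ (2 * (M : ℝ) ^ 3 + 12 * M ^ 2 + 36 * M + 52) / 2 ^ M := by positivity
          linarith
        · positivity
    _ = _ := by ring

end Approx_

open Approx_ in
theorem l2_approx_of (hlog : ∃ C : ℝ, 0 < C ∧ ∀ (z : ℝ) (y : ℕ), 0 ≤ z →
    ∑ p ∈ (Icc 1 y).filter Nat.Prime, min 1 (z * Real.log p) / p ≤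
      C * Real.log (1 + z * Real.log y)) :
    ∃ C : ℕ, ∀ (Q : Finset ℕ) (G : ℕ → ℕ → ℂ) (y N : ℕ) (z : ℂ),
    (∀ l ∈ Q, l.Prime ∧ l ≤ y) → (∀ l i, ‖G l i‖ ≤ 1) → (∀ l, G l 0 = 1) → 0 ≤ z.re →
    ∑ n ∈ Icc 1 N, ‖gg Q G n - gz Q G z n‖ ^ 2 ≤
      N * ((1 + ‖z‖ * Real.log y) ^ C - 1) := by
  obtain ⟨C₁, hC₁, hC⟩ := hlog
  refine ⟨4160 * ⌈C₁⌉₊, ?_⟩
  intro Q G y N z hQ hG h0 hz
  set μ : ℕ → ℝ := fun l => min 1 (‖z‖ * Real.log l) with hμ
  have hμ0 : ∀ l, 0 ≤ μ l := fun l => by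
    have hlog : 0 ≤ Real.log (l : ℝ) := Real.log_natCast_nonneg l
    simp only [hμ]
    positivity
  have hμ1 : ∀ l, μ l ≤ 1 := fun l => min_le_left _ _
  set F : ℕ → ℕ → ℝ := fun l v => (1 + 4 * (v : ℝ) ^ 2 * μ l) ^ 2 with hF
  have hmv := mean_value F (fun l => 4160 * μ l / l) (fun l => by simp [hF])
    (fun l i => by
      simp only [hF]
      have hi : (0 : ℝ) ≤ i := Nat.cast_nonneg i
      have h3 := hμ0 l
      apply pow_le_pow_left₀ (by positivity)
      push_cast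
      have : (i : ℝ) ^ 2 * μ l ≤ ((i : ℝ) + 1) ^ 2 * μ l := by
        apply mul_le_mul_of_nonneg_right _ h3
        nlinarith
      linarith) Q (fun l hl => (hQ l hl).1) (fun l hl M => by
      have := loc_sum (hμ0 l) (hμ1 l) (hQ l hl).1.two_le M
      simpa only [hF] using this) N
  have hpt : ∀ n : ℕ, ‖gg Q G n - gz Q G z n‖ ^ 2 ≤
      ∏ l ∈ Q, F l (n.factorization l) - 1 := by
    intro n
    have h1 := (prod_diff Q (fun l => G l (n.factorization l))
      (fun l => ∑ i ∈ range (n.factorization l + 1),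
        bb G l i * Complex.exp (-(i * z * Real.log l)))
      (fun l => 4 * ((n.factorization l : ℕ) : ℝ) ^ 2 * μ l) (fun l _ => hG _ _)
      (fun l _ => local_diff G hG h0 hz l _)).1
    have h2 : ‖gg Q G n - gz Q G z n‖ ≤
      ∏ l ∈ Q, (1 + 4 * ((n.factorization l : ℕ) : ℝ) ^ 2 * μ l) - 1 := h1
    have h3 : 1 ≤ ∏ l ∈ Q, (1 + 4 * ((n.factorization l : ℕ) : ℝ) ^ 2 * μ l) := by
      have := (norm_nonneg _).trans h2
      linarith
    have h4 : ∏ l ∈ Q, F l (n.factorization l) =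
        (∏ l ∈ Q, (1 + 4 * ((n.factorization l : ℕ) : ℝ) ^ 2 * μ l)) ^ 2 := by
      rw [← prod_pow]
    rw [h4]
    calc _ ≤ (∏ l ∈ Q, (1 + 4 * ((n.factorization l : ℕ) : ℝ) ^ 2 * μ l) - 1) ^ 2 :=
          pow_le_pow_left₀ (norm_nonneg _) h2 2
      _ ≤ _ := by nlinarith
  have hsum : ∑ n ∈ Icc 1 N, ‖gg Q G n - gz Q G z n‖ ^ 2 ≤
      N * ∏ l ∈ Q, (1 + 4160 * μ l / l) - N := by
    calc _ ≤ ∑ n ∈ Icc 1 N, (∏ l ∈ Q, F l (n.factorization l) - 1) :=
          sum_le_sum fun n _ => hpt n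
      _ = ∑ n ∈ Icc 1 N, ∏ l ∈ Q, F l (n.factorization l) - N := by
          rw [sum_sub_distrib]
          simp
      _ ≤ _ := by linarith
  have hlogy : 0 ≤ Real.log (y : ℝ) := Real.log_natCast_nonneg y
  have hx : 0 ≤ ‖z‖ * Real.log (y : ℝ) := by positivity
  have hprod : ∏ l ∈ Q, (1 + 4160 * μ l / l) ≤
      (1 + ‖z‖ * Real.log y) ^ (4160 * ⌈C₁⌉₊) := by
    calc _ ≤ ∏ l ∈ Q, Real.exp (4160 * μ l / l) := by
          apply prod_le_prod
          · intro l _
            have := hμ0 l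
            positivity
          · intro l _
            rw [add_comm]
            exact Real.add_one_le_exp _
      _ = Real.exp (4160 * ∑ l ∈ Q, μ l / l) := by
          rw [← Real.exp_sum, mul_sum]
          congr 1
          apply sum_congr rfl
          intro l _
          ring
      _ ≤ Real.exp (4160 * (⌈C₁⌉₊ * Real.log (1 + ‖z‖ * Real.log y))) := by
          apply Real.exp_le_exp.2
          apply mul_le_mul_of_nonneg_left _ (by norm_num)
          have h1 : ∑ l ∈ Q, μ l / l ≤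
              ∑ p ∈ (Icc 1 y).filter Nat.Prime, min 1 (‖z‖ * Real.log p) / p := by
            apply sum_le_sum_of_subset_of_nonneg
            · intro l hl
              rw [mem_filter, mem_Icc]
              exact ⟨⟨(hQ l hl).1.one_le, (hQ l hl).2⟩, (hQ l hl).1⟩
            · intro l _ _
              have := hμ0 l
              positivity
          refine h1.trans ((hC ‖z‖ y (norm_nonneg _)).trans ?_)
          apply mul_le_mul_of_nonneg_right (Nat.le_ceil _)
          exact Real.log_nonneg (by linarith)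
      _ = _ := by
          rw [pow_mul, ← Real.rpow_natCast, ← Real.rpow_natCast]
          rw [← Real.rpow_mul (by positivity), Real.rpow_def_of_pos (by positivity)]
          congr 1
          push_cast
          ring
  have hN : (0 : ℝ) ≤ N := Nat.cast_nonneg N
  calc _ ≤ _ := hsum
    _ ≤ N * (1 + ‖z‖ * Real.log y) ^ (4160 * ⌈C₁⌉₊) - N := by
        have := mul_le_mul_of_nonneg_left hprod hN
        linarith
    _ = _ := by ring

theorem l2_approx : ∃ C : ℕ, ∀ (Q : Finset ℕ) (G : ℕ → ℕ → ℂ) (y N : ℕ) (z : ℂ),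
    (∀ l ∈ Q, l.Prime ∧ l ≤ y) → (∀ l i, ‖G l i‖ ≤ 1) → (∀ l, G l 0 = 1) → 0 ≤ z.re →
    ∑ n ∈ Icc 1 N, ‖gg Q G n - gz Q G z n‖ ^ 2 ≤
      N * ((1 + ‖z‖ * Real.log y) ^ C - 1) :=
  l2_approx_of sum_min_log

end Pool.Agent.Elliott
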