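import Pool.Agent.Elliott.Core

set_option autoImplicit false

/-! Asymptotic choices of the parameters. -/

namespace Pool.Agent.Elliott

open Finset MeasureTheory Filter Topology

theorem ev_log_rpow {a κ : ℝ} (ha : 0 < a) (hκ : 0 < κ) (C C' : ℝ) :
    ∀ᶠ N : ℕ in atTop, C + C' * Real.log N ≤ κ * (N : ℝ) ^ a := by
  have h1 : (fun x : ℝ => C + C' * Real.log x) =o[atTop] fun x => x ^ a := by
    refine Asymptotics.IsLittleO.add ?_ ((isLittleO_log_rpow_atTop ha).const_mul_left _)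
    rw [Asymptotics.isLittleO_const_left]
    right
    exact tendsto_norm_atTop_atTop.comp (tendsto_rpow_atTop ha)
  have h2 := (h1.bound hκ)
  have h3 : ∀ᶠ x : ℝ in atTop, C + C' * Real.log x ≤ κ * x ^ a := by
    filter_upwards [h2, eventually_gt_atTop 0] with x hx hx0
    have h4 : ‖x ^ a‖ = x ^ a := Real.norm_of_nonneg (Real.rpow_nonneg hx0.le _)
    rw [h4] at hx
    exact (le_abs_self _).trans hx
  exact tendsto_natCast_atTop_atTop.eventually h3

/-- The natural parameter `m = 1 / δ`. -/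
theorem exists_m {C₁ c τ : ℝ} (hC₁ : 0 < C₁) (hc : 0 < c) (hτ : 0 < τ) (M L : ℝ) :
    ∃ m : ℕ, 400 ≤ m ∧ 4 * √(2 * (1 / m) * (C₁ * Real.log (1 + 2 * m))) ≤ τ ∧
      M / m ≤ τ ∧ L ≤ c * Real.log (m / 400) := by
  have h1 : ∀ᶠ m : ℕ in atTop, 4 * √(2 * (1 / m) * (C₁ * Real.log (1 + 2 * m))) ≤ τ := by
    have h2 := ev_log_rpow (a := 1) one_pos (κ := τ ^ 2 / (32 * C₁)) (by positivity)
      (Real.log 3) 1
    filter_upwards [h2, eventually_ge_atTop 1] with m hm hm1
    have hm0 : (0 : ℝ) < m := by exact_mod_cast hm1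
    have hm1' : (1 : ℝ) ≤ m := by exact_mod_cast hm1
    rw [Real.rpow_one, one_mul, ← Real.log_mul (by norm_num) hm0.ne'] at hm
    have h3 : Real.log (1 + 2 * m) ≤ Real.log (3 * m) :=
      Real.log_le_log (by positivity) (by linarith)
    have h4 : Real.log (1 + 2 * m) ≤ τ ^ 2 / (32 * C₁) * m := h3.trans hm
    have h5 : 2 * (1 / (m : ℝ)) * (C₁ * Real.log (1 + 2 * m)) ≤ (τ / 4) ^ 2 := by
      calc 2 * (1 / (m : ℝ)) * (C₁ * Real.log (1 + 2 * m)) ≤
          2 * (1 / (m : ℝ)) * (C₁ * (τ ^ 2 / (32 * C₁) * m)) := by gcongr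
        _ = _ := by field_simp; norm_num
    have h6 := Real.sqrt_le_sqrt h5
    rw [Real.sqrt_sq (by positivity)] at h6
    linarith
  have h2 : ∀ᶠ m : ℕ in atTop, M / m ≤ τ := by
    have h3 := ev_log_rpow (a := 1) one_pos hτ M 0
    filter_upwards [h3, eventually_ge_atTop 1] with m hm hm1
    have hm0 : (0 : ℝ) < m := by exact_mod_cast hm1
    rw [div_le_iff₀ hm0]
    simpa using hm
  have h3 : ∀ᶠ m : ℕ in atTop, L ≤ c * Real.log (m / 400) := by
    have h4 : Tendsto (fun x : ℝ => c * Real.log (x / 400)) atTop atTop :=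
      (Real.tendsto_log_atTop.comp (tendsto_id.atTop_div_const (by norm_num))).const_mul_atTop hc
    exact (h4.comp tendsto_natCast_atTop_atTop).eventually_ge_atTop L
  obtain ⟨m, hm⟩ := ((eventually_ge_atTop 400).and (h1.and (h2.and h3))).exists
  exact ⟨m, hm⟩

theorem ev_log4 (J₀ : ℕ) : ∀ᶠ N : ℕ in atTop, J₀ ≤ Nat.log 4 N := by
  filter_upwards [eventually_ge_atTop (4 ^ J₀)] with N hN
  exact Nat.le_log_of_pow_le (by norm_num) hN

end Pool.Agent.Elliott
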