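import Pool.Agent.Elliott.AP
import Pool.Agent.Elliott.Cheb

set_option autoImplicit false

/-! Average over pairs of primes of a product over the primes dividing the difference. -/

namespace Pool.Agent.Elliott

open Finset

namespace Pairs_

lemma prod_le_sum_divisors {C₀ : ℝ} (hC₀ : 0 ≤ C₀) {n : ℕ} (hn : n ≠ 0) :
    ∏ l ∈ n.primeFactors, (1 + C₀ / l) ≤
      ∑ d ∈ n.divisors, C₀ ^ #(d.primeFactors) / (d : ℝ) := by
  rw [Finset.prod_one_add]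
  have h1 : ∀ t ∈ n.primeFactors.powerset, ∏ l ∈ t, (C₀ / (l : ℝ)) =
      C₀ ^ #((∏ l ∈ t, l).primeFactors) / ((∏ l ∈ t, l : ℕ) : ℝ) := by
    intro t ht
    have hp : ∀ p ∈ t, p.Prime := fun p hp => Nat.prime_of_mem_primeFactors
      (Finset.mem_powerset.1 ht hp)
    rw [Nat.primeFactors_prod hp, Finset.prod_div_distrib, Finset.prod_const]
    push_cast
    rfl
  rw [Finset.sum_congr rfl h1]
  have hinj : Set.InjOn (fun t : Finset ℕ => ∏ l ∈ t, l) (n.primeFactors.powerset : Set (Finset ℕ)) := by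
    intro s hs t ht hst
    have hps : ∀ p ∈ s, p.Prime := fun p hp => Nat.prime_of_mem_primeFactors
      (Finset.mem_powerset.1 hs hp)
    have hpt : ∀ p ∈ t, p.Prime := fun p hp => Nat.prime_of_mem_primeFactors
      (Finset.mem_powerset.1 ht hp)
    have := congrArg Nat.primeFactors hst
    simp only at this
    rwa [Nat.primeFactors_prod hps, Nat.primeFactors_prod hpt] at this
  rw [← Finset.sum_image (f := fun d : ℕ => C₀ ^ #(d.primeFactors) / (d : ℝ)) hinj]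
  refine Finset.sum_le_sum_of_subset_of_nonneg ?_ (fun d _ _ => by positivity)
  intro d hd
  obtain ⟨t, ht, rfl⟩ := Finset.mem_image.1 hd
  rw [Nat.mem_divisors]
  refine ⟨(Finset.prod_dvd_prod_of_subset _ _ _ (Finset.mem_powerset.1 ht)).trans
    (Nat.prod_primeFactors_dvd n), hn⟩

lemma pow_omega_le {A : ℝ} (hA : 1 ≤ A) {d : ℕ} (hd : d ≠ 0) :
    A ^ #(d.primeFactors) ≤ A ^ (⌈A ^ 4⌉₊) * (d : ℝ) ^ (1 / 4 : ℝ) := by
  have hA0 : 0 < A := by linarith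
  have h1 : ∀ l ∈ d.primeFactors, A ≤ (if l < ⌈A ^ 4⌉₊ then A else 1) * (l : ℝ) ^ (1 / 4 : ℝ) := by
    intro l hl
    have hl1 : (1 : ℝ) ≤ l := by exact_mod_cast (Nat.prime_of_mem_primeFactors hl).one_le
    split_ifs with h
    · have : (1 : ℝ) ≤ (l : ℝ) ^ (1 / 4 : ℝ) := Real.one_le_rpow hl1 (by norm_num)
      nlinarith
    · rw [one_mul]
      push Not at h
      have h2 : A ^ 4 ≤ l := (Nat.le_ceil _).trans (by exact_mod_cast h)
      have h3 : (A ^ 4) ^ (1 / 4 : ℝ) ≤ (l : ℝ) ^ (1 / 4 : ℝ) :=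
        Real.rpow_le_rpow (by positivity) h2 (by norm_num)
      have h4 : (A ^ 4) ^ (1 / 4 : ℝ) = A := by
        rw [← Real.rpow_natCast, ← Real.rpow_mul hA0.le]
        norm_num
      rwa [h4] at h3
  calc A ^ #(d.primeFactors) = ∏ _l ∈ d.primeFactors, A := by rw [Finset.prod_const]
    _ ≤ ∏ l ∈ d.primeFactors, ((if l < ⌈A ^ 4⌉₊ then A else 1) * (l : ℝ) ^ (1 / 4 : ℝ)) :=
        Finset.prod_le_prod (fun _ _ => hA0.le) h1
    _ = (∏ l ∈ d.primeFactors, (if l < ⌈A ^ 4⌉₊ then A else 1)) *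
        ∏ l ∈ d.primeFactors, (l : ℝ) ^ (1 / 4 : ℝ) := Finset.prod_mul_distrib
    _ ≤ A ^ (⌈A ^ 4⌉₊) * (d : ℝ) ^ (1 / 4 : ℝ) := by
        refine mul_le_mul ?_ ?_ (Finset.prod_nonneg fun _ _ => by positivity) (by positivity)
        · rw [Finset.prod_ite, Finset.prod_const, Finset.prod_const_one, mul_one]
          refine pow_le_pow_right₀ hA ?_
          have : d.primeFactors.filter (fun l => l < ⌈A ^ 4⌉₊) ⊆ range ⌈A ^ 4⌉₊ := by
            intro l hl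
            rw [Finset.mem_range]
            exact (Finset.mem_filter.1 hl).2
          simpa using Finset.card_le_card this
        · rw [Real.finsetProd_rpow _ _ (fun _ _ => by positivity)]
          have h5 : (∏ l ∈ d.primeFactors, (l : ℝ)) ≤ (d : ℝ) := by
            have := Nat.le_of_dvd (Nat.pos_of_ne_zero hd) (Nat.prod_primeFactors_dvd d)
            rw [← Nat.cast_prod]
            exact Nat.cast_le.2 this
          exact Real.rpow_le_rpow (Finset.prod_nonneg fun _ _ => by positivity) h5 (by norm_num)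

/-- the convergent series -/
lemma series_bound {C₀ : ℝ} (hC₀ : 0 ≤ C₀) : ∃ S : ℝ, 0 < S ∧ ∀ M : ℕ,
    ∑ d ∈ Icc 1 M, C₀ ^ #(d.primeFactors) / (d : ℝ) * ((1 + Real.log d) / d) ≤ S := by
  set A : ℝ := max C₀ 1 with hA
  have hA1 : 1 ≤ A := le_max_right _ _
  have hs : Summable fun d : ℕ => (d : ℝ) ^ (-(3 / 2) : ℝ) :=
    Real.summable_nat_rpow.2 (by norm_num)
  set K : ℝ := 5 * A ^ (⌈A ^ 4⌉₊) with hK
  have hK0 : 0 < K := by positivity
  have h0 : 0 ≤ ∑' d : ℕ, (d : ℝ) ^ (-(3 / 2) : ℝ) := tsum_nonneg fun d => by positivity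
  refine ⟨K * ∑' d : ℕ, (d : ℝ) ^ (-(3 / 2) : ℝ) + 1, by positivity, fun M => ?_⟩
  have h1 : ∀ d ∈ Icc 1 M, C₀ ^ #(d.primeFactors) / (d : ℝ) * ((1 + Real.log d) / d) ≤
      K * (d : ℝ) ^ (-(3 / 2) : ℝ) := by
    intro d hd
    have hd1 : 1 ≤ d := (Finset.mem_Icc.1 hd).1
    have hd1' : (1 : ℝ) ≤ d := by exact_mod_cast hd1
    have hd0 : (0 : ℝ) < d := by linarith
    have h2 : C₀ ^ #(d.primeFactors) ≤ A ^ (⌈A ^ 4⌉₊) * (d : ℝ) ^ (1 / 4 : ℝ) :=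
      (pow_le_pow_left₀ hC₀ (le_max_left _ _) _).trans (pow_omega_le hA1 (by omega))
    have h3 : 1 + Real.log d ≤ 5 * (d : ℝ) ^ (1 / 4 : ℝ) := by
      have e1 := Real.log_le_rpow_div (x := (d : ℝ)) hd0.le (show (0 : ℝ) < 1 / 4 by norm_num)
      have e2 : (1 : ℝ) ≤ (d : ℝ) ^ (1 / 4 : ℝ) := Real.one_le_rpow hd1' (by norm_num)
      linarith
    have h4 : 0 ≤ Real.log d := Real.log_nonneg hd1'
    have h5 : C₀ ^ #(d.primeFactors) / (d : ℝ) * ((1 + Real.log d) / d) =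
        C₀ ^ #(d.primeFactors) * (1 + Real.log d) * ((d : ℝ) ^ (-2 : ℝ)) := by
      rw [Real.rpow_neg hd0.le, show (2 : ℝ) = ((2 : ℕ) : ℝ) by norm_num, Real.rpow_natCast]
      field_simp
    have h6 : (d : ℝ) ^ (1 / 4 : ℝ) * (d : ℝ) ^ (1 / 4 : ℝ) * (d : ℝ) ^ (-2 : ℝ) =
        (d : ℝ) ^ (-(3 / 2) : ℝ) := by
      rw [← Real.rpow_add hd0, ← Real.rpow_add hd0]; norm_num
    rw [h5]
    calc C₀ ^ #(d.primeFactors) * (1 + Real.log d) * ((d : ℝ) ^ (-2 : ℝ))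
        ≤ (A ^ (⌈A ^ 4⌉₊) * (d : ℝ) ^ (1 / 4 : ℝ)) * (5 * (d : ℝ) ^ (1 / 4 : ℝ)) *
          ((d : ℝ) ^ (-2 : ℝ)) := by gcongr
      _ = K * ((d : ℝ) ^ (1 / 4 : ℝ) * (d : ℝ) ^ (1 / 4 : ℝ) * (d : ℝ) ^ (-2 : ℝ)) := by
          rw [hK]; ring
      _ = K * (d : ℝ) ^ (-(3 / 2) : ℝ) := by rw [h6]
  calc ∑ d ∈ Icc 1 M, C₀ ^ #(d.primeFactors) / (d : ℝ) * ((1 + Real.log d) / d)
      ≤ ∑ d ∈ Icc 1 M, K * (d : ℝ) ^ (-(3 / 2) : ℝ) := Finset.sum_le_sum h1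
    _ = K * ∑ d ∈ Icc 1 M, (d : ℝ) ^ (-(3 / 2) : ℝ) := by rw [Finset.mul_sum]
    _ ≤ K * ∑' d : ℕ, (d : ℝ) ^ (-(3 / 2) : ℝ) :=
        mul_le_mul_of_nonneg_left (hs.sum_le_tsum _ (fun _ _ => by positivity)) hK0.le
    _ ≤ _ := by linarith

end Pairs_

/-- average over pairs, with the two inputs as hypotheses -/
theorem sum_pairs_of
    (hAP : ∃ C : ℝ, 0 < C ∧ ∀ X d a : ℕ, 2 ≤ X → 1 ≤ d → d ≤ 4 * X →
      (#((Ioc X (4 * X)).filter (fun p => p.Prime ∧ p % d = a)) : ℝ) * Real.log X ≤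
        C * (X / d) * (1 + Real.log d))
    (hlow : ∃ c : ℝ, 0 < c ∧ ∀ j : ℕ, 1 ≤ j → c * 4 ^ j / j ≤ (#(blk j) : ℝ))
    (C₀ : ℝ) (hC₀ : 0 ≤ C₀) : ∃ C : ℝ, 0 < C ∧ ∀ j : ℕ, 1 ≤ j →
    ∑ x ∈ (blk j ×ˢ blk j).filter (fun x => x.1 ≠ x.2),
      ∏ l ∈ ((x.1 : ℤ) - x.2).natAbs.primeFactors, (1 + C₀ / l) ≤ C * (#(blk j) : ℝ) ^ 2 := by
  obtain ⟨C₁, hC₁, hAP⟩ := hAP
  obtain ⟨c, hc, hlow⟩ := hlow
  obtain ⟨S, hS, hser⟩ := Pairs_.series_bound hC₀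
  refine ⟨C₁ * S / (c * Real.log 4), by positivity, fun j hj => ?_⟩
  have hX2 : 2 ≤ 4 ^ j := by
    calc 2 ≤ 4 ^ 1 := by norm_num
      _ ≤ 4 ^ j := Nat.pow_le_pow_right (by norm_num) hj
  have hj0 : (0 : ℝ) < j := by exact_mod_cast hj
  have hlogX : Real.log ((4 ^ j : ℕ) : ℝ) = j * Real.log 4 := by
    push_cast; rw [Real.log_pow]
  have hlog4 : 0 < Real.log 4 := Real.log_pos (by norm_num)
  have hblk : blk j = (Ioc (4 ^ j) (4 * 4 ^ j)).filter Nat.Prime := by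
    unfold blk; rw [pow_succ, mul_comm]
  set h : ℕ → ℝ := fun d => C₀ ^ #(d.primeFactors) / (d : ℝ) with hh
  have hh0 : ∀ d, 0 ≤ h d := fun d => by simp only [hh]; positivity
  -- step 1
  have step1 : ∑ x ∈ (blk j ×ˢ blk j).filter (fun x => x.1 ≠ x.2),
      ∏ l ∈ ((x.1 : ℤ) - x.2).natAbs.primeFactors, (1 + C₀ / l) ≤
      ∑ x ∈ (blk j ×ˢ blk j), ∑ d ∈ Icc 1 (4 * 4 ^ j),
        h d * (if x.2 % d = x.1 % d then 1 else 0) := by
    have e1 : ∀ x ∈ (blk j ×ˢ blk j).filter (fun x => x.1 ≠ x.2),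
        ∏ l ∈ ((x.1 : ℤ) - x.2).natAbs.primeFactors, (1 + C₀ / l) ≤
        ∑ d ∈ Icc 1 (4 * 4 ^ j), h d * (if x.2 % d = x.1 % d then 1 else 0) := by
      intro x hx
      obtain ⟨hx1, hx2⟩ := Finset.mem_filter.1 hx
      obtain ⟨hxa, hxb⟩ := Finset.mem_product.1 hx1
      rw [hblk] at hxa hxb
      obtain ⟨hxa1, hxa2⟩ := Finset.mem_filter.1 hxa
      obtain ⟨hxb1, hxb2⟩ := Finset.mem_filter.1 hxb
      rw [Finset.mem_Ioc] at hxa1 hxb1
      have hn : ((x.1 : ℤ) - x.2).natAbs ≠ 0 := by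
        rw [Ne, Int.natAbs_eq_zero]
        intro h0
        apply hx2
        have : (x.1 : ℤ) = x.2 := by linarith
        exact_mod_cast this
      refine (Pairs_.prod_le_sum_divisors hC₀ hn).trans ?_
      simp only [mul_ite, mul_one, mul_zero]
      rw [← Finset.sum_filter]
      refine Finset.sum_le_sum_of_subset_of_nonneg ?_ (fun d _ _ => hh0 d)
      intro d hd
      rw [Nat.mem_divisors] at hd
      have hdle := Nat.le_of_dvd (Nat.pos_of_ne_zero hn) hd.1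
      have hdpos : 0 < d := Nat.pos_of_dvd_of_pos hd.1 (Nat.pos_of_ne_zero hn)
      rw [Finset.mem_filter, Finset.mem_Icc]
      refine ⟨⟨hdpos, by omega⟩, ?_⟩
      have h1 : (d : ℤ) ∣ (x.1 : ℤ) - x.2 := Int.natCast_dvd.2 hd.1
      have h2 : (x.2 : ℤ) ≡ x.1 [ZMOD d] := (Int.modEq_iff_dvd).2 h1
      exact (Int.natCast_modEq_iff.1 h2)
    refine (Finset.sum_le_sum e1).trans ?_
    refine Finset.sum_le_sum_of_subset_of_nonneg (Finset.filter_subset _ _) ?_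
    intro x _ _
    refine Finset.sum_nonneg fun d _ => mul_nonneg (hh0 d) (by split_ifs <;> norm_num)
  -- step 2
  have step2 : ∑ x ∈ (blk j ×ˢ blk j), ∑ d ∈ Icc 1 (4 * 4 ^ j),
        h d * (if x.2 % d = x.1 % d then 1 else 0) ≤
      ∑ d ∈ Icc 1 (4 * 4 ^ j), h d * ((#(blk j) : ℝ) * (C₁ * ((4 ^ j : ℕ) / d) * (1 + Real.log d) /
        Real.log ((4 ^ j : ℕ) : ℝ))) := by
    rw [Finset.sum_comm]
    refine Finset.sum_le_sum fun d hd => ?_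
    rw [← Finset.mul_sum]
    refine mul_le_mul_of_nonneg_left ?_ (hh0 d)
    rw [Finset.sum_product, ← nsmul_eq_mul]
    refine Finset.sum_le_card_nsmul _ _ _ fun p _ => ?_
    rw [Finset.sum_boole, le_div_iff₀ (by rw [hlogX]; positivity)]
    have h3 := hAP (4 ^ j) d (p % d) hX2 (Finset.mem_Icc.1 hd).1 (Finset.mem_Icc.1 hd).2
    have h4 : (blk j).filter (fun q => q % d = p % d) =
        (Ioc (4 ^ j) (4 * 4 ^ j)).filter (fun q => q.Prime ∧ q % d = p % d) := by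
      rw [hblk, Finset.filter_filter]
    rw [h4]
    exact h3
  -- step 3
  refine step1.trans (step2.trans ?_)
  have e2 : ∀ d ∈ Icc 1 (4 * 4 ^ j), h d * ((#(blk j) : ℝ) * (C₁ * ((4 ^ j : ℕ) / d) *
      (1 + Real.log d) / Real.log ((4 ^ j : ℕ) : ℝ))) =
      (#(blk j) : ℝ) * (C₁ * (4 ^ j : ℕ) / Real.log ((4 ^ j : ℕ) : ℝ)) *
        (C₀ ^ #(d.primeFactors) / (d : ℝ) * ((1 + Real.log d) / d)) := by
    intro d hd
    simp only [hh]
    ring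
  rw [Finset.sum_congr rfl e2, ← Finset.mul_sum]
  have h5 := hser (4 * 4 ^ j)
  have h6 : C₁ * ((4 ^ j : ℕ) : ℝ) / Real.log ((4 ^ j : ℕ) : ℝ) ≤
      C₁ / (c * Real.log 4) * (#(blk j) : ℝ) := by
    have h7 := hlow j hj
    rw [hlogX]
    have h8 : C₁ * ((4 ^ j : ℕ) : ℝ) / (j * Real.log 4) =
        C₁ / (c * Real.log 4) * (c * 4 ^ j / j) := by
      push_cast; field_simp
    rw [h8]
    exact mul_le_mul_of_nonneg_left h7 (by positivity)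
  calc (#(blk j) : ℝ) * (C₁ * ((4 ^ j : ℕ) : ℝ) / Real.log ((4 ^ j : ℕ) : ℝ)) *
        ∑ d ∈ Icc (1 : ℕ) (4 * 4 ^ j), (C₀ ^ #(d.primeFactors) / (d : ℝ) * ((1 + Real.log d) / d))
      ≤ (#(blk j) : ℝ) * (C₁ / (c * Real.log 4) * (#(blk j) : ℝ)) * S := by
        have h9 : 0 ≤ Real.log ((4 ^ j : ℕ) : ℝ) := by rw [hlogX]; positivity
        refine mul_le_mul (mul_le_mul_of_nonneg_left h6 (by positivity)) h5
          (Finset.sum_nonneg fun d hd => ?_) (by positivity)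
        have hd1 : (1 : ℝ) ≤ d := by exact_mod_cast (Finset.mem_Icc.1 hd).1
        have := Real.log_nonneg hd1
        positivity
    _ = C₁ * S / (c * Real.log 4) * (#(blk j) : ℝ) ^ 2 := by
        field_simp

theorem sum_pairs (C₀ : ℝ) (hC₀ : 0 ≤ C₀) : ∃ C : ℝ, 0 < C ∧ ∀ j : ℕ, 1 ≤ j →
    ∑ x ∈ (blk j ×ˢ blk j).filter (fun x => x.1 ≠ x.2),
      ∏ l ∈ ((x.1 : ℤ) - x.2).natAbs.primeFactors, (1 + C₀ / l) ≤ C * (#(blk j) : ℝ) ^ 2 :=
  sum_pairs_of card_prime_modEq card_blk_lower C₀ hC₀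

end Pool.Agent.Elliott
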