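import Pool.Agent.Elliott.Struct

set_option autoImplicit false

/-! The periodic truncation of the factor carried by the small primes. -/

namespace Pool.Agent.Elliott

open Finset

variable {q : ℕ} (χ : DirichletCharacter ℂ q) (t : ℝ) (f : ArithmeticFunction ℂ)

/-- Truncation of `FF`: it vanishes at the integers divisible by a high power of a small
prime. -/
noncomputable def FB (S : Finset ℕ) (B n : ℕ) : ℂ :=
  open Classical in if ∃ l ∈ S, l ^ B ∣ n then 0 else FF χ t f S n

theorem norm_FF_le (hf1 : ∀ n, ‖f n‖ ≤ 1) (S : Finset ℕ) (n : ℕ) : ‖FF χ t f S n‖ ≤ 1 := by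
  unfold FF
  rw [norm_mul, norm_mul, RCLike.norm_conj]
  have h1 := hf1 (part S n)
  have h2 := norm_uu_le t (part S n)
  have h3 := χ.norm_le_one ((n / part S n : ℕ) : ZMod q)
  calc _ ≤ (1 : ℝ) * 1 * 1 := mul_le_mul (mul_le_mul h1 h2 (norm_nonneg _) zero_le_one) h3
        (norm_nonneg _) (by norm_num)
    _ = 1 := by norm_num

theorem norm_FB_le (hf1 : ∀ n, ‖f n‖ ≤ 1) (S : Finset ℕ) (B n : ℕ) :
    ‖FB χ t f S B n‖ ≤ 1 := by
  unfold FB
  split_ifs
  · simp
  · exact norm_FF_le χ t f hf1 S n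

theorem norm_FF_sub_FB_le (hf1 : ∀ n, ‖f n‖ ≤ 1) (S : Finset ℕ) (B n : ℕ) :
    ‖FF χ t f S n - FB χ t f S B n‖ ≤
      (open Classical in if ∃ l ∈ S, l ^ B ∣ n then 1 else 0) := by
  unfold FB
  split_ifs
  · rw [sub_zero]; exact norm_FF_le χ t f hf1 S n
  · simp

theorem factorization_lt_of_not_dvd {l B n : ℕ} (hl : l.Prime) (hn : n ≠ 0)
    (h : ¬ l ^ B ∣ n) : n.factorization l < B := by
  by_contra h1
  push Not at h1
  exact h ((hl.pow_dvd_iff_le_factorization hn).2 h1)

theorem factorization_add_eq {l n m : ℕ} (hl : l.Prime) (hn : n ≠ 0) (hm : m ≠ 0)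
    (h : n.factorization l < m.factorization l) :
    (n + m).factorization l = n.factorization l := by
  have hnm : n + m ≠ 0 := by omega
  refine le_antisymm ?_ ?_
  · by_contra h1
    push Not at h1
    have h2 : l ^ (n.factorization l + 1) ∣ n + m :=
      (hl.pow_dvd_iff_le_factorization hnm).2 h1
    have h3 : l ^ (n.factorization l + 1) ∣ m :=
      (hl.pow_dvd_iff_le_factorization hm).2 h
    have h4 : l ^ (n.factorization l + 1) ∣ n := (Nat.dvd_add_left h3).1 h2
    have := (hl.pow_dvd_iff_le_factorization hn).1 h4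
    omega
  · have h2 : l ^ (n.factorization l) ∣ n := (hl.pow_dvd_iff_le_factorization hn).2 le_rfl
    have h3 : l ^ (n.factorization l) ∣ m :=
      (hl.pow_dvd_iff_le_factorization hm).2 h.le
    exact (hl.pow_dvd_iff_le_factorization hnm).1 (dvd_add h2 h3)

/-- `FB` is periodic with period `(∏ S)^(2B)`. -/
theorem FB_period {S : Finset ℕ} (hS : ∀ p ∈ S, p.Prime) {B : ℕ} (hB : 1 ≤ B)
    (hq : q ∣ (∏ l ∈ S, l) ^ B) {n : ℕ} (hn : n ≠ 0) :
    FB χ t f S B (n + (∏ l ∈ S, l) ^ (2 * B)) = FB χ t f S B n := by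
  set R := ∏ l ∈ S, l
  have hR : 0 < R := Finset.prod_pos fun p hp => (hS p hp).pos
  have hW : R ^ (2 * B) ≠ 0 := (pow_pos hR _).ne'
  have hRf : ∀ l ∈ S, R.factorization l = 1 := by
    intro l hl
    simp only [R]
    rw [Nat.factorization_prod_apply (fun m hm => (hS m hm).ne_zero), Finset.sum_eq_single l]
    · exact (hS l hl).factorization_self
    · intro m hm hml
      rw [(hS m hm).factorization, Finsupp.single_eq_of_ne hml.symm]
    · intro h; exact absurd hl h
  have hWf : ∀ l ∈ S, (R ^ (2 * B)).factorization l = 2 * B := by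
    intro l hl
    rw [Nat.factorization_pow]
    simp [hRf l hl]
  have hdvd : ∀ l ∈ S, l ^ B ∣ R ^ (2 * B) := by
    intro l hl
    rw [(hS l hl).pow_dvd_iff_le_factorization hW, hWf l hl]
    omega
  have hiff : (∃ l ∈ S, l ^ B ∣ n + R ^ (2 * B)) ↔ ∃ l ∈ S, l ^ B ∣ n := by
    constructor
    · rintro ⟨l, hl, h⟩
      exact ⟨l, hl, (Nat.dvd_add_left (hdvd l hl)).1 h⟩
    · rintro ⟨l, hl, h⟩
      exact ⟨l, hl, dvd_add h (hdvd l hl)⟩
  unfold FB
  by_cases hex : ∃ l ∈ S, l ^ B ∣ n
  · rw [if_pos hex, if_pos (hiff.2 hex)]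
  · rw [if_neg hex, if_neg (fun h => hex (hiff.1 h))]
    push Not at hex
    have hlt : ∀ l ∈ S, n.factorization l < B := fun l hl =>
      factorization_lt_of_not_dvd (hS l hl) hn (hex l hl)
    have hpart : part S (n + R ^ (2 * B)) = part S n := by
      unfold part
      refine Finset.prod_congr rfl fun l hl => ?_
      rw [factorization_add_eq (hS l hl) hn hW (by rw [hWf l hl]; have := hlt l hl; omega)]
    have hpd : part S n ∣ R ^ B := by
      rw [← Nat.factorization_le_iff_dvd (part_pos hS n).ne' (pow_pos hR _).ne']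
      intro p
      rw [part_factorization hS]
      split_ifs with hp
      · rw [Nat.factorization_pow]
        simp only [Finsupp.smul_apply, hRf p hp, smul_eq_mul, mul_one]
        exact (hlt p hp).le
      · exact Nat.zero_le _
    obtain ⟨e, he⟩ := hpd
    obtain ⟨e', he'⟩ := hq
    have hdiv : (n + R ^ (2 * B)) / part S n = n / part S n + q * (e' * e) := by
      have h1 : R ^ (2 * B) = part S n * (q * (e' * e)) := by
        rw [two_mul, pow_add]
        conv_lhs => rw [he']
        rw [← he', he]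
        calc part S n * e * (part S n * e) = (part S n * e) * (part S n * e) := rfl
          _ = R ^ B * (part S n * e) := by rw [he]
          _ = (q * e') * (part S n * e) := by rw [he']
          _ = _ := by ring
      obtain ⟨n', hn'⟩ := part_self_dvd hS hn
      conv_lhs => rw [h1]
      rw [Nat.add_mul_div_left _ _ (part_pos hS n)]
    unfold FF
    rw [hpart, hdiv]
    congr 2
    push_cast
    simp

theorem FB_period_mul {S : Finset ℕ} (hS : ∀ p ∈ S, p.Prime) {B : ℕ} (hB : 1 ≤ B)
    (hq : q ∣ (∏ l ∈ S, l) ^ B) {n : ℕ} (hn : n ≠ 0) (k : ℕ) :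
    FB χ t f S B (n + k * (∏ l ∈ S, l) ^ (2 * B)) = FB χ t f S B n := by
  induction k with
  | zero => simp
  | succ k ih =>
    rw [add_mul, one_mul, ← add_assoc, FB_period χ t f hS hB hq (by omega), ih]

theorem dvd_primorial_pow {w B : ℕ} (hq : 1 ≤ q) (hqw : q ≤ w) (hwB : w < 2 ^ B) :
    q ∣ (∏ l ∈ (Icc 1 w).filter Nat.Prime, l) ^ B := by
  set S := (Icc 1 w).filter Nat.Prime
  have hS : ∀ p ∈ S, p.Prime := fun p hp => (mem_filter.1 hp).2
  set R := ∏ l ∈ S, l
  have hR : 0 < R := Finset.prod_pos fun p hp => (hS p hp).pos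
  rw [← Nat.factorization_le_iff_dvd (by omega) (pow_pos hR _).ne']
  intro p
  by_cases hp : p.Prime ∧ p ∣ q
  · have hpS : p ∈ S := by
      rw [mem_filter, mem_Icc]
      exact ⟨⟨hp.1.one_le, (Nat.le_of_dvd hq hp.2).trans hqw⟩, hp.1⟩
    have hRf : 1 ≤ R.factorization p :=
      (hp.1.dvd_iff_one_le_factorization hR.ne').1 (Finset.dvd_prod_of_mem _ hpS)
    have h1 : q.factorization p ≤ B := by
      by_contra h
      push Not at h
      have h2 : p ^ B ∣ q := (hp.1.pow_dvd_iff_le_factorization (by omega)).2 h.le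
      have h3 := Nat.le_of_dvd hq h2
      have h4 : 2 ^ B ≤ p ^ B := Nat.pow_le_pow_left hp.1.two_le B
      omega
    rw [Nat.factorization_pow]
    simp only [Finsupp.smul_apply, smul_eq_mul]
    calc q.factorization p ≤ B * 1 := by omega
      _ ≤ B * R.factorization p := Nat.mul_le_mul_left _ hRf
  · have : q.factorization p = 0 := by
      by_cases h1 : p.Prime
      · exact Nat.factorization_eq_zero_of_not_dvd fun h => hp ⟨h1, h⟩
      · exact Nat.factorization_eq_zero_of_not_prime _ h1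
    rw [this]; exact Nat.zero_le _

end Pool.Agent.Elliott
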