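import Pool.Agent.Elliott.Defs

/-! Abel summation with the phase `n ^ (i t)`. -/

set_option autoImplicit false

namespace Pool.Agent.Elliott

open Finset

namespace Phase_

theorem abel (d θ S : ℕ → ℂ) (j : ℕ) (hS : ∀ m, S (m + 1) = S m + d (m + 1)) (K : ℕ)
    (hK : j + 1 ≤ K) :
    ∑ k ∈ Icc (j + 1) K, d k * θ k =
      S K * θ K - S j * θ (j + 1) - ∑ k ∈ Ico (j + 1) K, S k * (θ (k + 1) - θ k) := by
  induction K, hK using Nat.le_induction with
  | base =>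
    rw [Icc_self, Ico_self, sum_singleton, sum_empty, hS j]
    ring
  | succ K hK ih =>
    rw [sum_Icc_succ_top (by omega), sum_Ico_succ_top hK, ih, hS K]
    ring

/-- the phase -/
noncomputable def ph (t : ℝ) (N N' : ℕ) : ℂ :=
  (N : ℂ) ^ ((t : ℂ) * Complex.I) * (starRingEnd ℂ) ((N' : ℂ) ^ ((t : ℂ) * Complex.I))

theorem ph_eq (t : ℝ) {N N' : ℕ} (hN : N ≠ 0) (hN' : N' ≠ 0) :
    ph t N N' = Complex.exp (Complex.I * ((t * (Real.log N - Real.log N') : ℝ) : ℂ)) := by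
  unfold ph
  rw [Complex.cpow_def_of_ne_zero (Nat.cast_ne_zero.2 hN),
    Complex.cpow_def_of_ne_zero (Nat.cast_ne_zero.2 hN'), ← Complex.natCast_log,
    ← Complex.natCast_log, ← Complex.exp_conj, ← Complex.exp_add]
  congr 1
  simp only [map_mul, Complex.conj_ofReal, Complex.conj_I]
  push_cast
  ring

theorem norm_ph (t : ℝ) {N N' : ℕ} (hN : N ≠ 0) (hN' : N' ≠ 0) : ‖ph t N N'‖ = 1 := by
  rw [ph_eq t hN hN', Complex.norm_exp_I_mul_ofReal]

theorem norm_exp_sub (a b : ℝ) :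
    ‖Complex.exp (Complex.I * (a : ℂ)) - Complex.exp (Complex.I * (b : ℂ))‖ ≤ |a - b| := by
  have h : Complex.exp (Complex.I * (a : ℂ)) - Complex.exp (Complex.I * (b : ℂ)) =
      Complex.exp (Complex.I * (b : ℂ)) *
        (Complex.exp (Complex.I * ((a - b : ℝ) : ℂ)) - 1) := by
    rw [mul_sub, ← Complex.exp_add, mul_one]
    congr 2
    push_cast
    ring
  rw [h, norm_mul, Complex.norm_exp_I_mul_ofReal, one_mul]
  exact Real.norm_exp_I_mul_ofReal_sub_one_le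

/-- the increments of the phase -/
theorem log_bound {p q h k : ℝ} (hp : 0 < p) (hq : 0 < q) (hk : 1 ≤ k) (h1 : 2 * |h| ≤ p)
    (h2 : 2 * |h| ≤ q) :
    |(Real.log (p * (k + 1) + h) - Real.log (q * (k + 1) + h)) -
      (Real.log (p * k + h) - Real.log (q * k + h))| ≤
        4 * |h| * |p - q| / (p * q) * (1 / k - 1 / (k + 1)) := by
  have hk0 : 0 < k := by linarith
  have ha := abs_le.1 (le_refl |h|)
  have a1 : p * k / 2 ≤ p * k + h := by nlinarith [mul_le_mul_of_nonneg_left hk hp.le]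
  have a2 : q * k / 2 ≤ q * k + h := by nlinarith [mul_le_mul_of_nonneg_left hk hq.le]
  have a3 : p * (k + 1) / 2 ≤ p * (k + 1) + h := by nlinarith [mul_pos hp hk0]
  have a4 : q * (k + 1) / 2 ≤ q * (k + 1) + h := by nlinarith [mul_pos hq hk0]
  have b1 : 0 < p * k + h := by have := mul_pos hp hk0; linarith
  have b2 : 0 < q * k + h := by have := mul_pos hq hk0; linarith
  have b3 : 0 < p * (k + 1) + h := by have := mul_pos hp hk0; nlinarith
  have b4 : 0 < q * (k + 1) + h := by have := mul_pos hq hk0; nlinarith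
  set r : ℝ := ((p * (k + 1) + h) * (q * k + h)) / ((q * (k + 1) + h) * (p * k + h)) with hr
  have hrpos : 0 < r := by positivity
  have e1 : (Real.log (p * (k + 1) + h) - Real.log (q * (k + 1) + h)) -
      (Real.log (p * k + h) - Real.log (q * k + h)) = Real.log r := by
    rw [hr, Real.log_div (by positivity) (by positivity), Real.log_mul b3.ne' b2.ne',
      Real.log_mul b4.ne' b1.ne']
    ring
  have e2 : r - 1 = h * (p - q) / ((q * (k + 1) + h) * (p * k + h)) := by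
    rw [hr, div_sub_one (by positivity)]
    congr 1
    ring
  have e3 : r⁻¹ - 1 = -(h * (p - q)) / ((p * (k + 1) + h) * (q * k + h)) := by
    rw [hr, inv_div, div_sub_one (by positivity)]
    congr 1
    ring
  have hC : (4 * |h| * |p - q| / (p * q)) * (1 / k - 1 / (k + 1)) =
      |h * (p - q)| / ((p * (k + 1) / 2) * (q * k / 2)) := by
    rw [abs_mul]
    field_simp
    ring
  rw [e1, abs_le]
  have c1 : Real.log r ≤ r - 1 := Real.log_le_sub_one_of_pos hrpos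
  have c2 : Real.log r⁻¹ ≤ r⁻¹ - 1 := Real.log_le_sub_one_of_pos (inv_pos.2 hrpos)
  rw [Real.log_inv] at c2
  have d1 : r - 1 ≤ |h * (p - q)| / ((p * (k + 1) / 2) * (q * k / 2)) := by
    rw [e2]
    have : ((p * (k + 1) / 2) * (q * k / 2)) ≤ ((q * (k + 1) + h) * (p * k + h)) := by
      calc ((p * (k + 1) / 2) * (q * k / 2)) = (q * (k + 1) / 2) * (p * k / 2) := by ring
        _ ≤ ((q * (k + 1) + h) * (p * k + h)) := by gcongr
    calc h * (p - q) / ((q * (k + 1) + h) * (p * k + h))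
        ≤ |h * (p - q)| / ((q * (k + 1) + h) * (p * k + h)) := by
          gcongr
          exact le_abs_self _
      _ ≤ |h * (p - q)| / ((p * (k + 1) / 2) * (q * k / 2)) := by gcongr
  have d2 : r⁻¹ - 1 ≤ |h * (p - q)| / ((p * (k + 1) / 2) * (q * k / 2)) := by
    rw [e3]
    have : ((p * (k + 1) / 2) * (q * k / 2)) ≤ ((p * (k + 1) + h) * (q * k + h)) := by
      gcongr
    calc -(h * (p - q)) / ((p * (k + 1) + h) * (q * k + h))
        ≤ |h * (p - q)| / ((p * (k + 1) + h) * (q * k + h)) := by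
          gcongr
          exact neg_le_abs _
      _ ≤ |h * (p - q)| / ((p * (k + 1) / 2) * (q * k / 2)) := by gcongr
  rw [hC]
  constructor
  · linarith
  · linarith

theorem telescope (j K : ℕ) (hK : j + 1 ≤ K) :
    ∑ k ∈ Ico (j + 1) K, ((1 : ℝ) / k - 1 / (k + 1)) = 1 / (j + 1) - 1 / K := by
  induction K, hK using Nat.le_induction with
  | base => simp
  | succ K hK ih =>
    rw [sum_Ico_succ_top hK, ih]
    push_cast
    ring

end Phase_

open Phase_ in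
theorem phase_sum {K k₀ h₁ h₂ p p' : ℕ} (hk₀ : 1 ≤ k₀) (hp : 2 * (h₁ + h₂) < p)
    (hp' : 2 * (h₁ + h₂) < p') (c : ℕ → ℂ) (μ : ℂ) {E₀ B t : ℝ} (hB : ∀ k, ‖c k‖ ≤ B)
    (hE : ∀ m ≤ K, ‖∑ k ∈ Icc 1 m, c k - m * μ‖ ≤ E₀) :
    ‖∑ k ∈ Icc 1 K, c k * (((p * k + h₁ - h₂ : ℕ) : ℂ) ^ (t * Complex.I) *
        (starRingEnd ℂ) (((p' * k + h₁ - h₂ : ℕ) : ℂ) ^ (t * Complex.I)))‖ ≤
      K * ‖μ‖ + k₀ * (B + ‖μ‖) +
        E₀ * (2 + 8 * |t| * |(h₁ : ℝ) - h₂| * |(p : ℝ) - p'| / (p * p' * k₀)) := by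
  have hppos : 0 < p := by omega
  have hp'pos : 0 < p' := by omega
  have hE0 : 0 ≤ E₀ := by
    have := hE 0 (Nat.zero_le _)
    exact le_trans (norm_nonneg _) this
  have hB0 : 0 ≤ B := le_trans (norm_nonneg _) (hB 0)
  -- the phases
  let θ : ℕ → ℂ := fun k => ph t (p * k + h₁ - h₂) (p' * k + h₁ - h₂)
  have hpk : ∀ {q k : ℕ}, 2 * (h₁ + h₂) < q → 1 ≤ k → h₂ < q * k := by
    intro q k hq hk
    calc h₂ < q * 1 := by omega
      _ ≤ q * k := Nat.mul_le_mul_left _ hk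
  have hN : ∀ {q k : ℕ}, 2 * (h₁ + h₂) < q → 1 ≤ k → q * k + h₁ - h₂ ≠ 0 := by
    intro q k hq hk
    have := hpk hq hk
    omega
  have hcast : ∀ {q k : ℕ}, 2 * (h₁ + h₂) < q → 1 ≤ k →
      ((q * k + h₁ - h₂ : ℕ) : ℝ) = (q : ℝ) * k + ((h₁ : ℝ) - h₂) := by
    intro q k hq hk
    have := hpk hq hk
    rw [Nat.cast_sub (by omega)]
    push_cast
    ring
  have hθ1 : ∀ k, 1 ≤ k → ‖θ k‖ = 1 := fun k hk => norm_ph t (hN hp hk) (hN hp' hk)
  set H : ℝ := (h₁ : ℝ) - h₂ with hH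
  have hHabs : |H| ≤ (h₁ : ℝ) + h₂ := by
    rw [hH, abs_le]
    constructor <;> nlinarith [Nat.cast_nonneg (α := ℝ) h₁, Nat.cast_nonneg (α := ℝ) h₂]
  have hHp : 2 * |H| ≤ (p : ℝ) := by
    have : ((2 * (h₁ + h₂) : ℕ) : ℝ) ≤ p := by exact_mod_cast hp.le
    push_cast at this
    linarith
  have hHp' : 2 * |H| ≤ (p' : ℝ) := by
    have : ((2 * (h₁ + h₂) : ℕ) : ℝ) ≤ p' := by exact_mod_cast hp'.le
    push_cast at this
    linarith
  set C : ℝ := 4 * |H| * |(p : ℝ) - p'| / (p * p') with hC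
  have hC0 : 0 ≤ C := by positivity
  have hθd : ∀ k, 1 ≤ k → ‖θ (k + 1) - θ k‖ ≤ |t| * (C * (1 / (k : ℝ) - 1 / (k + 1))) := by
    intro k hk
    have e1 : θ (k + 1) = Complex.exp (Complex.I * ((t * (Real.log (p * (k + 1 : ℕ) + H) -
        Real.log (p' * (k + 1 : ℕ) + H)) : ℝ) : ℂ)) := by
      change ph t (p * (k + 1) + h₁ - h₂) (p' * (k + 1) + h₁ - h₂) = _
      rw [ph_eq t (hN hp (by omega)) (hN hp' (by omega)), hcast hp (by omega),
        hcast hp' (by omega)]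
    have e2 : θ k = Complex.exp (Complex.I * ((t * (Real.log (p * k + H) -
        Real.log (p' * k + H)) : ℝ) : ℂ)) := by
      change ph t (p * k + h₁ - h₂) (p' * k + h₁ - h₂) = _
      rw [ph_eq t (hN hp hk) (hN hp' hk), hcast hp hk, hcast hp' hk]
    rw [e1, e2]
    refine le_trans (norm_exp_sub _ _) ?_
    rw [← mul_sub, abs_mul]
    refine mul_le_mul_of_nonneg_left ?_ (abs_nonneg t)
    have := log_bound (p := p) (q := p') (h := H) (k := k) (by exact_mod_cast hppos)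
      (by exact_mod_cast hp'pos) (by exact_mod_cast hk) hHp hHp'
    push_cast
    exact this
  -- the sum
  let d : ℕ → ℂ := fun k => c k - μ
  let S : ℕ → ℂ := fun m => ∑ k ∈ Icc 1 m, d k
  have hS : ∀ m, S (m + 1) = S m + d (m + 1) := by
    intro m
    exact sum_Icc_succ_top (by omega) _
  have hSb : ∀ m ≤ K, ‖S m‖ ≤ E₀ := by
    intro m hm
    have : S m = ∑ k ∈ Icc 1 m, c k - m * μ := by
      simp only [S, d, sum_sub_distrib, sum_const, Nat.card_Icc, nsmul_eq_mul]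
      simp
    rw [this]
    exact hE m hm
  have hdb : ∀ k, ‖d k‖ ≤ B + ‖μ‖ := fun k =>
    le_trans (norm_sub_le _ _) (add_le_add (hB k) le_rfl)
  have hsplit : ∑ k ∈ Icc 1 K, c k * θ k =
      ∑ k ∈ Icc 1 K, μ * θ k + ∑ k ∈ Icc 1 K, d k * θ k := by
    rw [← sum_add_distrib]
    refine sum_congr rfl fun k _ => ?_
    simp only [d]
    ring
  have hmu : ‖∑ k ∈ Icc 1 K, μ * θ k‖ ≤ K * ‖μ‖ := by
    calc ‖∑ k ∈ Icc 1 K, μ * θ k‖ ≤ ∑ k ∈ Icc 1 K, ‖μ * θ k‖ := norm_sum_le _ _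
      _ = ∑ k ∈ Icc 1 K, ‖μ‖ := by
        refine sum_congr rfl fun k hk => ?_
        rw [norm_mul, hθ1 k (mem_Icc.1 hk).1, mul_one]
      _ = K * ‖μ‖ := by simp
  have htriv : ∀ m, ‖∑ k ∈ Icc 1 m, d k * θ k‖ ≤ m * (B + ‖μ‖) := by
    intro m
    calc ‖∑ k ∈ Icc 1 m, d k * θ k‖ ≤ ∑ k ∈ Icc 1 m, ‖d k * θ k‖ := norm_sum_le _ _
      _ ≤ ∑ k ∈ Icc 1 m, (B + ‖μ‖) := by
        refine sum_le_sum fun k hk => ?_
        rw [norm_mul, hθ1 k (mem_Icc.1 hk).1, mul_one]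
        exact hdb k
      _ = m * (B + ‖μ‖) := by
        rw [sum_const, Nat.card_Icc, nsmul_eq_mul]
        simp
  have hBμ : 0 ≤ B + ‖μ‖ := by positivity
  have hmain : ‖∑ k ∈ Icc 1 K, d k * θ k‖ ≤ k₀ * (B + ‖μ‖) +
      E₀ * (2 + 8 * |t| * |H| * |(p : ℝ) - p'| / (p * p' * k₀)) := by
    have hlast : 0 ≤ E₀ * (2 + 8 * |t| * |H| * |(p : ℝ) - p'| / (p * p' * k₀)) := by positivity
    by_cases hcase : K < k₀
    · have h1 := htriv K
      have h2 : (K : ℝ) * (B + ‖μ‖) ≤ k₀ * (B + ‖μ‖) := by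
        gcongr
      linarith
    · obtain ⟨j, rfl⟩ : ∃ j, k₀ = j + 1 := ⟨k₀ - 1, by omega⟩
      have hjK : j + 1 ≤ K := by omega
      have e1 : ∑ k ∈ Icc 1 K, d k * θ k =
          ∑ k ∈ Icc 1 j, d k * θ k + ∑ k ∈ Icc (j + 1) K, d k * θ k := by
        have h1 : Icc 1 K = Ico 1 (K + 1) := by ext; simp
        have h2 : Icc 1 j = Ico 1 (j + 1) := by ext; simp
        have h3 : Icc (j + 1) K = Ico (j + 1) (K + 1) := by ext; simp
        rw [h1, h2, h3, sum_Ico_consecutive _ (by omega) (by omega)]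
      have e2 := abel d θ S j hS K hjK
      have b1 : ‖S K * θ K‖ ≤ E₀ := by
        rw [norm_mul, hθ1 K (by omega), mul_one]
        exact hSb K le_rfl
      have b2 : ‖S j * θ (j + 1)‖ ≤ E₀ := by
        rw [norm_mul, hθ1 (j + 1) (by omega), mul_one]
        exact hSb j (by omega)
      have b3 : ‖∑ k ∈ Ico (j + 1) K, S k * (θ (k + 1) - θ k)‖ ≤
          E₀ * (|t| * (C * (1 / (j + 1)))) := by
        calc ‖∑ k ∈ Ico (j + 1) K, S k * (θ (k + 1) - θ k)‖
            ≤ ∑ k ∈ Ico (j + 1) K, ‖S k * (θ (k + 1) - θ k)‖ := norm_sum_le _ _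
          _ ≤ ∑ k ∈ Ico (j + 1) K, E₀ * (|t| * (C * (1 / (k : ℝ) - 1 / (k + 1)))) := by
            refine sum_le_sum fun k hk => ?_
            rw [norm_mul]
            have hk' := mem_Ico.1 hk
            exact mul_le_mul (hSb k (by omega)) (hθd k (by omega)) (norm_nonneg _) hE0
          _ = E₀ * (|t| * (C * (1 / (j + 1) - 1 / K))) := by
            rw [← mul_sum, ← mul_sum, ← mul_sum, telescope j K hjK]
          _ ≤ E₀ * (|t| * (C * (1 / (j + 1)))) := by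
            have : (0 : ℝ) ≤ 1 / K := by positivity
            gcongr
            linarith
      have b4 := htriv j
      have hfin : E₀ * (|t| * (C * (1 / (j + 1)))) ≤
          E₀ * (8 * |t| * |H| * |(p : ℝ) - p'| / (p * p' * ((j + 1 : ℕ) : ℝ))) := by
        refine mul_le_mul_of_nonneg_left ?_ hE0
        have e3 : 8 * |t| * |H| * |(p : ℝ) - p'| / (p * p' * ((j + 1 : ℕ) : ℝ)) =
            2 * (|t| * (C * (1 / (j + 1)))) := by
          rw [hC]
          push_cast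
          field_simp
          ring
        rw [e3]
        have : 0 ≤ |t| * (C * (1 / ((j : ℝ) + 1))) := by positivity
        linarith
      have hj : (j : ℝ) * (B + ‖μ‖) ≤ ((j + 1 : ℕ) : ℝ) * (B + ‖μ‖) := by
        push_cast
        nlinarith
      rw [e1, e2]
      calc ‖∑ k ∈ Icc 1 j, d k * θ k + (S K * θ K - S j * θ (j + 1) -
            ∑ k ∈ Ico (j + 1) K, S k * (θ (k + 1) - θ k))‖
          ≤ ‖∑ k ∈ Icc 1 j, d k * θ k‖ + (‖S K * θ K‖ + ‖S j * θ (j + 1)‖ +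
            ‖∑ k ∈ Ico (j + 1) K, S k * (θ (k + 1) - θ k)‖) := by
            refine le_trans (norm_add_le _ _) (add_le_add le_rfl ?_)
            exact le_trans (norm_sub_le _ _) (add_le_add (norm_sub_le _ _) le_rfl)
        _ ≤ ((j + 1 : ℕ) : ℝ) * (B + ‖μ‖) +
            E₀ * (2 + 8 * |t| * |H| * |(p : ℝ) - p'| / (p * p' * ((j + 1 : ℕ) : ℝ))) := by
            rw [mul_add]
            linarith
  change ‖∑ k ∈ Icc 1 K, c k * θ k‖ ≤ _
  rw [hsplit]
  refine le_trans (norm_add_le _ _) ?_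
  linarith

end Pool.Agent.Elliott
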