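import Pool.Agent.Elliott.Psum
import Pool.Agent.Elliott.Period
import Pool.Agent.Elliott.Phase
import Pool.Agent.Elliott.Pairs

set_option autoImplicit false

/-! The correlations inside one block of primes. -/

namespace Pool.Agent.Elliott

open Finset MeasureTheory

/-- Primes up to `w`. -/
def pS (w : ℕ) : Finset ℕ := (Icc 1 w).filter Nat.Prime

/-- Primes in `(w, y]`. -/
def pQ (w y : ℕ) : Finset ℕ := (Ioc w y).filter Nat.Prime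

/-- The period of the truncated small factor. -/
def WW (w B : ℕ) : ℕ := (∏ l ∈ pS w, l) ^ (2 * B)

variable {q : ℕ} (χ : DirichletCharacter ℂ q) (t : ℝ) (f : ArithmeticFunction ℂ)

/-- The structured approximation of `m ↦ f (m + h₁ - h₂)`. -/
noncomputable def ap (w y B V : ℕ) (ψ : ℝ → ℂ) (lD : ℝ) (h₁ h₂ m : ℕ) : ℂ :=
  if h₂ < m then FB χ t f (pS w) B (m + h₁ - h₂) *
    gpsi (pQ w y) V (GG χ t f) ψ lD (m + h₁ - h₂) * uu t (m + h₁ - h₂) else 0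

theorem GG_norm_le (hf1 : ∀ n, ‖f n‖ ≤ 1) (l i : ℕ) : ‖GG χ t f l i‖ ≤ 1 := by
  unfold GG
  rw [norm_mul, RCLike.norm_conj]
  calc _ ≤ (1 : ℝ) * 1 := mul_le_mul (hf1 _) (norm_th_le χ t _) (norm_nonneg _) zero_le_one
    _ = 1 := one_mul 1

theorem GG_zero {f : ArithmeticFunction ℂ} (hf : f.IsMultiplicative) (l : ℕ) :
    GG χ t f l 0 = 1 := by
  unfold GG
  rw [pow_zero, th_one, hf.map_one]
  simp

variable {ψ wt : ℝ → ℂ}

theorem norm_gpsi_le (Q : Finset ℕ) (V : ℕ) (G : ℕ → ℕ → ℂ) (lD : ℝ) (n : ℕ) :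
    ‖gpsi Q V G ψ lD n‖ ≤ ∑ v ∈ box Q V, ‖bv G v * ψ (Real.log (dd v) / lD)‖ := by
  unfold gpsi
  refine (norm_sum_le _ _).trans ?_
  exact Finset.sum_le_sum_of_subset_of_nonneg (filter_subset _ _) fun _ _ _ => norm_nonneg _

/-- One pair of primes. -/
theorem pair_corr (H : PsiData ψ wt) {f : ArithmeticFunction ℂ} (hf : f.IsMultiplicative)
    (hf1 : ∀ n, ‖f n‖ ≤ 1) {w y B V D h₁ h₂ p p' k₀ K : ℕ} (hB : 1 ≤ B) (hD : 2 ≤ D)
    (hq : q ∣ (∏ l ∈ pS w, l) ^ B) (hk₀ : 1 ≤ k₀) (hp : p.Prime) (hp' : p'.Prime)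
    (hyp : y < p) (hyp' : y < p') (hwy : w ≤ y) (hhp : 2 * (h₁ + h₂) ≤ w) :
    ‖∑ k ∈ Icc 1 K, ap χ t f w y B V ψ (Real.log D) h₁ h₂ (p * k) *
        (starRingEnd ℂ) (ap χ t f w y B V ψ (Real.log D) h₁ h₂ (p' * k))‖ ≤
      K * ‖corrM (pQ w y) V (GG χ t f) ψ (Real.log D) (((h₁ : ℤ) - h₂) * ((p : ℤ) - p'))‖ +
      (k₀ * (((∫ ξ, ‖wt ξ‖) * (D : ℝ) ^ 2) ^ 2 +
        ‖corrM (pQ w y) V (GG χ t f) ψ (Real.log D) (((h₁ : ℤ) - h₂) * ((p : ℤ) - p'))‖) +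
      (WW w B) * ((∫ ξ, ‖wt ξ‖) * (D : ℝ) ^ 2) ^ 2 *
        (2 + 8 * |t| * |(h₁ : ℝ) - h₂| * |(p : ℝ) - p'| / (p * p' * k₀))) := by
  set G := GG χ t f with hG
  set Q := pQ w y with hQdef
  set S := pS w with hSdef
  set M := corrM Q V G ψ (Real.log D) (((h₁ : ℤ) - h₂) * ((p : ℤ) - p')) with hM
  set S₂ := ((∫ ξ, ‖wt ξ‖) * (D : ℝ) ^ 2) ^ 2 with hS₂
  have hQ : ∀ l ∈ Q, l.Prime := fun l hl => (mem_filter.1 hl).2
  have hQw : ∀ l ∈ Q, w < l ∧ l ≤ y := fun l hl => mem_Ioc.1 (mem_filter.1 hl).1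
  have hS : ∀ l ∈ S, l.Prime := fun l hl => (mem_filter.1 hl).2
  have hSw : ∀ l ∈ S, l ≤ w := fun l hl => (mem_Icc.1 (mem_filter.1 hl).1).2
  have hWpos : 0 < WW w B := pow_pos (Finset.prod_pos fun l hl => (hS l hl).pos) _
  have hQW : ∀ l ∈ Q, ¬ l ∣ WW w B := by
    intro l hl h
    have h1 := (hQ l hl).dvd_of_dvd_pow h
    rw [(hQ l hl).prime.dvd_finsetProd_iff] at h1
    obtain ⟨m, hm, hlm⟩ := h1
    rw [Nat.prime_dvd_prime_iff_eq (hQ l hl) (hS m hm)] at hlm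
    have h2 := hSw m hm
    have h3 := (hQw l hl).1
    omega
  have hQp : ∀ {p : ℕ}, p.Prime → y < p → ∀ l ∈ Q, ¬ l ∣ p := by
    intro p hp hyp l hl h
    rw [Nat.prime_dvd_prime_iff_eq (hQ l hl) hp] at h
    have h3 := (hQw l hl).2
    omega
  have hh2p : h₂ < p := by omega
  have hh2p' : h₂ < p' := by omega
  let Φ : ℕ → ℂ := fun k => FB χ t f S B (p * k + h₁ - h₂) *
    (starRingEnd ℂ) (FB χ t f S B (p' * k + h₁ - h₂))
  have hΦ1 : ∀ k, ‖Φ k‖ ≤ 1 := by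
    intro k
    simp only [Φ]
    rw [norm_mul, RCLike.norm_conj]
    calc _ ≤ (1 : ℝ) * 1 := mul_le_mul (norm_FB_le χ t f hf1 S B _)
          (norm_FB_le χ t f hf1 S B _) (norm_nonneg _) zero_le_one
      _ = 1 := one_mul 1
  have hper : ∀ {p : ℕ}, h₂ < p → ∀ k, 1 ≤ k →
      FB χ t f S B (p * (k + WW w B) + h₁ - h₂) = FB χ t f S B (p * k + h₁ - h₂) := by
    intro p hp k hk
    have h1 : h₂ < p * k := lt_of_lt_of_le hp (Nat.le_mul_of_pos_right p hk)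
    have h2 : p * (k + WW w B) + h₁ - h₂ = (p * k + h₁ - h₂) + p * WW w B := by
      rw [mul_add]; omega
    rw [h2]
    exact FB_period_mul χ t f hS hB hq (by omega) p
  have hΦ : ∀ k, 1 ≤ k → Φ (k + WW w B) = Φ k := by
    intro k hk
    simp only [Φ]
    rw [hper hh2p k hk, hper hh2p' k hk]
  let c : ℕ → ℂ := fun k => Φ k * (gpsi Q V G ψ (Real.log D) (p * k + h₁ - h₂) *
    (starRingEnd ℂ) (gpsi Q V G ψ (Real.log D) (p' * k + h₁ - h₂)))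
  set A := ∑ v ∈ box Q V, ‖bv G v * ψ (Real.log (dd v) / Real.log D)‖ with hA
  have hA0 : 0 ≤ A := Finset.sum_nonneg fun _ _ => norm_nonneg _
  have hAle : A ≤ (∫ ξ, ‖wt ξ‖) * (D : ℝ) ^ 2 :=
    sum_coeff_le H hQ G (GG_norm_le χ t f hf1) V hD
  have hA2 : A ^ 2 ≤ S₂ := pow_le_pow_left₀ hA0 hAle 2
  have hcB : ∀ k, ‖c k‖ ≤ S₂ := by
    intro k
    have h1 : ‖gpsi Q V G ψ (Real.log D) (p * k + h₁ - h₂) *
        (starRingEnd ℂ) (gpsi Q V G ψ (Real.log D) (p' * k + h₁ - h₂))‖ ≤ A * A := by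
      rw [norm_mul, RCLike.norm_conj]
      exact mul_le_mul (norm_gpsi_le _ _ _ _ _) (norm_gpsi_le _ _ _ _ _) (norm_nonneg _) hA0
    have h2 : ‖c k‖ ≤ 1 * (A * A) := by
      simp only [c]
      rw [norm_mul (Φ k)]
      exact mul_le_mul (hΦ1 k) h1 (norm_nonneg _) zero_le_one
    refine h2.trans (le_trans (le_of_eq ?_) hA2)
    ring
  set μ : ℂ := (∑ c ∈ Icc 1 (WW w B), Φ c) / (WW w B) * M with hμ
  have hμM : ‖μ‖ ≤ ‖M‖ := by
    rw [hμ, norm_mul]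
    have h1 : ‖(∑ c ∈ Icc 1 (WW w B), Φ c) / ((WW w B : ℕ) : ℂ)‖ ≤ 1 := by
      rw [norm_div, Complex.norm_natCast, div_le_one (by exact_mod_cast hWpos)]
      refine (norm_sum_le _ _).trans ((Finset.sum_le_sum fun k _ => hΦ1 k).trans ?_)
      simp
    calc _ ≤ 1 * ‖M‖ := mul_le_mul_of_nonneg_right h1 (norm_nonneg _)
      _ = _ := one_mul _
  have hE : ∀ m ≤ K, ‖∑ k ∈ Icc 1 m, c k - m * μ‖ ≤ WW w B * S₂ := by
    intro m _
    have := corr_psum (ψ := ψ) (lD := Real.log D) hQ G V hWpos hQW (hQp hp hyp)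
      (hQp hp' hyp') (h₁ := h₁) hh2p hh2p' Φ hΦ hΦ1 m
    refine this.trans ?_
    exact mul_le_mul_of_nonneg_left hA2 (Nat.cast_nonneg _)
  have hph := phase_sum (K := K) (k₀ := k₀) (h₁ := h₁) (h₂ := h₂) (p := p) (p' := p') hk₀
    (by omega) (by omega) c μ (t := t) hcB hE
  have hrw : ∀ k ∈ Icc 1 K, ap χ t f w y B V ψ (Real.log D) h₁ h₂ (p * k) *
        (starRingEnd ℂ) (ap χ t f w y B V ψ (Real.log D) h₁ h₂ (p' * k)) =
      c k * (((p * k + h₁ - h₂ : ℕ) : ℂ) ^ (t * Complex.I) *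
        (starRingEnd ℂ) (((p' * k + h₁ - h₂ : ℕ) : ℂ) ^ (t * Complex.I))) := by
    intro k hk
    have hk1 := (mem_Icc.1 hk).1
    have h1 : h₂ < p * k := lt_of_lt_of_le hh2p (Nat.le_mul_of_pos_right p hk1)
    have h2 : h₂ < p' * k := lt_of_lt_of_le hh2p' (Nat.le_mul_of_pos_right p' hk1)
    unfold ap
    rw [if_pos h1, if_pos h2]
    simp only [c, Φ, uu, map_mul]
    ring
  rw [Finset.sum_congr rfl hrw]
  refine hph.trans ?_
  have h3 : (K : ℝ) * ‖μ‖ ≤ K * ‖M‖ := mul_le_mul_of_nonneg_left hμM (Nat.cast_nonneg _)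
  have h4 : (k₀ : ℝ) * (S₂ + ‖μ‖) ≤ k₀ * (S₂ + ‖M‖) :=
    mul_le_mul_of_nonneg_left (by linarith) (Nat.cast_nonneg _)
  linarith

end Pool.Agent.Elliott
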