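import Pool.Agent.Elliott.Block

set_option autoImplicit false

/-! The sum of the correlations over all pairs of primes of one block. -/

namespace Pool.Agent.Elliott

open Finset MeasureTheory

variable {q : ℕ} (χ : DirichletCharacter ℂ q) (t : ℝ)

variable {ψ wt : ℝ → ℂ}

theorem norm_kap_le {Q : Finset ℕ} (Δ : ℤ) (v v' : Q → ℕ) : ‖kap Δ v v'‖ ≤ 1 := by
  unfold kap
  split_ifs
  · rw [norm_div, norm_one, Complex.norm_natCast]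
    rcases Nat.eq_zero_or_pos (Nat.lcm (dd v) (dd v')) with h | h
    · rw [h]; simp
    · rw [div_le_one (by exact_mod_cast h)]
      exact_mod_cast h
  · simp

theorem norm_corrM_le_crude (H : PsiData ψ wt) {Q : Finset ℕ} (hQ : ∀ l ∈ Q, l.Prime)
    (G : ℕ → ℕ → ℂ) (hG : ∀ l i, ‖G l i‖ ≤ 1) (V : ℕ) {D : ℕ} (hD : 2 ≤ D) (Δ : ℤ) :
    ‖corrM Q V G ψ (Real.log D) Δ‖ ≤ ((∫ ξ, ‖wt ξ‖) * (D : ℝ) ^ 2) ^ 2 := by
  have h := sum_coeff_le H hQ G hG V hD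
  set S := ∑ v ∈ box Q V, ‖bv G v * ψ (Real.log (dd v) / Real.log D)‖ with hS
  have hS0 : 0 ≤ S := Finset.sum_nonneg fun _ _ => norm_nonneg _
  refine le_trans ?_ (pow_le_pow_left₀ hS0 h 2)
  unfold corrM
  rw [sq, hS, Finset.sum_mul_sum]
  refine (norm_sum_le _ _).trans (Finset.sum_le_sum fun v _ => (norm_sum_le _ _).trans
    (Finset.sum_le_sum fun v' _ => ?_))
  rw [norm_mul, norm_mul, RCLike.norm_conj]
  calc _ ≤ ‖bv G v * ψ (Real.log (dd v) / Real.log D)‖ *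
        ‖bv G v' * ψ (Real.log (dd v') / Real.log D)‖ * 1 :=
        mul_le_mul_of_nonneg_left (norm_kap_le Δ v v') (by positivity)
    _ = _ := mul_one _

theorem prod_le_of_subset {s r : Finset ℕ} (h : s ⊆ r) {F : ℕ → ℝ} (hF : ∀ l, 1 ≤ F l) :
    ∏ l ∈ s, F l ≤ ∏ l ∈ r, F l := by
  classical
  rw [← Finset.prod_sdiff h]
  have h1 : 1 ≤ ∏ l ∈ r \ s, F l := by
    have : ∏ l ∈ r \ s, (1 : ℝ) ≤ ∏ l ∈ r \ s, F l :=
      Finset.prod_le_prod (fun _ _ => zero_le_one) fun l _ => hF l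
    simpa using this
  have h2 : 0 ≤ ∏ l ∈ s, F l := Finset.prod_nonneg fun l _ => zero_le_one.trans (hF l)
  calc _ = 1 * ∏ l ∈ s, F l := (one_mul _).symm
    _ ≤ _ := mul_le_mul_of_nonneg_right h1 h2

theorem prod_filter_le {w y h₁ h₂ p p' : ℕ} (hne : h₁ ≠ h₂) (hhw : h₁ + h₂ ≤ w) (hpp : p ≠ p')
    {C₀ : ℝ} (hC₀ : 0 ≤ C₀) :
    ∏ l ∈ (pQ w y).filter (fun l : ℕ => (l : ℤ) ∣ (((h₁ : ℤ) - h₂) * ((p : ℤ) - p'))),
      (1 + C₀ / l) ≤ ∏ l ∈ ((p : ℤ) - p').natAbs.primeFactors, (1 + C₀ / l) := by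
  refine prod_le_of_subset ?_ fun l => ?_
  · intro l hl
    rw [mem_filter] at hl
    obtain ⟨hl1, hl2⟩ := hl
    have hlp : l.Prime := (mem_filter.1 hl1).2
    have hlw : w < l := (mem_Ioc.1 (mem_filter.1 hl1).1).1
    rw [Nat.mem_primeFactors]
    refine ⟨hlp, ?_, ?_⟩
    · rcases (Nat.prime_iff_prime_int.1 hlp).dvd_or_dvd hl2 with h | h
      · exfalso
        rw [Int.natCast_dvd] at h
        have h3 : ((h₁ : ℤ) - h₂).natAbs ≤ h₁ + h₂ := by omega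
        have h4 : 0 < ((h₁ : ℤ) - h₂).natAbs := by omega
        have := Nat.le_of_dvd h4 h
        omega
      · rwa [Int.natCast_dvd] at h
    · omega
  · have : 0 ≤ C₀ / (l : ℝ) := by positivity
    linarith

theorem mem_blk_iff {j p : ℕ} : p ∈ blk j ↔ (4 ^ j < p ∧ p ≤ 4 ^ (j + 1)) ∧ p.Prime := by
  unfold blk
  rw [mem_filter, mem_Ioc]

theorem block_corr (H : PsiData ψ wt) {C₀ C₃ CP : ℝ} (hC₀ : 0 ≤ C₀) (hC₃ : 0 ≤ C₃)
    (hC : ∀ (Q : Finset ℕ) (y V : ℕ) (lD : ℝ) (G : ℕ → ℕ → ℂ) (Δ : ℤ),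
      (∀ l ∈ Q, l.Prime ∧ 5 ≤ l ∧ l ≤ y) → 0 < lD → Real.log y ≤ lD → 1 ≤ V →
      (∀ l i, ‖G l i‖ ≤ 1) → (∀ l, G l 0 = 1) →
      ‖corrM Q V G ψ lD Δ‖ ≤ C₃ * Real.exp (-2 * ∑ l ∈ Q, (1 - (G l 1).re) / l) *
        ∏ l ∈ Q.filter (fun l : ℕ => (l : ℤ) ∣ Δ), (1 + C₀ / l))
    (hP : ∀ j : ℕ, 1 ≤ j → ∑ x ∈ (blk j ×ˢ blk j).filter (fun x => x.1 ≠ x.2),
      ∏ l ∈ ((x.1 : ℤ) - x.2).natAbs.primeFactors, (1 + C₀ / l) ≤ CP * (#(blk j) : ℝ) ^ 2)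
    {f : ArithmeticFunction ℂ} (hf : f.IsMultiplicative) (hf1 : ∀ n, ‖f n‖ ≤ 1)
    {w y B V D h₁ h₂ N k₀ j : ℕ} (hB : 1 ≤ B) (hD : 2 ≤ D) (hyD : y ≤ D) (hV : 1 ≤ V)
    (hq : q ∣ (∏ l ∈ pS w, l) ^ B) (hk₀ : 1 ≤ k₀) (hj : 1 ≤ j) (hyj : y ≤ 4 ^ j)
    (hwy : w ≤ y) (hw4 : 4 ≤ w) (hhw : 2 * (h₁ + h₂) ≤ w) (hne : h₁ ≠ h₂) :
    ∑ x ∈ (blk j ×ˢ blk j).filter (fun x => x.1 ≠ x.2),
      ‖∑ k ∈ Icc 1 (N / max x.1 x.2), ap χ t f w y B V ψ (Real.log D) h₁ h₂ (x.1 * k) *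
        (starRingEnd ℂ) (ap χ t f w y B V ψ (Real.log D) h₁ h₂ (x.2 * k))‖ ≤
    ((N / 4 ^ j) * (C₃ * CP *
        Real.exp (-2 * ∑ l ∈ pQ w y, (1 - (GG χ t f l 1).re) / l)) +
      (2 * k₀ * ((∫ ξ, ‖wt ξ‖) * (D : ℝ) ^ 2) ^ 2 +
        WW w B * ((∫ ξ, ‖wt ξ‖) * (D : ℝ) ^ 2) ^ 2 *
          (2 + 8 * |t| * |(h₁ : ℝ) - h₂| / (4 ^ j * k₀)))) * (#(blk j) : ℝ) ^ 2 := by
  set S₂ := ((∫ ξ, ‖wt ξ‖) * (D : ℝ) ^ 2) ^ 2 with hS₂
  have hS₂0 : 0 ≤ S₂ := by positivity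
  set e := Real.exp (-2 * ∑ l ∈ pQ w y, (1 - (GG χ t f l 1).re) / l) with he
  have hy1 : 1 ≤ y := by omega
  have hlD : 0 < Real.log D := Real.log_pos (by exact_mod_cast hD)
  have hlog : Real.log y ≤ Real.log D :=
    Real.log_le_log (by exact_mod_cast hy1) (by exact_mod_cast hyD)
  have hQ : ∀ l ∈ pQ w y, l.Prime ∧ 5 ≤ l ∧ l ≤ y := by
    intro l hl
    have h1 := mem_Ioc.1 (mem_filter.1 hl).1
    exact ⟨(mem_filter.1 hl).2, by omega, h1.2⟩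
  set Err : ℝ := 2 * k₀ * S₂ + WW w B * S₂ *
    (2 + 8 * |t| * |(h₁ : ℝ) - h₂| / (4 ^ j * k₀)) with hErr
  have hpair : ∀ x ∈ (blk j ×ˢ blk j).filter (fun x => x.1 ≠ x.2),
      ‖∑ k ∈ Icc 1 (N / max x.1 x.2), ap χ t f w y B V ψ (Real.log D) h₁ h₂ (x.1 * k) *
        (starRingEnd ℂ) (ap χ t f w y B V ψ (Real.log D) h₁ h₂ (x.2 * k))‖ ≤
      (N / 4 ^ j) * (C₃ * e) * ∏ l ∈ ((x.1 : ℤ) - x.2).natAbs.primeFactors, (1 + C₀ / l) +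
        Err := by
    rintro ⟨p, p'⟩ hx
    rw [mem_filter, mem_product] at hx
    obtain ⟨⟨hp, hp'⟩, hpp⟩ := hx
    simp only at hp hp' hpp ⊢
    rw [mem_blk_iff] at hp hp'
    obtain ⟨⟨hp1, hp2⟩, hpr⟩ := hp
    obtain ⟨⟨hp1', hp2'⟩, hpr'⟩ := hp'
    have h1 := pair_corr χ t H hf hf1 (w := w) (y := y) (B := B) (V := V) (D := D)
      (h₁ := h₁) (h₂ := h₂) (p := p) (p' := p') (k₀ := k₀) (K := N / max p p') hB hD hq hk₀
      hpr hpr' (by omega) (by omega) hwy hhw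
    set M := corrM (pQ w y) V (GG χ t f) ψ (Real.log D) (((h₁ : ℤ) - h₂) * ((p : ℤ) - p'))
      with hM
    have hM1 : ‖M‖ ≤ C₃ * e *
        ∏ l ∈ ((p : ℤ) - p').natAbs.primeFactors, (1 + C₀ / l) := by
      refine (hC (pQ w y) y V (Real.log D) (GG χ t f) _ hQ hlD hlog hV
        (GG_norm_le χ t f hf1) (GG_zero χ t hf)).trans ?_
      exact mul_le_mul_of_nonneg_left (prod_filter_le hne (by omega) hpp hC₀)
        (mul_nonneg hC₃ (Real.exp_pos _).le)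
    have hM2 : ‖M‖ ≤ S₂ := norm_corrM_le_crude H (fun l hl => (hQ l hl).1) _
      (GG_norm_le χ t f hf1) V hD _
    have hK : ((N / max p p' : ℕ) : ℝ) ≤ N / 4 ^ j := by
      refine Nat.cast_div_le.trans ?_
      have h2 : ((4 ^ j : ℕ) : ℝ) ≤ ((max p p' : ℕ) : ℝ) := by
        exact_mod_cast (hp1.le.trans (le_max_left _ _))
      rw [Nat.cast_pow] at h2
      push_cast at h2 ⊢
      exact div_le_div_of_nonneg_left (Nat.cast_nonneg _) (by positivity) h2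
    have hk0 : (0 : ℝ) < k₀ := by exact_mod_cast hk₀
    have hpR : (4 : ℝ) ^ j < p := by exact_mod_cast hp1
    have hpR' : (4 : ℝ) ^ j < p' := by exact_mod_cast hp1'
    have h4 : (0 : ℝ) < 4 ^ j := by positivity
    have hp0 : (0 : ℝ) < p := h4.trans hpR
    have hp0' : (0 : ℝ) < p' := h4.trans hpR'
    have hfrac : 8 * |t| * |(h₁ : ℝ) - h₂| * |(p : ℝ) - p'| / (p * p' * k₀) ≤
        8 * |t| * |(h₁ : ℝ) - h₂| / (4 ^ j * k₀) := by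
      rw [div_le_div_iff₀ (by positivity) (by positivity)]
      have h5 : |(p : ℝ) - p'| * 4 ^ j ≤ p * p' := by
        rcases le_total (p : ℝ) p' with h | h
        · rw [abs_of_nonpos (by linarith)]
          nlinarith
        · rw [abs_of_nonneg (by linarith)]
          nlinarith
      have h6 : 0 ≤ 8 * |t| * |(h₁ : ℝ) - h₂| * k₀ := by positivity
      nlinarith [mul_le_mul_of_nonneg_left h5 h6]
    have hT : (WW w B : ℝ) * S₂ *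
        (2 + 8 * |t| * |(h₁ : ℝ) - h₂| * |(p : ℝ) - p'| / (p * p' * k₀)) ≤
        WW w B * S₂ * (2 + 8 * |t| * |(h₁ : ℝ) - h₂| / (4 ^ j * k₀)) :=
      mul_le_mul_of_nonneg_left (by linarith) (by positivity)
    have hK2 : ((N / max p p' : ℕ) : ℝ) * ‖M‖ ≤ (N / 4 ^ j) *
        (C₃ * e * ∏ l ∈ ((p : ℤ) - p').natAbs.primeFactors, (1 + C₀ / l)) :=
      mul_le_mul hK hM1 (norm_nonneg _) (by positivity)
    have hk2 : (k₀ : ℝ) * (S₂ + ‖M‖) ≤ 2 * k₀ * S₂ := by nlinarith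
    rw [hErr]
    calc _ ≤ ((N / max p p' : ℕ) : ℝ) * ‖M‖ + (k₀ * (S₂ + ‖M‖) + WW w B * S₂ *
          (2 + 8 * |t| * |(h₁ : ℝ) - h₂| * |(p : ℝ) - p'| / (p * p' * k₀))) := h1
      _ ≤ (N / 4 ^ j) * (C₃ * e * ∏ l ∈ ((p : ℤ) - p').natAbs.primeFactors, (1 + C₀ / l)) +
          (2 * k₀ * S₂ + WW w B * S₂ *
            (2 + 8 * |t| * |(h₁ : ℝ) - h₂| / (4 ^ j * k₀))) := by linarith
      _ = _ := by ring
  refine (Finset.sum_le_sum hpair).trans ?_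
  rw [Finset.sum_add_distrib, ← Finset.mul_sum, Finset.sum_const, nsmul_eq_mul]
  have hcard : (#((blk j ×ˢ blk j).filter (fun x => x.1 ≠ x.2)) : ℝ) ≤
      (#(blk j) : ℝ) ^ 2 := by
    have := card_filter_le (blk j ×ˢ blk j) (fun x => x.1 ≠ x.2)
    rw [card_product] at this
    calc (#((blk j ×ˢ blk j).filter (fun x => x.1 ≠ x.2)) : ℝ) ≤ ((#(blk j) * #(blk j) : ℕ) : ℝ) :=
          by exact_mod_cast this
      _ = _ := by push_cast; ring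
  have hErr0 : 0 ≤ Err := by rw [hErr]; positivity
  have h7 := mul_le_mul_of_nonneg_left (hP j hj)
    (show 0 ≤ (N / 4 ^ j : ℝ) * (C₃ * e) by positivity)
  have h8 := mul_le_mul_of_nonneg_right hcard hErr0
  calc _ ≤ (N / 4 ^ j : ℝ) * (C₃ * e) * (CP * (#(blk j) : ℝ) ^ 2) +
        (#(blk j) : ℝ) ^ 2 * Err := add_le_add h7 h8
    _ = _ := by ring

end Pool.Agent.Elliott
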