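import Pool.Agent.Elliott.Block

set_option autoImplicit false

/-! Cauchy-Schwarz and Mertens corollaries. -/

namespace Pool.Agent.Elliott

open Finset

theorem norm_sub_sq_le_re {a b : ℂ} (ha : ‖a‖ ≤ 1) (hb : ‖b‖ ≤ 1) :
    ‖a - b‖ ^ 2 ≤ 2 * (1 - (a * (starRingEnd ℂ) b).re) := by
  have h1 : ‖a - b‖ ^ 2 = ‖a‖ ^ 2 + ‖b‖ ^ 2 - 2 * (a * (starRingEnd ℂ) b).re := by
    rw [← Complex.normSq_eq_norm_sq, ← Complex.normSq_eq_norm_sq, ← Complex.normSq_eq_norm_sq,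
      Complex.normSq_sub]
  have h2 : ‖a‖ ^ 2 ≤ 1 := pow_le_one₀ (norm_nonneg _) ha
  have h3 : ‖b‖ ^ 2 ≤ 1 := pow_le_one₀ (norm_nonneg _) hb
  rw [h1]; linarith

theorem cs_bound {C₁ : ℝ} (hC₁ : ∀ (z : ℝ) (y : ℕ), 0 ≤ z →
      ∑ p ∈ (Icc 1 y).filter Nat.Prime, min 1 (z * Real.log p) / p ≤
        C₁ * Real.log (1 + z * Real.log y))
    (a b : ℕ → ℂ) (ha : ∀ n, ‖a n‖ ≤ 1) (hb : ∀ n, ‖b n‖ ≤ 1) {y N : ℕ} (hy : 2 ≤ y) {δ : ℝ}
    (hδ : ∑ p ∈ (Ioc y N).filter Nat.Prime,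
      (1 - (a p * (starRingEnd ℂ) (b p)).re) / (p : ℝ) ≤ δ) :
    ∑ p ∈ (Ioc y N).filter Nat.Prime, ‖a p - b p‖ / (p : ℝ) ≤
      √(2 * δ * (C₁ * Real.log (1 + Real.log N / Real.log y))) := by
  set S := (Ioc y N).filter Nat.Prime with hS
  have hlogy : 0 < Real.log y := Real.log_pos (by exact_mod_cast hy)
  -- the first factor
  have hA : ∑ p ∈ S, (‖a p - b p‖ / √(p : ℝ)) ^ 2 ≤ 2 * δ := by
    calc ∑ p ∈ S, (‖a p - b p‖ / √(p : ℝ)) ^ 2
        ≤ ∑ p ∈ S, 2 * ((1 - (a p * (starRingEnd ℂ) (b p)).re) / (p : ℝ)) := by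
          refine Finset.sum_le_sum fun p _ => ?_
          rw [div_pow, Real.sq_sqrt (Nat.cast_nonneg p), ← mul_div_assoc]
          exact div_le_div_of_nonneg_right (norm_sub_sq_le_re (ha p) (hb p)) (Nat.cast_nonneg p)
      _ = 2 * ∑ p ∈ S, (1 - (a p * (starRingEnd ℂ) (b p)).re) / (p : ℝ) := by
          rw [Finset.mul_sum]
      _ ≤ 2 * δ := by linarith
  have hδ0 : 0 ≤ 2 * δ := (Finset.sum_nonneg fun p _ => sq_nonneg _).trans hA
  -- the second factor
  have hB : ∑ p ∈ S, (1 / √(p : ℝ)) ^ 2 ≤ C₁ * Real.log (1 + Real.log N / Real.log y) := by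
    have h1 := hC₁ (1 / Real.log y) N (by positivity)
    have h2 : 1 / Real.log y * Real.log N = Real.log N / Real.log y := by ring
    rw [h2] at h1
    refine le_trans ?_ h1
    calc ∑ p ∈ S, (1 / √(p : ℝ)) ^ 2
        = ∑ p ∈ S, min 1 (1 / Real.log y * Real.log p) / (p : ℝ) := by
          refine Finset.sum_congr rfl fun p hp => ?_
          rw [hS, mem_filter, mem_Ioc] at hp
          have hyp : (y : ℝ) ≤ p := by exact_mod_cast hp.1.1.le
          have hlog : Real.log y ≤ Real.log p :=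
            Real.log_le_log (by exact_mod_cast (by omega : 0 < y)) hyp
          have hmin : min 1 (1 / Real.log y * Real.log p) = 1 := by
            apply min_eq_left
            rw [one_div, inv_mul_eq_div, le_div_iff₀ hlogy]
            linarith
          rw [hmin, div_pow, Real.sq_sqrt (Nat.cast_nonneg p), one_pow]
      _ ≤ ∑ p ∈ (Icc 1 N).filter Nat.Prime, min 1 (1 / Real.log y * Real.log p) / (p : ℝ) := by
          refine Finset.sum_le_sum_of_subset_of_nonneg ?_ ?_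
          · intro p hp
            rw [hS, mem_filter, mem_Ioc] at hp
            rw [mem_filter, mem_Icc]
            exact ⟨⟨hp.2.one_lt.le, hp.1.2⟩, hp.2⟩
          · intro p hp _
            rw [mem_filter, mem_Icc] at hp
            have : 0 ≤ Real.log p := Real.log_natCast_nonneg p
            have hz : 0 ≤ 1 / Real.log y * Real.log p := by positivity
            exact div_nonneg (le_min zero_le_one hz) (Nat.cast_nonneg p)
  calc ∑ p ∈ S, ‖a p - b p‖ / (p : ℝ)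
      = ∑ p ∈ S, (‖a p - b p‖ / √(p : ℝ)) * (1 / √(p : ℝ)) := by
        refine Finset.sum_congr rfl fun p _ => ?_
        rw [div_mul_div_comm, mul_one, Real.mul_self_sqrt (Nat.cast_nonneg p)]
    _ ≤ √(∑ p ∈ S, (‖a p - b p‖ / √(p : ℝ)) ^ 2) * √(∑ p ∈ S, (1 / √(p : ℝ)) ^ 2) :=
        Real.sum_mul_le_sqrt_mul_sqrt S _ _
    _ ≤ √(2 * δ) * √(C₁ * Real.log (1 + Real.log N / Real.log y)) :=
        mul_le_mul (Real.sqrt_le_sqrt hA) (Real.sqrt_le_sqrt hB) (Real.sqrt_nonneg _)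
          (Real.sqrt_nonneg _)
    _ = √(2 * δ * (C₁ * Real.log (1 + Real.log N / Real.log y))) :=
        (Real.sqrt_mul hδ0 _).symm

theorem sum_inv_prime_le {C₁ : ℝ} (hC₁ : ∀ (z : ℝ) (y : ℕ), 0 ≤ z →
      ∑ p ∈ (Icc 1 y).filter Nat.Prime, min 1 (z * Real.log p) / p ≤
        C₁ * Real.log (1 + z * Real.log y)) (N : ℕ) :
    ∑ p ∈ (Icc 1 N).filter Nat.Prime, 1 / (p : ℝ) ≤ C₁ * Real.log (1 + 2 * Real.log N) := by
  refine le_trans (le_of_eq ?_) (hC₁ 2 N (by norm_num))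
  refine Finset.sum_congr rfl fun p hp => ?_
  rw [mem_filter] at hp
  have h2 : Real.log 2 ≤ Real.log p :=
    Real.log_le_log (by norm_num) (by exact_mod_cast hp.2.two_le)
  have h3 : (0.6931471803 : ℝ) < Real.log 2 := Real.log_two_gt_d9
  rw [min_eq_left (by linarith)]

theorem sum_inv_le_log (w : ℕ) :
    ∑ p ∈ (Icc 1 w).filter Nat.Prime, 1 / (p : ℝ) ≤ 1 + Real.log w := by
  refine le_trans ?_ (harmonic_le_one_add_log w)
  calc ∑ p ∈ (Icc 1 w).filter Nat.Prime, 1 / (p : ℝ)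
      ≤ ∑ p ∈ Icc 1 w, 1 / (p : ℝ) :=
        Finset.sum_le_sum_of_subset_of_nonneg (filter_subset _ _) fun _ _ _ => by positivity
    _ = (harmonic w : ℝ) := by
        rw [harmonic_eq_sum_Icc]
        push_cast
        exact Finset.sum_congr rfl fun i _ => one_div _

end Pool.Agent.Elliott
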