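import Pool.Agent.Elliott.Block

namespace Pool.Agent.Elliott

open Finset

theorem largeP_card_mult (N' d : ℕ) :
    (((Icc 1 N').filter (fun n => d ∣ n)).card : ℝ) ≤ (N' : ℝ) / d := by
  have h1 : Icc 1 N' = Ioc 0 N' := by ext x; simp [Nat.lt_iff_add_one_le]
  rw [h1, Nat.Ioc_filter_dvd_card_eq_div]
  exact Nat.cast_div_le

theorem largeP_sum_inv_sq (y M : ℕ) (hy : 1 ≤ y) :
    ∑ p ∈ Ioc y M, (1 : ℝ) / (p : ℝ) ^ 2 ≤ 1 / y := by
  rcases le_total y M with h | h
  · have h2 := sum_Ioc_inv_sq_le_sub (α := ℝ) (k := y) (n := M) (by omega) h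
    have h3 : (0 : ℝ) ≤ (M : ℝ)⁻¹ := by positivity
    calc ∑ p ∈ Ioc y M, (1 : ℝ) / (p : ℝ) ^ 2 = ∑ p ∈ Ioc y M, ((p : ℝ) ^ 2)⁻¹ := by
          simp [one_div]
      _ ≤ (y : ℝ)⁻¹ - (M : ℝ)⁻¹ := h2
      _ ≤ 1 / y := by rw [one_div]; linarith
  · rw [Finset.Ioc_eq_empty (by omega)]
    simp

theorem sum_large_primes {y N N' : ℕ} (hy : 1 ≤ y) (hN : 1 ≤ N) (hNN' : N ≤ N')
    (hN' : N' ≤ 2 * N) (F : ℕ → ℕ → ℝ) (hF0 : ∀ p i, 0 ≤ F p i) (hF : ∀ p i, F p i ≤ 2)
    (P : ℕ → Prop) [DecidablePred P] (hP : ∀ p, p.Prime → P p → y < p) :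
    ∑ n ∈ Icc 1 N', ∑ p ∈ n.primeFactors.filter P, F p (n.factorization p) ≤
      N' * ∑ p ∈ (Ioc y N).filter Nat.Prime, F p 1 / p + 4 * ((N' : ℝ) - N) +
        2 * N' / y := by
  -- pointwise bound
  have hpt : ∀ n ∈ Icc 1 N', ∑ p ∈ n.primeFactors.filter P, F p (n.factorization p) ≤
      ∑ p ∈ (Ioc y N').filter Nat.Prime,
        ((if p ∣ n then F p 1 else 0) + (if p ^ 2 ∣ n then 2 else 0)) := by
    intro n hn
    rw [mem_Icc] at hn
    have hsub : n.primeFactors.filter P ⊆ (Ioc y N').filter Nat.Prime := by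
      intro p hp
      rw [mem_filter, Nat.mem_primeFactors] at hp
      rw [mem_filter, mem_Ioc]
      refine ⟨⟨hP p hp.1.1 hp.2, ?_⟩, hp.1.1⟩
      exact (Nat.le_of_dvd (by omega) hp.1.2.1).trans hn.2
    refine le_trans ?_ (sum_le_sum_of_subset_of_nonneg hsub ?_)
    · apply sum_le_sum
      intro p hp
      rw [mem_filter, Nat.mem_primeFactors] at hp
      obtain ⟨⟨hpp, hpn, hn0⟩, hPp⟩ := hp
      rw [if_pos hpn]
      by_cases h2 : p ^ 2 ∣ n
      · rw [if_pos h2]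
        have := hF p (n.factorization p)
        have := hF0 p 1
        linarith
      · rw [if_neg h2]
        have h1 : n.factorization p = 1 := by
          have ha : 1 ≤ n.factorization p :=
            (hpp.dvd_iff_one_le_factorization hn0).1 hpn
          have hb : ¬ 2 ≤ n.factorization p := by
            intro h
            exact h2 ((hpp.pow_dvd_iff_le_factorization hn0).2 h)
          omega
        rw [h1]
        simp
    · intro p _ _
      have := hF0 p 1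
      split_ifs <;> linarith
  have hswap : ∑ n ∈ Icc 1 N', ∑ p ∈ (Ioc y N').filter Nat.Prime,
        ((if p ∣ n then F p 1 else 0) + (if p ^ 2 ∣ n then 2 else 0)) =
      ∑ p ∈ (Ioc y N').filter Nat.Prime,
        (((Icc 1 N').filter (fun n => p ∣ n)).card * F p 1 +
          ((Icc 1 N').filter (fun n => p ^ 2 ∣ n)).card * 2) := by
    rw [sum_comm]
    apply sum_congr rfl
    intro p _
    rw [sum_add_distrib, ← sum_filter, ← sum_filter, sum_const, sum_const, nsmul_eq_mul,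
      nsmul_eq_mul]
  have hterm : ∀ p ∈ (Ioc y N').filter Nat.Prime,
      (((Icc 1 N').filter (fun n => p ∣ n)).card * F p 1 +
          ((Icc 1 N').filter (fun n => p ^ 2 ∣ n)).card * 2 : ℝ) ≤
        (if p ≤ N then (N' : ℝ) * (F p 1 / p) else 4) + 2 * N' * (1 / (p : ℝ) ^ 2) := by
    intro p hp
    rw [mem_filter, mem_Ioc] at hp
    obtain ⟨⟨hyp, hpN⟩, hpp⟩ := hp
    have hp0 : (0 : ℝ) < p := by exact_mod_cast hpp.pos
    have h1 := largeP_card_mult N' p
    have h2 := largeP_card_mult N' (p ^ 2)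
    push_cast at h2
    have h3 : (((Icc 1 N').filter (fun n => p ^ 2 ∣ n)).card : ℝ) * 2 ≤
        2 * N' * (1 / (p : ℝ) ^ 2) := by
      calc (((Icc 1 N').filter (fun n => p ^ 2 ∣ n)).card : ℝ) * 2 ≤
          (N' / (p : ℝ) ^ 2) * 2 := by linarith
        _ = 2 * N' * (1 / (p : ℝ) ^ 2) := by ring
    have h4 : (((Icc 1 N').filter (fun n => p ∣ n)).card : ℝ) * F p 1 ≤
        (if p ≤ N then (N' : ℝ) * (F p 1 / p) else 4) := by
      split_ifs with hpN2
      · calc (((Icc 1 N').filter (fun n => p ∣ n)).card : ℝ) * F p 1 ≤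
            (N' / (p : ℝ)) * F p 1 := mul_le_mul_of_nonneg_right h1 (hF0 p 1)
          _ = (N' : ℝ) * (F p 1 / p) := by ring
      · have h5 : (N' : ℝ) / p ≤ 2 := by
          rw [div_le_iff₀ hp0]
          have : N' ≤ 2 * p := by omega
          exact_mod_cast this
        calc (((Icc 1 N').filter (fun n => p ∣ n)).card : ℝ) * F p 1 ≤
            2 * F p 1 := mul_le_mul_of_nonneg_right (h1.trans h5) (hF0 p 1)
          _ ≤ 2 * 2 := by linarith [hF p 1]
          _ = 4 := by norm_num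
    linarith
  have hsum1 : ∑ p ∈ (Ioc y N').filter Nat.Prime,
      (if p ≤ N then (N' : ℝ) * (F p 1 / p) else 4) ≤
      N' * ∑ p ∈ (Ioc y N).filter Nat.Prime, F p 1 / p + 4 * ((N' : ℝ) - N) := by
    rw [sum_ite, mul_sum]
    have ha : ((Ioc y N').filter Nat.Prime).filter (fun p => p ≤ N) =
        (Ioc y N).filter Nat.Prime := by
      ext p
      simp only [mem_filter, mem_Ioc]
      constructor
      · rintro ⟨⟨⟨h1, h2⟩, h3⟩, h4⟩
        exact ⟨⟨h1, h4⟩, h3⟩
      · rintro ⟨⟨h1, h2⟩, h3⟩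
        exact ⟨⟨⟨h1, h2.trans hNN'⟩, h3⟩, h2⟩
    rw [ha, sum_const, nsmul_eq_mul]
    have hb : (((Ioc y N').filter Nat.Prime).filter (fun p => ¬ p ≤ N)).card ≤ N' - N := by
      rw [← Nat.card_Ioc]
      apply card_le_card
      intro p hp
      simp only [mem_filter, mem_Ioc] at hp
      rw [mem_Ioc]
      omega
    have hc : ((((Ioc y N').filter Nat.Prime).filter (fun p => ¬ p ≤ N)).card : ℝ) ≤
        (N' : ℝ) - N := by
      have : ((((Ioc y N').filter Nat.Prime).filter (fun p => ¬ p ≤ N)).card : ℝ) ≤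
          ((N' - N : ℕ) : ℝ) := by exact_mod_cast hb
      rwa [Nat.cast_sub hNN'] at this
    linarith
  have hsum2 : ∑ p ∈ (Ioc y N').filter Nat.Prime, (2 * N' * (1 / (p : ℝ) ^ 2) : ℝ) ≤
      2 * N' / y := by
    rw [← mul_sum]
    have h1 : ∑ p ∈ (Ioc y N').filter Nat.Prime, (1 / (p : ℝ) ^ 2 : ℝ) ≤ 1 / y := by
      refine le_trans ?_ (largeP_sum_inv_sq y N' hy)
      apply sum_le_sum_of_subset_of_nonneg (filter_subset _ _)
      intro p _ _
      positivity
    calc (2 * N' : ℝ) * ∑ p ∈ (Ioc y N').filter Nat.Prime, (1 / (p : ℝ) ^ 2 : ℝ) ≤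
        2 * N' * (1 / y) := mul_le_mul_of_nonneg_left h1 (by positivity)
      _ = 2 * N' / y := by ring
  calc ∑ n ∈ Icc 1 N', ∑ p ∈ n.primeFactors.filter P, F p (n.factorization p)
      ≤ ∑ n ∈ Icc 1 N', ∑ p ∈ (Ioc y N').filter Nat.Prime,
        ((if p ∣ n then F p 1 else 0) + (if p ^ 2 ∣ n then 2 else 0)) := sum_le_sum hpt
    _ = _ := hswap
    _ ≤ ∑ p ∈ (Ioc y N').filter Nat.Prime,
        ((if p ≤ N then (N' : ℝ) * (F p 1 / p) else 4) + 2 * N' * (1 / (p : ℝ) ^ 2)) :=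
          sum_le_sum hterm
    _ ≤ _ := by
      rw [sum_add_distrib]
      linarith

end Pool.Agent.Elliott
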