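import Pool.Agent.Elliott.Defs

set_option autoImplicit false

/-! Turan-Kubilius and the Katai inequality, in a form with an approximating sequence. -/

namespace Pool.Agent.Elliott

open Finset

namespace Katai_

/-- Reindexing multiples of `d`. -/
lemma sum_dvd {M : Type*} [AddCommMonoid M] (N d : ℕ) (hd : 0 < d) (F : ℕ → M) :
    ∑ m ∈ Icc 1 N, (if d ∣ m then F m else 0) = ∑ k ∈ Icc 1 (N / d), F (d * k) := by
  rw [← Finset.sum_filter]
  have himg : (Icc 1 N).filter (fun m => d ∣ m) = (Icc 1 (N / d)).image (fun k => d * k) := by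
    ext m
    simp only [mem_filter, mem_Icc, mem_image]
    constructor
    · rintro ⟨⟨h1, h2⟩, k, rfl⟩
      refine ⟨k, ⟨?_, ?_⟩, rfl⟩
      · by_contra hk
        have : k = 0 := by omega
        subst this
        simp at h1
      · rw [Nat.le_div_iff_mul_le hd]
        rwa [mul_comm]
    · rintro ⟨k, ⟨h1, h2⟩, rfl⟩
      rw [Nat.le_div_iff_mul_le hd] at h2
      refine ⟨⟨?_, ?_⟩, Dvd.intro _ rfl⟩
      · exact Nat.one_le_iff_ne_zero.2 (by positivity)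
      · rwa [mul_comm]
  rw [himg, Finset.sum_image]
  intro x _ y _ hxy
  exact Nat.eq_of_mul_eq_mul_left hd hxy

lemma card_dvd (N d : ℕ) (hd : 0 < d) :
    ∑ m ∈ Icc 1 N, (if d ∣ m then (1 : ℝ) else 0) = ((N / d : ℕ) : ℝ) := by
  rw [sum_dvd N d hd (fun _ => (1 : ℝ))]
  simp

lemma card_dvd_le (N d : ℕ) (hd : 0 < d) :
    ∑ m ∈ Icc 1 N, (if d ∣ m then (1 : ℝ) else 0) ≤ N * (1 / (d : ℝ)) := by
  rw [card_dvd N d hd]
  have := @Nat.cast_div_le ℝ _ _ _ N d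
  calc ((N / d : ℕ) : ℝ) ≤ (N : ℝ) / d := this
    _ = N * (1 / (d : ℝ)) := by ring

lemma card_dvd_ge (N d : ℕ) (hd : 0 < d) :
    N * (1 / (d : ℝ)) - 1 ≤ ∑ m ∈ Icc 1 N, (if d ∣ m then (1 : ℝ) else 0) := by
  rw [card_dvd N d hd]
  have h1 : (N : ℝ) < d * (((N / d : ℕ) : ℝ) + 1) := by
    have := Nat.lt_mul_div_succ N hd
    exact_mod_cast this
  have hd' : (0 : ℝ) < d := by exact_mod_cast hd
  have h2 : (N : ℝ) * (1 / d) < ((N / d : ℕ) : ℝ) + 1 := by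
    rw [mul_one_div, div_lt_iff₀ hd']
    linarith
  linarith

/-- Second moment of a weighted number of divisors. -/
lemma second_moment (T : Finset ℕ) (g : ℕ → ℕ) (hg : ∀ p ∈ T, 0 < g p)
    (hco : ∀ p ∈ T, ∀ q ∈ T, p ≠ q → Nat.Coprime (g p) (g q)) (N : ℕ) :
    ∑ m ∈ Icc 1 N, (∑ p ∈ T, if g p ∣ m then (1 : ℝ) else 0) ^ 2 ≤
      N * ((∑ p ∈ T, 1 / (g p : ℝ)) + (∑ p ∈ T, 1 / (g p : ℝ)) ^ 2) := by
  have h1 : ∑ m ∈ Icc 1 N, (∑ p ∈ T, if g p ∣ m then (1 : ℝ) else 0) ^ 2 =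
      ∑ p ∈ T, ∑ q ∈ T, ∑ m ∈ Icc 1 N,
        (if g p ∣ m then (1 : ℝ) else 0) * (if g q ∣ m then (1 : ℝ) else 0) := by
    calc ∑ m ∈ Icc 1 N, (∑ p ∈ T, if g p ∣ m then (1 : ℝ) else 0) ^ 2
        = ∑ m ∈ Icc 1 N, ∑ p ∈ T, ∑ q ∈ T,
          (if g p ∣ m then (1 : ℝ) else 0) * (if g q ∣ m then (1 : ℝ) else 0) := by
          refine Finset.sum_congr rfl fun m _ => ?_
          rw [sq, Finset.sum_mul_sum]
      _ = ∑ p ∈ T, ∑ m ∈ Icc 1 N, ∑ q ∈ T,
          (if g p ∣ m then (1 : ℝ) else 0) * (if g q ∣ m then (1 : ℝ) else 0) := Finset.sum_comm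
      _ = _ := Finset.sum_congr rfl fun p _ => Finset.sum_comm
  rw [h1]
  have h2 : ∀ p ∈ T, ∀ q ∈ T, ∑ m ∈ Icc 1 N,
        (if g p ∣ m then (1 : ℝ) else 0) * (if g q ∣ m then (1 : ℝ) else 0) ≤
      (if p = q then N * (1 / (g p : ℝ)) else 0) + N * ((1 / (g p : ℝ)) * (1 / (g q : ℝ))) := by
    intro p hp q hq
    have hnn : 0 ≤ (N : ℝ) * ((1 / (g p : ℝ)) * (1 / (g q : ℝ))) := by positivity
    by_cases hpq : p = q
    · subst hpq
      have : ∑ m ∈ Icc 1 N,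
        (if g p ∣ m then (1 : ℝ) else 0) * (if g p ∣ m then (1 : ℝ) else 0) =
        ∑ m ∈ Icc 1 N, (if g p ∣ m then (1 : ℝ) else 0) :=
        Finset.sum_congr rfl fun m _ => by split_ifs <;> simp
      rw [this]
      have := card_dvd_le N (g p) (hg p hp)
      simp only [if_true]
      linarith
    · have : ∑ m ∈ Icc 1 N,
        (if g p ∣ m then (1 : ℝ) else 0) * (if g q ∣ m then (1 : ℝ) else 0) =
        ∑ m ∈ Icc 1 N, (if g p * g q ∣ m then (1 : ℝ) else 0) := by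
        refine Finset.sum_congr rfl fun m _ => ?_
        have hiff : g p * g q ∣ m ↔ g p ∣ m ∧ g q ∣ m :=
          ⟨fun h => ⟨dvd_of_mul_right_dvd h, dvd_of_mul_left_dvd h⟩,
            fun h => (hco p hp q hq hpq).mul_dvd_of_dvd_of_dvd h.1 h.2⟩
        by_cases ha : g p ∣ m <;> by_cases hb : g q ∣ m <;> simp [hiff, ha, hb]
      rw [this]
      have := card_dvd_le N (g p * g q) (Nat.mul_pos (hg p hp) (hg q hq))
      rw [if_neg hpq, zero_add]
      calc _ ≤ _ := this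
        _ = _ := by push_cast; rw [one_div_mul_one_div]
  calc _ ≤ ∑ p ∈ T, ∑ q ∈ T, ((if p = q then N * (1 / (g p : ℝ)) else 0) +
          N * ((1 / (g p : ℝ)) * (1 / (g q : ℝ)))) :=
        Finset.sum_le_sum fun p hp => Finset.sum_le_sum fun q hq => h2 p hp q hq
    _ = _ := by
        rw [mul_add, Finset.mul_sum, sq, Finset.sum_mul_sum, Finset.mul_sum,
          ← Finset.sum_add_distrib]
        refine Finset.sum_congr rfl fun p hp => ?_
        rw [Finset.sum_add_distrib, Finset.sum_ite_eq, if_pos hp, Finset.mul_sum]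

/-- Turan-Kubilius. -/
lemma turan_kubilius (P : Finset ℕ) (hP : ∀ p ∈ P, p.Prime) (N : ℕ) {L : ℝ}
    (hL : L = ∑ p ∈ P, (1 / p : ℝ)) :
    ∑ m ∈ Icc 1 N, ((∑ p ∈ P, if p ∣ m then (1 : ℝ) else 0) - L) ^ 2 ≤
      N * L + 2 * L * #P := by
  have hL0 : 0 ≤ L := by rw [hL]; positivity
  have h2 := second_moment P id (fun p hp => (hP p hp).pos)
    (fun p hp q hq hpq => (Nat.coprime_primes (hP p hp) (hP q hq)).2 hpq) N
  simp only [id] at h2
  rw [← hL] at h2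
  have h1 : N * L - #P ≤ ∑ m ∈ Icc 1 N, ∑ p ∈ P, if p ∣ m then (1 : ℝ) else 0 := by
    rw [Finset.sum_comm]
    calc N * L - #P = ∑ p ∈ P, (N * (1 / (p : ℝ)) - 1) := by
          rw [Finset.sum_sub_distrib, ← Finset.mul_sum, hL]; simp
      _ ≤ _ := Finset.sum_le_sum fun p hp => card_dvd_ge N p (hP p hp).pos
  have h3 : ∑ m ∈ Icc 1 N, ((∑ p ∈ P, if p ∣ m then (1 : ℝ) else 0) - L) ^ 2 =
      ∑ m ∈ Icc 1 N, (∑ p ∈ P, if p ∣ m then (1 : ℝ) else 0) ^ 2 -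
      2 * L * (∑ m ∈ Icc 1 N, ∑ p ∈ P, if p ∣ m then (1 : ℝ) else 0) + N * L ^ 2 := by
    have : ∀ m ∈ Icc 1 N, ((∑ p ∈ P, if p ∣ m then (1 : ℝ) else 0) - L) ^ 2 =
        (∑ p ∈ P, if p ∣ m then (1 : ℝ) else 0) ^ 2 -
        2 * L * (∑ p ∈ P, if p ∣ m then (1 : ℝ) else 0) + L ^ 2 := fun m _ => by ring
    rw [Finset.sum_congr rfl this, Finset.sum_add_distrib, Finset.sum_sub_distrib,
      Finset.mul_sum]
    simp
  rw [h3]
  nlinarith [mul_le_mul_of_nonneg_left h1 hL0]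


/-- The number of prime divisors is at most `log N / log 2`. -/
lemma omega_le (T : Finset ℕ) (hT : ∀ p ∈ T, p.Prime) {m N : ℕ} (hm : 1 ≤ m) (hmN : m ≤ N) :
    (∑ p ∈ T, if p ∣ m then (1 : ℝ) else 0) ≤ Real.log N / Real.log 2 := by
  have h1 : (∑ p ∈ T, if p ∣ m then (1 : ℝ) else 0) = #(T.filter (fun p => p ∣ m)) := by simp
  have h2 : T.filter (fun p => p ∣ m) ⊆ m.primeFactors := by
    intro p hp
    rw [mem_filter] at hp
    exact Nat.mem_primeFactors.2 ⟨hT p hp.1, hp.2, by omega⟩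
  have h3 : 2 ^ #m.primeFactors ≤ N :=
    calc 2 ^ #m.primeFactors ≤ ∏ p ∈ m.primeFactors, p :=
          Finset.pow_card_le_prod _ _ _ (fun p hp => (Nat.prime_of_mem_primeFactors hp).two_le)
      _ ≤ m := Nat.le_of_dvd hm (Nat.prod_primeFactors_dvd m)
      _ ≤ N := hmN
  have hlog : 0 < Real.log 2 := Real.log_pos one_lt_two
  rw [h1, le_div_iff₀ hlog]
  have h4 : (#(T.filter (fun p => p ∣ m)) : ℝ) ≤ #m.primeFactors := by
    exact_mod_cast Finset.card_le_card h2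
  have h5 : (#m.primeFactors : ℝ) * Real.log 2 ≤ Real.log N := by
    rw [← Real.log_pow]
    apply Real.log_le_log (by positivity)
    exact_mod_cast h3
  nlinarith

lemma sum_omega (P : Finset ℕ) (hP : ∀ p ∈ P, 0 < p) (N : ℕ) (F : ℕ → ℂ) :
    ∑ m ∈ Icc 1 N, ((∑ p ∈ P, if p ∣ m then (1 : ℝ) else 0 : ℝ) : ℂ) * F m =
      ∑ p ∈ P, ∑ k ∈ Icc 1 (N / p), F (p * k) := by
  have : ∀ m ∈ Icc 1 N, ((∑ p ∈ P, if p ∣ m then (1 : ℝ) else 0 : ℝ) : ℂ) * F m =
      ∑ p ∈ P, (if p ∣ m then F m else 0) := by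
    intro m _
    rw [Complex.ofReal_sum, Finset.sum_mul]
    refine Finset.sum_congr rfl fun p _ => ?_
    split_ifs <;> simp
  rw [Finset.sum_congr rfl this, Finset.sum_comm]
  exact Finset.sum_congr rfl fun p hp => sum_dvd N p (hP p hp) F

lemma sum_omega_real (P : Finset ℕ) (hP : ∀ p ∈ P, 0 < p) (N : ℕ) (F : ℕ → ℝ) :
    ∑ m ∈ Icc 1 N, (∑ p ∈ P, if p ∣ m then (1 : ℝ) else 0) * F m =
      ∑ p ∈ P, ∑ k ∈ Icc 1 (N / p), F (p * k) := by
  have : ∀ m ∈ Icc 1 N, (∑ p ∈ P, if p ∣ m then (1 : ℝ) else 0) * F m =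
      ∑ p ∈ P, (if p ∣ m then F m else 0) := by
    intro m _
    rw [Finset.sum_mul]
    refine Finset.sum_congr rfl fun p _ => ?_
    split_ifs <;> simp
  rw [Finset.sum_congr rfl this, Finset.sum_comm]
  exact Finset.sum_congr rfl fun p hp => sum_dvd N p (hP p hp) F

/-- Error from the multiplicativity. -/
lemma mult_error (P : Finset ℕ) (hP : ∀ p ∈ P, p.Prime) (N : ℕ) (f b : ℕ → ℂ)
    (hf : ∀ n, ‖f n‖ ≤ 1) (hfm : ∀ m n, Nat.Coprime m n → f (m * n) = f m * f n) :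
    ‖∑ p ∈ P, ∑ k ∈ Icc 1 (N / p), b (p * k) * (f (p * k) - f p * f k)‖ ≤
      2 * (√(∑ m ∈ Icc 1 N, ‖b m‖ ^ 2) *
        √(N * ((∑ p ∈ P, 1 / ((p ^ 2 : ℕ) : ℝ)) + (∑ p ∈ P, 1 / ((p ^ 2 : ℕ) : ℝ)) ^ 2))) := by
  have h1 : ‖∑ p ∈ P, ∑ k ∈ Icc 1 (N / p), b (p * k) * (f (p * k) - f p * f k)‖ ≤
      ∑ p ∈ P, ∑ k ∈ Icc 1 (N / p), (if p ^ 2 ∣ p * k then 2 * ‖b (p * k)‖ else 0) := by
    refine (norm_sum_le _ _).trans (Finset.sum_le_sum fun p hp => ?_)
    refine (norm_sum_le _ _).trans (Finset.sum_le_sum fun k _ => ?_)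
    split_ifs with hd
    · rw [norm_mul, mul_comm]
      refine mul_le_mul_of_nonneg_right ?_ (norm_nonneg _)
      calc ‖f (p * k) - f p * f k‖ ≤ ‖f (p * k)‖ + ‖f p * f k‖ := norm_sub_le _ _
        _ ≤ 1 + 1 * 1 := by
            rw [norm_mul]
            gcongr
            · exact hf _
            · exact hf _
            · exact hf _
        _ = 2 := by norm_num
    · have hk : ¬ p ∣ k := by
        intro hk
        apply hd
        rw [sq]
        exact Nat.mul_dvd_mul_left p hk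
      rw [hfm p k (((hP p hp).coprime_iff_not_dvd).2 hk)]
      simp
  have h2 : ∑ p ∈ P, ∑ k ∈ Icc 1 (N / p), (if p ^ 2 ∣ p * k then 2 * ‖b (p * k)‖ else 0) =
      2 * ∑ m ∈ Icc 1 N, ‖b m‖ * (∑ p ∈ P, if p ^ 2 ∣ m then (1 : ℝ) else 0) := by
    have : ∀ p ∈ P, ∑ k ∈ Icc 1 (N / p), (if p ^ 2 ∣ p * k then 2 * ‖b (p * k)‖ else 0) =
        ∑ m ∈ Icc 1 N, 2 * (‖b m‖ * if p ^ 2 ∣ m then (1 : ℝ) else 0) := by
      intro p hp
      rw [← sum_dvd N p (hP p hp).pos (fun m => if p ^ 2 ∣ m then 2 * ‖b m‖ else 0)]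
      refine Finset.sum_congr rfl fun m _ => ?_
      by_cases h : p ^ 2 ∣ m
      · have h' : p ∣ m := (dvd_pow_self p two_ne_zero).trans h
        simp [h, h']
      · simp [h]
    rw [Finset.sum_congr rfl this, Finset.sum_comm, Finset.mul_sum]
    refine Finset.sum_congr rfl fun m _ => ?_
    rw [Finset.mul_sum, Finset.mul_sum]
  rw [h2] at h1
  refine h1.trans (mul_le_mul_of_nonneg_left ?_ zero_le_two)
  refine (Real.sum_mul_le_sqrt_mul_sqrt _ _ _).trans (mul_le_mul_of_nonneg_left ?_ (by positivity))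
  apply Real.sqrt_le_sqrt
  exact second_moment P (fun p => p ^ 2) (fun p hp => pow_pos (hP p hp).pos 2)
    (fun p hp q hq hpq => Nat.Coprime.pow 2 2 ((Nat.coprime_primes (hP p hp) (hP q hq)).2 hpq)) N

/-- One block: Cauchy-Schwarz in `k`. -/
lemma block_bound (T : Finset ℕ) (M N : ℕ) (hM : 0 < M) (hT : ∀ p ∈ T, M < p) (f b : ℕ → ℂ)
    (hf : ∀ n, ‖f n‖ ≤ 1) {D O : ℝ}
    (hD : ∑ p ∈ T, ∑ k ∈ Icc 1 (N / p), ‖b (p * k)‖ ^ 2 ≤ D)
    (hO : ∑ x ∈ (T ×ˢ T).filter (fun x => x.1 ≠ x.2),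
      ‖∑ k ∈ Icc 1 (N / max x.1 x.2), b (x.1 * k) * (starRingEnd ℂ) (b (x.2 * k))‖ ≤ O) :
    ‖∑ p ∈ T, ∑ k ∈ Icc 1 (N / p), b (p * k) * (f p * f k)‖ ≤
      √((N : ℝ) / M) * √(D + O) := by
  set h : ℕ → ℂ := fun k => ∑ p ∈ T, if k ≤ N / p then b (p * k) * f p else 0 with hh
  have hNp : ∀ p ∈ T, N / p ≤ N / M := fun p hp => Nat.div_le_div_left (hT p hp).le hM
  have h1 : ∑ p ∈ T, ∑ k ∈ Icc 1 (N / p), b (p * k) * (f p * f k) =
      ∑ k ∈ Icc 1 (N / M), h k * f k := by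
    have : ∀ p ∈ T, ∑ k ∈ Icc 1 (N / p), b (p * k) * (f p * f k) =
        ∑ k ∈ Icc 1 (N / M), (if k ≤ N / p then b (p * k) * f p else 0) * f k := by
      intro p hp
      have hfil : Icc 1 (N / p) = (Icc 1 (N / M)).filter (fun k => k ≤ N / p) := by
        ext k
        simp only [mem_filter, mem_Icc]
        have := hNp p hp
        omega
      rw [hfil, Finset.sum_filter]
      refine Finset.sum_congr rfl fun k _ => ?_
      split_ifs
      · ring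
      · simp
    rw [Finset.sum_congr rfl this, Finset.sum_comm]
    refine Finset.sum_congr rfl fun k _ => ?_
    rw [hh, Finset.sum_mul]
  have h2 : ‖∑ k ∈ Icc 1 (N / M), h k * f k‖ ≤ ∑ k ∈ Icc 1 (N / M), 1 * ‖h k‖ := by
    refine (norm_sum_le _ _).trans (Finset.sum_le_sum fun k _ => ?_)
    rw [norm_mul, one_mul]
    exact mul_le_of_le_one_right (norm_nonneg _) (hf k)
  have h3 : ∑ k ∈ Icc 1 (N / M), 1 * ‖h k‖ ≤
      √(∑ k ∈ Icc 1 (N / M), (1 : ℝ) ^ 2) * √(∑ k ∈ Icc 1 (N / M), ‖h k‖ ^ 2) :=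
    Real.sum_mul_le_sqrt_mul_sqrt _ _ _
  have h4 : ∑ k ∈ Icc 1 (N / M), (1 : ℝ) ^ 2 ≤ (N : ℝ) / M := by
    simp only [one_pow, sum_const, Nat.card_Icc, add_tsub_cancel_right, nsmul_eq_mul, mul_one]
    exact Nat.cast_div_le
  have h5 : ∑ k ∈ Icc 1 (N / M), ‖h k‖ ^ 2 ≤ D + O := by
    have e1 : ((∑ k ∈ Icc 1 (N / M), ‖h k‖ ^ 2 : ℝ) : ℂ) =
        ∑ x ∈ T ×ˢ T, f x.1 * (starRingEnd ℂ) (f x.2) *
          ∑ k ∈ Icc 1 (N / max x.1 x.2), b (x.1 * k) * (starRingEnd ℂ) (b (x.2 * k)) := by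
      rw [Complex.ofReal_sum, Finset.sum_product]
      have : ∀ k ∈ Icc 1 (N / M), ((‖h k‖ ^ 2 : ℝ) : ℂ) = ∑ p ∈ T, ∑ q ∈ T,
          (if k ≤ N / p then b (p * k) * f p else 0) *
            (starRingEnd ℂ) (if k ≤ N / q then b (q * k) * f q else 0) := by
        intro k _
        rw [← Finset.sum_mul_sum, ← map_sum, ← Complex.normSq_eq_norm_sq, Complex.mul_conj]
      rw [Finset.sum_congr rfl this, Finset.sum_comm]
      refine Finset.sum_congr rfl fun p hp => ?_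
      rw [Finset.sum_comm]
      refine Finset.sum_congr rfl fun q hq => ?_
      have hpq : N / max p q = min (N / p) (N / q) := by
        rcases le_total p q with hle | hle
        · rw [max_eq_right hle, min_eq_right]
          exact Nat.div_le_div_left hle (lt_of_lt_of_le hM (hT p hp).le)
        · rw [max_eq_left hle, min_eq_left]
          exact Nat.div_le_div_left hle (lt_of_lt_of_le hM (hT q hq).le)
      have hfil : Icc 1 (N / max p q) =
          (Icc 1 (N / M)).filter (fun k => k ≤ N / p ∧ k ≤ N / q) := by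
        ext k
        simp only [mem_filter, mem_Icc, hpq, le_min_iff]
        have := hNp p hp
        omega
      simp only
      rw [hfil, Finset.sum_filter, Finset.mul_sum]
      refine Finset.sum_congr rfl fun k _ => ?_
      by_cases c1 : k ≤ N / p <;> by_cases c2 : k ≤ N / q <;> simp [c1, c2]
      ring
    have e2 : (∑ k ∈ Icc 1 (N / M), ‖h k‖ ^ 2 : ℝ) ≤
        ∑ x ∈ T ×ˢ T,
          ‖∑ k ∈ Icc 1 (N / max x.1 x.2), b (x.1 * k) * (starRingEnd ℂ) (b (x.2 * k))‖ := by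
      have e3 : (∑ k ∈ Icc 1 (N / M), ‖h k‖ ^ 2 : ℝ) =
          ‖((∑ k ∈ Icc 1 (N / M), ‖h k‖ ^ 2 : ℝ) : ℂ)‖ := by
        rw [Complex.norm_real, Real.norm_of_nonneg (by positivity)]
      rw [e3, e1]
      refine (norm_sum_le _ _).trans (Finset.sum_le_sum fun x _ => ?_)
      rw [norm_mul, norm_mul, RCLike.norm_conj]
      calc _ ≤ 1 * 1 * ‖∑ k ∈ Icc 1 (N / max x.1 x.2),
            b (x.1 * k) * (starRingEnd ℂ) (b (x.2 * k))‖ := by
            gcongr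
            · exact hf _
            · exact hf _
        _ = _ := by ring
    refine e2.trans ?_
    rw [← Finset.sum_filter_add_sum_filter_not (T ×ˢ T) (fun x => x.1 = x.2)]
    refine add_le_add ?_ hO
    refine le_trans (le_of_eq ?_) hD
    have himg : (T ×ˢ T).filter (fun x => x.1 = x.2) = T.image (fun p => (p, p)) := by
      ext ⟨x, y⟩
      simp only [mem_filter, mem_product, mem_image, Prod.mk.injEq]
      constructor
      · rintro ⟨⟨h1, _⟩, h3⟩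
        exact ⟨x, h1, rfl, h3⟩
      · rintro ⟨z, hz, rfl, rfl⟩
        exact ⟨⟨hz, hz⟩, rfl⟩
    rw [himg, Finset.sum_image (fun x _ y _ hxy => (Prod.mk.inj hxy).1)]
    refine Finset.sum_congr rfl fun p _ => ?_
    simp only [max_self]
    have : ∀ k ∈ Icc 1 (N / p), b (p * k) * (starRingEnd ℂ) (b (p * k)) =
        ((‖b (p * k)‖ ^ 2 : ℝ) : ℂ) := fun k _ => by
      rw [Complex.mul_conj, Complex.normSq_eq_norm_sq]
    rw [Finset.sum_congr rfl this, ← Complex.ofReal_sum, Complex.norm_real,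
      Real.norm_of_nonneg (by positivity)]
  rw [h1]
  refine h2.trans (h3.trans ?_)
  exact mul_le_mul (Real.sqrt_le_sqrt h4) (Real.sqrt_le_sqrt h5) (by positivity) (by positivity)

lemma sqrt_add_le {x y : ℝ} (hx : 0 ≤ x) (hy : 0 ≤ y) : √(x + y) ≤ √x + √y := by
  rw [Real.sqrt_le_left (by positivity)]
  nlinarith [Real.sq_sqrt hx, Real.sq_sqrt hy, mul_nonneg (Real.sqrt_nonneg x) (Real.sqrt_nonneg y)]

lemma mem_blk {j p : ℕ} : p ∈ blk j ↔ (4 ^ j < p ∧ p ≤ 4 ^ (j + 1)) ∧ p.Prime := by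
  simp [blk]

lemma blk_disj {i j : ℕ} (h : i < j) : Disjoint (blk i) (blk j) := by
  rw [Finset.disjoint_left]
  intro p hp hq
  rw [mem_blk] at hp hq
  have : 4 ^ (i + 1) ≤ 4 ^ j := Nat.pow_le_pow_right (by norm_num) h
  omega

lemma blk_pairwise (s : Set ℕ) : s.PairwiseDisjoint blk := by
  intro i _ j _ hij
  rcases lt_or_gt_of_ne hij with h | h
  · exact blk_disj h
  · exact (blk_disj h).symm

lemma geom (j₁ j₂ : ℕ) : ∑ j ∈ Ico j₁ j₂, (1 / 2 : ℝ) ^ j ≤ 2 * (1 / 2) ^ j₁ := by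
  rcases le_total j₂ j₁ with h | h
  · rw [Finset.Ico_eq_empty_of_le h, Finset.sum_empty]
    positivity
  · have : ∑ j ∈ Ico j₁ j₂, (1 / 2 : ℝ) ^ j = 2 * (1 / 2) ^ j₁ - 2 * (1 / 2) ^ j₂ := by
      induction j₂, h using Nat.le_induction with
      | base => simp
      | succ n hn ih =>
        rw [Finset.sum_Ico_succ_top hn, ih, pow_succ]
        ring
    rw [this]
    have : (0 : ℝ) < 2 * (1 / 2) ^ j₂ := by positivity
    linarith

lemma sum_inv_sq (j₁ j₂ : ℕ) :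
    ∑ p ∈ (Ico j₁ j₂).biUnion blk, 1 / ((p ^ 2 : ℕ) : ℝ) ≤ 1 / 4 ^ j₁ := by
  have hsub : (Ico j₁ j₂).biUnion blk ⊆ Ioc (4 ^ j₁) (4 ^ (max j₁ j₂)) := by
    intro p hp
    rw [mem_biUnion] at hp
    obtain ⟨j, hj, hp⟩ := hp
    rw [mem_blk] at hp
    rw [mem_Ico] at hj
    rw [mem_Ioc]
    have h1 : 4 ^ j₁ ≤ 4 ^ j := Nat.pow_le_pow_right (by norm_num) hj.1
    have h2 : 4 ^ (j + 1) ≤ 4 ^ (max j₁ j₂) :=
      Nat.pow_le_pow_right (by norm_num) (le_trans hj.2 (le_max_right _ _))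
    omega
  have h0 : (4 ^ j₁ : ℕ) ≠ 0 := by positivity
  have h1 : 4 ^ j₁ ≤ 4 ^ (max j₁ j₂) := Nat.pow_le_pow_right (by norm_num) (le_max_left _ _)
  have h2 := sum_Ioc_inv_sq_le_sub (α := ℝ) h0 h1
  calc ∑ p ∈ (Ico j₁ j₂).biUnion blk, 1 / ((p ^ 2 : ℕ) : ℝ)
      ≤ ∑ p ∈ Ioc (4 ^ j₁) (4 ^ (max j₁ j₂)), 1 / ((p ^ 2 : ℕ) : ℝ) :=
        Finset.sum_le_sum_of_subset_of_nonneg hsub (fun _ _ _ => by positivity)
    _ = ∑ p ∈ Ioc (4 ^ j₁ : ℕ) (4 ^ (max j₁ j₂)), ((p : ℝ) ^ 2)⁻¹ := by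
        refine Finset.sum_congr rfl fun p _ => ?_
        push_cast
        rw [one_div]
    _ ≤ _ := h2
    _ ≤ 1 / 4 ^ j₁ := by
        push_cast
        rw [one_div]
        have : (0 : ℝ) ≤ (4 ^ (max j₁ j₂))⁻¹ := by positivity
        linarith

end Katai_

open Katai_ in
/-- Turan-Kubilius and Katai, with an approximating sequence `b` of `a`. -/
theorem katai {N j₁ j₂ : ℕ} (hN : 1 ≤ N) (f a b : ℕ → ℂ) (hf : ∀ n, ‖f n‖ ≤ 1)
    (hfm : ∀ m n, Nat.Coprime m n → f (m * n) = f m * f n) (ha : ∀ n, ‖a n‖ ≤ 1)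
    {E R : ℝ} (hE : 0 ≤ E) (hR : 0 ≤ R) (hab : ∑ m ∈ Icc 1 N, ‖a m - b m‖ ^ 2 ≤ E * N)
    (hcor : ∀ j, j₁ ≤ j → j < j₂ → ∑ x ∈ (blk j ×ˢ blk j).filter (fun x => x.1 ≠ x.2),
      ‖∑ k ∈ Icc 1 (N / max x.1 x.2), b (x.1 * k) * (starRingEnd ℂ) (b (x.2 * k))‖ ≤
        R * (N / 4 ^ j) * (#(blk j) : ℝ) ^ 2) {L : ℝ}
    (hL : L = ∑ p ∈ (Ico j₁ j₂).biUnion blk, (1 / p : ℝ)) :
    L * ‖∑ m ∈ Icc 1 N, a m * f m‖ ≤ 10 * N * (
      √(L * (1 + #((Ico j₁ j₂).biUnion blk) / N)) + √(E * (L + L ^ 2)) +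
      √((1 + E) * (1 + Real.log N)) / 2 ^ j₁ + L * √R) := by
  set P := (Ico j₁ j₂).biUnion blk with hPdef
  have hP : ∀ p ∈ P, p.Prime := by
    intro p hp
    rw [hPdef, mem_biUnion] at hp
    obtain ⟨j, _, hp⟩ := hp
    exact (mem_blk.1 hp).2
  have hPpos : ∀ p ∈ P, 0 < p := fun p hp => (hP p hp).pos
  have hL0 : 0 ≤ L := by rw [hL]; positivity
  have hN' : (0 : ℝ) < N := by exact_mod_cast hN
  set ω : ℕ → ℝ := fun m => ∑ p ∈ P, if p ∣ m then (1 : ℝ) else 0 with hω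
  have hω0 : ∀ m, 0 ≤ ω m := fun m => by
    rw [hω]
    exact Finset.sum_nonneg fun p _ => by split_ifs <;> norm_num
  -- the four pieces
  have hdec : (L : ℂ) * ∑ m ∈ Icc 1 N, a m * f m =
      ∑ m ∈ Icc 1 N, ((L - ω m : ℝ) : ℂ) * (a m * f m) +
      ∑ m ∈ Icc 1 N, ((ω m : ℝ) : ℂ) * ((a m - b m) * f m) +
      ∑ p ∈ P, ∑ k ∈ Icc 1 (N / p), b (p * k) * (f (p * k) - f p * f k) +
      ∑ j ∈ Ico j₁ j₂, ∑ p ∈ blk j, ∑ k ∈ Icc 1 (N / p), b (p * k) * (f p * f k) := by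
    have e1 : ∑ m ∈ Icc 1 N, ((ω m : ℝ) : ℂ) * (b m * f m) =
        ∑ p ∈ P, ∑ k ∈ Icc 1 (N / p), b (p * k) * f (p * k) :=
      sum_omega P hPpos N (fun m => b m * f m)
    have e2 : ∑ j ∈ Ico j₁ j₂, ∑ p ∈ blk j, ∑ k ∈ Icc 1 (N / p), b (p * k) * (f p * f k) =
        ∑ p ∈ P, ∑ k ∈ Icc 1 (N / p), b (p * k) * (f p * f k) := by
      rw [hPdef, Finset.sum_biUnion (blk_pairwise _)]
    have e3 : ∑ p ∈ P, ∑ k ∈ Icc 1 (N / p), b (p * k) * (f (p * k) - f p * f k) =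
        ∑ p ∈ P, ∑ k ∈ Icc 1 (N / p), b (p * k) * f (p * k) -
        ∑ p ∈ P, ∑ k ∈ Icc 1 (N / p), b (p * k) * (f p * f k) := by
      rw [← Finset.sum_sub_distrib]
      refine Finset.sum_congr rfl fun p _ => ?_
      rw [← Finset.sum_sub_distrib]
      refine Finset.sum_congr rfl fun k _ => ?_
      ring
    have e4 : (L : ℂ) * ∑ m ∈ Icc 1 N, a m * f m =
        ∑ m ∈ Icc 1 N, ((L - ω m : ℝ) : ℂ) * (a m * f m) +
        ∑ m ∈ Icc 1 N, ((ω m : ℝ) : ℂ) * ((a m - b m) * f m) +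
        ∑ m ∈ Icc 1 N, ((ω m : ℝ) : ℂ) * (b m * f m) := by
      rw [Finset.mul_sum, ← Finset.sum_add_distrib, ← Finset.sum_add_distrib]
      refine Finset.sum_congr rfl fun m _ => ?_
      push_cast
      ring
    rw [e4, e1, e2, e3]
    ring
  have hX : L * ‖∑ m ∈ Icc 1 N, a m * f m‖ =
      ‖(L : ℂ) * ∑ m ∈ Icc 1 N, a m * f m‖ := by
    rw [norm_mul, Complex.norm_real, Real.norm_of_nonneg hL0]
  -- piece 1
  have p1 : ‖∑ m ∈ Icc 1 N, ((L - ω m : ℝ) : ℂ) * (a m * f m)‖ ≤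
      2 * (N * √(L * (1 + #P / N))) := by
    have q1 : ‖∑ m ∈ Icc 1 N, ((L - ω m : ℝ) : ℂ) * (a m * f m)‖ ≤
        ∑ m ∈ Icc 1 N, 1 * |ω m - L| := by
      refine (norm_sum_le _ _).trans (Finset.sum_le_sum fun m _ => ?_)
      rw [norm_mul, norm_mul, Complex.norm_real, Real.norm_eq_abs, abs_sub_comm, one_mul]
      refine mul_le_of_le_one_right (abs_nonneg _) ?_
      calc ‖a m‖ * ‖f m‖ ≤ 1 * 1 := mul_le_mul (ha m) (hf m) (norm_nonneg _) zero_le_one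
        _ = 1 := by norm_num
    have q2 := Real.sum_mul_le_sqrt_mul_sqrt (Icc 1 N) (fun _ => (1 : ℝ)) (fun m => |ω m - L|)
    have q3 : ∑ m ∈ Icc 1 N, |ω m - L| ^ 2 ≤ N * L + 2 * L * #P := by
      simp only [sq_abs]
      exact turan_kubilius P hP N hL
    have q4 : ∑ m ∈ Icc 1 N, (1 : ℝ) ^ 2 = N := by simp
    refine q1.trans (q2.trans ?_)
    rw [q4]
    calc √(N : ℝ) * √(∑ m ∈ Icc 1 N, |ω m - L| ^ 2)
        ≤ √(N : ℝ) * √(N * L + 2 * L * #P) :=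
          mul_le_mul_of_nonneg_left (Real.sqrt_le_sqrt q3) (Real.sqrt_nonneg _)
      _ = √((N : ℝ) * (N * L + 2 * L * #P)) := by rw [Real.sqrt_mul hN'.le]
      _ ≤ √((2 * N) ^ 2 * (L * (1 + #P / N))) := by
          apply Real.sqrt_le_sqrt
          have : (2 * (N : ℝ)) ^ 2 * (L * (1 + #P / N)) =
              4 * N * (N * L) + 4 * N * (L * #P) := by
            field_simp
            ring
          rw [this]
          have h1 : 0 ≤ (N : ℝ) * (N * L) := by positivity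
          have h2 : 0 ≤ (N : ℝ) * (L * #P) := by positivity
          nlinarith
      _ = 2 * (N * √(L * (1 + #P / N))) := by
          rw [Real.sqrt_mul (by positivity), Real.sqrt_sq (by positivity)]
          ring
  -- piece 2
  have p2 : ‖∑ m ∈ Icc 1 N, ((ω m : ℝ) : ℂ) * ((a m - b m) * f m)‖ ≤
      N * √(E * (L + L ^ 2)) := by
    have q1 : ‖∑ m ∈ Icc 1 N, ((ω m : ℝ) : ℂ) * ((a m - b m) * f m)‖ ≤
        ∑ m ∈ Icc 1 N, ω m * ‖a m - b m‖ := by
      refine (norm_sum_le _ _).trans (Finset.sum_le_sum fun m _ => ?_)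
      rw [norm_mul, norm_mul, Complex.norm_real, Real.norm_of_nonneg (hω0 m)]
      exact mul_le_mul_of_nonneg_left (mul_le_of_le_one_right (norm_nonneg _) (hf m)) (hω0 m)
    have q2 := Real.sum_mul_le_sqrt_mul_sqrt (Icc 1 N) ω (fun m => ‖a m - b m‖)
    have q3 : ∑ m ∈ Icc 1 N, ω m ^ 2 ≤ N * (L + L ^ 2) := by
      have := second_moment P id (fun p hp => (hP p hp).pos)
        (fun p hp q hq hpq => (Nat.coprime_primes (hP p hp) (hP q hq)).2 hpq) N
      simp only [id] at this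
      rw [← hL] at this
      exact this
    refine q1.trans (q2.trans ?_)
    calc √(∑ m ∈ Icc 1 N, ω m ^ 2) * √(∑ m ∈ Icc 1 N, ‖a m - b m‖ ^ 2)
        ≤ √(N * (L + L ^ 2)) * √(E * N) :=
          mul_le_mul (Real.sqrt_le_sqrt q3) (Real.sqrt_le_sqrt hab) (Real.sqrt_nonneg _)
            (Real.sqrt_nonneg _)
      _ = √((N : ℝ) ^ 2 * (E * (L + L ^ 2))) := by
          rw [← Real.sqrt_mul (by positivity)]
          congr 1
          ring
      _ = N * √(E * (L + L ^ 2)) := by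
          rw [Real.sqrt_mul (by positivity), Real.sqrt_sq (by positivity)]
  -- the sum of the squares of b
  have hb2 : ∑ m ∈ Icc 1 N, ‖b m‖ ^ 2 ≤ 2 * (1 + E) * N := by
    have : ∀ m ∈ Icc 1 N, ‖b m‖ ^ 2 ≤ 2 + 2 * ‖a m - b m‖ ^ 2 := by
      intro m _
      have h1 : ‖b m‖ ≤ 1 + ‖a m - b m‖ := by
        calc ‖b m‖ = ‖a m - (a m - b m)‖ := by rw [sub_sub_cancel]
          _ ≤ ‖a m‖ + ‖a m - b m‖ := norm_sub_le _ _
          _ ≤ 1 + ‖a m - b m‖ := by linarith [ha m]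
      have h2 := norm_nonneg (b m)
      nlinarith [sq_nonneg (1 - ‖a m - b m‖)]
    refine (Finset.sum_le_sum this).trans ?_
    rw [Finset.sum_add_distrib, ← Finset.mul_sum]
    simp only [sum_const, Nat.card_Icc, add_tsub_cancel_right, nsmul_eq_mul]
    nlinarith
  have hlogN : 0 ≤ Real.log N := Real.log_nonneg (by exact_mod_cast hN)
  have h4pow : ∀ j : ℕ, √((4 : ℝ) ^ j) = 2 ^ j := by
    intro j
    have : (4 : ℝ) ^ j = (2 ^ j) ^ 2 := by
      rw [← pow_mul, mul_comm, pow_mul]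
      norm_num
    rw [this, Real.sqrt_sq (by positivity)]
  -- piece 3
  have p3 : ‖∑ p ∈ P, ∑ k ∈ Icc 1 (N / p), b (p * k) * (f (p * k) - f p * f k)‖ ≤
      4 * (N * (√((1 + E) * (1 + Real.log N)) / 2 ^ j₁)) := by
    set S := ∑ p ∈ P, 1 / ((p ^ 2 : ℕ) : ℝ) with hS
    have hS0 : 0 ≤ S := by positivity
    have hS1 : S ≤ 1 / 4 ^ j₁ := sum_inv_sq j₁ j₂
    have hS2 : S ≤ 1 := hS1.trans (by
      rw [div_le_one (by positivity)]
      exact one_le_pow₀ (by norm_num))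
    have q1 := mult_error P hP N f b hf hfm
    rw [← hS] at q1
    refine q1.trans ?_
    calc 2 * (√(∑ m ∈ Icc 1 N, ‖b m‖ ^ 2) * √(N * (S + S ^ 2)))
        ≤ 2 * (√(2 * (1 + E) * N) * √(N * (2 * (1 / 4 ^ j₁)))) := by
          gcongr
          nlinarith
      _ = 2 * √((2 * N) ^ 2 * ((1 + E) / 4 ^ j₁)) := by
          rw [← Real.sqrt_mul (by positivity)]
          congr 2
          ring
      _ = 4 * (N * (√(1 + E) / 2 ^ j₁)) := by
          rw [Real.sqrt_mul (by positivity), Real.sqrt_sq (by positivity),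
            Real.sqrt_div (by positivity), h4pow]
          ring
      _ ≤ 4 * (N * (√((1 + E) * (1 + Real.log N)) / 2 ^ j₁)) := by
          gcongr
          nlinarith
  -- piece 4
  have p4 : ‖∑ j ∈ Ico j₁ j₂, ∑ p ∈ blk j, ∑ k ∈ Icc 1 (N / p), b (p * k) * (f p * f k)‖ ≤
      4 * (N * (√((1 + E) * (1 + Real.log N)) / 2 ^ j₁)) + 4 * (N * (L * √R)) := by
    set D := Real.log N / Real.log 2 * (2 * (1 + E) * N) with hD
    have hlog2 : 0 < Real.log 2 := Real.log_pos one_lt_two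
    have hD0 : 0 ≤ D := by positivity
    have q1 : ∀ j ∈ Ico j₁ j₂,
        ‖∑ p ∈ blk j, ∑ k ∈ Icc 1 (N / p), b (p * k) * (f p * f k)‖ ≤
        √(N * D) * (1 / 2) ^ j + N * √R * (#(blk j) / 4 ^ j) := by
      intro j hj
      rw [mem_Ico] at hj
      have hTp : ∀ p ∈ blk j, p.Prime := fun p hp => (mem_blk.1 hp).2
      have r1 : ∑ p ∈ blk j, ∑ k ∈ Icc 1 (N / p), ‖b (p * k)‖ ^ 2 ≤ D := by
        rw [← sum_omega_real (blk j) (fun p hp => (hTp p hp).pos) N (fun m => ‖b m‖ ^ 2)]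
        calc _ ≤ ∑ m ∈ Icc 1 N, Real.log N / Real.log 2 * ‖b m‖ ^ 2 := by
              refine Finset.sum_le_sum fun m hm => ?_
              rw [mem_Icc] at hm
              exact mul_le_mul_of_nonneg_right (omega_le (blk j) hTp hm.1 hm.2) (by positivity)
          _ = Real.log N / Real.log 2 * ∑ m ∈ Icc 1 N, ‖b m‖ ^ 2 := by rw [Finset.mul_sum]
          _ ≤ D := mul_le_mul_of_nonneg_left hb2 (by positivity)
      have r2 := block_bound (blk j) (4 ^ j) N (by positivity) (fun p hp => (mem_blk.1 hp).1.1)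
        f b hf r1 (hcor j hj.1 hj.2)
      refine r2.trans ?_
      have r3 : √(D + R * (N / 4 ^ j) * (#(blk j) : ℝ) ^ 2) ≤
          √D + √(R * (N / 4 ^ j) * (#(blk j) : ℝ) ^ 2) :=
        sqrt_add_le hD0 (by positivity)
      have r4 : √((N : ℝ) / ((4 ^ j : ℕ) : ℝ)) = √N / 2 ^ j := by
        push_cast
        rw [Real.sqrt_div hN'.le, h4pow]
      have r5 : √(R * (N / 4 ^ j) * (#(blk j) : ℝ) ^ 2) =
          √R * (√N / 2 ^ j) * #(blk j) := by
        rw [Real.sqrt_mul (by positivity), Real.sqrt_sq (by positivity),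
          Real.sqrt_mul hR, Real.sqrt_div hN'.le, h4pow]
      rw [r4]
      refine (mul_le_mul_of_nonneg_left r3 (by positivity)).trans (le_of_eq ?_)
      rw [r5, Real.sqrt_mul hN'.le, mul_add]
      have h2j : ((1 : ℝ) / 2) ^ j = 1 / 2 ^ j := by rw [one_div_pow]
      have h4j : (4 : ℝ) ^ j = 2 ^ j * 2 ^ j := by
        rw [← mul_pow]
        norm_num
      have hNN : (N : ℝ) = √N * √N := (Real.mul_self_sqrt hN'.le).symm
      rw [h2j, h4j]
      congr 1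
      · ring
      · generalize (2 : ℝ) ^ j = w
        calc √(N : ℝ) / w * (√R * (√(N : ℝ) / w) * #(blk j))
            = (√(N : ℝ) * √(N : ℝ)) * √R * (#(blk j) / (w * w)) := by ring
          _ = _ := by rw [← hNN]
    refine (norm_sum_le _ _).trans ((Finset.sum_le_sum q1).trans ?_)
    rw [Finset.sum_add_distrib, ← Finset.mul_sum, ← Finset.mul_sum]
    have q2 : ∑ j ∈ Ico j₁ j₂, ((#(blk j) : ℝ) / 4 ^ j) ≤ 4 * L := by
      rw [hL, hPdef, Finset.sum_biUnion (blk_pairwise _), Finset.mul_sum]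
      refine Finset.sum_le_sum fun j _ => ?_
      calc (#(blk j) : ℝ) / 4 ^ j = ∑ p ∈ blk j, (1 : ℝ) / 4 ^ j := by
            rw [Finset.sum_const, nsmul_eq_mul]
            ring
        _ ≤ ∑ p ∈ blk j, 4 * (1 / (p : ℝ)) := by
            refine Finset.sum_le_sum fun p hp => ?_
            have h1 : (p : ℝ) ≤ 4 ^ (j + 1) := by exact_mod_cast (mem_blk.1 hp).1.2
            have h2 : (0 : ℝ) < p := by exact_mod_cast ((mem_blk.1 hp).2).pos
            rw [mul_one_div, div_le_div_iff₀ (by positivity) h2]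
            rw [pow_succ] at h1
            linarith
        _ = _ := by rw [Finset.mul_sum]
    have q3 : √(N * D) ≤ 2 * (N * √((1 + E) * (1 + Real.log N))) := by
      calc √(N * D) ≤ √((2 * N) ^ 2 * ((1 + E) * (1 + Real.log N))) := by
            apply Real.sqrt_le_sqrt
            rw [hD]
            have h1 : Real.log N / Real.log 2 ≤ 2 * (1 + Real.log N) := by
              rw [div_le_iff₀ hlog2]
              have := Real.log_two_gt_d9
              nlinarith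
            calc (N : ℝ) * (Real.log N / Real.log 2 * (2 * (1 + E) * N))
                ≤ N * (2 * (1 + Real.log N) * (2 * (1 + E) * N)) := by gcongr
              _ = _ := by ring
        _ = _ := by
            rw [Real.sqrt_mul (by positivity), Real.sqrt_sq (by positivity)]
            ring
    have q4 := geom j₁ j₂
    refine add_le_add ?_ ?_
    · calc √(N * D) * ∑ j ∈ Ico j₁ j₂, (1 / 2 : ℝ) ^ j
          ≤ 2 * (N * √((1 + E) * (1 + Real.log N))) * (2 * (1 / 2) ^ j₁) :=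
            mul_le_mul q3 q4 (Finset.sum_nonneg fun _ _ => by positivity) (by positivity)
        _ = _ := by
            rw [one_div_pow]
            ring
    · calc (N : ℝ) * √R * ∑ j ∈ Ico j₁ j₂, ((#(blk j) : ℝ) / 4 ^ j)
          ≤ N * √R * (4 * L) := mul_le_mul_of_nonneg_left q2 (by positivity)
        _ = _ := by ring
  rw [hX, hdec]
  refine (norm_add_le _ _).trans ?_
  refine (add_le_add_left (norm_add_le _ _) _).trans ?_
  refine (add_le_add_left (add_le_add_left (norm_add_le _ _) _) _).trans ?_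
  have t1 : 0 ≤ (N : ℝ) * √(L * (1 + #P / N)) := by positivity
  have t2 : 0 ≤ (N : ℝ) * √(E * (L + L ^ 2)) := by positivity
  have t3 : 0 ≤ (N : ℝ) * (√((1 + E) * (1 + Real.log N)) / 2 ^ j₁) := by positivity
  have t4 : 0 ≤ (N : ℝ) * (L * √R) := by positivity
  have hfin : 10 * (N : ℝ) * (√(L * (1 + #P / N)) + √(E * (L + L ^ 2)) +
      √((1 + E) * (1 + Real.log N)) / 2 ^ j₁ + L * √R) =
      10 * ((N : ℝ) * √(L * (1 + #P / N))) + 10 * ((N : ℝ) * √(E * (L + L ^ 2))) +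
      10 * ((N : ℝ) * (√((1 + E) * (1 + Real.log N)) / 2 ^ j₁)) +
      10 * ((N : ℝ) * (L * √R)) := by ring
  rw [hfin]
  linarith

end Pool.Agent.Elliott
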