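import Pool.Agent.Elliott.Cheb
import Pool.Agent.Elliott.Katai

/-! ELL-LOWER (helper59): lower bound for the sum of `1/p` over blocks. -/

set_option autoImplicit false

namespace Pool.Agent.Elliott

open Finset

lemma log_div_le_sum_inv (j₁ j₂ : ℕ) (h1 : 1 ≤ j₁) (h2 : j₁ ≤ j₂) :
    Real.log (j₂ / j₁) ≤ ∑ j ∈ Ico j₁ j₂, (1 / j : ℝ) := by
  have hj1 : (0 : ℝ) < j₁ := by exact_mod_cast h1
  induction j₂, h2 using Nat.le_induction with
  | base =>
    rw [div_self hj1.ne']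
    simp
  | succ n hn ih =>
    have hn0 : (0 : ℝ) < n := by exact_mod_cast (lt_of_lt_of_le h1 hn)
    rw [Finset.sum_Ico_succ_top hn]
    have e : (((n + 1 : ℕ) : ℝ)) / j₁ = ((n : ℝ) / j₁) * (((n : ℝ) + 1) / n) := by
      push_cast
      field_simp
    rw [e, Real.log_mul (by positivity) (by positivity)]
    have h3 : Real.log (((n : ℝ) + 1) / n) ≤ 1 / n := by
      have := Real.log_le_sub_one_of_pos (x := ((n : ℝ) + 1) / n) (by positivity)
      have e2 : ((n : ℝ) + 1) / n - 1 = 1 / n := by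
        field_simp
        ring
      linarith
    linarith

theorem sum_inv_blk_lower : ∃ c : ℝ, 0 < c ∧ ∀ j₁ j₂ : ℕ, 1 ≤ j₁ → j₁ ≤ j₂ →
    c * Real.log (j₂ / j₁) ≤ ∑ p ∈ (Ico j₁ j₂).biUnion blk, (1 / p : ℝ) := by
  obtain ⟨c, hc, hcb⟩ := card_blk_lower
  refine ⟨c / 4, by positivity, ?_⟩
  intro j₁ j₂ h1 h2
  rw [Finset.sum_biUnion (Katai_.blk_pairwise _)]
  calc c / 4 * Real.log (j₂ / j₁) ≤ c / 4 * ∑ j ∈ Ico j₁ j₂, (1 / j : ℝ) := by
        have := log_div_le_sum_inv j₁ j₂ h1 h2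
        gcongr
    _ = ∑ j ∈ Ico j₁ j₂, c / 4 * (1 / j : ℝ) := by rw [Finset.mul_sum]
    _ ≤ ∑ j ∈ Ico j₁ j₂, ∑ p ∈ blk j, (1 / p : ℝ) := by
      apply Finset.sum_le_sum
      intro j hj
      have hj1 : 1 ≤ j := h1.trans (Finset.mem_Ico.1 hj).1
      have hj0 : (0 : ℝ) < j := by exact_mod_cast hj1
      calc c / 4 * (1 / j : ℝ) = (c * 4 ^ j / j) * (1 / 4 ^ (j + 1)) := by
            rw [pow_succ]; field_simp
        _ ≤ (#(blk j) : ℝ) * (1 / 4 ^ (j + 1)) := by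
          have := hcb j hj1
          gcongr
        _ = ∑ p ∈ blk j, (1 / 4 ^ (j + 1) : ℝ) := by
          rw [Finset.sum_const, nsmul_eq_mul]
        _ ≤ ∑ p ∈ blk j, (1 / p : ℝ) := by
          apply Finset.sum_le_sum
          intro p hp
          rw [Katai_.mem_blk] at hp
          have hp0 : (0 : ℝ) < p := by exact_mod_cast hp.2.pos
          have hp1 : (p : ℝ) ≤ 4 ^ (j + 1) := by exact_mod_cast hp.1.2
          exact one_div_le_one_div_of_le hp0 hp1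

theorem card_biUnion_blk_le (j₁ j₂ : ℕ) : #((Ico j₁ j₂).biUnion blk) ≤ 4 ^ j₂ := by
  have hsub : (Ico j₁ j₂).biUnion blk ⊆ Ioc 0 (4 ^ j₂) := by
    intro p hp
    rw [Finset.mem_biUnion] at hp
    obtain ⟨j, hj, hp⟩ := hp
    rw [Katai_.mem_blk] at hp
    rw [Finset.mem_Ioc]
    refine ⟨hp.2.pos, hp.1.2.trans ?_⟩
    exact Nat.pow_le_pow_right (by norm_num) (Finset.mem_Ico.1 hj).2
  have := Finset.card_le_card hsub
  rwa [Nat.card_Ioc, Nat.sub_zero] at this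

end Pool.Agent.Elliott
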