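import Pool.Agent.Elliott.Block

namespace Pool.Agent.Elliott

open Finset

theorem sum_high_power (S : Finset ℕ) (hS : ∀ l ∈ S, 2 ≤ l) (B N : ℕ) :
    ∑ n ∈ Icc 1 N, (open Classical in if ∃ l ∈ S, l ^ B ∣ n then (1 : ℝ) else 0) ≤
      N * (#S / 2 ^ B) := by
  classical
  have h1 : ∀ n ∈ Icc 1 N, (if ∃ l ∈ S, l ^ B ∣ n then (1 : ℝ) else 0) ≤
      ∑ l ∈ S, if l ^ B ∣ n then (1 : ℝ) else 0 := by
    intro n _
    split_ifs with h
    · obtain ⟨l, hl, hd⟩ := h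
      have h2 : (if l ^ B ∣ n then (1 : ℝ) else 0) ≤ ∑ l ∈ S, if l ^ B ∣ n then (1 : ℝ) else 0 :=
        Finset.single_le_sum (f := fun l => if l ^ B ∣ n then (1 : ℝ) else 0)
          (fun i _ => by
            show (0 : ℝ) ≤ if i ^ B ∣ n then (1 : ℝ) else 0
            split_ifs <;> norm_num) hl
      rwa [if_pos hd] at h2
    · exact Finset.sum_nonneg fun i _ => by split_ifs <;> norm_num
  have h2 : ∀ l ∈ S, ∑ n ∈ Icc 1 N, (if l ^ B ∣ n then (1 : ℝ) else 0) ≤ N / 2 ^ B := by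
    intro l hl
    have hl2 := hS l hl
    have hpos : 0 < l ^ B := pow_pos (by omega) B
    rw [Finset.sum_ite, Finset.sum_const_zero, add_zero, Finset.sum_const, nsmul_eq_mul, mul_one]
    have e : #((Icc 1 N).filter (fun n => l ^ B ∣ n)) = N / l ^ B := by
      have := Nat.card_multiples' N (l ^ B)
      have e2 : (Icc 1 N).filter (fun n => l ^ B ∣ n) = Finset.filter (fun k => k ≠ 0 ∧ l ^ B ∣ k) (range N.succ) := by
        ext k
        simp only [mem_filter, mem_Icc, mem_range]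
        constructor
        · rintro ⟨⟨h1, h2⟩, h3⟩
          exact ⟨by omega, by omega, h3⟩
        · rintro ⟨h1, h2, h3⟩
          exact ⟨⟨by omega, by omega⟩, h3⟩
      rw [e2]
      exact this
    rw [e]
    refine (Nat.cast_div_le (m := N) (n := l ^ B)).trans ?_
    push_cast
    refine div_le_div_of_nonneg_left (Nat.cast_nonneg N) (by positivity) ?_
    exact pow_le_pow_left₀ (by norm_num) (by exact_mod_cast hl2) B
  calc ∑ n ∈ Icc 1 N, (if ∃ l ∈ S, l ^ B ∣ n then (1 : ℝ) else 0)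
      ≤ ∑ n ∈ Icc 1 N, ∑ l ∈ S, (if l ^ B ∣ n then (1 : ℝ) else 0) := Finset.sum_le_sum h1
    _ = ∑ l ∈ S, ∑ n ∈ Icc 1 N, (if l ^ B ∣ n then (1 : ℝ) else 0) := Finset.sum_comm
    _ ≤ ∑ l ∈ S, (N : ℝ) / 2 ^ B := Finset.sum_le_sum h2
    _ = N * (#S / 2 ^ B) := by
        rw [Finset.sum_const, nsmul_eq_mul]
        ring

theorem sum_shift_le {N h₁ h₂ : ℕ} (F : ℕ → ℝ) (hF : ∀ n, 0 ≤ F n) :
    ∑ m ∈ (Icc 1 N).filter (fun m => h₂ < m), F (m + h₁ - h₂) ≤
      ∑ n ∈ Icc 1 (N + h₁), F n := by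
  have h1 : ∑ m ∈ (Icc 1 N).filter (fun m => h₂ < m), F (m + h₁ - h₂) =
      ∑ n ∈ ((Icc 1 N).filter (fun m => h₂ < m)).image (fun m => m + h₁ - h₂), F n := by
    rw [Finset.sum_image]
    intro a ha b hb hab
    simp only [coe_filter, mem_Icc, Set.mem_ofPred_eq] at ha hb
    simp only at hab
    omega
  rw [h1]
  refine Finset.sum_le_sum_of_subset_of_nonneg ?_ fun n _ _ => hF n
  intro n hn
  simp only [mem_image, mem_filter, mem_Icc] at hn ⊢
  obtain ⟨m, ⟨⟨h2, h3⟩, h4⟩, h5⟩ := hn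
  omega

theorem corr_shift {N h₁ h₂ : ℕ} (f g : ℕ → ℂ) (hf : ∀ n, ‖f n‖ ≤ 1) (hg : ∀ n, ‖g n‖ ≤ 1) :
    ‖∑ n ∈ Icc 1 N, f (n + h₁) * g (n + h₂)‖ ≤
      ‖∑ m ∈ Icc 1 N, (if h₂ < m then f (m + h₁ - h₂) else 0) * g m‖ + h₂ := by
  -- the second sum over m in (h₂, N], reindexed
  have h1 : ∑ m ∈ Icc 1 N, (if h₂ < m then f (m + h₁ - h₂) else 0) * g m =
      ∑ n ∈ (Icc 1 N).filter (fun n => n + h₂ ≤ N), f (n + h₁) * g (n + h₂) := by
    have e1 : ∑ m ∈ Icc 1 N, (if h₂ < m then f (m + h₁ - h₂) else 0) * g m =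
        ∑ m ∈ (Icc 1 N).filter (fun m => h₂ < m), f (m + h₁ - h₂) * g m := by
      rw [Finset.sum_filter]
      refine Finset.sum_congr rfl fun m _ => ?_
      split_ifs
      · rfl
      · rw [zero_mul]
    rw [e1]
    symm
    refine Finset.sum_bij (fun n _ => n + h₂) ?_ ?_ ?_ ?_
    · intro n hn
      simp only [mem_filter, mem_Icc] at hn ⊢
      omega
    · intro a _ b _ hab
      omega
    · intro m hm
      simp only [mem_filter, mem_Icc] at hm
      refine ⟨m - h₂, ?_, by omega⟩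
      simp only [mem_filter, mem_Icc]
      omega
    · intro n _
      have : n + h₂ + h₁ - h₂ = n + h₁ := by omega
      rw [this]
  rw [h1, ← Finset.sum_filter_add_sum_filter_not (Icc 1 N) (fun n => n + h₂ ≤ N)]
  refine (norm_add_le _ _).trans ?_
  gcongr
  refine (norm_sum_le _ _).trans ?_
  have h2 : ∀ n ∈ (Icc 1 N).filter (fun n => ¬ (n + h₂ ≤ N)), ‖f (n + h₁) * g (n + h₂)‖ ≤ 1 := by
    intro n _
    rw [norm_mul]
    exact mul_le_one₀ (hf _) (norm_nonneg _) (hg _)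
  refine (Finset.sum_le_sum h2).trans ?_
  rw [Finset.sum_const, nsmul_eq_mul, mul_one]
  have h3 : (Icc 1 N).filter (fun n => ¬ (n + h₂ ≤ N)) ⊆ Ioc (N - h₂) N := by
    intro n hn
    simp only [mem_filter, mem_Icc, mem_Ioc] at hn ⊢
    omega
  have h4 := Finset.card_le_card h3
  rw [Nat.card_Ioc] at h4
  have h5 : #((Icc 1 N).filter (fun n => ¬ (n + h₂ ≤ N))) ≤ h₂ := by omega
  exact_mod_cast h5

end Pool.Agent.Elliott
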