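import Pool.Agent.Elliott.Block

set_option autoImplicit false

/-!
# The period is small
-/

namespace Pool.Agent.Elliott

open Finset Filter Asymptotics

theorem prod_pS_le (w : ℕ) : ∏ l ∈ pS w, l ≤ 4 ^ w := by
  have h : pS w = (Finset.range (w + 1)).filter Nat.Prime := by
    ext p
    simp only [pS, Finset.mem_filter, Finset.mem_Icc, Finset.mem_range]
    constructor
    · rintro ⟨h1, h2⟩
      exact ⟨by omega, h2⟩
    · rintro ⟨h1, h2⟩
      exact ⟨⟨h2.one_lt.le, by omega⟩, h2⟩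
  rw [h]
  exact primorial_le_four_pow w

theorem log_small (C b : ℝ) (hC : 0 ≤ C) :
    ∀ᶠ x : ℝ in atTop, 8 * C * Real.log (1 + 2 * x) + 8 * b ^ 2 ≤ x / 100 := by
  have ht : Tendsto (fun x : ℝ => 1 + 2 * x) atTop atTop :=
    tendsto_atTop_add_const_left _ _ (tendsto_id.const_mul_atTop (by norm_num))
  have h1 : (fun x : ℝ => Real.log (1 + 2 * x)) =o[atTop] fun x => 1 + 2 * x :=
    Real.isLittleO_log_id_atTop.comp_tendsto ht
  have hε : 0 < 1 / (600 * (8 * C + 1)) := by positivity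
  filter_upwards [h1.bound hε, eventually_ge_atTop (1 : ℝ),
    eventually_ge_atTop (1600 * b ^ 2)] with x hx hx1 hx2
  have h2 : Real.log (1 + 2 * x) ≤ 1 / (600 * (8 * C + 1)) * (3 * x) := by
    refine (le_abs_self _).trans ((Real.norm_eq_abs _ ▸ hx).trans ?_)
    apply mul_le_mul_of_nonneg_left _ hε.le
    rw [Real.norm_eq_abs, abs_of_pos (by linarith)]
    linarith
  have h3 : 8 * C * Real.log (1 + 2 * x) ≤ x / 200 := by
    have h4 : 8 * C * Real.log (1 + 2 * x) ≤ 8 * C * (1 / (600 * (8 * C + 1)) * (3 * x)) :=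
      mul_le_mul_of_nonneg_left h2 (by positivity)
    refine h4.trans ?_
    have h5 : 8 * C * (1 / (600 * (8 * C + 1)) * (3 * x)) = 8 * C / (8 * C + 1) * (x / 200) := by
      field_simp
      ring
    rw [h5]
    have h6 : 8 * C / (8 * C + 1) ≤ 1 := by
      rw [div_le_one (by positivity)]
      linarith
    have h7 : 0 ≤ x / 200 := by linarith
    nlinarith
  linarith

theorem WW_le (C₅ : ℝ) (hC₅ : 0 ≤ C₅) (c₀ K₀ : ℕ) : ∃ N₀ : ℕ, ∀ N : ℕ, N₀ ≤ N →
    ∀ A : ℝ, 2 ≤ A → A ^ 2 ≤ C₅ * Real.log (1 + 2 * Real.log N) →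
    (WW (⌈A⌉₊ + c₀) (Nat.log 2 (⌈A⌉₊ + c₀) + K₀) : ℝ) ≤ (N : ℝ) ^ (1 / 100 : ℝ) := by
  have hev := (Real.tendsto_log_atTop.comp tendsto_natCast_atTop_atTop).eventually
    (log_small C₅ (1 + c₀ + K₀) hC₅)
  obtain ⟨N₀, hN₀⟩ := (hev.and (eventually_ge_atTop 1)).exists_forall_of_atTop
  refine ⟨N₀, fun N hN A hA hA2 => ?_⟩
  obtain ⟨h1, h2⟩ := hN₀ N hN
  simp only [Function.comp_apply] at h1
  set w := ⌈A⌉₊ + c₀ with hw
  set B := Nat.log 2 w + K₀ with hB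
  have hNpos : (0 : ℝ) < N := by exact_mod_cast h2
  have hwR : (w : ℝ) ≤ A + 1 + c₀ := by
    rw [hw]
    push_cast
    have := (Nat.ceil_lt_add_one (by linarith : (0 : ℝ) ≤ A)).le
    linarith
  have hBR : (B : ℝ) ≤ w + K₀ := by
    rw [hB]
    push_cast
    have : (Nat.log 2 w : ℝ) ≤ w := by exact_mod_cast Nat.log_le_self 2 w
    linarith
  have hW : (WW w B : ℝ) ≤ (4 : ℝ) ^ (w * (2 * B)) := by
    have h3 : WW w B ≤ 4 ^ (w * (2 * B)) := by
      unfold WW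
      rw [pow_mul 4 w (2 * B)]
      exact Nat.pow_le_pow_left (prod_pS_le w) _
    exact_mod_cast h3
  refine hW.trans ?_
  have h4 : (4 : ℝ) ^ (w * (2 * B)) = Real.exp (Real.log 4 * ((w : ℝ) * (2 * B))) := by
    rw [Real.exp_mul, Real.exp_log (by norm_num)]
    rw [← Real.rpow_natCast]
    push_cast
    rfl
  rw [h4, Real.rpow_def_of_pos hNpos]
  apply Real.exp_le_exp.2
  have hlog4 : Real.log 4 ≤ 2 := by
    have : Real.log 4 = 2 * Real.log 2 := by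
      rw [show (4 : ℝ) = 2 ^ 2 by norm_num, Real.log_pow]
      push_cast
      ring
    rw [this]
    have := Real.log_two_lt_d9
    linarith
  have hw0 : (0 : ℝ) ≤ w := Nat.cast_nonneg _
  have hB0 : (0 : ℝ) ≤ B := Nat.cast_nonneg _
  have hK0 : (0 : ℝ) ≤ K₀ := Nat.cast_nonneg _
  have hc0 : (0 : ℝ) ≤ c₀ := Nat.cast_nonneg _
  have h5 : (w : ℝ) * (2 * B) ≤ 4 * A ^ 2 + 4 * (1 + c₀ + K₀) ^ 2 := by
    have h6 : (w : ℝ) * (2 * B) ≤ 2 * ((A + (1 + c₀ + K₀)) * (A + (1 + c₀ + K₀))) := by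
      have h7 : (w : ℝ) * B ≤ (A + (1 + c₀ + K₀)) * (A + (1 + c₀ + K₀)) :=
        mul_le_mul (by linarith) (by linarith) hB0 (by linarith)
      linarith
    nlinarith [sq_nonneg (A - (1 + c₀ + K₀))]
  have h8 : Real.log 4 * ((w : ℝ) * (2 * B)) ≤ 2 * (4 * A ^ 2 + 4 * (1 + c₀ + K₀) ^ 2) := by
    refine (mul_le_mul_of_nonneg_right hlog4 (by positivity)).trans ?_
    linarith
  refine h8.trans ?_
  have h9 : 8 * A ^ 2 ≤ 8 * (C₅ * Real.log (1 + 2 * Real.log N)) := by linarith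
  linarith

end Pool.Agent.Elliott
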