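import Pool.Agent.Elliott.Block
import Pool.Agent.Elliott.LargeP
import Pool.Agent.Elliott.CS
import Pool.Agent.Elliott.Shift
import Pool.Agent.Elliott.Lower
import Pool.Agent.Elliott.WBound

set_option autoImplicit false

/-! The `L²` distance between the shift of `f` and its structured approximation. -/

namespace Pool.Agent.Elliott

open Finset MeasureTheory

variable {q : ℕ} (χ : DirichletCharacter ℂ q) (t : ℝ)

variable {ψ wt : ℝ → ℂ}

/-- The shifted function `m ↦ f (m + h₁ - h₂)`. -/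
noncomputable def ash (f : ArithmeticFunction ℂ) (h₁ h₂ m : ℕ) : ℂ :=
  if h₂ < m then f (m + h₁ - h₂) else 0

theorem norm_gg_le (Q : Finset ℕ) (G : ℕ → ℕ → ℂ) (hG : ∀ l i, ‖G l i‖ ≤ 1) (n : ℕ) :
    ‖gg Q G n‖ ≤ 1 := by
  unfold gg
  rw [norm_prod]
  exact Finset.prod_le_one (fun _ _ => norm_nonneg _) fun _ _ => hG _ _

theorem sq_three_le (a b c : ℂ) :
    ‖a + b + c‖ ^ 2 ≤ 3 * (‖a‖ ^ 2 + ‖b‖ ^ 2 + ‖c‖ ^ 2) := by
  have h1 : ‖a + b + c‖ ≤ ‖a‖ + ‖b‖ + ‖c‖ :=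
    (norm_add_le _ _).trans (add_le_add_left (norm_add_le _ _) _)
  have h2 := pow_le_pow_left₀ (norm_nonneg _) h1 2
  nlinarith [sq_nonneg (‖a‖ - ‖b‖), sq_nonneg (‖b‖ - ‖c‖), sq_nonneg (‖a‖ - ‖c‖)]

/-- The cost of the smoothing, as a constant. -/
noncomputable def cT (wt : ℝ → ℂ) (C : ℕ) : ℝ :=
  (∫ ξ, ‖wt ξ‖) * (2 ^ C * ∫ ξ, ‖wt ξ‖ * (1 + |ξ|) ^ C)

theorem ebound (H : PsiData ψ wt) {C : ℕ}
    (hC : ∀ (Q : Finset ℕ) (G : ℕ → ℕ → ℂ) (y N : ℕ) (z : ℂ),
      (∀ l ∈ Q, l.Prime ∧ l ≤ y) → (∀ l i, ‖G l i‖ ≤ 1) → (∀ l, G l 0 = 1) → 0 ≤ z.re →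
      ∑ n ∈ Icc 1 N, ‖gg Q G n - gz Q G z n‖ ^ 2 ≤ N * ((1 + ‖z‖ * Real.log y) ^ C - 1))
    {C₁ : ℝ} (hC₁ : ∀ (z : ℝ) (y : ℕ), 0 ≤ z →
      ∑ p ∈ (Icc 1 y).filter Nat.Prime, min 1 (z * Real.log p) / p ≤
        C₁ * Real.log (1 + z * Real.log y))
    {f : ArithmeticFunction ℂ} (hf : f.IsMultiplicative) (hf1 : ∀ n, ‖f n‖ ≤ 1)
    {w y B D h₁ h₂ N : ℕ} (hq1 : 1 ≤ q) (hqw : q ≤ w) (hy : 2 ≤ y) (hyD : y ≤ D) (hN : 1 ≤ N)
    (hh : h₁ ≤ N) {δ : ℝ}
    (hδ : ∑ p ∈ (Ioc y N).filter Nat.Prime,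
      (1 - (f p * (starRingEnd ℂ) (th χ t p)).re) / (p : ℝ) ≤ δ) :
    ∑ m ∈ Icc 1 N, ‖ash f h₁ h₂ m -
        ap χ t f w y B (N + h₁) ψ (Real.log D) h₁ h₂ m‖ ^ 2 ≤
      3 * (2 * ((N + h₁ : ℕ) * √(2 * δ * (C₁ * Real.log (1 + Real.log N / Real.log y))) +
        4 * h₁ + 2 * (N + h₁ : ℕ) / y) + (N + h₁ : ℕ) * (w / 2 ^ B) +
        (N + h₁ : ℕ) * (Real.log y / Real.log D) * cT wt C) := by
  set V := N + h₁ with hV
  set G := GG χ t f with hG
  set Q := pQ w y with hQdef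
  set S := pS w with hSdef
  have hG1 : ∀ l i, ‖G l i‖ ≤ 1 := GG_norm_le χ t f hf1
  have hQ : ∀ l ∈ Q, l.Prime ∧ l ≤ y := fun l hl =>
    ⟨(mem_filter.1 hl).2, (mem_Ioc.1 (mem_filter.1 hl).1).2⟩
  have hS : ∀ l ∈ S, l.Prime := fun l hl => (mem_filter.1 hl).2
  have hST : Disjoint S Q := by
    rw [Finset.disjoint_left]
    intro l hl hl'
    have h1 := (mem_Icc.1 (mem_filter.1 hl).1).2
    have h2 := (mem_Ioc.1 (mem_filter.1 hl').1).1
    omega
  have hTq : ∀ p ∈ Q, Nat.Coprime p q := by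
    intro p hp
    rw [(hQ p hp).1.coprime_iff_not_dvd]
    intro h
    have h1 := Nat.le_of_dvd hq1 h
    have h2 := (mem_Ioc.1 (mem_filter.1 hp).1).1
    omega
  have hlD : 0 < Real.log D := Real.log_pos (by exact_mod_cast (by omega : 1 < D))
  have hlog : Real.log y ≤ Real.log D :=
    Real.log_le_log (by exact_mod_cast (by omega : 0 < y)) (by exact_mod_cast hyD)
  let F : ℕ → ℂ := fun n => f n - FB χ t f S B n * gpsi Q V G ψ (Real.log D) n * uu t n
  have h1 : ∑ m ∈ Icc 1 N, ‖ash f h₁ h₂ m -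
      ap χ t f w y B V ψ (Real.log D) h₁ h₂ m‖ ^ 2 ≤ ∑ n ∈ Icc 1 V, ‖F n‖ ^ 2 := by
    refine le_trans (le_of_eq ?_) (sum_shift_le (N := N) (h₁ := h₁) (h₂ := h₂)
      (fun n => ‖F n‖ ^ 2) fun n => by positivity)
    rw [Finset.sum_filter]
    refine Finset.sum_congr rfl fun m _ => ?_
    unfold ash ap
    split_ifs with h
    · rfl
    · simp
  refine h1.trans ?_
  have h2 : ∀ n ∈ Icc 1 V, ‖F n‖ ^ 2 ≤ 3 *
      (2 * (∑ p ∈ n.primeFactors.filter (fun p => p ∉ S ∧ p ∉ Q),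
        ‖f (p ^ n.factorization p) - th χ t (p ^ n.factorization p)‖) +
      (open Classical in if ∃ l ∈ S, l ^ B ∣ n then (1 : ℝ) else 0) +
      ‖gg Q G n - gpsi Q V G ψ (Real.log D) n‖ ^ 2) := by
    intro n hn
    have hn0 : n ≠ 0 := by have := (mem_Icc.1 hn).1; omega
    have e1 : F n = (f n - FF χ t f S n * gg Q G n * uu t n) +
        (FF χ t f S n - FB χ t f S B n) * (gg Q G n * uu t n) +
        (FB χ t f S B n * uu t n) * (gg Q G n - gpsi Q V G ψ (Real.log D) n) := by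
      simp only [F]; ring
    rw [e1]
    refine (sq_three_le _ _ _).trans ?_
    refine mul_le_mul_of_nonneg_left ?_ (by norm_num)
    have a1 := struct_diff χ t hf hf1 hS (fun p hp => (hQ p hp).1) hST hTq hn0
    have a2 : ‖f n - FF χ t f S n * gg Q G n * uu t n‖ ≤ 2 := by
      refine (norm_sub_le _ _).trans ?_
      have b1 := hf1 n
      have b2 := norm_FF_le χ t f hf1 S n
      have b3 := norm_gg_le Q G hG1 n
      have b4 := norm_uu_le t n
      have b5 : ‖FF χ t f S n * gg Q G n * uu t n‖ ≤ 1 * 1 * 1 := by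
        rw [norm_mul, norm_mul]
        exact mul_le_mul (mul_le_mul b2 b3 (norm_nonneg _) zero_le_one) b4 (norm_nonneg _)
          (by norm_num)
      linarith
    have a3 : ‖f n - FF χ t f S n * gg Q G n * uu t n‖ ^ 2 ≤
        2 * (∑ p ∈ n.primeFactors.filter (fun p => p ∉ S ∧ p ∉ Q),
        ‖f (p ^ n.factorization p) - th χ t (p ^ n.factorization p)‖) := by
      rw [sq]
      exact mul_le_mul a2 a1 (norm_nonneg _) (by norm_num)
    have a4 : ‖(FF χ t f S n - FB χ t f S B n) * (gg Q G n * uu t n)‖ ^ 2 ≤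
        (open Classical in if ∃ l ∈ S, l ^ B ∣ n then (1 : ℝ) else 0) := by
      have b1 := norm_FF_sub_FB_le χ t f hf1 S B n
      have b2 : ‖gg Q G n * uu t n‖ ≤ 1 * 1 := by
        rw [norm_mul]
        exact mul_le_mul (norm_gg_le Q G hG1 n) (norm_uu_le t n) (norm_nonneg _) zero_le_one
      rw [norm_mul]
      have b3 : ‖FF χ t f S n - FB χ t f S B n‖ * ‖gg Q G n * uu t n‖ ≤
          (open Classical in if ∃ l ∈ S, l ^ B ∣ n then (1 : ℝ) else 0) * (1 * 1) :=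
        mul_le_mul b1 b2 (norm_nonneg _) (by split_ifs <;> norm_num)
      refine (pow_le_pow_left₀ (by positivity) b3 2).trans (le_of_eq ?_)
      split_ifs <;> norm_num
    have a5 : ‖(FB χ t f S B n * uu t n) * (gg Q G n - gpsi Q V G ψ (Real.log D) n)‖ ^ 2 ≤
        ‖gg Q G n - gpsi Q V G ψ (Real.log D) n‖ ^ 2 := by
      have b1 : ‖FB χ t f S B n * uu t n‖ ≤ 1 * 1 := by
        rw [norm_mul]
        exact mul_le_mul (norm_FB_le χ t f hf1 S B n) (norm_uu_le t n) (norm_nonneg _)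
          zero_le_one
      rw [norm_mul]
      refine pow_le_pow_left₀ (by positivity) ?_ 2
      calc _ ≤ (1 * 1) * ‖gg Q G n - gpsi Q V G ψ (Real.log D) n‖ :=
            mul_le_mul_of_nonneg_right b1 (norm_nonneg _)
        _ = _ := by ring
    linarith
  refine (Finset.sum_le_sum h2).trans ?_
  rw [← Finset.mul_sum, Finset.sum_add_distrib, Finset.sum_add_distrib, ← Finset.mul_sum]
  refine mul_le_mul_of_nonneg_left ?_ (by norm_num)
  refine add_le_add (add_le_add ?_ ?_) ?_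
  · refine mul_le_mul_of_nonneg_left ?_ (by norm_num)
    have h3 := sum_large_primes (y := y) (N := N) (N' := V) (by omega) hN (by omega) (by omega)
      (fun p i => ‖f (p ^ i) - th χ t (p ^ i)‖) (fun _ _ => norm_nonneg _)
      (fun p i => (norm_sub_le _ _).trans (by
        have := hf1 (p ^ i); have := norm_th_le χ t (p ^ i); linarith))
      (fun p => p ∉ S ∧ p ∉ Q) (by
        intro p hp h
        by_contra h4
        push Not at h4
        rcases le_or_gt p w with h5 | h5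
        · exact h.1 (mem_filter.2 ⟨mem_Icc.2 ⟨hp.one_le, h5⟩, hp⟩)
        · exact h.2 (mem_filter.2 ⟨mem_Ioc.2 ⟨h5, h4⟩, hp⟩))
    refine h3.trans ?_
    have h4 := cs_bound hC₁ (fun n => f n) (fun n => th χ t n) hf1 (norm_th_le χ t) hy hδ
    simp only [pow_one]
    have h5 : (V : ℝ) - N = h₁ := by rw [hV]; push_cast; ring
    rw [h5]
    have h6 := mul_le_mul_of_nonneg_left h4 (Nat.cast_nonneg (α := ℝ) V)
    linarith
  · refine (sum_high_power S (fun l hl => (hS l hl).two_le) B V).trans ?_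
    refine mul_le_mul_of_nonneg_left ?_ (Nat.cast_nonneg _)
    have h3 : (#S : ℝ) ≤ w := by
      have := card_filter_le (Icc 1 w) Nat.Prime
      rw [Nat.card_Icc] at this
      exact_mod_cast this
    exact div_le_div_of_nonneg_right h3 (by positivity)
  · exact l2_smooth H (C := C) (y := y) (N := V) (V := V) hlD hQ G hG1 (GG_zero χ t hf)
      (fun z hz => hC Q G y V z hQ hG1 (GG_zero χ t hf) hz) hlog
      (fun l _ n hn => ((Nat.factorization_lt l (by have := (mem_Icc.1 hn).1; omega)).le).trans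
        (mem_Icc.1 hn).2)

end Pool.Agent.Elliott
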