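import Pool.Agent.Elliott.BlockSum
import Pool.Agent.Elliott.EBound
import Pool.Agent.Elliott.Katai

set_option autoImplicit false

/-! The main estimate with explicit parameters. -/

namespace Pool.Agent.Elliott

open Finset MeasureTheory

variable {q : ℕ} (χ : DirichletCharacter ℂ q) (t : ℝ)

variable {ψ wt : ℝ → ℂ}

theorem core (H : PsiData ψ wt) {C₀ C₃ CP C₁ c : ℝ} {C : ℕ} (hC₀ : 0 ≤ C₀) (hC₃ : 0 ≤ C₃)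
    (hCorr : ∀ (Q : Finset ℕ) (y V : ℕ) (lD : ℝ) (G : ℕ → ℕ → ℂ) (Δ : ℤ),
      (∀ l ∈ Q, l.Prime ∧ 5 ≤ l ∧ l ≤ y) → 0 < lD → Real.log y ≤ lD → 1 ≤ V →
      (∀ l i, ‖G l i‖ ≤ 1) → (∀ l, G l 0 = 1) →
      ‖corrM Q V G ψ lD Δ‖ ≤ C₃ * Real.exp (-2 * ∑ l ∈ Q, (1 - (G l 1).re) / l) *
        ∏ l ∈ Q.filter (fun l : ℕ => (l : ℤ) ∣ Δ), (1 + C₀ / l))
    (hP : ∀ j : ℕ, 1 ≤ j → ∑ x ∈ (blk j ×ˢ blk j).filter (fun x => x.1 ≠ x.2),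
      ∏ l ∈ ((x.1 : ℤ) - x.2).natAbs.primeFactors, (1 + C₀ / l) ≤ CP * (#(blk j) : ℝ) ^ 2)
    (hAp : ∀ (Q : Finset ℕ) (G : ℕ → ℕ → ℂ) (y N : ℕ) (z : ℂ),
      (∀ l ∈ Q, l.Prime ∧ l ≤ y) → (∀ l i, ‖G l i‖ ≤ 1) → (∀ l, G l 0 = 1) → 0 ≤ z.re →
      ∑ n ∈ Icc 1 N, ‖gg Q G n - gz Q G z n‖ ^ 2 ≤ N * ((1 + ‖z‖ * Real.log y) ^ C - 1))
    (hC₁ : ∀ (z : ℝ) (y : ℕ), 0 ≤ z →
      ∑ p ∈ (Icc 1 y).filter Nat.Prime, min 1 (z * Real.log p) / p ≤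
        C₁ * Real.log (1 + z * Real.log y))
    (hc : ∀ j₁ j₂ : ℕ, 1 ≤ j₁ → j₁ ≤ j₂ →
      c * Real.log (j₂ / j₁) ≤ ∑ p ∈ (Ico j₁ j₂).biUnion blk, (1 / p : ℝ))
    {f₁ f₂ : ArithmeticFunction ℂ} (hf₁ : f₁.IsMultiplicative) (hf₂ : f₂.IsMultiplicative)
    (hb₁ : ∀ n, ‖f₁ n‖ ≤ 1) (hb₂ : ∀ n, ‖f₂ n‖ ≤ 1)
    {w y B h₁ h₂ N k₀ j₁ j₂ : ℕ} (hne : h₁ ≠ h₂) (hq1 : 1 ≤ q) (hqw : q ≤ w)
    (hwB : w < 2 ^ B) (hwy : w ≤ y) (hw4 : 4 ≤ w) (hhw : 2 * (h₁ + h₂) ≤ w)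
    (hN : 1 ≤ N) (hh : h₁ ≤ N) (hk₀ : 1 ≤ k₀) (hj₁ : 1 ≤ j₁) (hj : j₁ ≤ j₂)
    (hyj : y ≤ 4 ^ j₁) (h4N : 4 ^ j₂ ≤ N) {s δ : ℝ} (hs : 0 < s) (hs1 : s ≤ 1)
    (hδ : ∑ p ∈ (Ioc y N).filter Nat.Prime,
      (1 - (f₁ p * (starRingEnd ℂ) (th χ t p)).re) / (p : ℝ) ≤ δ)
    (hE : 3 * (2 * ((N + h₁ : ℕ) * √(2 * δ * (C₁ * Real.log (1 + Real.log N / Real.log y))) +
        4 * h₁ + 2 * (N + h₁ : ℕ) / y) + (N + h₁ : ℕ) * (w / 2 ^ B) +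
        (N + h₁ : ℕ) * (Real.log y / Real.log (4 ^ j₂ : ℕ)) * cT wt C) ≤ s ^ 2 / 2 * N)
    (hR1 : C₃ * CP * Real.exp (-2 * ∑ l ∈ pQ w y, (1 - (GG χ t f₁ l 1).re) / l) ≤ s ^ 2 / 4)
    (hR2 : 2 * k₀ * ((∫ ξ, ‖wt ξ‖) * ((4 ^ j₂ : ℕ) : ℝ) ^ 2) ^ 2 * 4 ^ j₂ ≤ s ^ 2 / 4 * N)
    (hR3 : WW w B * ((∫ ξ, ‖wt ξ‖) * ((4 ^ j₂ : ℕ) : ℝ) ^ 2) ^ 2 * 2 * 4 ^ j₂ ≤ s ^ 2 / 4 * N)
    (hR4 : WW w B * ((∫ ξ, ‖wt ξ‖) * ((4 ^ j₂ : ℕ) : ℝ) ^ 2) ^ 2 *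
      (8 * |t| * |(h₁ : ℝ) - h₂|) ≤ s ^ 2 / 4 * N * k₀)
    (hL : 2 / s ^ 2 ≤ c * Real.log (j₂ / j₁)) (hlog : √(2 * (1 + Real.log N)) ≤ s * 2 ^ j₁) :
    ‖∑ n ∈ Icc 1 N, f₁ (n + h₁) * f₂ (n + h₂)‖ ≤ 40 * s * N + h₂ := by
  have hB : 1 ≤ B := by
    rcases Nat.eq_zero_or_pos B with h | h
    · rw [h] at hwB; simp at hwB; omega
    · exact h
  have hy2 : 2 ≤ y := by omega
  have hj2 : 1 ≤ j₂ := by omega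
  have hD4 : 4 ^ j₁ ≤ 4 ^ j₂ := Nat.pow_le_pow_right (by norm_num) hj
  have hyD : y ≤ 4 ^ j₂ := hyj.trans hD4
  have hD : 2 ≤ 4 ^ j₂ := by omega
  have hq : q ∣ (∏ l ∈ pS w, l) ^ B := dvd_primorial_pow hq1 hqw hwB
  have hN0 : (0 : ℝ) < N := by exact_mod_cast hN
  set S₂ := ((∫ ξ, ‖wt ξ‖) * ((4 ^ j₂ : ℕ) : ℝ) ^ 2) ^ 2 with hS₂
  have hS₂0 : 0 ≤ S₂ := by positivity
  set b : ℕ → ℂ := ap χ t f₁ w y B (N + h₁) ψ (Real.log (4 ^ j₂ : ℕ)) h₁ h₂ with hb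
  set a : ℕ → ℂ := ash f₁ h₁ h₂ with ha
  have hab : ∑ m ∈ Icc 1 N, ‖a m - b m‖ ^ 2 ≤ s ^ 2 / 2 * N :=
    (ebound χ t H hAp hC₁ hf₁ hb₁ (B := B) (h₂ := h₂) hq1 hqw hy2 hyD hN hh hδ).trans hE
  have ha1 : ∀ n, ‖a n‖ ≤ 1 := by
    intro n
    rw [ha]; unfold ash
    split_ifs
    · exact hb₁ _
    · simp
  have hcor : ∀ j, j₁ ≤ j → j < j₂ → ∑ x ∈ (blk j ×ˢ blk j).filter (fun x => x.1 ≠ x.2),
      ‖∑ k ∈ Icc 1 (N / max x.1 x.2), b (x.1 * k) * (starRingEnd ℂ) (b (x.2 * k))‖ ≤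
        s ^ 2 * (N / 4 ^ j) * (#(blk j) : ℝ) ^ 2 := by
    intro j hjl hju
    have h4j : 4 ^ j₁ ≤ 4 ^ j := Nat.pow_le_pow_right (by norm_num) hjl
    have h4j' : (4 : ℝ) ^ j ≤ 4 ^ j₂ := pow_le_pow_right₀ (by norm_num) hju.le
    have h4p : (0 : ℝ) < 4 ^ j := by positivity
    have hk0 : (0 : ℝ) < k₀ := by exact_mod_cast hk₀
    refine (block_corr χ t H hC₀ hC₃ hCorr hP hf₁ hb₁ (N := N) (V := N + h₁) (D := 4 ^ j₂)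
      hB hD hyD (by omega) hq hk₀ (j := j) (by omega) (hyj.trans h4j) hwy hw4 hhw hne).trans ?_
    refine mul_le_mul_of_nonneg_right ?_ (by positivity)
    rw [← hS₂]
    set e := Real.exp (-2 * ∑ l ∈ pQ w y, (1 - (GG χ t f₁ l 1).re) / l) with he
    have hW0 : (0 : ℝ) ≤ WW w B * S₂ := mul_nonneg (Nat.cast_nonneg _) hS₂0
    have i1 : (N / 4 ^ j : ℝ) * (C₃ * CP * e) ≤ (N / 4 ^ j) * (s ^ 2 / 4) :=
      mul_le_mul_of_nonneg_left hR1 (by positivity)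
    have i2 : 2 * k₀ * S₂ ≤ (N / 4 ^ j) * (s ^ 2 / 4) := by
      rw [div_mul_eq_mul_div, le_div_iff₀ h4p]
      have : 2 * (k₀ : ℝ) * S₂ * 4 ^ j ≤ 2 * k₀ * S₂ * 4 ^ j₂ :=
        mul_le_mul_of_nonneg_left h4j' (by positivity)
      linarith
    have i3 : WW w B * S₂ * 2 ≤ (N / 4 ^ j) * (s ^ 2 / 4) := by
      rw [div_mul_eq_mul_div, le_div_iff₀ h4p]
      have : WW w B * S₂ * 2 * 4 ^ j ≤ WW w B * S₂ * 2 * 4 ^ j₂ :=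
        mul_le_mul_of_nonneg_left h4j' (by positivity)
      linarith
    have i4 : WW w B * S₂ * (8 * |t| * |(h₁ : ℝ) - h₂| / (4 ^ j * k₀)) ≤
        (N / 4 ^ j) * (s ^ 2 / 4) := by
      rw [← mul_div_assoc, div_le_iff₀ (by positivity)]
      calc WW w B * S₂ * (8 * |t| * |(h₁ : ℝ) - h₂|) ≤ s ^ 2 / 4 * N * k₀ := hR4
        _ = _ := by field_simp
    calc _ = (N / 4 ^ j : ℝ) * (C₃ * CP * e) + (2 * k₀ * S₂ + (WW w B * S₂ * 2 +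
          WW w B * S₂ * (8 * |t| * |(h₁ : ℝ) - h₂| / (4 ^ j * k₀)))) := by ring
      _ ≤ (N / 4 ^ j) * (s ^ 2 / 4) + ((N / 4 ^ j) * (s ^ 2 / 4) + ((N / 4 ^ j) * (s ^ 2 / 4) +
          (N / 4 ^ j) * (s ^ 2 / 4))) := by linarith
      _ = _ := by ring
  set L := ∑ p ∈ (Ico j₁ j₂).biUnion blk, (1 / p : ℝ) with hLdef
  have hLs : 2 / s ^ 2 ≤ L := hL.trans (hc j₁ j₂ hj₁ hj)
  have hs2 : (0 : ℝ) < s ^ 2 := by positivity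
  have hL2 : 2 ≤ L * s ^ 2 := by rwa [div_le_iff₀ hs2] at hLs
  have hs21 : s ^ 2 ≤ 1 := pow_le_one₀ hs.le hs1
  have hL1 : 1 ≤ L := by
    by_contra h
    push Not at h
    have hL0 : 0 < L := lt_of_lt_of_le (by positivity) hLs
    nlinarith
  have hL0 : 0 < L := by linarith
  have hk := katai (N := N) (j₁ := j₁) (j₂ := j₂) hN (fun n => f₂ n) a b hb₂
    (fun m n h => hf₂.map_mul_of_coprime h) ha1 (E := s ^ 2 / 2) (R := s ^ 2)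
    (by positivity) (by positivity) hab hcor hLdef
  have hcard : (#((Ico j₁ j₂).biUnion blk) : ℝ) ≤ N := by
    exact_mod_cast (card_biUnion_blk_le j₁ j₂).trans h4N
  have k1 : √(L * (1 + #((Ico j₁ j₂).biUnion blk) / N)) ≤ s * L := by
    refine Real.sqrt_le_iff.2 ⟨by positivity, ?_⟩
    have : (#((Ico j₁ j₂).biUnion blk) : ℝ) / N ≤ 1 := by
      rw [div_le_one hN0]; exact hcard
    calc L * (1 + #((Ico j₁ j₂).biUnion blk) / N) ≤ L * 2 :=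
          mul_le_mul_of_nonneg_left (by linarith) hL0.le
      _ ≤ L * (L * s ^ 2) := mul_le_mul_of_nonneg_left hL2 hL0.le
      _ = _ := by ring
  have k2 : √(s ^ 2 / 2 * (L + L ^ 2)) ≤ s * L := by
    refine Real.sqrt_le_iff.2 ⟨by positivity, ?_⟩
    have : L ≤ L ^ 2 := by nlinarith
    calc s ^ 2 / 2 * (L + L ^ 2) ≤ s ^ 2 / 2 * (L ^ 2 + L ^ 2) :=
          mul_le_mul_of_nonneg_left (by linarith) (by positivity)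
      _ = _ := by ring
  have hlogN : 0 ≤ Real.log N := Real.log_natCast_nonneg N
  have k3 : √((1 + s ^ 2 / 2) * (1 + Real.log N)) / 2 ^ j₁ ≤ s * L := by
    rw [div_le_iff₀ (by positivity)]
    have : √((1 + s ^ 2 / 2) * (1 + Real.log N)) ≤ √(2 * (1 + Real.log N)) :=
      Real.sqrt_le_sqrt (mul_le_mul_of_nonneg_right (by linarith) (by linarith))
    calc _ ≤ s * 2 ^ j₁ := this.trans hlog
      _ = s * 1 * 2 ^ j₁ := by ring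
      _ ≤ s * L * 2 ^ j₁ := by
        refine mul_le_mul_of_nonneg_right (mul_le_mul_of_nonneg_left hL1 hs.le) (by positivity)
  have k4 : L * √(s ^ 2) = s * L := by rw [Real.sqrt_sq hs.le]; ring
  have k5 : L * ‖∑ m ∈ Icc 1 N, a m * f₂ m‖ ≤ L * (40 * s * N) := by
    refine hk.trans ?_
    rw [k4]
    calc 10 * (N : ℝ) * (√(L * (1 + #((Ico j₁ j₂).biUnion blk) / N)) +
          √(s ^ 2 / 2 * (L + L ^ 2)) +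
          √((1 + s ^ 2 / 2) * (1 + Real.log N)) / 2 ^ j₁ + s * L) ≤
          10 * N * (s * L + s * L + s * L + s * L) :=
          mul_le_mul_of_nonneg_left (by linarith) (by positivity)
      _ = _ := by ring
  have k6 := le_of_mul_le_mul_left k5 hL0
  have k7 := corr_shift (N := N) (h₁ := h₁) (h₂ := h₂) (fun n => f₁ n) (fun n => f₂ n) hb₁ hb₂
  refine k7.trans ?_
  have : ∀ m, (if h₂ < m then f₁ (m + h₁ - h₂) else 0) = a m := fun m => rfl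
  simp only [this]
  linarith

end Pool.Agent.Elliott
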