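import Pool.Agent.Elliott.Defs

set_option autoImplicit false

/-! Counting `k` with `d ∣ p k + h`, `e ∣ p' k + h`, weighted by a periodic function. -/

namespace Pool.Agent.Elliott

open Finset

/-- The number of `k ≤ K` in a residue class modulo `r` is `K / r` up to `1`. -/
theorem card_class (K : ℕ) {r : ℕ} (hr : 0 < r) (v : ℕ) :
    |(((Icc 1 K).filter (fun k => k ≡ v [MOD r])).card : ℝ) - (K : ℝ) / r| ≤ 1 := by
  have h := Nat.Ioc_filter_modEq_card 0 K hr v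
  have h1 : Icc 1 K = Ioc 0 K := by ext; simp [Nat.succ_le_iff]
  rw [h1]
  have hrq : (0 : ℚ) < r := by exact_mod_cast hr
  set A : ℚ := ((K : ℚ) - v) / r with hA
  set B : ℚ := (((0 : ℕ) : ℚ) - v) / r with hB
  have hAB : A - B = (K : ℚ) / r := by
    rw [hA, hB]; field_simp; push_cast; ring
  have hKr : (0 : ℚ) ≤ (K : ℚ) / r := by positivity
  have hle : B ≤ A := by linarith
  have hfl : ⌊B⌋ ≤ ⌊A⌋ := Int.floor_mono hle
  rw [max_eq_left (by linarith)] at h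
  have e1 := Int.floor_le A
  have e2 := Int.lt_floor_add_one A
  have e3 := Int.floor_le B
  have e4 := Int.lt_floor_add_one B
  have h2 : ((#{x ∈ Ioc 0 K | x ≡ v [MOD r]} : ℕ) : ℚ) = (⌊A⌋ : ℚ) - (⌊B⌋ : ℚ) := by
    exact_mod_cast h
  have h3 : |((#{x ∈ Ioc 0 K | x ≡ v [MOD r]} : ℕ) : ℚ) - (K : ℚ) / r| ≤ 1 := by
    rw [h2, ← hAB, abs_le]
    constructor <;> linarith
  have h4 : ((|((#{x ∈ Ioc 0 K | x ≡ v [MOD r]} : ℕ) : ℚ) - (K : ℚ) / r| : ℚ) : ℝ) ≤ ((1 : ℚ) : ℝ) := by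
    exact_mod_cast h3
  simpa using h4

/-- Values of a function periodic on the positive integers. -/
theorem periodic_val {W : ℕ} (Φ : ℕ → ℂ) (hΦ : ∀ k, 1 ≤ k → Φ (k + W) = Φ k) (k : ℕ)
    (hk : 1 ≤ k) : Φ k = Φ ((k - 1) % W + 1) := by
  have key : ∀ t j : ℕ, Φ (j + 1 + W * t) = Φ (j + 1) := by
    intro t
    induction t with
    | zero => intro j; simp
    | succ t ih =>
      intro j
      have : j + 1 + W * (t + 1) = (j + 1 + W * t) + W := by ring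
      rw [this, hΦ _ (by omega), ih]
  have h1 := key ((k - 1) / W) ((k - 1) % W)
  have h2 : (k - 1) % W + 1 + W * ((k - 1) / W) = k := by
    have := Nat.mod_add_div (k - 1) W
    omega
  rw [h2] at h1
  exact h1

/-- The sum of a periodic function over the `k ≤ K` in a residue class coprime modulus. -/
theorem class_sum {W L : ℕ} (hW : 0 < W) (hL : 0 < L) (hLW : Nat.Coprime L W) (Φ : ℕ → ℂ)
    (hΦ : ∀ k, 1 ≤ k → Φ (k + W) = Φ k) (hΦ1 : ∀ k, ‖Φ k‖ ≤ 1) (K v : ℕ) :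
    ‖∑ k ∈ (Icc 1 K).filter (fun k => k ≡ v [MOD L]), Φ k -
      (K : ℂ) / (W * L) * ∑ c ∈ Icc 1 W, Φ c‖ ≤ W := by
  classical
  set S := (Icc 1 K).filter (fun k => k ≡ v [MOD L]) with hS
  have hmaps : ∀ k ∈ S, (k - 1) % W + 1 ∈ Icc 1 W := by
    intro k _
    have := Nat.mod_lt (k - 1) hW
    simp only [mem_Icc]
    omega
  have hfib : ∀ c ∈ Icc 1 W, ∃ N : ℝ, |N - (K : ℝ) / (L * W : ℕ)| ≤ 1 ∧
      ∑ k ∈ S with (k - 1) % W + 1 = c, Φ k = (N : ℂ) * Φ c := by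
    intro c hc
    rw [mem_Icc] at hc
    obtain ⟨w, hw1, hw2⟩ := Nat.chineseRemainder hLW v c
    have hset : (S.filter (fun k => (k - 1) % W + 1 = c)) =
        (Icc 1 K).filter (fun k => k ≡ w [MOD (L * W)]) := by
      ext k
      simp only [hS, mem_filter, mem_Icc]
      constructor
      · rintro ⟨⟨hk, hkv⟩, hkc⟩
        refine ⟨hk, ?_⟩
        rw [← Nat.modEq_and_modEq_iff_modEq_mul hLW]
        refine ⟨hkv.trans hw1.symm, Nat.ModEq.trans ?_ hw2.symm⟩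
        have h1 : (k - 1) % W ≡ k - 1 [MOD W] := Nat.mod_modEq _ _
        have h2 := h1.add_right 1
        rw [hkc, Nat.sub_add_cancel hk.1] at h2
        exact h2.symm
      · rintro ⟨hk, hkw⟩
        rw [← Nat.modEq_and_modEq_iff_modEq_mul hLW] at hkw
        refine ⟨⟨hk, hkw.1.trans hw1⟩, ?_⟩
        have h3 : k ≡ c [MOD W] := hkw.2.trans hw2
        have h4 : (k - 1) ≡ (c - 1) [MOD W] := by
          apply Nat.ModEq.add_right_cancel' 1
          rw [Nat.sub_add_cancel hk.1, Nat.sub_add_cancel hc.1]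
          exact h3
        have h5 : (k - 1) % W = (c - 1) % W := h4
        rw [h5, Nat.mod_eq_of_lt (by omega)]
        omega
    refine ⟨((S.filter (fun k => (k - 1) % W + 1 = c)).card : ℝ), ?_, ?_⟩
    · rw [hset]
      have := card_class K (Nat.mul_pos hL hW) w
      exact_mod_cast this
    · rw [Finset.sum_congr rfl (g := fun _ => Φ c), Finset.sum_const, nsmul_eq_mul]
      · push_cast; rfl
      · intro k hk
        simp only [hS, mem_filter, mem_Icc] at hk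
        rw [periodic_val Φ hΦ k hk.1.1.1, hk.2]
  choose! N hN1 hN2 using hfib
  rw [← Finset.sum_fiberwise_of_maps_to hmaps, Finset.sum_congr rfl hN2, Finset.mul_sum,
    ← Finset.sum_sub_distrib]
  calc ‖∑ c ∈ Icc 1 W, ((N c : ℂ) * Φ c - (K : ℂ) / (W * L) * Φ c)‖
      ≤ ∑ c ∈ Icc 1 W, ‖(N c : ℂ) * Φ c - (K : ℂ) / (W * L) * Φ c‖ := norm_sum_le _ _
    _ ≤ ∑ c ∈ Icc 1 W, (1 : ℝ) := by
        apply Finset.sum_le_sum
        intro c hc
        rw [← sub_mul, norm_mul]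
        have h1 : ((N c : ℂ) - (K : ℂ) / (W * L)) = ((N c - (K : ℝ) / (L * W : ℕ) : ℝ) : ℂ) := by
          push_cast; ring
        rw [h1, Complex.norm_real, Real.norm_eq_abs]
        calc |N c - (K : ℝ) / (L * W : ℕ)| * ‖Φ c‖ ≤ 1 * 1 :=
              mul_le_mul (hN1 c hc) (hΦ1 c) (norm_nonneg _) zero_le_one
          _ = 1 := one_mul 1
    _ = W := by simp

theorem count_sum {W d e p p' h₁ h₂ : ℕ} (hW : 0 < W) (hd : 0 < d) (he : 0 < e)
    (hdW : Nat.Coprime d W) (heW : Nat.Coprime e W) (hdp : Nat.Coprime d p)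
    (hep : Nat.Coprime e p') (hp : h₂ < p) (hp' : h₂ < p') (Φ : ℕ → ℂ)
    (hΦ : ∀ k, 1 ≤ k → Φ (k + W) = Φ k) (hΦ1 : ∀ k, ‖Φ k‖ ≤ 1) (K : ℕ) :
    ‖∑ k ∈ (Icc 1 K).filter (fun k => d ∣ p * k + h₁ - h₂ ∧ e ∣ p' * k + h₁ - h₂), Φ k -
      (if (Nat.gcd d e : ℤ) ∣ ((h₁ : ℤ) - h₂) * ((p : ℤ) - p') then
        (K : ℂ) / (W * Nat.lcm d e) * ∑ c ∈ Icc 1 W, Φ c else 0)‖ ≤ W := by
  classical
  -- solutions of one congruence
  have sol : ∀ (m q : ℕ), 0 < m → Nat.Coprime m q → h₂ < q →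
      ∃ a : ℕ, (m : ℤ) ∣ (q : ℤ) * a + h₁ - h₂ ∧
        ∀ k : ℕ, 1 ≤ k → (m ∣ q * k + h₁ - h₂ ↔ k ≡ a [MOD m]) := by
    intro m q hm hmq hq
    have : NeZero m := ⟨hm.ne'⟩
    have hinv : ((q : ZMod m)⁻¹) * (q : ZMod m) = 1 := by
      rw [mul_comm]; exact ZMod.coe_mul_inv_eq_one q hmq.symm
    refine ⟨(((q : ZMod m)⁻¹) * ((h₂ : ZMod m) - h₁)).val, ?_, ?_⟩
    · rw [← ZMod.intCast_zmod_eq_zero_iff_dvd]
      push_cast
      rw [ZMod.natCast_zmod_val]
      calc (q : ZMod m) * ((q : ZMod m)⁻¹ * ((h₂ : ZMod m) - h₁)) + h₁ - h₂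
          = ((q : ZMod m)⁻¹ * (q : ZMod m)) * ((h₂ : ZMod m) - h₁) + h₁ - h₂ := by ring
        _ = 0 := by rw [hinv]; ring
    · intro k hk
      have hle : h₂ ≤ q * k + h₁ := by nlinarith
      rw [← ZMod.natCast_eq_natCast_iff, ZMod.natCast_zmod_val, ← ZMod.natCast_eq_zero_iff,
        Nat.cast_sub hle]
      push_cast
      constructor
      · intro h
        have h' : (q : ZMod m) * k = h₂ - h₁ := by
          rw [← sub_eq_zero]; rw [← h]; ring
        rw [← h', ← mul_assoc, hinv, one_mul]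
      · intro h
        rw [h]
        calc (q : ZMod m) * ((q : ZMod m)⁻¹ * ((h₂ : ZMod m) - h₁)) + h₁ - h₂
            = ((q : ZMod m)⁻¹ * (q : ZMod m)) * ((h₂ : ZMod m) - h₁) + h₁ - h₂ := by ring
          _ = 0 := by rw [hinv]; ring
  obtain ⟨a, ha0, ha⟩ := sol d p hd hdp hp
  obtain ⟨b, hb0, hb⟩ := sol e p' he hep hp'
  have hfilter : (Icc 1 K).filter (fun k => d ∣ p * k + h₁ - h₂ ∧ e ∣ p' * k + h₁ - h₂) =
      (Icc 1 K).filter (fun k => k ≡ a [MOD d] ∧ k ≡ b [MOD e]) := by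
    apply Finset.filter_congr
    intro k hk
    rw [mem_Icc] at hk
    rw [ha k hk.1, hb k hk.1]
  rw [hfilter]
  -- compatibility
  have hgd : ((Nat.gcd d e : ℕ) : ℤ) ∣ d := by exact_mod_cast Nat.gcd_dvd_left d e
  have hge : ((Nat.gcd d e : ℕ) : ℤ) ∣ e := by exact_mod_cast Nat.gcd_dvd_right d e
  have hcop : IsCoprime ((Nat.gcd d e : ℕ) : ℤ) (p : ℤ) := by
    rw [Nat.isCoprime_iff_coprime]
    exact Nat.Coprime.coprime_dvd_left (Nat.gcd_dvd_left d e) hdp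
  have hcop' : IsCoprime ((Nat.gcd d e : ℕ) : ℤ) (p' : ℤ) := by
    rw [Nat.isCoprime_iff_coprime]
    exact Nat.Coprime.coprime_dvd_left (Nat.gcd_dvd_right d e) hep
  have hcompat : (Nat.gcd d e : ℤ) ∣ ((h₁ : ℤ) - h₂) * ((p : ℤ) - p') ↔
      a ≡ b [MOD (Nat.gcd d e)] := by
    rw [Nat.modEq_iff_dvd]
    have h1 := hgd.trans ha0
    have h2 := hge.trans hb0
    constructor
    · intro h
      -- p p' (b - a) = p (p' b + h) - p' (p a + h) + h (p' - p)
      have h3 : ((Nat.gcd d e : ℕ) : ℤ) ∣ (p : ℤ) * ((p' : ℤ) * ((b : ℤ) - a)) := by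
        have e1 : (p : ℤ) * ((p' : ℤ) * ((b : ℤ) - a)) =
            p * ((p' : ℤ) * b + h₁ - h₂) - p' * ((p : ℤ) * a + h₁ - h₂) -
              ((h₁ : ℤ) - h₂) * ((p : ℤ) - p') := by ring
        rw [e1]
        exact dvd_sub (dvd_sub (dvd_mul_of_dvd_right h2 _) (dvd_mul_of_dvd_right h1 _)) h
      exact hcop'.dvd_of_dvd_mul_left (hcop.dvd_of_dvd_mul_left h3)
    · intro h
      have e1 : ((h₁ : ℤ) - h₂) * ((p : ℤ) - p') =
            p * ((p' : ℤ) * b + h₁ - h₂) - p' * ((p : ℤ) * a + h₁ - h₂) -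
             (p * p') * ((b : ℤ) - a) := by ring
      rw [e1]
      exact dvd_sub (dvd_sub (dvd_mul_of_dvd_right h2 _) (dvd_mul_of_dvd_right h1 _))
        (dvd_mul_of_dvd_right h _)
  by_cases hc : a ≡ b [MOD (Nat.gcd d e)]
  · rw [if_pos (hcompat.2 hc)]
    obtain ⟨v, hv1, hv2⟩ := Nat.chineseRemainder' hc
    have hset : (Icc 1 K).filter (fun k => k ≡ a [MOD d] ∧ k ≡ b [MOD e]) =
        (Icc 1 K).filter (fun k => k ≡ v [MOD (Nat.lcm d e)]) := by
      apply Finset.filter_congr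
      intro k _
      constructor
      · rintro ⟨h1, h2⟩
        have h3 : k ≡ v [MOD d] := h1.trans hv1.symm
        have h4 : k ≡ v [MOD e] := h2.trans hv2.symm
        rw [Nat.modEq_iff_dvd] at h3 h4 ⊢
        have h5 : d ∣ ((v : ℤ) - k).natAbs := by
          rw [← Int.natCast_dvd_natCast, Int.dvd_natAbs]; exact h3
        have h6 : e ∣ ((v : ℤ) - k).natAbs := by
          rw [← Int.natCast_dvd_natCast, Int.dvd_natAbs]; exact h4
        have h7 := Nat.lcm_dvd h5 h6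
        rw [← Int.natCast_dvd_natCast, Int.dvd_natAbs] at h7
        exact h7
      · intro h
        exact ⟨(h.of_dvd (Nat.dvd_lcm_left d e)).trans hv1,
          (h.of_dvd (Nat.dvd_lcm_right d e)).trans hv2⟩
    rw [hset]
    have hlW : Nat.Coprime (Nat.lcm d e) W := Nat.Coprime.coprime_dvd_left
      (Nat.lcm_dvd_mul d e) (Nat.Coprime.mul_left hdW heW)
    exact class_sum hW (Nat.lcm_pos hd he) hlW Φ hΦ hΦ1 K v
  · rw [if_neg (fun h => hc (hcompat.1 h))]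
    have hemp : (Icc 1 K).filter (fun k => k ≡ a [MOD d] ∧ k ≡ b [MOD e]) = ∅ := by
      apply Finset.filter_false_of_mem
      rintro k _ ⟨h1, h2⟩
      exact hc ((h1.of_dvd (Nat.gcd_dvd_left d e)).symm.trans (h2.of_dvd (Nat.gcd_dvd_right d e)))
    rw [hemp]
    simp

end Pool.Agent.Elliott
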