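import Pool.Agent.Elliott.Defs

set_option autoImplicit false

/-! Bound of one local factor. -/

namespace Pool.Agent.Elliott

open Finset

namespace Local_

theorem norm_bb_le (G : ℕ → ℕ → ℂ) (l : ℕ) (hG : ∀ i, ‖G l i‖ ≤ 1) (i : ℕ) :
    ‖bb G l i‖ ≤ 2 := by
  unfold bb
  split_ifs with h
  · simp
  · calc ‖G l i - G l (i - 1)‖ ≤ ‖G l i‖ + ‖G l (i - 1)‖ := norm_sub_le _ _
      _ ≤ 1 + 1 := add_le_add (hG _) (hG _)
      _ = 2 := by norm_num

theorem norm_exp_le (z : ℂ) (hz : 0 ≤ z.re) (l i : ℕ) (hl : 1 ≤ l) :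
    ‖Complex.exp (-(i * z * Real.log l))‖ ≤ 1 := by
  rw [Complex.norm_exp]
  have hlog : 0 ≤ Real.log l := Real.log_nonneg (by exact_mod_cast hl)
  have h1 : (-((i : ℂ) * z * (Real.log l : ℂ))).re = -((i : ℝ) * z.re * Real.log l) := by
    have h2 : (-((i : ℂ) * z * (Real.log l : ℂ))) = ((-(i * Real.log l) : ℝ) : ℂ) * z := by
      push_cast
      ring
    rw [h2, Complex.re_ofReal_mul]
    ring
  rw [h1]
  rw [Real.exp_le_one_iff]
  have : 0 ≤ (i : ℝ) * z.re * Real.log l := by positivity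
  linarith

theorem exp_sub_one (z : ℂ) (hz : 0 ≤ z.re) (l : ℕ) (hl : 1 ≤ l) :
    ‖Complex.exp (-(z * Real.log l)) - 1‖ ≤ 2 * min 1 (‖z‖ * Real.log l) := by
  have hlog : 0 ≤ Real.log l := Real.log_nonneg (by exact_mod_cast hl)
  have hre : (-(z * (Real.log l : ℂ))).re ≤ 0 := by
    have : (-(z * (Real.log l : ℂ))).re = -(z.re * Real.log l) := by
      have h2 : (-(z * (Real.log l : ℂ))) = ((-(Real.log l) : ℝ) : ℂ) * z := by
        push_cast
        ring
      rw [h2, Complex.re_ofReal_mul]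
      ring
    rw [this]
    have : 0 ≤ z.re * Real.log l := mul_nonneg hz hlog
    linarith
  rcases le_total 1 (‖z‖ * Real.log l) with h | h
  · rw [min_eq_left h]
    calc ‖Complex.exp (-(z * Real.log l)) - 1‖ ≤ ‖Complex.exp (-(z * Real.log l))‖ + ‖(1 : ℂ)‖ :=
          norm_sub_le _ _
      _ ≤ 1 + 1 := by
          refine add_le_add ?_ (by simp)
          rw [Complex.norm_exp]
          exact Real.exp_le_one_iff.2 hre
      _ = 2 * 1 := by norm_num
  · rw [min_eq_right h]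
    have hn : ‖-(z * (Real.log l : ℂ))‖ = ‖z‖ * Real.log l := by
      rw [norm_neg, norm_mul, Complex.norm_real, Real.norm_of_nonneg hlog]
    have h1 : ‖Complex.exp (-(z * Real.log l)) - 1‖ ≤ 2 * ‖-(z * (Real.log l : ℂ))‖ :=
      Complex.norm_exp_sub_one_le (by rw [hn]; exact h)
    rw [hn] at h1
    exact h1

theorem geom_le (n : ℕ) : ∑ i ∈ range n, (1 / 2 : ℝ) ^ i ≤ 2 := by
  have h := sum_geometric_two_le n
  exact h

end Local_

open Local_ in
theorem locS_bound : ∃ C : ℝ, 0 < C ∧ ∀ (G : ℕ → ℕ → ℂ) (V : ℕ) (Δ : ℤ) (z z' : ℂ) (l : ℕ),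
    (∀ i, ‖G l i‖ ≤ 1) → G l 0 = 1 → 0 ≤ z.re → 0 ≤ z'.re → l.Prime → 5 ≤ l → 1 ≤ V →
    ‖locS G V Δ z z' l‖ ≤ Real.exp (-2 * (1 - (G l 1).re) / l +
      C * (min 1 (‖z‖ * Real.log l) + min 1 (‖z'‖ * Real.log l)) / l + C / l ^ 2 +
      (if (l : ℤ) ∣ Δ then C / l else 0)) := by
  refine ⟨48, by norm_num, ?_⟩
  intro G V Δ z z' l hG hG0 hz hz' hl hl5 hV
  have hl1 : 1 ≤ l := by omega
  have hlR : (5 : ℝ) ≤ l := by exact_mod_cast hl5
  have hl0 : (0 : ℝ) < l := by linarith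
  have hlog : 0 ≤ Real.log l := Real.log_nonneg (by exact_mod_cast hl1)
  obtain ⟨V, rfl⟩ : ∃ n, V = n + 1 := ⟨V - 1, by omega⟩
  set T : ℕ → ℕ → ℂ := fun i j =>
    (bb G l i * Complex.exp (-(i * z * Real.log l))) *
    ((starRingEnd ℂ) (bb G l j) * Complex.exp (-(j * z' * Real.log l))) *
    (if ((l ^ min i j : ℕ) : ℤ) ∣ Δ then 1 / (l : ℂ) ^ max i j else 0) with hT
  have hTn : ∀ i j, ‖T i j‖ ≤ 4 * (1 / (l : ℝ) ^ max i j) := by
    intro i j
    simp only [hT]
    rw [norm_mul, norm_mul, norm_mul, norm_mul, RCLike.norm_conj]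
    have h1 := norm_bb_le G l hG i
    have h2 := norm_bb_le G l hG j
    have h3 := norm_exp_le z hz l i hl1
    have h4 := norm_exp_le z' hz' l j hl1
    have h5 : ‖(if ((l ^ min i j : ℕ) : ℤ) ∣ Δ then 1 / (l : ℂ) ^ max i j else 0)‖ ≤
        1 / (l : ℝ) ^ max i j := by
      split_ifs
      · rw [norm_div, norm_one, norm_pow, Complex.norm_natCast]
      · rw [norm_zero]; positivity
    have h6 : ‖bb G l i‖ * ‖Complex.exp (-(i * z * Real.log l))‖ ≤ 2 * 1 :=
      mul_le_mul h1 h3 (norm_nonneg _) (by norm_num)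
    have h7 : ‖bb G l j‖ * ‖Complex.exp (-(j * z' * Real.log l))‖ ≤ 2 * 1 :=
      mul_le_mul h2 h4 (norm_nonneg _) (by norm_num)
    calc _ ≤ (2 * 1) * (2 * 1) * (1 / (l : ℝ) ^ max i j) := by
          refine mul_le_mul (mul_le_mul h6 h7 (by positivity) (by norm_num)) h5 (norm_nonneg _)
            (by norm_num)
      _ = _ := by ring
  have hTz : ¬ (l : ℤ) ∣ Δ → ∀ i j, T (i + 1) (j + 1) = 0 := by
    intro h i j
    simp only [hT]
    rw [if_neg, mul_zero]
    intro h'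
    apply h
    refine dvd_trans ?_ h'
    have : l ∣ l ^ min (i + 1) (j + 1) := dvd_pow_self l (by omega)
    exact_mod_cast this
  have hb0 : bb G l 0 = 1 := by simp [bb]
  have hb1 : bb G l 1 = G l 1 - 1 := by simp [bb, hG0]
  have hT00 : T 0 0 = 1 := by
    simp [hT, hb0]
  have hT10 : T 1 0 = (G l 1 - 1) * Complex.exp (-(z * Real.log l)) / l := by
    simp only [hT, hb0, hb1]
    simp
    ring
  have hT01 : T 0 1 = (starRingEnd ℂ) (G l 1 - 1) * Complex.exp (-(z' * Real.log l)) / l := by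
    simp only [hT, hb0, hb1]
    simp
    ring
  have hsplit : locS G (V + 1) Δ z z' l =
      (∑ i ∈ range (V + 1), ∑ j ∈ range (V + 1), T (i + 1) (j + 1)) +
      (∑ i ∈ range V, T (i + 2) 0) + (∑ j ∈ range V, T 0 (j + 2)) +
      (1 + (T 1 0 + T 0 1)) := by
    have h0 : locS G (V + 1) Δ z z' l = ∑ i ∈ range (V + 1 + 1), ∑ j ∈ range (V + 1 + 1), T i j :=
      rfl
    rw [h0, sum_range_succ']
    have h1 : ∀ i, ∑ j ∈ range (V + 1 + 1), T (i + 1) j =
        ∑ j ∈ range (V + 1), T (i + 1) (j + 1) + T (i + 1) 0 := fun i => sum_range_succ' _ _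
    have h2 : ∑ j ∈ range (V + 1 + 1), T 0 j = ∑ j ∈ range (V + 1), T 0 (j + 1) + T 0 0 :=
      sum_range_succ' _ _
    simp only [h1]
    rw [h2, sum_add_distrib, sum_range_succ' (fun i => T (i + 1) 0),
      sum_range_succ' (fun j => T 0 (j + 1)), hT00]
    simp only [zero_add]
    ring
  -- the part with i, j ≥ 1
  have hA : ‖∑ i ∈ range (V + 1), ∑ j ∈ range (V + 1), T (i + 1) (j + 1)‖ ≤
      if (l : ℤ) ∣ Δ then 16 / (l : ℝ) else 0 := by
    split_ifs with h
    · have hterm : ∀ i j : ℕ, ‖T (i + 1) (j + 1)‖ ≤ (4 / (l : ℝ)) * ((1 / 2) ^ i * (1 / 2) ^ j) := by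
        intro i j
        refine (hTn _ _).trans ?_
        have hm : max (i + 1) (j + 1) = max i j + 1 := by omega
        rw [hm, pow_succ]
        have h5 : (2 : ℝ) ^ i * 2 ^ j ≤ (l : ℝ) ^ max i j := by
          calc (2 : ℝ) ^ i * 2 ^ j = 2 ^ (i + j) := by rw [pow_add]
            _ ≤ 2 ^ (2 * max i j) := pow_le_pow_right₀ (by norm_num) (by omega)
            _ = 4 ^ (max i j) := by rw [pow_mul]; norm_num
            _ ≤ (l : ℝ) ^ max i j := pow_le_pow_left₀ (by norm_num) (by linarith) _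
        have h6 : 1 / (l : ℝ) ^ max i j ≤ 1 / ((2 : ℝ) ^ i * 2 ^ j) :=
          one_div_le_one_div_of_le (by positivity) h5
        calc 4 * (1 / ((l : ℝ) ^ max i j * l)) = (4 / (l : ℝ)) * (1 / (l : ℝ) ^ max i j) := by
              field_simp
          _ ≤ (4 / (l : ℝ)) * (1 / ((2 : ℝ) ^ i * 2 ^ j)) :=
              mul_le_mul_of_nonneg_left h6 (by positivity)
          _ = _ := by
              rw [one_div_pow, one_div_pow]
              field_simp
      calc ‖∑ i ∈ range (V + 1), ∑ j ∈ range (V + 1), T (i + 1) (j + 1)‖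
          ≤ ∑ i ∈ range (V + 1), ∑ j ∈ range (V + 1),
              (4 / (l : ℝ)) * ((1 / 2) ^ i * (1 / 2) ^ j) := by
            refine (norm_sum_le _ _).trans (sum_le_sum fun i _ => ?_)
            exact (norm_sum_le _ _).trans (sum_le_sum fun j _ => hterm i j)
        _ = (4 / (l : ℝ)) * ((∑ i ∈ range (V + 1), (1 / 2 : ℝ) ^ i) *
              (∑ i ∈ range (V + 1), (1 / 2 : ℝ) ^ i)) := by
            rw [sum_mul_sum, mul_sum]
            refine sum_congr rfl fun i _ => ?_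
            rw [mul_sum]
        _ ≤ (4 / (l : ℝ)) * (2 * 2) := by
            refine mul_le_mul_of_nonneg_left ?_ (by positivity)
            exact mul_le_mul (geom_le _) (geom_le _) (sum_nonneg fun i _ => by positivity)
              (by norm_num)
        _ = 16 / (l : ℝ) := by ring
    · rw [sum_eq_zero]
      · simp
      · intro i _
        exact sum_eq_zero fun j _ => hTz h i j
  have hterm2 : ∀ i : ℕ, 4 * (1 / (l : ℝ) ^ (i + 2)) ≤ (4 / (l : ℝ) ^ 2) * (1 / 2) ^ i := by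
    intro i
    have h5 : (2 : ℝ) ^ i ≤ (l : ℝ) ^ i := pow_le_pow_left₀ (by norm_num) (by linarith) _
    have h6 : 1 / (l : ℝ) ^ i ≤ 1 / (2 : ℝ) ^ i := one_div_le_one_div_of_le (by positivity) h5
    calc 4 * (1 / (l : ℝ) ^ (i + 2)) = (4 / (l : ℝ) ^ 2) * (1 / (l : ℝ) ^ i) := by
          rw [pow_add]; field_simp
      _ ≤ (4 / (l : ℝ) ^ 2) * (1 / (2 : ℝ) ^ i) := mul_le_mul_of_nonneg_left h6 (by positivity)
      _ = _ := by rw [one_div_pow]
  have hB : ‖∑ i ∈ range V, T (i + 2) 0‖ ≤ 8 / (l : ℝ) ^ 2 := by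
    calc ‖∑ i ∈ range V, T (i + 2) 0‖ ≤ ∑ i ∈ range V, (4 / (l : ℝ) ^ 2) * (1 / 2) ^ i := by
          refine (norm_sum_le _ _).trans (sum_le_sum fun i _ => ?_)
          refine (hTn _ _).trans ?_
          have : max (i + 2) 0 = i + 2 := by omega
          rw [this]
          exact hterm2 i
      _ = (4 / (l : ℝ) ^ 2) * ∑ i ∈ range V, (1 / 2 : ℝ) ^ i := by rw [mul_sum]
      _ ≤ (4 / (l : ℝ) ^ 2) * 2 := mul_le_mul_of_nonneg_left (geom_le _) (by positivity)
      _ = _ := by ring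
  have hC : ‖∑ j ∈ range V, T 0 (j + 2)‖ ≤ 8 / (l : ℝ) ^ 2 := by
    calc ‖∑ j ∈ range V, T 0 (j + 2)‖ ≤ ∑ i ∈ range V, (4 / (l : ℝ) ^ 2) * (1 / 2) ^ i := by
          refine (norm_sum_le _ _).trans (sum_le_sum fun i _ => ?_)
          refine (hTn _ _).trans ?_
          have : max 0 (i + 2) = i + 2 := by omega
          rw [this]
          exact hterm2 i
      _ = (4 / (l : ℝ) ^ 2) * ∑ i ∈ range V, (1 / 2 : ℝ) ^ i := by rw [mul_sum]
      _ ≤ (4 / (l : ℝ) ^ 2) * 2 := mul_le_mul_of_nonneg_left (geom_le _) (by positivity)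
      _ = _ := by ring
  -- the main part
  set s : ℝ := 2 * (1 - (G l 1).re) / l with hs
  have hre : |(G l 1).re| ≤ 1 := (Complex.abs_re_le_norm _).trans (hG 1)
  have hs0 : 0 ≤ s := by
    rw [hs]
    have := (abs_le.1 hre).2
    apply div_nonneg _ hl0.le
    linarith
  have hs1 : s ≤ 4 / 5 := by
    rw [hs, div_le_iff₀ hl0]
    have := (abs_le.1 hre).1
    nlinarith
  set m : ℝ := min 1 (‖z‖ * Real.log l) with hm
  set m' : ℝ := min 1 (‖z'‖ * Real.log l) with hm'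
  have hm0 : 0 ≤ m := le_min (by norm_num) (by positivity)
  have hm0' : 0 ≤ m' := le_min (by norm_num) (by positivity)
  have hbn : ‖G l 1 - 1‖ ≤ 2 := by rw [← hb1]; exact norm_bb_le G l hG 1
  have hD : ‖1 + (T 1 0 + T 0 1)‖ ≤ (1 - s) + 4 * (m + m') / l := by
    have h1 : (1 : ℂ) + (T 1 0 + T 0 1) = ((1 - s : ℝ) : ℂ) +
        (G l 1 - 1) * (Complex.exp (-(z * Real.log l)) - 1) / l +
        (starRingEnd ℂ) (G l 1 - 1) * (Complex.exp (-(z' * Real.log l)) - 1) / l := by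
      rw [hT10, hT01]
      have h2 : ((1 - s : ℝ) : ℂ) = 1 + ((G l 1 - 1) + (starRingEnd ℂ) (G l 1 - 1)) / l := by
        rw [Complex.add_conj]
        rw [hs]
        push_cast
        have : (G l 1 - 1).re = (G l 1).re - 1 := by simp
        rw [this]
        push_cast
        ring
      rw [h2]
      ring
    rw [h1]
    have h3 : ‖((1 - s : ℝ) : ℂ)‖ = 1 - s := by
      rw [Complex.norm_real, Real.norm_of_nonneg (by linarith)]
    have h4 : ‖(G l 1 - 1) * (Complex.exp (-(z * Real.log l)) - 1) / l‖ ≤ 4 * m / l := by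
      rw [norm_div, norm_mul, Complex.norm_natCast]
      refine div_le_div_of_nonneg_right ?_ hl0.le
      calc ‖G l 1 - 1‖ * ‖Complex.exp (-(z * Real.log l)) - 1‖ ≤ 2 * (2 * m) :=
            mul_le_mul hbn (exp_sub_one z hz l hl1) (norm_nonneg _) (by norm_num)
        _ = 4 * m := by ring
    have h5 : ‖(starRingEnd ℂ) (G l 1 - 1) * (Complex.exp (-(z' * Real.log l)) - 1) / l‖ ≤
        4 * m' / l := by
      rw [norm_div, norm_mul, Complex.norm_natCast, RCLike.norm_conj]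
      refine div_le_div_of_nonneg_right ?_ hl0.le
      calc ‖G l 1 - 1‖ * ‖Complex.exp (-(z' * Real.log l)) - 1‖ ≤ 2 * (2 * m') :=
            mul_le_mul hbn (exp_sub_one z' hz' l hl1) (norm_nonneg _) (by norm_num)
        _ = 4 * m' := by ring
    calc _ ≤ ‖((1 - s : ℝ) : ℂ)‖ + ‖(G l 1 - 1) * (Complex.exp (-(z * Real.log l)) - 1) / l‖ +
          ‖(starRingEnd ℂ) (G l 1 - 1) * (Complex.exp (-(z' * Real.log l)) - 1) / l‖ :=
          norm_add₃_le
      _ ≤ (1 - s) + 4 * m / l + 4 * m' / l := by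
          rw [h3]
          linarith
      _ = _ := by ring
  set η : ℝ := (if (l : ℤ) ∣ Δ then 16 / (l : ℝ) else 0) + 8 / (l : ℝ) ^ 2 + 8 / (l : ℝ) ^ 2 +
    4 * (m + m') / l with hη
  have hη0 : 0 ≤ η := by
    rw [hη]
    have : 0 ≤ (if (l : ℤ) ∣ Δ then 16 / (l : ℝ) else 0) := by split_ifs <;> positivity
    positivity
  have htot : ‖locS G (V + 1) Δ z z' l‖ ≤ (1 - s) + η := by
    rw [hsplit]
    calc _ ≤ ‖(∑ i ∈ range (V + 1), ∑ j ∈ range (V + 1), T (i + 1) (j + 1)) +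
      (∑ i ∈ range V, T (i + 2) 0) + (∑ j ∈ range V, T 0 (j + 2))‖ + ‖1 + (T 1 0 + T 0 1)‖ :=
          norm_add_le _ _
      _ ≤ (‖∑ i ∈ range (V + 1), ∑ j ∈ range (V + 1), T (i + 1) (j + 1)‖ +
            ‖∑ i ∈ range V, T (i + 2) 0‖ + ‖∑ j ∈ range V, T 0 (j + 2)‖) +
            ‖1 + (T 1 0 + T 0 1)‖ := by
          gcongr
          exact norm_add₃_le
      _ ≤ _ := by
          rw [hη]
          linarith
  have hexp : (1 - s) + η ≤ Real.exp (-s + 3 * η) := by
    have h1 : (1 - s) ≤ Real.exp (-s) := by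
      have := Real.add_one_le_exp (-s)
      linarith
    have h2 : Real.exp s ≤ 3 := by
      calc Real.exp s ≤ Real.exp 1 := Real.exp_le_exp.2 (by linarith)
        _ ≤ 3 := by
          have := Real.exp_one_lt_d9
          linarith
    have h3 : 1 ≤ 3 * Real.exp (-s) := by
      have h4 : Real.exp (-s) * Real.exp s = 1 := by rw [← Real.exp_add]; simp
      have h5 : 0 < Real.exp (-s) := Real.exp_pos _
      nlinarith
    have h6 : 1 + 3 * η ≤ Real.exp (3 * η) := by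
      have := Real.add_one_le_exp (3 * η)
      linarith
    calc (1 - s) + η ≤ Real.exp (-s) + η * (3 * Real.exp (-s)) := by nlinarith
      _ = Real.exp (-s) * (1 + 3 * η) := by ring
      _ ≤ Real.exp (-s) * Real.exp (3 * η) := mul_le_mul_of_nonneg_left h6 (Real.exp_pos _).le
      _ = _ := by rw [← Real.exp_add]
  refine htot.trans (hexp.trans (Real.exp_le_exp.2 ?_))
  rw [hη, hs]
  have h1 : 12 * (m + m') / l ≤ 48 * (m + m') / l := by
    refine div_le_div_of_nonneg_right ?_ hl0.le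
    linarith
  have h2 : 3 * (if (l : ℤ) ∣ Δ then 16 / (l : ℝ) else 0) =
      (if (l : ℤ) ∣ Δ then 48 / (l : ℝ) else 0) := by
    split_ifs
    · ring
    · ring
  have h3 : 3 * (8 / (l : ℝ) ^ 2 + 8 / (l : ℝ) ^ 2) = 48 / (l : ℝ) ^ 2 := by ring
  have h4 : 3 * (4 * (m + m') / l) = 12 * (m + m') / l := by ring
  have h5 : -2 * (1 - (G l 1).re) / (l : ℝ) = -(2 * (1 - (G l 1).re) / l) := by ring
  rw [h5]
  linarith

end Pool.Agent.Elliott
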