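import Pool.Agent.Elliott.Smooth
import Pool.Agent.Elliott.Count
import Pool.Agent.Elliott.Local
import Pool.Agent.Elliott.Cheb

set_option autoImplicit false

/-! The correlation of the smoothed divisor sum along two linear forms. -/

namespace Pool.Agent.Elliott

open Finset MeasureTheory

variable {Q : Finset ℕ} {ψ w : ℝ → ℂ} {lD : ℝ}

theorem dd_factorization_of_notMem (hQ : ∀ l ∈ Q, l.Prime) (v : Q → ℕ) {p : ℕ} (hp : p ∉ Q) :
    (dd v).factorization p = 0 := by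
  by_cases hpp : p.Prime
  · exact Nat.factorization_eq_zero_of_not_dvd fun hd => hp (dd_primeFactors hQ v hpp hd)
  · exact Nat.factorization_eq_zero_of_not_prime _ hpp

theorem gcd_dd (hQ : ∀ l ∈ Q, l.Prime) (v v' : Q → ℕ) :
    Nat.gcd (dd v) (dd v') = dd (fun l => min (v l) (v' l)) := by
  refine Nat.eq_of_factorization_eq (Nat.gcd_pos_of_pos_left _ (dd_pos hQ v)).ne'
    (dd_pos hQ _).ne' fun p => ?_
  rw [Nat.factorization_gcd (dd_pos hQ v).ne' (dd_pos hQ v').ne']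
  by_cases hp : p ∈ Q
  · have h1 := dd_factorization hQ v ⟨p, hp⟩
    have h2 := dd_factorization hQ v' ⟨p, hp⟩
    have h3 := dd_factorization hQ (fun l => min (v l) (v' l)) ⟨p, hp⟩
    simp only at h1 h2 h3
    rw [Finsupp.inf_apply, h1, h2, h3]
  · rw [Finsupp.inf_apply, dd_factorization_of_notMem hQ v hp,
      dd_factorization_of_notMem hQ v' hp, dd_factorization_of_notMem hQ _ hp]
    rfl

theorem lcm_dd (hQ : ∀ l ∈ Q, l.Prime) (v v' : Q → ℕ) :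
    Nat.lcm (dd v) (dd v') = dd (fun l => max (v l) (v' l)) := by
  refine Nat.eq_of_factorization_eq (Nat.lcm_ne_zero (dd_pos hQ v).ne' (dd_pos hQ v').ne')
    (dd_pos hQ _).ne' fun p => ?_
  rw [Nat.factorization_lcm (dd_pos hQ v).ne' (dd_pos hQ v').ne']
  by_cases hp : p ∈ Q
  · have h1 := dd_factorization hQ v ⟨p, hp⟩
    have h2 := dd_factorization hQ v' ⟨p, hp⟩
    have h3 := dd_factorization hQ (fun l => max (v l) (v' l)) ⟨p, hp⟩
    simp only at h1 h2 h3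
    rw [Finsupp.sup_apply, h1, h2, h3]
  · rw [Finsupp.sup_apply, dd_factorization_of_notMem hQ v hp,
      dd_factorization_of_notMem hQ v' hp, dd_factorization_of_notMem hQ _ hp]
    rfl

theorem dd_dvd_int_iff (hQ : ∀ l ∈ Q, l.Prime) (v : Q → ℕ) (Δ : ℤ) :
    ((dd v : ℕ) : ℤ) ∣ Δ ↔ ∀ l : Q, (((l : ℕ) ^ v l : ℕ) : ℤ) ∣ Δ := by
  simp_rw [Int.natCast_dvd]
  rcases eq_or_ne Δ.natAbs 0 with h | h
  · rw [h]; simp
  · rw [dd_dvd_iff hQ v h]
    exact forall_congr' fun l => ((hQ l l.2).pow_dvd_iff_le_factorization h).symm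

/-- The factor of `(v, v')` in the correlation sum. -/
noncomputable def kap (Δ : ℤ) (v v' : Q → ℕ) : ℂ :=
  if ((Nat.gcd (dd v) (dd v') : ℕ) : ℤ) ∣ Δ then 1 / (Nat.lcm (dd v) (dd v') : ℂ) else 0

theorem kap_eq (hQ : ∀ l ∈ Q, l.Prime) (Δ : ℤ) (v v' : Q → ℕ) :
    kap Δ v v' = ∏ l : Q, (if (((l : ℕ) ^ min (v l) (v' l) : ℕ) : ℤ) ∣ Δ then
      1 / ((l : ℕ) : ℂ) ^ max (v l) (v' l) else 0) := by
  unfold kap
  rw [gcd_dd hQ, lcm_dd hQ]
  by_cases h : ((dd (fun l => min (v l) (v' l)) : ℕ) : ℤ) ∣ Δ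
  · rw [if_pos h]
    rw [dd_dvd_int_iff hQ] at h
    rw [Finset.prod_congr rfl fun l _ => if_pos (h l)]
    simp [dd]
  · rw [if_neg h]
    rw [dd_dvd_int_iff hQ] at h
    push Not at h
    obtain ⟨l, hl⟩ := h
    exact (Finset.prod_eq_zero (mem_univ l) (if_neg hl)).symm

/-- Euler product for the correlation sum. -/
theorem euler (hQ : ∀ l ∈ Q, l.Prime) (G : ℕ → ℕ → ℂ) (V : ℕ) (Δ : ℤ) (z z' : ℂ) :
    ∑ v ∈ box Q V, ∑ v' ∈ box Q V, (bv G v * Complex.exp (-(z * Real.log (dd v)))) *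
      ((starRingEnd ℂ) (bv G v') * Complex.exp (-(z' * Real.log (dd v')))) * kap Δ v v' =
    ∏ l ∈ Q, locS G V Δ z z' l := by
  rw [← Finset.prod_coe_sort Q]
  unfold locS
  rw [Finset.prod_univ_sum]
  refine Finset.sum_congr rfl fun v _ => ?_
  rw [Finset.prod_univ_sum]
  refine Finset.sum_congr rfl fun v' _ => ?_
  rw [Finset.prod_mul_distrib, Finset.prod_mul_distrib, Finset.prod_mul_distrib,
    Finset.prod_mul_distrib, exp_log_dd hQ, exp_log_dd hQ, kap_eq hQ]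
  unfold bv
  rw [map_prod]

/-- The correlation constant of the smoothed divisor sum. -/
noncomputable def corrM (Q : Finset ℕ) (V : ℕ) (G : ℕ → ℕ → ℂ) (ψ : ℝ → ℂ) (lD : ℝ) (Δ : ℤ) :
    ℂ :=
  ∑ v ∈ box Q V, ∑ v' ∈ box Q V, (bv G v * ψ (Real.log (dd v) / lD)) *
    (starRingEnd ℂ) (bv G v' * ψ (Real.log (dd v') / lD)) * kap Δ v v'

theorem corrM_bound (H : PsiData ψ w) (hD : 0 < lD) (hQ : ∀ l ∈ Q, l.Prime)
    (G : ℕ → ℕ → ℂ) (V : ℕ) (Δ : ℤ) {K : ℝ} {m : ℕ}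
    (hP : ∀ ξ ξ' : ℝ, ‖∏ l ∈ Q, locS G V Δ (zz lD ξ) ((starRingEnd ℂ) (zz lD ξ')) l‖ ≤
      K * ((1 + |ξ|) ^ m * (1 + |ξ'|) ^ m)) :
    ‖corrM Q V G ψ lD Δ‖ ≤ K * (∫ ξ, ‖w ξ‖ * (1 + |ξ|) ^ m) ^ 2 := by
  set J := ∫ ξ, ‖w ξ‖ * (1 + |ξ|) ^ m
  have hJ : 0 ≤ J := integral_nonneg fun _ => by positivity
  let A : (Q → ℕ) → ℂ := fun v => bv G v * ψ (Real.log (dd v) / lD)
  let a : (Q → ℕ) → ℝ → ℂ := fun v ξ => bv G v * Complex.exp (-(zz lD ξ * Real.log (dd v)))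
  have hcont : ∀ v, Continuous (a v) := fun v => by
    have := continuous_zz (lD := lD)
    fun_prop
  have hbdd : ∀ v ξ, ‖a v ξ‖ ≤ ‖bv G v‖ := fun v ξ => by
    rw [norm_mul]
    have := norm_exp_zz hD ξ (log_dd_nonneg hQ v)
    calc _ ≤ ‖bv G v‖ * 1 := mul_le_mul_of_nonneg_left this (norm_nonneg _)
      _ = _ := mul_one _
  have hint : ∀ v, Integrable (fun ξ => w ξ * a v ξ) := fun v =>
    H.integrable_mul (hcont v) (hbdd v)
  have hA : ∀ v, A v = ∫ ξ, w ξ * a v ξ := fun v => by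
    simp only [A, a]
    rw [H.rep' hD (log_dd_nonneg hQ v), ← integral_const_mul]
    congr 1; funext ξ; ring
  have hAc : ∀ v, (starRingEnd ℂ) (A v) = ∫ ξ, (starRingEnd ℂ) (w ξ * a v ξ) := fun v => by
    rw [hA, integral_conj]
  let P : ℝ → ℝ → ℂ := fun ξ ξ' =>
    ∏ l ∈ Q, locS G V Δ (zz lD ξ) ((starRingEnd ℂ) (zz lD ξ')) l
  have hPe : ∀ ξ ξ', P ξ ξ' = ∑ v ∈ box Q V, ∑ v' ∈ box Q V,
      a v ξ * (starRingEnd ℂ) (a v' ξ') * kap Δ v v' := by
    intro ξ ξ'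
    simp only [P]
    rw [← euler hQ]
    refine Finset.sum_congr rfl fun v _ => Finset.sum_congr rfl fun v' _ => ?_
    simp only [a]
    rw [map_mul, ← Complex.exp_conj]
    simp only [map_neg, map_mul, Complex.conj_ofReal]
  -- the inner integral
  have hinner : ∀ ξ, ∑ v ∈ box Q V, ∑ v' ∈ box Q V, a v ξ * (starRingEnd ℂ) (A v') * kap Δ v v' =
      ∫ ξ', (starRingEnd ℂ) (w ξ') * P ξ ξ' := by
    intro ξ
    have h1 : ∀ ξ', (starRingEnd ℂ) (w ξ') * P ξ ξ' = ∑ v ∈ box Q V, ∑ v' ∈ box Q V,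
        (a v ξ * kap Δ v v') * (starRingEnd ℂ) (w ξ' * a v' ξ') := by
      intro ξ'
      rw [hPe, Finset.mul_sum]
      refine Finset.sum_congr rfl fun v _ => ?_
      rw [Finset.mul_sum]
      refine Finset.sum_congr rfl fun v' _ => ?_
      rw [map_mul (starRingEnd ℂ) (w ξ') (a v' ξ')]; ring
    have hi : ∀ v', Integrable (fun ξ' => (starRingEnd ℂ) (w ξ' * a v' ξ')) := fun v' => by
      have := (hint v')
      refine this.norm.mono' ?_ (Filter.Eventually.of_forall fun ξ' => ?_)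
      · exact (Complex.continuous_conj.comp (H.cont.mul (hcont v'))).aestronglyMeasurable
      · rw [RCLike.norm_conj]
    simp_rw [h1]
    rw [integral_finsetSum _ fun v _ => integrable_finsetSum _ fun v' _ =>
      (hi v').const_mul _]
    refine Finset.sum_congr rfl fun v _ => ?_
    rw [integral_finsetSum _ fun v' _ => (hi v').const_mul _]
    refine Finset.sum_congr rfl fun v' _ => ?_
    rw [integral_const_mul, hAc]
    ring
  have houter : corrM Q V G ψ lD Δ = ∫ ξ, w ξ * ∑ v ∈ box Q V, ∑ v' ∈ box Q V,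
      a v ξ * (starRingEnd ℂ) (A v') * kap Δ v v' := by
    have h1 : ∀ ξ, w ξ * ∑ v ∈ box Q V, ∑ v' ∈ box Q V,
        a v ξ * (starRingEnd ℂ) (A v') * kap Δ v v' =
        ∑ v ∈ box Q V, ∑ v' ∈ box Q V,
          ((starRingEnd ℂ) (A v') * kap Δ v v') * (w ξ * a v ξ) := by
      intro ξ
      rw [Finset.mul_sum]
      refine Finset.sum_congr rfl fun v _ => ?_
      rw [Finset.mul_sum]
      refine Finset.sum_congr rfl fun v' _ => ?_
      ring
    simp_rw [h1]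
    rw [integral_finsetSum _ fun v _ => integrable_finsetSum _ fun v' _ =>
      (hint v).const_mul _]
    unfold corrM
    refine Finset.sum_congr rfl fun v _ => ?_
    rw [integral_finsetSum _ fun v' _ => (hint v).const_mul _]
    refine Finset.sum_congr rfl fun v' _ => ?_
    rw [integral_const_mul, ← hA]
    simp only [A]
    ring
  rw [houter]
  have hin : ∀ ξ, ‖∑ v ∈ box Q V, ∑ v' ∈ box Q V,
      a v ξ * (starRingEnd ℂ) (A v') * kap Δ v v'‖ ≤ K * (1 + |ξ|) ^ m * J := by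
    intro ξ
    rw [hinner]
    refine (norm_integral_le_integral_norm _).trans ?_
    have h2 : ∫ ξ', ‖(starRingEnd ℂ) (w ξ') * P ξ ξ'‖ ≤
        ∫ ξ', K * (1 + |ξ|) ^ m * (‖w ξ'‖ * (1 + |ξ'|) ^ m) := by
      refine integral_mono_of_nonneg (Filter.Eventually.of_forall fun _ => norm_nonneg _)
        ((H.int m).const_mul _) (Filter.Eventually.of_forall fun ξ' => ?_)
      simp only
      rw [norm_mul, RCLike.norm_conj]
      calc ‖w ξ'‖ * ‖P ξ ξ'‖ ≤ ‖w ξ'‖ * (K * ((1 + |ξ|) ^ m * (1 + |ξ'|) ^ m)) :=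
            mul_le_mul_of_nonneg_left (hP ξ ξ') (norm_nonneg _)
        _ = _ := by ring
    rw [integral_const_mul] at h2
    exact h2
  refine (norm_integral_le_integral_norm _).trans ?_
  have h3 : ∫ ξ, ‖w ξ * ∑ v ∈ box Q V, ∑ v' ∈ box Q V,
      a v ξ * (starRingEnd ℂ) (A v') * kap Δ v v'‖ ≤
      ∫ ξ, K * J * (‖w ξ‖ * (1 + |ξ|) ^ m) := by
    refine integral_mono_of_nonneg (Filter.Eventually.of_forall fun _ => norm_nonneg _)
      ((H.int m).const_mul _) (Filter.Eventually.of_forall fun ξ => ?_)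
    simp only
    rw [norm_mul]
    calc _ ≤ ‖w ξ‖ * (K * (1 + |ξ|) ^ m * J) :=
          mul_le_mul_of_nonneg_left (hin ξ) (norm_nonneg _)
      _ = _ := by ring
  rw [integral_const_mul] at h3
  calc _ ≤ K * J * J := h3
    _ = _ := by ring

theorem sum_min_le {C₁ : ℝ} (hC₁ : ∀ (z : ℝ) (y : ℕ), 0 ≤ z →
      ∑ p ∈ (Icc 1 y).filter Nat.Prime, min 1 (z * Real.log p) / p ≤
        C₁ * Real.log (1 + z * Real.log y))
    {y : ℕ} (hQ : ∀ l ∈ Q, l.Prime ∧ 5 ≤ l ∧ l ≤ y) {z : ℝ} (hz : 0 ≤ z) :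
    ∑ l ∈ Q, min 1 (z * Real.log l) / l ≤ C₁ * Real.log (1 + z * Real.log y) := by
  refine le_trans ?_ (hC₁ z y hz)
  refine Finset.sum_le_sum_of_subset_of_nonneg ?_ ?_
  · intro l hl
    obtain ⟨h1, h2, h3⟩ := hQ l hl
    rw [mem_filter, mem_Icc]
    exact ⟨⟨by omega, h3⟩, h1⟩
  · intro l _ _
    have := Real.log_natCast_nonneg l
    positivity

theorem exp_div_le {C : ℝ} {l : ℕ} (hl : 1 ≤ l) :
    Real.exp (C / l) ≤ 1 + Real.exp C / l := by
  have hl0 : (0 : ℝ) < l := by exact_mod_cast hl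
  have h1 : (1 : ℝ) / l ≤ 1 := by
    rw [div_le_one hl0]; exact_mod_cast hl
  have h2 : (0 : ℝ) ≤ 1 / l := by positivity
  have := convexOn_exp.2 (Set.mem_univ (0 : ℝ)) (Set.mem_univ C)
    (show (0 : ℝ) ≤ 1 - 1 / l by linarith) h2 (by ring)
  simp only [smul_eq_mul, mul_zero, zero_add, Real.exp_zero, mul_one] at this
  calc Real.exp (C / l) = Real.exp (1 / l * C) := by congr 1; ring
    _ ≤ 1 - 1 / l + 1 / l * Real.exp C := this
    _ ≤ 1 + Real.exp C / l := by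
        have : (1 : ℝ) / l * Real.exp C = Real.exp C / l := by ring
        linarith

/-- The correlation constant is small when `G` is far from `1` in the pretentious sense. -/
theorem corrM_le (H : PsiData ψ w) : ∃ C₀ C₃ : ℝ, 0 < C₀ ∧ 0 < C₃ ∧
    ∀ (Q : Finset ℕ) (y V : ℕ) (lD : ℝ) (G : ℕ → ℕ → ℂ) (Δ : ℤ),
      (∀ l ∈ Q, l.Prime ∧ 5 ≤ l ∧ l ≤ y) → 0 < lD → Real.log y ≤ lD → 1 ≤ V →
      (∀ l i, ‖G l i‖ ≤ 1) → (∀ l, G l 0 = 1) →
      ‖corrM Q V G ψ lD Δ‖ ≤ C₃ * Real.exp (-2 * ∑ l ∈ Q, (1 - (G l 1).re) / l) *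
        ∏ l ∈ Q.filter (fun l : ℕ => (l : ℤ) ∣ Δ), (1 + C₀ / l) := by
  obtain ⟨C₁, hC₁0, hC₁⟩ := sum_min_log
  obtain ⟨C₂, hC₂0, hC₂⟩ := locS_bound
  obtain ⟨m, hm⟩ := exists_nat_ge (C₂ * C₁)
  set ζ : ℝ := ∑' n : ℕ, 1 / (n : ℝ) ^ 2
  have hsum : Summable (fun n : ℕ => 1 / (n : ℝ) ^ 2) :=
    Real.summable_one_div_nat_pow.2 (by norm_num)
  set J := ∫ ξ, ‖w ξ‖ * (1 + |ξ|) ^ m with hJdef
  have hJ : 0 ≤ J := integral_nonneg fun _ => by positivity
  refine ⟨Real.exp C₂, Real.exp (C₂ * ζ) * 4 ^ m * J ^ 2 + 1, Real.exp_pos _,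
    by positivity, ?_⟩
  intro Q y V lD G Δ hQ hD hy hV hG hG0
  have hQ' : ∀ l ∈ Q, l.Prime := fun l hl => (hQ l hl).1
  set S := ∑ l ∈ Q, (1 - (G l 1).re) / l
  set T := ∏ l ∈ Q.filter (fun l : ℕ => (l : ℤ) ∣ Δ), (1 + Real.exp C₂ / l)
  have hT : 0 ≤ T := Finset.prod_nonneg fun l _ => by positivity
  have key : ∀ ξ ξ' : ℝ, ‖∏ l ∈ Q, locS G V Δ (zz lD ξ) ((starRingEnd ℂ) (zz lD ξ')) l‖ ≤
      (Real.exp (C₂ * ζ) * 4 ^ m * Real.exp (-2 * S) * T) *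
        ((1 + |ξ|) ^ m * (1 + |ξ'|) ^ m) := by
    intro ξ ξ'
    have hz := zz_re hD ξ
    have hz' : 0 ≤ ((starRingEnd ℂ) (zz lD ξ')).re := by
      rw [Complex.conj_re]; exact zz_re hD ξ'
    have hn' : ‖(starRingEnd ℂ) (zz lD ξ')‖ = ‖zz lD ξ'‖ := RCLike.norm_conj _
    have h1 : ‖∏ l ∈ Q, locS G V Δ (zz lD ξ) ((starRingEnd ℂ) (zz lD ξ')) l‖ ≤
        ∏ l ∈ Q, Real.exp (-2 * (1 - (G l 1).re) / l +
          C₂ * (min 1 (‖zz lD ξ‖ * Real.log l) + min 1 (‖zz lD ξ'‖ * Real.log l)) / l +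
          C₂ / l ^ 2 + (if (l : ℤ) ∣ Δ then C₂ / l else 0)) := by
      rw [norm_prod]
      refine Finset.prod_le_prod (fun _ _ => norm_nonneg _) fun l hl => ?_
      have := hC₂ G V Δ (zz lD ξ) ((starRingEnd ℂ) (zz lD ξ')) l (hG l) (hG0 l) hz hz'
        (hQ l hl).1 (hQ l hl).2.1 hV
      rwa [hn'] at this
    refine h1.trans ?_
    rw [← Real.exp_sum, Finset.sum_add_distrib, Finset.sum_add_distrib,
      Finset.sum_add_distrib]
    have e1 : ∑ l ∈ Q, -2 * (1 - (G l 1).re) / (l : ℝ) = -2 * S := by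
      simp only [S]
      rw [Finset.mul_sum]
      exact Finset.sum_congr rfl fun l _ => by ring
    have e2 : ∑ l ∈ Q, C₂ * (min 1 (‖zz lD ξ‖ * Real.log l) +
        min 1 (‖zz lD ξ'‖ * Real.log l)) / (l : ℝ) ≤
        (C₂ * C₁) * Real.log (1 + ‖zz lD ξ‖ * Real.log y) +
        (C₂ * C₁) * Real.log (1 + ‖zz lD ξ'‖ * Real.log y) := by
      have a1 := sum_min_le hC₁ hQ (norm_nonneg (zz lD ξ))
      have a2 := sum_min_le hC₁ hQ (norm_nonneg (zz lD ξ'))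
      have : ∑ l ∈ Q, C₂ * (min 1 (‖zz lD ξ‖ * Real.log l) +
          min 1 (‖zz lD ξ'‖ * Real.log l)) / (l : ℝ) =
          C₂ * (∑ l ∈ Q, min 1 (‖zz lD ξ‖ * Real.log l) / l) +
          C₂ * ∑ l ∈ Q, min 1 (‖zz lD ξ'‖ * Real.log l) / l := by
        rw [Finset.mul_sum, Finset.mul_sum, ← Finset.sum_add_distrib]
        exact Finset.sum_congr rfl fun l _ => by ring
      rw [this]
      have b1 := mul_le_mul_of_nonneg_left a1 hC₂0.le
      have b2 := mul_le_mul_of_nonneg_left a2 hC₂0.le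
      linarith
    have e3 : ∑ l ∈ Q, C₂ / (l : ℝ) ^ 2 ≤ C₂ * ζ := by
      have : ∑ l ∈ Q, C₂ / (l : ℝ) ^ 2 = C₂ * ∑ l ∈ Q, 1 / (l : ℝ) ^ 2 := by
        rw [Finset.mul_sum]
        exact Finset.sum_congr rfl fun l _ => by ring
      rw [this]
      exact mul_le_mul_of_nonneg_left
        (hsum.sum_le_tsum Q fun _ _ => by positivity) hC₂0.le
    have e4 : Real.exp (∑ l ∈ Q, if (l : ℤ) ∣ Δ then C₂ / (l : ℝ) else 0) ≤ T := by
      rw [← Finset.sum_filter, Real.exp_sum]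
      refine Finset.prod_le_prod (fun _ _ => (Real.exp_pos _).le) fun l hl => ?_
      exact exp_div_le (by have := (hQ l (mem_filter.1 hl).1).2.1; omega)
    have hpw : ∀ ξ : ℝ, Real.exp ((C₂ * C₁) * Real.log (1 + ‖zz lD ξ‖ * Real.log y)) ≤
        2 ^ m * (1 + |ξ|) ^ m := by
      intro ξ
      have hly := Real.log_natCast_nonneg y
      have hu : ‖zz lD ξ‖ * Real.log y ≤ 1 + |ξ| := by
        calc ‖zz lD ξ‖ * Real.log y ≤ (1 + |ξ|) / lD * lD :=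
              mul_le_mul (norm_zz hD ξ) hy hly (by positivity)
          _ = 1 + |ξ| := by field_simp
      have hu0 : 0 ≤ ‖zz lD ξ‖ * Real.log y := by positivity
      have hl0 : 0 ≤ Real.log (1 + ‖zz lD ξ‖ * Real.log y) := Real.log_nonneg (by linarith)
      calc Real.exp ((C₂ * C₁) * Real.log (1 + ‖zz lD ξ‖ * Real.log y))
          ≤ Real.exp (m * Real.log (1 + ‖zz lD ξ‖ * Real.log y)) :=
            Real.exp_le_exp.2 (mul_le_mul_of_nonneg_right hm hl0)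
        _ = (1 + ‖zz lD ξ‖ * Real.log y) ^ m := by
            rw [mul_comm, Real.exp_mul, Real.exp_log (by linarith), Real.rpow_natCast]
        _ ≤ (2 * (1 + |ξ|)) ^ m := pow_le_pow_left₀ (by linarith)
            (by linarith [abs_nonneg ξ]) m
        _ = _ := mul_pow _ _ _
    have hfin : Real.exp (∑ l ∈ Q, -2 * (1 - (G l 1).re) / (l : ℝ) +
        ∑ l ∈ Q, C₂ * (min 1 (‖zz lD ξ‖ * Real.log l) +
          min 1 (‖zz lD ξ'‖ * Real.log l)) / (l : ℝ) +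
        ∑ l ∈ Q, C₂ / (l : ℝ) ^ 2 + ∑ l ∈ Q, (if (l : ℤ) ∣ Δ then C₂ / (l : ℝ) else 0)) ≤
        Real.exp (-2 * S) * (2 ^ m * (1 + |ξ|) ^ m * (2 ^ m * (1 + |ξ'|) ^ m)) *
          Real.exp (C₂ * ζ) * T := by
      rw [Real.exp_add]
      refine mul_le_mul ?_ e4 (Real.exp_pos _).le (by positivity)
      rw [Real.exp_add]
      refine mul_le_mul ?_ (Real.exp_le_exp.2 e3) (Real.exp_pos _).le (by positivity)
      rw [Real.exp_add, e1]
      refine mul_le_mul_of_nonneg_left ?_ (Real.exp_pos _).le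
      refine (Real.exp_le_exp.2 e2).trans ?_
      rw [Real.exp_add]
      exact mul_le_mul (hpw ξ) (hpw ξ') (Real.exp_pos _).le (by positivity)
    refine hfin.trans (le_of_eq ?_)
    have : (4 : ℝ) ^ m = 2 ^ m * 2 ^ m := by rw [← mul_pow]; norm_num
    rw [this]; ring
  have h := corrM_bound H hD hQ' G V Δ key
  refine h.trans ?_
  have h5 : 0 ≤ Real.exp (-2 * S) * T := mul_nonneg (Real.exp_pos _).le hT
  calc Real.exp (C₂ * ζ) * 4 ^ m * Real.exp (-2 * S) * T * J ^ 2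
      = (Real.exp (C₂ * ζ) * 4 ^ m * J ^ 2) * (Real.exp (-2 * S) * T) := by ring
    _ ≤ (Real.exp (C₂ * ζ) * 4 ^ m * J ^ 2 + 1) * (Real.exp (-2 * S) * T) :=
        mul_le_mul_of_nonneg_right (by linarith) h5
    _ = _ := by ring

end Pool.Agent.Elliott
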