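import Mathlib

set_option autoImplicit false

/-! Common definitions for the two-point correlation theorem (MP_f3f922_nt). -/

namespace Pool.Agent.Elliott

open Finset

/-- The primes in `(4^j, 4^(j+1)]`. -/
def blk (j : ℕ) : Finset ℕ := (Ioc (4 ^ j) (4 ^ (j + 1))).filter Nat.Prime

/-- The increments `G ℓ i - G ℓ (i-1)` of a function `v ↦ G ℓ v` with `G ℓ 0 = 1`. -/
def bb (G : ℕ → ℕ → ℂ) (l i : ℕ) : ℂ := if i = 0 then 1 else G l i - G l (i - 1)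

/-- The function `n ↦ ∏_{ℓ ∈ Q} G ℓ (v_ℓ(n))`. -/
noncomputable def gg (Q : Finset ℕ) (G : ℕ → ℕ → ℂ) (n : ℕ) : ℂ :=
  ∏ l ∈ Q, G l (n.factorization l)

/-- The function `n ↦ ∏_{ℓ ∈ Q} ∑_{i ≤ v_ℓ(n)} b_ℓ(i) ℓ^(-i z)`. -/
noncomputable def gz (Q : Finset ℕ) (G : ℕ → ℕ → ℂ) (z : ℂ) (n : ℕ) : ℂ :=
  ∏ l ∈ Q, ∑ i ∈ range (n.factorization l + 1), bb G l i * Complex.exp (-(i * z * Real.log l))

/-- The local factor of the correlation of `gz z` and `conj (gz z')` along two linear forms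
whose resultant is `Δ`. -/
noncomputable def locS (G : ℕ → ℕ → ℂ) (V : ℕ) (Δ : ℤ) (z z' : ℂ) (l : ℕ) : ℂ :=
  ∑ i ∈ range (V + 1), ∑ j ∈ range (V + 1),
    (bb G l i * Complex.exp (-(i * z * Real.log l))) *
    ((starRingEnd ℂ) (bb G l j) * Complex.exp (-(j * z' * Real.log l))) *
    (if ((l ^ min i j : ℕ) : ℤ) ∣ Δ then 1 / (l : ℂ) ^ max i j else 0)

end Pool.Agent.Elliott
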