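import Pool.Agent.Elliott.Defs

set_option autoImplicit false

/-! Expansions of `gg`, `gz` and of the smoothed function over exponent vectors. -/

namespace Pool.Agent.Elliott

open Finset

variable {Q : Finset ℕ}

/-- Exponent vectors bounded by `V`. -/
noncomputable def box (Q : Finset ℕ) (V : ℕ) : Finset (Q → ℕ) :=
  Fintype.piFinset (fun _ : Q => range (V + 1))

/-- The integer with exponent vector `v`. -/
def dd (v : Q → ℕ) : ℕ := ∏ l : Q, (l : ℕ) ^ v l

/-- The coefficient `b(d)` for `d = dd v`. -/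
noncomputable def bv (G : ℕ → ℕ → ℂ) (v : Q → ℕ) : ℂ := ∏ l : Q, bb G l (v l)

/-- The smoothed divisor sum. -/
noncomputable def gpsi (Q : Finset ℕ) (V : ℕ) (G : ℕ → ℕ → ℂ) (ψ : ℝ → ℂ) (lD : ℝ) (n : ℕ) : ℂ :=
  ∑ v ∈ (box Q V).filter (fun v => dd v ∣ n), bv G v * ψ (Real.log (dd v) / lD)

theorem dd_pos (hQ : ∀ l ∈ Q, l.Prime) (v : Q → ℕ) : 0 < dd v :=
  Finset.prod_pos fun l _ => pow_pos (hQ l l.2).pos _

theorem dd_factorization (hQ : ∀ l ∈ Q, l.Prime) (v : Q → ℕ) (l : Q) :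
    (dd v).factorization l = v l := by
  unfold dd
  rw [Nat.factorization_prod (fun (m : Q) _ => (pow_pos (hQ m m.2).pos (v m)).ne')]
  rw [Finsupp.finsetSum_apply]
  rw [Finset.sum_eq_single l]
  · rw [(hQ l l.2).factorization_pow]; simp
  · intro m _ hm
    rw [(hQ m m.2).factorization_pow]
    rw [Finsupp.single_eq_of_ne]
    intro h
    exact hm (Subtype.ext h.symm)
  · intro h; exact absurd (mem_univ l) h

theorem dd_primeFactors (hQ : ∀ l ∈ Q, l.Prime) (v : Q → ℕ) {p : ℕ} (hp : p.Prime)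
    (h : p ∣ dd v) : p ∈ Q := by
  unfold dd at h
  rw [hp.prime.dvd_finsetProd_iff] at h
  obtain ⟨l, _, hl⟩ := h
  have := hp.dvd_of_dvd_pow hl
  rw [Nat.prime_dvd_prime_iff_eq hp (hQ l l.2)] at this
  rw [this]; exact l.2

theorem dd_dvd_iff (hQ : ∀ l ∈ Q, l.Prime) (v : Q → ℕ) {n : ℕ} (hn : n ≠ 0) :
    dd v ∣ n ↔ ∀ l : Q, v l ≤ n.factorization l := by
  rw [← Nat.factorization_le_iff_dvd (dd_pos hQ v).ne' hn]
  constructor
  · intro h l
    have := h l
    rwa [dd_factorization hQ] at this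
  · intro h p
    by_cases hp : p ∈ Q
    · have := h ⟨p, hp⟩
      rwa [← dd_factorization hQ v ⟨p, hp⟩] at this
    · by_cases hpp : p.Prime
      · have : ¬ p ∣ dd v := fun hd => hp (dd_primeFactors hQ v hpp hd)
        rw [Nat.factorization_eq_zero_of_not_dvd this]; exact Nat.zero_le _
      · rw [Nat.factorization_eq_zero_of_not_prime _ hpp]; exact Nat.zero_le _

theorem dd_injective (hQ : ∀ l ∈ Q, l.Prime) : Function.Injective (dd : (Q → ℕ) → ℕ) := by
  intro v v' h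
  funext l
  rw [← dd_factorization hQ v l, ← dd_factorization hQ v' l, h]

theorem dd_coprime (hQ : ∀ l ∈ Q, l.Prime) (v : Q → ℕ) {m : ℕ} (hm : ∀ l ∈ Q, ¬ l ∣ m) :
    Nat.Coprime (dd v) m := by
  rw [Nat.coprime_iff_gcd_eq_one]
  by_contra h
  obtain ⟨p, hp, hpd⟩ := Nat.exists_prime_and_dvd h
  exact hm p (dd_primeFactors hQ v hp (hpd.trans (Nat.gcd_dvd_left _ _)))
    (hpd.trans (Nat.gcd_dvd_right _ _))

theorem exp_log_dd (hQ : ∀ l ∈ Q, l.Prime) (v : Q → ℕ) (z : ℂ) :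
    ∏ l : Q, Complex.exp (-(v l * z * Real.log (l : ℕ))) =
      Complex.exp (-(z * Real.log (dd v))) := by
  rw [← Complex.exp_sum]
  congr 1
  unfold dd
  rw [Nat.cast_prod, Real.log_prod (fun l _ => by
    have := (hQ l l.2).pos; positivity)]
  push_cast
  rw [Finset.mul_sum, ← Finset.sum_neg_distrib]
  refine Finset.sum_congr rfl fun l _ => ?_
  rw [Real.log_pow]; push_cast; ring

/-- Expansion of `gz` over exponent vectors. -/
theorem gz_expand (hQ : ∀ l ∈ Q, l.Prime) (G : ℕ → ℕ → ℂ) (z : ℂ) {V n : ℕ} (hn : n ≠ 0)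
    (hV : ∀ l ∈ Q, n.factorization l ≤ V) :
    gz Q G z n = ∑ v ∈ (box Q V).filter (fun v => dd v ∣ n),
      bv G v * Complex.exp (-(z * Real.log (dd v))) := by
  unfold gz
  rw [← Finset.prod_coe_sort Q]
  have h1 : ∀ l : Q, ∑ i ∈ range (n.factorization (l : ℕ) + 1),
      bb G l i * Complex.exp (-(i * z * Real.log (l : ℕ))) =
      ∑ i ∈ range (V + 1), if i ≤ n.factorization (l : ℕ) then
        bb G l i * Complex.exp (-(i * z * Real.log (l : ℕ))) else 0 := by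
    intro l
    rw [← Finset.sum_filter]
    refine Finset.sum_congr ?_ fun _ _ => rfl
    ext i
    have := hV l l.2
    simp only [mem_range, mem_filter]
    omega
  rw [Finset.prod_congr rfl fun l _ => h1 l, Finset.prod_univ_sum, Finset.sum_filter]
  refine Finset.sum_congr rfl fun v _ => ?_
  by_cases hd : dd v ∣ n
  · rw [if_pos hd]
    rw [dd_dvd_iff hQ v hn] at hd
    rw [Finset.prod_congr rfl fun l _ => if_pos (hd l), Finset.prod_mul_distrib,
      exp_log_dd hQ]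
    rfl
  · rw [if_neg hd]
    rw [dd_dvd_iff hQ v hn] at hd
    push Not at hd
    obtain ⟨l, hl⟩ := hd
    exact Finset.prod_eq_zero (mem_univ l) (if_neg (by omega))

theorem gg_eq_gz_zero (Q : Finset ℕ) (G : ℕ → ℕ → ℂ) (h0 : ∀ l, G l 0 = 1) (n : ℕ) :
    gg Q G n = gz Q G 0 n := by
  unfold gg gz
  refine Finset.prod_congr rfl fun l _ => ?_
  simp only [mul_zero, zero_mul, neg_zero, Complex.exp_zero, mul_one]
  rw [Finset.sum_range_succ']
  have : ∀ k, ∑ i ∈ range k, bb G l (i + 1) = G l k - G l 0 := by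
    intro k
    induction k with
    | zero => simp
    | succ k ih =>
      rw [Finset.sum_range_succ, ih]
      simp [bb]
  rw [this]
  simp [bb, h0]

theorem norm_bb_le (G : ℕ → ℕ → ℂ) (hG : ∀ l i, ‖G l i‖ ≤ 1) (l i : ℕ) : ‖bb G l i‖ ≤ 2 := by
  unfold bb
  split_ifs
  · simp
  · calc ‖G l i - G l (i - 1)‖ ≤ ‖G l i‖ + ‖G l (i - 1)‖ := norm_sub_le _ _
      _ ≤ 2 := by linarith [hG l i, hG l (i - 1)]

theorem norm_bv_le (hQ : ∀ l ∈ Q, l.Prime) (G : ℕ → ℕ → ℂ) (hG : ∀ l i, ‖G l i‖ ≤ 1)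
    (v : Q → ℕ) : ‖bv G v‖ ≤ dd v := by
  unfold bv dd
  rw [norm_prod, Nat.cast_prod]
  refine Finset.prod_le_prod (fun _ _ => norm_nonneg _) fun l _ => ?_
  rcases Nat.eq_zero_or_pos (v l) with h | h
  · rw [h]; simp [bb]
  · have h2 := (hQ l l.2).two_le
    have : (2 : ℝ) ≤ ((l : ℕ) ^ v l : ℕ) := by
      have : 2 ≤ (l : ℕ) ^ v l := h2.trans (Nat.le_self_pow h.ne' _)
      exact_mod_cast this
    exact (norm_bb_le G hG _ _).trans this

end Pool.Agent.Elliott
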