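import Pool.Agent.Elliott.Defs

set_option autoImplicit false

/-! A smooth cutoff as a Laplace-Fourier integral. -/

namespace Pool.Agent.Elliott

open Finset FourierTransform

theorem exists_psi : ∃ (ψ w : ℝ → ℂ), Continuous w ∧
    (∀ m : ℕ, MeasureTheory.Integrable (fun ξ : ℝ => ‖w ξ‖ * (1 + |ξ|) ^ m)) ∧ ψ 0 = 1 ∧
    (∀ u, 1 ≤ u → ψ u = 0) ∧
    ∀ u : ℝ, 0 ≤ u → ψ u = ∫ ξ : ℝ, w ξ * Complex.exp (-((1 + ξ * Complex.I) * u)) := by
  classical
  set f : ContDiffBump (0 : ℝ) := ⟨1 / 2, 1, by norm_num, by norm_num⟩ with hf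
  set h : ℝ → ℂ := fun u => ((Real.exp u * f u : ℝ) : ℂ) with hh
  have hsm : ContDiff ℝ (⊤ : ℕ∞) h := by
    apply Complex.ofRealCLM.contDiff.comp
    exact Real.contDiff_exp.mul f.contDiff
  have hcs : HasCompactSupport h := by
    have h1 : HasCompactSupport (fun u : ℝ => Real.exp u * f u) := f.hasCompactSupport.mul_left
    exact h1.comp_left (g := fun x : ℝ => (x : ℂ)) (by simp)
  set H : SchwartzMap ℝ ℂ := hcs.toSchwartzMap hsm with hH
  have hHh : ∀ u, H u = h u := fun u => rfl
  set F : SchwartzMap ℝ ℂ := 𝓕 H with hF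
  have hpi : (0 : ℝ) < 2 * Real.pi := by positivity
  set a : ℝ := -(2 * Real.pi)⁻¹ with ha
  have ha0 : a ≠ 0 := by
    rw [ha]; exact neg_ne_zero.mpr (inv_ne_zero hpi.ne')
  have haabs : |a⁻¹| = 2 * Real.pi := by
    rw [ha, ← neg_inv, inv_inv, abs_neg, abs_of_pos hpi]
  have hinv : ∀ u : ℝ, H u = ∫ v : ℝ, Complex.exp ((2 * Real.pi * (v * u) : ℝ) * Complex.I) * F v := by
    intro u
    have h1 : 𝓕⁻ F = H := by rw [hF]; exact FourierTransform.fourierInv_fourier_eq H
    have h2 : (𝓕⁻ F) u = 𝓕⁻ (F : ℝ → ℂ) u := by rw [SchwartzMap.fourierInv_coe]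
    rw [← h1, h2, Real.fourierInv_eq']
    apply MeasureTheory.integral_congr_ae
    filter_upwards with v
    simp only [smul_eq_mul]
    congr 3
    push_cast
    simp [mul_comm]
  refine ⟨fun u => (f u : ℂ), fun ξ => F (a * ξ) / (2 * Real.pi), ?_, ?_, ?_, ?_, ?_⟩
  · exact (F.continuous.comp (continuous_const.mul continuous_id)).div_const _
  · intro m
    have h1 : MeasureTheory.Integrable (fun x : ℝ => (1 + |x|) ^ m * ‖F x‖) := by
      have h2 : ∀ x : ℝ, (1 + |x|) ^ m * ‖F x‖ =
          ∑ k ∈ range (m + 1), (m.choose k : ℝ) * (‖x‖ ^ k * ‖F x‖) := by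
        intro x
        rw [add_comm (1 : ℝ), add_pow, Finset.sum_mul]
        apply Finset.sum_congr rfl
        intro k _
        rw [Real.norm_eq_abs x]
        ring
      simp_rw [h2]
      apply MeasureTheory.integrable_finsetSum
      intro k _
      exact (F.integrable_pow_mul MeasureTheory.volume k).const_mul _
    have h3 : MeasureTheory.Integrable (fun x : ℝ => (1 + |a * x|) ^ m * ‖F (a * x)‖) := by
      exact h1.comp_mul_left' ha0
    have h4 := h3.const_mul ((2 * Real.pi) ^ m)
    refine h4.mono' ?_ ?_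
    · apply Continuous.aestronglyMeasurable
      have : Continuous (fun ξ : ℝ => F (a * ξ) / (2 * Real.pi)) :=
        (F.continuous.comp (continuous_const.mul continuous_id)).div_const _
      exact this.norm.mul (by fun_prop)
    · filter_upwards with x
      have e1 : ‖F (a * x) / (2 * (Real.pi : ℂ))‖ = ‖F (a * x)‖ / (2 * Real.pi) := by
        rw [norm_div]
        congr 1
        rw [norm_mul, Complex.norm_real]
        simp [abs_of_pos Real.pi_pos]
      have e2 : |a * x| = |x| / (2 * Real.pi) := by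
        rw [abs_mul, ha, abs_neg, abs_of_pos (inv_pos.mpr hpi)]
        ring
      have e3 : (1 + |x|) ^ m ≤ (2 * Real.pi) ^ m * (1 + |x| / (2 * Real.pi)) ^ m := by
        rw [← mul_pow]
        apply pow_le_pow_left₀ (by positivity)
        have : 2 * Real.pi * (1 + |x| / (2 * Real.pi)) = 2 * Real.pi + |x| := by
          field_simp
        rw [this]
        have := Real.pi_gt_three
        linarith
      have e4 : ‖F (a * x)‖ / (2 * Real.pi) ≤ ‖F (a * x)‖ := by
        apply div_le_self (norm_nonneg _)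
        have := Real.pi_gt_three
        linarith
      rw [Real.norm_eq_abs, abs_of_nonneg (by positivity), e1, e2]
      calc ‖F (a * x)‖ / (2 * Real.pi) * (1 + |x|) ^ m
          ≤ ‖F (a * x)‖ * ((2 * Real.pi) ^ m * (1 + |x| / (2 * Real.pi)) ^ m) := by
            apply mul_le_mul e4 e3 (by positivity) (norm_nonneg _)
        _ = (2 * Real.pi) ^ m * ((1 + |x| / (2 * Real.pi)) ^ m * ‖F (a * x)‖) := by ring
  · have : f 0 = 1 := f.one_of_mem_closedBall (by simp [hf])
    simp [this]
  · intro u hu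
    have : f u = 0 := f.zero_of_le_dist (by
      simp only [hf, Real.dist_eq, sub_zero]
      exact hu.trans (le_abs_self u))
    simp [this]
  · intro u _
    have h1 : ∫ ξ : ℝ, (fun v : ℝ => Complex.exp ((2 * Real.pi * (v * u) : ℝ) * Complex.I) * F v) (a * ξ)
        = (2 * Real.pi : ℂ) * h u := by
      have h3 := MeasureTheory.Measure.integral_comp_mul_left
        (fun v : ℝ => Complex.exp ((2 * Real.pi * (v * u) : ℝ) * Complex.I) * F v) a
      rw [h3, haabs, ← hinv u, hHh]
      simp
    have h2 : ∀ ξ : ℝ, F (a * ξ) / (2 * Real.pi) * Complex.exp (-((1 + ξ * Complex.I) * u)) =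
        (Complex.exp (-u) / (2 * Real.pi)) *
        (fun v : ℝ => Complex.exp ((2 * Real.pi * (v * u) : ℝ) * Complex.I) * F v) (a * ξ) := by
      intro ξ
      have e1 : ((2 * Real.pi * (a * ξ * u) : ℝ) : ℂ) * Complex.I = -(ξ * Complex.I * u) := by
        have : 2 * Real.pi * (a * ξ * u) = -(ξ * u) := by
          rw [ha]; field_simp
        rw [this]; push_cast; ring
      have e2 : Complex.exp (-((1 + ξ * Complex.I) * u)) =
          Complex.exp (-u) * Complex.exp (-(ξ * Complex.I * u)) := by
        rw [← Complex.exp_add]; congr 1; ring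
      simp only
      rw [e1, e2]
      ring
    simp_rw [h2]
    rw [MeasureTheory.integral_const_mul, h1, hh]
    have hpi' : (Real.pi : ℂ) ≠ 0 := by exact_mod_cast Real.pi_ne_zero
    have e3 : Complex.exp (-u) * Complex.exp u = 1 := by
      rw [← Complex.exp_add]; simp
    push_cast
    field_simp
    rw [mul_assoc, e3, mul_one]

end Pool.Agent.Elliott
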