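import Pool.Agent.Elliott.Num
import Pool.Agent.Elliott.Psi
import Pool.Agent.Elliott.Approx

set_option autoImplicit false

/-! The two-point theorem. -/

namespace Pool.Agent.Elliott

open Finset MeasureTheory Filter Topology

/-- The condition on `N` in the final choice of the parameters. -/
def Good (m K c₀ J₀ h₁ h₂ : ℕ) (C₅ s ε Ψ : ℝ) (N : ℕ) : Prop :=
  1 ≤ N ∧ K ≤ N ∧ m + 400 ≤ Nat.log 4 N ∧ 100 * J₀ ≤ Nat.log 4 N ∧
  4 ≤ (N : ℝ) ^ (1 / (m : ℝ)) ∧ 16 / (s ^ 2 / 40) ≤ (N : ℝ) ^ (1 / (m : ℝ)) ∧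
  8 * (h₁ : ℝ) ≤ s ^ 2 / 40 * N ∧ (h₁ : ℝ) ≤ N ∧ (h₂ : ℝ) ≤ ε / 2 * N ∧
  1 + c₀ + 2 * C₅ * Real.log N ≤ 1 / 2 * (N : ℝ) ^ (1 / (m : ℝ)) ∧
  2 + 2 * Real.log N ≤ s ^ 2 * (N : ℝ) ^ (1 / (m : ℝ)) ∧
  96 * |(h₁ : ℝ) - h₂| * Ψ ^ 2 ≤ s ^ 2 * (N : ℝ) ^ (1 / 100 : ℝ) ∧
  2 * C₅ * Real.log N ≤ (N : ℝ) ^ (1 / 100 : ℝ)

theorem eventually_good (m K c₀ J₀ h₁ h₂ : ℕ) (hm : 1 ≤ m) (C₅ Ψ : ℝ) {s ε : ℝ} (hs : 0 < s)
    (hε : 0 < ε) : ∀ᶠ N : ℕ in atTop, Good m K c₀ J₀ h₁ h₂ C₅ s ε Ψ N := by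
  have hm0 : (0 : ℝ) < 1 / m := by
    have : (0 : ℝ) < m := by exact_mod_cast hm
    positivity
  have h100 : (0 : ℝ) < 1 / 100 := by norm_num
  have e1 := ev_log_rpow hm0 one_pos 4 0
  have e2 := ev_log_rpow hm0 one_pos (16 / (s ^ 2 / 40)) 0
  have e3 := ev_log_rpow one_pos (κ := s ^ 2 / 40) (by positivity) (8 * (h₁ : ℝ)) 0
  have e4 := ev_log_rpow one_pos one_pos (h₁ : ℝ) 0
  have e5 := ev_log_rpow one_pos (κ := ε / 2) (by positivity) (h₂ : ℝ) 0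
  have e6 := ev_log_rpow hm0 (κ := 1 / 2) (by norm_num) (1 + c₀) (2 * C₅)
  have e7 := ev_log_rpow hm0 (κ := s ^ 2) (by positivity) 2 2
  have e8 := ev_log_rpow h100 (κ := s ^ 2) (by positivity) (96 * |(h₁ : ℝ) - h₂| * Ψ ^ 2) 0
  have e9 := ev_log_rpow h100 one_pos 0 (2 * C₅)
  filter_upwards [eventually_ge_atTop 1, eventually_ge_atTop K, ev_log4 (m + 400),
    ev_log4 (100 * J₀), e1, e2, e3, e4, e5, e6, e7, e8, e9] with N a1 a2 a3 a4 e1 e2 e3 e4 e5 e6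
    e7 e8 e9
  simp only [zero_mul, add_zero, one_mul, Real.rpow_one, zero_add] at e1 e2 e3 e4 e5 e8 e9
  exact ⟨a1, a2, a3, a4, e1, e2, e3, e4, e5, e6, e7, e8, e9⟩

theorem aux_sq {A : ℝ} (h : 1 ≤ A) : A ≤ A ^ 2 := by nlinarith

theorem aux_w {A c₀ : ℝ} (h : 2 ≤ A) (hc : 0 ≤ c₀) : A + 1 + c₀ ≤ A * (2 + c₀) := by nlinarith

theorem aux_S {A lw SG d L Λ : ℝ} (h1 : A ^ 2 ≤ 2 * (1 + lw) + SG + d) (h2 : lw ≤ A + L)
    (h3 : d ≤ 1) (h4 : 3 ≤ A) (h5 : Λ + 3 + 2 * L ≤ A) : Λ ≤ SG := by nlinarith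

theorem aux_g {g y : ℝ} (h1 : 4 ≤ g) (h2 : g - 1 < y) : g ≤ y ^ 2 := by nlinarith

theorem twoPoint (h₁ h₂ : ℕ) (hne : h₁ ≠ h₂) (ε : ℝ) (hε : 0 < ε) :
    ∃ δ : ℝ, 0 < δ ∧ ∃ A₀ : ℝ, ∀ A : ℝ, 2 ≤ A → A₀ ≤ A → ∀ x : ℝ, A ≤ x →
    ∀ f₁ f₂ : ArithmeticFunction ℂ, f₁.IsMultiplicative → f₂.IsMultiplicative →
      (∀ n, ‖f₁ n‖ ≤ 1) → (∀ n, ‖f₂ n‖ ≤ 1) →
      ∀ q : ℕ, 1 ≤ q → (q : ℝ) ≤ A → ∀ χ : DirichletCharacter ℂ q, ∀ t : ℝ,
        |t| ≤ A * x ^ (3 / 2 : ℝ) →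
      A ≤ √(∑ p ∈ (Iic ⌊x⌋₊).filter Nat.Prime, dt χ t f₁ p) →
      ∑ p ∈ (Iic ⌊x⌋₊).filter (fun p : ℕ => p.Prime ∧ x ^ δ < p), dt χ t f₁ p ≤ δ →
      ‖∑ n ∈ Icc 1 ⌊x⌋₊, f₁ (n + h₁) * f₂ (n + h₂)‖ / x ≤ ε := by
  obtain ⟨ψ, wt, hcont, hint, hψ0, hψ1, hrep⟩ := exists_psi
  have H : PsiData ψ wt := ⟨hcont, hint, hψ0, hψ1, hrep⟩
  obtain ⟨C₀, C₃, hC₀, hC₃, hCorr⟩ := corrM_le H
  obtain ⟨CP, hCP, hP⟩ := sum_pairs C₀ hC₀.le
  obtain ⟨C, hAp⟩ := l2_approx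
  obtain ⟨C₁, hC₁0, hC₁⟩ := sum_min_log
  obtain ⟨c, hc0, hc⟩ := sum_inv_blk_lower
  obtain ⟨s, hsdef⟩ : ∃ s : ℝ, s = min 1 (ε / 80) := ⟨_, rfl⟩
  have hs : 0 < s := by rw [hsdef]; positivity
  have hs1 : s ≤ 1 := by rw [hsdef]; exact min_le_left _ _
  have hsε : s ≤ ε / 80 := by rw [hsdef]; exact min_le_right _ _
  have hτ : 0 < s ^ 2 / 40 := by positivity
  set Ψ := ∫ ξ, ‖wt ξ‖ with hΨ
  have hΨ0 : 0 ≤ Ψ := integral_nonneg fun _ => norm_nonneg _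
  have hcT : 0 ≤ cT wt C := by
    unfold cT
    exact mul_nonneg hΨ0 (mul_nonneg (by positivity) (integral_nonneg fun _ => by positivity))
  obtain ⟨m, hm400, hm1, hm2, hm3⟩ := exists_m hC₁0 hc0 hτ (800 * cT wt C) (2 / s ^ 2)
  obtain ⟨K₀, hK₀⟩ : ∃ K₀ : ℕ, 4 / (s ^ 2 / 40) ≤ 2 ^ K₀ := by
    obtain ⟨K, hK⟩ := exists_nat_ge (4 / (s ^ 2 / 40))
    exact ⟨K, hK.trans (by exact_mod_cast (Nat.lt_two_pow_self (n := K)).le)⟩
  obtain ⟨J₀, hJ₀⟩ := exists_nat_ge (16 * Ψ ^ 2 / s ^ 2)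
  set c₀ := 2 * (h₁ + h₂) + 4 with hc₀
  set C₅ := 2 * C₁ with hC₅
  have hC₅0 : 0 < C₅ := by positivity
  obtain ⟨N₁, hN₁⟩ := WW_le C₅ hC₅0.le c₀ (K₀ + 1)
  obtain ⟨N₀, hN₀⟩ := eventually_atTop.1
    (eventually_good m N₁ c₀ J₀ h₁ h₂ (by omega) C₅ Ψ hs hε)
  have hm0 : (0 : ℝ) < m := by exact_mod_cast (by omega : 0 < m)
  have hm1' : (1 : ℝ) ≤ m := by exact_mod_cast (by omega : 1 ≤ m)
  set Λ := Real.log (4 * (C₃ * CP) / s ^ 2) / 2 with hΛ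
  refine ⟨1 / m, by positivity,
    max (√(C₅ * Real.log (1 + 2 * Real.log N₀)) + 1) (max 3 (Λ + 3 + 2 * Real.log (2 + c₀))), ?_⟩
  intro A hA2 hA x hx f₁ f₂ hf₁ hf₂ hb₁ hb₂ q hq1 hqA χ t ht hdist hδ
  have hx0 : 0 < x := by linarith
  set N := ⌊x⌋₊ with hN
  have hNx : (N : ℝ) ≤ x := Nat.floor_le hx0.le
  have hxN : x < N + 1 := Nat.lt_floor_add_one x
  -- A is small in terms of N
  have hAsq : A ^ 2 ≤ ∑ p ∈ (Iic N).filter Nat.Prime, dt χ t f₁ p := by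
    have h0 : 0 ≤ ∑ p ∈ (Iic N).filter Nat.Prime, dt χ t f₁ p :=
      Finset.sum_nonneg fun p _ => dt_nonneg χ t hb₁ p
    calc A ^ 2 ≤ (√(∑ p ∈ (Iic N).filter Nat.Prime, dt χ t f₁ p)) ^ 2 :=
          pow_le_pow_left₀ (by linarith) hdist 2
      _ = _ := Real.sq_sqrt h0
  have hA5 : A ^ 2 ≤ C₅ * Real.log (1 + 2 * Real.log N) := hAsq.trans (sum_dt_le χ t hb₁ hC₁ N)
  have hNN₀ : N₀ ≤ N := by
    by_contra h
    push Not at h
    have h1 : Real.log N ≤ Real.log N₀ := by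
      rcases Nat.eq_zero_or_pos N with h2 | h2
      · rw [h2]; simpa using Real.log_natCast_nonneg N₀
      · exact Real.log_le_log (by exact_mod_cast h2) (by exact_mod_cast h.le)
    have h0 := Real.log_natCast_nonneg N
    have h2 : A ^ 2 ≤ C₅ * Real.log (1 + 2 * Real.log N₀) := by
      refine hA5.trans (mul_le_mul_of_nonneg_left ?_ hC₅0.le)
      exact Real.log_le_log (by linarith) (by linarith)
    have h3 := Real.le_sqrt_of_sq_le h2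
    have h4 := (le_max_left _ _).trans hA
    linarith
  obtain ⟨b1, b2, b3, b4, b5, b6, b7, b8, b9, b10, b11, b12, b13⟩ := hN₀ N hNN₀
  have hNr : (1 : ℝ) ≤ N := by exact_mod_cast b1
  have hN0 : (0 : ℝ) < N := by linarith
  have hlogN : 0 ≤ Real.log N := Real.log_natCast_nonneg N
  have hAN : A ≤ 2 * C₅ * Real.log N := by
    have h1 : Real.log (1 + 2 * Real.log N) ≤ 2 * Real.log N := by
      have := Real.log_le_sub_one_of_pos (show 0 < 1 + 2 * Real.log N by linarith)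
      linarith
    have h2 : A ≤ A ^ 2 := aux_sq (by linarith)
    have h3 := mul_le_mul_of_nonneg_left h1 hC₅0.le
    linarith
  -- the parameters
  set g := (N : ℝ) ^ (1 / (m : ℝ)) with hg
  set y := ⌊x ^ (1 / (m : ℝ))⌋₊ with hy
  have hgx : g ≤ x ^ (1 / (m : ℝ)) := Real.rpow_le_rpow hN0.le hNx (by positivity)
  have hyg : g - 1 < y := by
    have := Nat.sub_one_lt_floor (x ^ (1 / (m : ℝ)))
    linarith
  set w := ⌈A⌉₊ + c₀ with hw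
  have hwA : (w : ℝ) ≤ A + 1 + c₀ := by
    have := (Nat.ceil_lt_add_one (show 0 ≤ A by linarith)).le
    rw [hw]; push_cast at this ⊢; linarith
  have hwy' : (w : ℝ) ≤ y := by linarith
  have hwy : w ≤ y := by exact_mod_cast hwy'
  have hw4 : 4 ≤ w := by omega
  have hqw : q ≤ w := by
    have h1 : (q : ℝ) ≤ ⌈A⌉₊ := hqA.trans (Nat.le_ceil A)
    have h2 : q ≤ ⌈A⌉₊ := by exact_mod_cast h1
    omega
  set B := Nat.log 2 w + (K₀ + 1) with hB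
  have hwlt : w < 2 ^ (Nat.log 2 w + 1) := Nat.lt_pow_succ_log_self (by norm_num) w
  have hwB : w < 2 ^ B := hwlt.trans_le (Nat.pow_le_pow_right (by norm_num) (by omega))
  have hjj := jj_le hm400 b3
  have hratio := jj_ratio hm400 b3
  set j₁ := jj₁ m N with hj₁
  set j₂ := jj₂ N with hj₂
  have hj₁1 : 1 ≤ j₁ := Nat.le_add_left 1 _
  have hj₁0 : (0 : ℝ) < j₁ := by exact_mod_cast hj₁1
  have hj₂0 : (0 : ℝ) < j₂ := by exact_mod_cast (by omega : 0 < j₂)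
  have h4pow := four_pow_jj₂ b1
  rw [← hj₂] at h4pow
  have hx4 : x ^ (1 / (m : ℝ)) ≤ 4 ^ j₁ := rpow_le_four_pow (by omega) hx0.le hxN
  have hyj : y ≤ 4 ^ j₁ := Nat.floor_le_of_le (by push_cast; exact hx4)
  have h4N : 4 ^ j₂ ≤ N := (Nat.le_self_pow (by norm_num) _).trans h4pow
  set k₀ := N / (4 ^ j₂) ^ 6 + 1 with hk₀
  have hy2 : 2 ≤ y := by omega
  have hy0 : (0 : ℝ) < y := by exact_mod_cast (by omega : 0 < y)
  have hlogy : 0 < Real.log y := Real.log_pos (by exact_mod_cast (by omega : 1 < y))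
  -- the pretentious hypotheses
  have hδ' : ∑ p ∈ (Ioc y N).filter Nat.Prime, dt χ t f₁ p ≤ 1 / m := by
    refine le_trans (le_of_eq ?_) hδ
    refine Finset.sum_congr ?_ fun _ _ => rfl
    ext p
    simp only [mem_filter, mem_Ioc, mem_Iic]
    rw [hy, Nat.floor_lt (by positivity)]
    tauto
  have hsplit := sum_dt_split χ t hb₁ (w := w) (y := y) (N := N) hδ'
  set SG := ∑ l ∈ pQ w y, (1 - (GG χ t f₁ l 1).re) / (l : ℝ) with hSG
  have hlogw : Real.log w ≤ A + Real.log (2 + c₀) := by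
    have h1 : (w : ℝ) ≤ A * (2 + c₀) := hwA.trans (aux_w hA2 (Nat.cast_nonneg _))
    have h2 : Real.log w ≤ Real.log (A * (2 + c₀)) :=
      Real.log_le_log (by exact_mod_cast (by omega : 0 < w)) h1
    rw [Real.log_mul (by linarith) (by positivity)] at h2
    have h3 := Real.log_le_self (show 0 ≤ A by linarith)
    linarith
  have hSGΛ : Λ ≤ SG := by
    have h1 : 3 ≤ A := ((le_max_left _ _).trans (le_max_right _ _)).trans hA
    have h2 : Λ + 3 + 2 * Real.log (2 + c₀) ≤ A :=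
      ((le_max_right _ _).trans (le_max_right _ _)).trans hA
    have h3 : 1 / (m : ℝ) ≤ 1 := by rw [div_le_one hm0]; exact hm1'
    exact aux_S (hAsq.trans hsplit) hlogw h3 h1 h2
  have hR1 : C₃ * CP * Real.exp (-2 * SG) ≤ s ^ 2 / 4 := by
    have hCC : 0 < C₃ * CP := mul_pos hC₃ hCP
    have h1 : Real.exp (-2 * SG) ≤ Real.exp (-2 * Λ) := Real.exp_le_exp.2 (by linarith)
    have h2 : Real.exp (-2 * Λ) = s ^ 2 / (4 * (C₃ * CP)) := by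
      rw [hΛ, show -2 * (Real.log (4 * (C₃ * CP) / s ^ 2) / 2) =
        -Real.log (4 * (C₃ * CP) / s ^ 2) by ring, Real.exp_neg, Real.exp_log (by positivity),
        inv_div]
    rw [h2] at h1
    calc C₃ * CP * Real.exp (-2 * SG) ≤ C₃ * CP * (s ^ 2 / (4 * (C₃ * CP))) :=
          mul_le_mul_of_nonneg_left h1 hCC.le
      _ = _ := by field_simp
  -- the error terms
  set G := (N : ℝ) ^ (1 / 100 : ℝ) with hG
  have hG100 : (N : ℝ) = G ^ 100 := by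
    rw [hG, ← Real.rpow_natCast, ← Real.rpow_mul hN0.le]
    norm_num
  have hG0 : 0 < G := Real.rpow_pos_of_pos hN0 _
  have hDG : (((4 ^ j₂ : ℕ)) : ℝ) ≤ G := by
    have h1 : (((4 ^ j₂ : ℕ)) : ℝ) ^ 100 ≤ G ^ 100 := by
      rw [← hG100]; exact_mod_cast h4pow
    exact le_of_pow_le_pow_left₀ (by norm_num) hG0.le h1
  have hD1 : (1 : ℝ) ≤ ((4 ^ j₂ : ℕ) : ℝ) := by
    exact_mod_cast Nat.one_le_pow _ _ (by norm_num)
  have hWG : (WW w B : ℝ) ≤ G := hN₁ N b2 A hA2 hA5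
  have hkle : (k₀ : ℝ) ≤ N / ((4 ^ j₂ : ℕ) : ℝ) ^ 6 + 1 := by
    rw [hk₀]
    push_cast
    have := Nat.cast_div_le (α := ℝ) (m := N) (n := (4 ^ j₂) ^ 6)
    push_cast at this
    linarith
  have hkge : N / ((4 ^ j₂ : ℕ) : ℝ) ^ 6 ≤ k₀ := by
    rw [div_le_iff₀ (by positivity)]
    have h1 : N < (4 ^ j₂) ^ 6 * k₀ := Nat.lt_mul_div_succ N (by positivity)
    have h2 : (N : ℝ) < ((4 ^ j₂ : ℕ) : ℝ) ^ 6 * k₀ := by exact_mod_cast h1
    linarith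
  have hTle : |t| ≤ 3 * G ^ 151 := by
    have h1 : x ^ (3 / 2 : ℝ) ≤ 3 * G ^ 150 := by
      refine le_of_pow_le_pow_left₀ (n := 2) (by norm_num) (by positivity) ?_
      rw [← Real.rpow_natCast, ← Real.rpow_mul hx0.le]
      have h2 : x ≤ 2 * G ^ 100 := by rw [← hG100]; linarith
      calc x ^ (3 / 2 * ((2 : ℕ) : ℝ) : ℝ) = x ^ 3 := by
            rw [show (3 / 2 * ((2 : ℕ) : ℝ) : ℝ) = ((3 : ℕ) : ℝ) by push_cast; norm_num,
              Real.rpow_natCast]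
        _ ≤ (2 * G ^ 100) ^ 3 := pow_le_pow_left₀ hx0.le h2 3
        _ = 8 * G ^ 300 := by ring
        _ ≤ 9 * G ^ 300 := mul_le_mul_of_nonneg_right (by norm_num) (pow_pos hG0 300).le
        _ = _ := by ring
    have h2 : A ≤ G := hAN.trans b13
    calc |t| ≤ A * x ^ (3 / 2 : ℝ) := ht
      _ ≤ G * (3 * G ^ 150) := mul_le_mul h2 h1 (by positivity) hG0.le
      _ = _ := by ring
  have h16 : 16 * Ψ ^ 2 ≤ s ^ 2 * ((4 ^ j₂ : ℕ) : ℝ) := by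
    have hs2 : (0 : ℝ) < s ^ 2 := by positivity
    rw [div_le_iff₀ hs2] at hJ₀
    have h1 : J₀ ≤ 4 ^ j₂ := by
      have h2 : J₀ ≤ j₂ := by rw [hj₂]; unfold jj₂; omega
      exact h2.trans (Nat.lt_pow_self (by norm_num)).le
    have h2 : (J₀ : ℝ) ≤ ((4 ^ j₂ : ℕ) : ℝ) := by exact_mod_cast h1
    have := mul_le_mul_of_nonneg_right h2 hs2.le
    linarith
  obtain ⟨r2, r3, r4⟩ := numR (Ψ := Ψ) (G := G) (D := ((4 ^ j₂ : ℕ) : ℝ)) (W := WW w B)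
    (N := N) (k := k₀) (T := |t|) (h := |(h₁ : ℝ) - h₂|) (s := s) hΨ0 hD1 hDG hG100
    (Nat.cast_nonneg _) hWG hkle hkge (abs_nonneg _) hTle (abs_nonneg _) h16 b12
  have hcast4 : ((4 ^ j₂ : ℕ) : ℝ) = 4 ^ j₂ := by push_cast; rfl
  -- the L2 error
  have hlogratio : Real.log N / Real.log y ≤ 2 * m := by
    rw [div_le_iff₀ hlogy]
    have h1 : g ≤ (y : ℝ) ^ 2 := aux_g b5 hyg
    have h2 : Real.log g ≤ 2 * Real.log y := by
      have := Real.log_le_log (by linarith : 0 < g) h1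
      rwa [Real.log_pow] at this
    have h3 : Real.log g = 1 / m * Real.log N := by rw [hg, Real.log_rpow hN0]
    rw [h3] at h2
    have h4 := mul_le_mul_of_nonneg_left h2 hm0.le
    calc Real.log N = m * (1 / m * Real.log N) := by field_simp
      _ ≤ m * (2 * Real.log y) := h4
      _ = _ := by ring
  have hσ : 4 * √(2 * (1 / m) * (C₁ * Real.log (1 + Real.log N / Real.log y))) ≤
      s ^ 2 / 40 := by
    refine le_trans (mul_le_mul_of_nonneg_left (Real.sqrt_le_sqrt ?_) (by norm_num)) hm1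
    refine mul_le_mul_of_nonneg_left (mul_le_mul_of_nonneg_left ?_ hC₁0.le) (by positivity)
    refine Real.log_le_log ?_ (by linarith)
    have : 0 ≤ Real.log N / Real.log y := by positivity
    linarith
  have hy8 : 8 / (y : ℝ) ≤ s ^ 2 / 40 := by
    rw [div_le_iff₀ hτ] at b6
    rw [div_le_iff₀ hy0]
    have h1 : g / 2 ≤ y := by linarith
    have := mul_le_mul_of_nonneg_left h1 hτ.le
    linarith
  have hu : 2 * ((w : ℝ) / 2 ^ B) ≤ s ^ 2 / 40 := by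
    have h1 : (w : ℝ) ≤ 2 ^ (Nat.log 2 w + 1) := by exact_mod_cast hwlt.le
    have h2 : (2 : ℝ) ^ B = 2 ^ (Nat.log 2 w + 1) * 2 ^ K₀ := by
      rw [hB, ← pow_add]; congr 1; ring
    have h3 : (w : ℝ) / 2 ^ B ≤ 1 / 2 ^ K₀ := by
      rw [h2, div_le_div_iff₀ (by positivity) (by positivity)]
      have := mul_le_mul_of_nonneg_right h1 (show (0 : ℝ) ≤ 2 ^ K₀ by positivity)
      linarith
    rw [div_le_iff₀ hτ] at hK₀
    have h4 : 2 * (1 / (2 : ℝ) ^ K₀) ≤ s ^ 2 / 40 := by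
      rw [mul_one_div, div_le_iff₀ (by positivity)]
      linarith
    linarith
  have hlog4 : 0 < Real.log 4 := Real.log_pos (by norm_num)
  have hlogD : Real.log ((4 ^ j₂ : ℕ) : ℝ) = j₂ * Real.log 4 := by
    rw [hcast4, Real.log_pow]
  have hlr : Real.log y / Real.log ((4 ^ j₂ : ℕ) : ℝ) ≤ 400 / m := by
    rw [hlogD, div_le_div_iff₀ (by positivity) hm0]
    have h1 : Real.log y ≤ j₁ * Real.log 4 := by
      have h2 : (y : ℝ) ≤ 4 ^ j₁ := by exact_mod_cast hyj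
      have := Real.log_le_log hy0 h2
      rwa [Real.log_pow] at this
    calc Real.log y * m ≤ (j₁ * Real.log 4) * m := mul_le_mul_of_nonneg_right h1 hm0.le
      _ = (m * j₁) * Real.log 4 := by ring
      _ ≤ (400 * j₂) * Real.log 4 := mul_le_mul_of_nonneg_right hratio hlog4.le
      _ = _ := by ring
  have hv : 2 * (Real.log y / Real.log ((4 ^ j₂ : ℕ) : ℝ) * cT wt C) ≤ s ^ 2 / 40 := by
    have h1 := mul_le_mul_of_nonneg_right hlr hcT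
    have h2 : 2 * (400 / (m : ℝ) * cT wt C) = 800 * cT wt C / m := by ring
    linarith
  have hN' : ((N + h₁ : ℕ) : ℝ) ≤ 2 * N := by push_cast; linarith
  have hE := numE (N := N) (N' := N + h₁) (h₁ := h₁) (y := y) (s := s)
    (σ := √(2 * (1 / m) * (C₁ * Real.log (1 + Real.log N / Real.log y))))
    (u := (w : ℝ) / 2 ^ B) (v := Real.log y / Real.log ((4 ^ j₂ : ℕ) : ℝ) * cT wt C) hs hN'
    (by omega) (Real.sqrt_nonneg _) (by positivity)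
    (mul_nonneg (div_nonneg hlogy.le (by rw [hlogD]; positivity)) hcT) hσ b7 hy8 hu hv
  -- the remaining conditions
  have hL : 2 / s ^ 2 ≤ c * Real.log (j₂ / j₁) := by
    refine hm3.trans (mul_le_mul_of_nonneg_left (Real.log_le_log (by positivity) ?_) hc0.le)
    rw [div_le_div_iff₀ (by norm_num) hj₁0]
    linarith
  have hlog : √(2 * (1 + Real.log N)) ≤ s * 2 ^ j₁ := by
    refine Real.sqrt_le_iff.2 ⟨by positivity, ?_⟩
    have h1 : g ≤ 4 ^ j₁ := hgx.trans hx4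
    have h2 : (s * 2 ^ j₁) ^ 2 = s ^ 2 * 4 ^ j₁ := by
      rw [mul_pow, ← pow_mul, mul_comm j₁ 2, pow_mul]; norm_num
    rw [h2]
    have := mul_le_mul_of_nonneg_left h1 (show 0 ≤ s ^ 2 by positivity)
    linarith
  have hfin := core χ t H hC₀.le hC₃.le hCorr hP hAp hC₁ hc hf₁ hf₂ hb₁ hb₂ (w := w) (y := y)
    (B := B) (h₁ := h₁) (h₂ := h₂) (N := N) (k₀ := k₀) (j₁ := j₁) (j₂ := j₂) hne hq1 hqw hwB
    hwy hw4 (by omega) b1 (by exact_mod_cast b8) (Nat.le_add_left 1 _) hj₁1 hjj hyj h4N hs hs1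
    (δ := 1 / m) hδ' (by rw [mul_assoc (((N + h₁ : ℕ)) : ℝ) (Real.log y / _)]; exact hE) hR1
    (by rw [hcast4] at r2 ⊢; exact r2) (by rw [hcast4] at r3 ⊢; exact r3)
    (by rw [hcast4] at r4 ⊢; exact r4) hL hlog
  rw [div_le_iff₀ hx0]
  refine hfin.trans ?_
  have h1 : 40 * s * N ≤ ε / 2 * N := mul_le_mul_of_nonneg_right (by linarith) hN0.le
  have h2 : ε * N ≤ ε * x := mul_le_mul_of_nonneg_left hNx hε.le
  linarith

end Pool.Agent.Elliott
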