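import Pool.Agent.Elliott.Params

set_option autoImplicit false

/-! Numerical inequalities for the final choice of parameters. -/

namespace Pool.Agent.Elliott

theorem numE {N N' h₁ y : ℕ} {s σ u v : ℝ} (hs : 0 < s) (hN' : (N' : ℝ) ≤ 2 * N)
    (hy : 1 ≤ y) (hσ0 : 0 ≤ σ) (hu0 : 0 ≤ u) (hv0 : 0 ≤ v)
    (hσ : 4 * σ ≤ s ^ 2 / 40) (hh : 8 * (h₁ : ℝ) ≤ s ^ 2 / 40 * N)
    (hy8 : 8 / (y : ℝ) ≤ s ^ 2 / 40) (hu : 2 * u ≤ s ^ 2 / 40) (hv : 2 * v ≤ s ^ 2 / 40) :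
    3 * (2 * (N' * σ + 4 * h₁ + 2 * N' / y) + N' * u + N' * v) ≤ s ^ 2 / 2 * N := by
  have hN0 : (0 : ℝ) ≤ N := Nat.cast_nonneg N
  have hy0 : (0 : ℝ) < y := by exact_mod_cast hy
  have a1 : 2 * (N' * σ) ≤ s ^ 2 / 40 * N := by
    have := mul_le_mul_of_nonneg_right hN' hσ0
    have := mul_le_mul_of_nonneg_right hσ hN0
    linarith
  have a2 : 2 * (2 * (N' : ℝ) / y) ≤ s ^ 2 / 40 * N := by
    have h1 : 2 * (2 * (N' : ℝ) / y) ≤ 8 / y * N := by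
      rw [div_mul_eq_mul_div, ← mul_div_assoc]
      exact div_le_div_of_nonneg_right (by linarith) hy0.le
    exact h1.trans (mul_le_mul_of_nonneg_right hy8 hN0)
  have a3 : N' * u ≤ s ^ 2 / 40 * N := by
    have := mul_le_mul_of_nonneg_right hN' hu0
    have := mul_le_mul_of_nonneg_right hu hN0
    linarith
  have a4 : N' * v ≤ s ^ 2 / 40 * N := by
    have := mul_le_mul_of_nonneg_right hN' hv0
    have := mul_le_mul_of_nonneg_right hv hN0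
    linarith
  have : 0 ≤ s ^ 2 * N := by positivity
  linarith

theorem numR {Ψ G D W N k T h s : ℝ} (hΨ : 0 ≤ Ψ) (hD1 : 1 ≤ D) (hDG : D ≤ G)
    (hN : N = G ^ 100) (hW0 : 0 ≤ W) (hWG : W ≤ G) (hk : k ≤ N / D ^ 6 + 1)
    (hk' : N / D ^ 6 ≤ k) (hT0 : 0 ≤ T) (hT : T ≤ 3 * G ^ 151) (hh : 0 ≤ h)
    (h1 : 16 * Ψ ^ 2 ≤ s ^ 2 * D) (h2 : 96 * h * Ψ ^ 2 ≤ s ^ 2 * G) :
    2 * k * (Ψ * D ^ 2) ^ 2 * D ≤ s ^ 2 / 4 * N ∧ W * (Ψ * D ^ 2) ^ 2 * 2 * D ≤ s ^ 2 / 4 * N ∧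
      W * (Ψ * D ^ 2) ^ 2 * (8 * T * h) ≤ s ^ 2 / 4 * N * k := by
  have hG1 : 1 ≤ G := hD1.trans hDG
  have hD0 : 0 < D := by linarith
  have hG0 : 0 < G := by linarith
  have hN0 : 0 ≤ N := by rw [hN]; positivity
  have hs2 : 0 ≤ s ^ 2 := sq_nonneg s
  have hΨ2 : 0 ≤ Ψ ^ 2 := by positivity
  have h1G : 16 * Ψ ^ 2 ≤ s ^ 2 * G := h1.trans (mul_le_mul_of_nonneg_left hDG hs2)
  have hDG5 : D ^ 5 ≤ G ^ 5 := pow_le_pow_left₀ hD0.le hDG 5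
  refine ⟨?_, ?_, ?_⟩
  · have e1 : 2 * k * (Ψ * D ^ 2) ^ 2 * D ≤ 2 * (N / D ^ 6 + 1) * (Ψ * D ^ 2) ^ 2 * D := by
      gcongr
    have e2 : 2 * (N / D ^ 6 + 1) * (Ψ * D ^ 2) ^ 2 * D = 2 * Ψ ^ 2 * N / D + 2 * Ψ ^ 2 * D ^ 5 := by
      field_simp
    have e3 : 2 * Ψ ^ 2 * N / D ≤ s ^ 2 / 8 * N := by
      rw [div_le_iff₀ hD0]
      have := mul_le_mul_of_nonneg_right h1 hN0
      nlinarith
    have e4 : 2 * Ψ ^ 2 * D ^ 5 ≤ s ^ 2 / 8 * N := by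
      calc 2 * Ψ ^ 2 * D ^ 5 ≤ 2 * Ψ ^ 2 * G ^ 5 := by gcongr
        _ ≤ s ^ 2 / 8 * G * G ^ 5 := by
            refine mul_le_mul_of_nonneg_right ?_ (by positivity)
            linarith
        _ = s ^ 2 / 8 * G ^ 6 := by ring
        _ ≤ s ^ 2 / 8 * G ^ 100 := by
            refine mul_le_mul_of_nonneg_left (pow_le_pow_right₀ hG1 (by norm_num)) (by positivity)
        _ = _ := by rw [hN]
    linarith
  · calc W * (Ψ * D ^ 2) ^ 2 * 2 * D = 2 * Ψ ^ 2 * (W * D ^ 5) := by ring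
      _ ≤ 2 * Ψ ^ 2 * (G * G ^ 5) := by gcongr
      _ ≤ s ^ 2 / 8 * G * (G * G ^ 5) := by
          refine mul_le_mul_of_nonneg_right ?_ (by positivity)
          linarith
      _ = s ^ 2 / 8 * G ^ 7 := by ring
      _ ≤ s ^ 2 / 4 * G ^ 100 := by
          refine mul_le_mul (by linarith) (pow_le_pow_right₀ hG1 (by norm_num)) (by positivity)
            (by positivity)
      _ = _ := by rw [hN]
  · have e1 : s ^ 2 / 4 * N * (N / D ^ 6) ≤ s ^ 2 / 4 * N * k :=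
      mul_le_mul_of_nonneg_left hk' (by positivity)
    refine le_trans ?_ e1
    rw [← mul_div_assoc, le_div_iff₀ (by positivity)]
    calc W * (Ψ * D ^ 2) ^ 2 * (8 * T * h) * D ^ 6 = 8 * h * Ψ ^ 2 * (W * T * D ^ 10) := by ring
      _ ≤ 8 * h * Ψ ^ 2 * (G * (3 * G ^ 151) * G ^ 10) := by gcongr
      _ = (96 * h * Ψ ^ 2) * G ^ 162 / 4 := by ring
      _ ≤ (s ^ 2 * G) * G ^ 162 / 4 := by gcongr
      _ = s ^ 2 / 4 * G ^ 163 := by ring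
      _ ≤ s ^ 2 / 4 * G ^ 200 := by
          refine mul_le_mul_of_nonneg_left (pow_le_pow_right₀ hG1 (by norm_num)) (by positivity)
      _ = _ := by rw [hN]; ring

end Pool.Agent.Elliott
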