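import Pool.Agent.Elliott.Asym

set_option autoImplicit false

/-! Elementary facts about the chosen parameters. -/

namespace Pool.Agent.Elliott

open Finset MeasureTheory Filter Topology

/-- First block. -/
def jj₁ (m N : ℕ) : ℕ := (Nat.log 4 N + 1) / m + 1

/-- Last block. -/
def jj₂ (N : ℕ) : ℕ := Nat.log 4 N / 100

theorem jj_le {m N : ℕ} (hm : 400 ≤ m) (hJ : m + 400 ≤ Nat.log 4 N) : jj₁ m N ≤ jj₂ N := by
  unfold jj₁ jj₂
  have h := Nat.div_le_div_left (c := 400) (a := Nat.log 4 N + 1) hm (by norm_num)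
  omega

theorem jj_ratio {m N : ℕ} (hm : 400 ≤ m) (hJ : m + 400 ≤ Nat.log 4 N) :
    (m : ℝ) * jj₁ m N ≤ 400 * jj₂ N := by
  have h1 : m * jj₁ m N ≤ Nat.log 4 N + 1 + m := by
    unfold jj₁
    rw [mul_add, mul_one]
    have := Nat.mul_div_le (Nat.log 4 N + 1) m
    omega
  have h2 : Nat.log 4 N + 1 + m ≤ 400 * jj₂ N := by
    unfold jj₂
    omega
  exact_mod_cast h1.trans h2

theorem four_pow_jj₂ {N : ℕ} (hN : 1 ≤ N) : (4 ^ jj₂ N) ^ 100 ≤ N := by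
  rw [← pow_mul]
  refine le_trans (Nat.pow_le_pow_right (by norm_num) ?_)
    (Nat.pow_log_le_self 4 (by omega : N ≠ 0))
  unfold jj₂
  omega

theorem rpow_le_four_pow {m N : ℕ} (hm : 1 ≤ m) {x : ℝ} (hx0 : 0 ≤ x) (hx : x < N + 1) :
    x ^ (1 / (m : ℝ)) ≤ 4 ^ jj₁ m N := by
  have h1 : N < 4 ^ (Nat.log 4 N + 1) := Nat.lt_pow_succ_log_self (by norm_num) N
  have h2 : (N : ℝ) + 1 ≤ 4 ^ (Nat.log 4 N + 1) := by exact_mod_cast h1
  have h3 : x ≤ (4 : ℝ) ^ (m * jj₁ m N) := by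
    refine hx.le.trans (h2.trans (pow_le_pow_right₀ (by norm_num) ?_))
    unfold jj₁
    have := Nat.lt_mul_div_succ (Nat.log 4 N + 1) (by omega : 0 < m)
    omega
  have hm0 : (0 : ℝ) < m := by exact_mod_cast hm
  calc x ^ (1 / (m : ℝ)) ≤ ((4 : ℝ) ^ (m * jj₁ m N)) ^ (1 / (m : ℝ)) :=
        Real.rpow_le_rpow hx0 h3 (by positivity)
    _ = 4 ^ jj₁ m N := by
        rw [mul_comm, pow_mul, ← Real.rpow_natCast (_ ^ _) m, ← Real.rpow_mul (by positivity),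
          mul_one_div_cancel hm0.ne', Real.rpow_one]

variable {q : ℕ} (χ : DirichletCharacter ℂ q) (t : ℝ)

/-- The terms of the pretentious distance. -/
noncomputable def dt (f : ArithmeticFunction ℂ) (p : ℕ) : ℝ :=
  (1 - (f p * (starRingEnd ℂ) (χ (p : ZMod q) * (p : ℂ) ^ ((t : ℂ) * Complex.I))).re) / (p : ℝ)

theorem dt_eq (f : ArithmeticFunction ℂ) (p : ℕ) :
    dt χ t f p = (1 - (f p * (starRingEnd ℂ) (th χ t p)).re) / (p : ℝ) := rfl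

theorem dt_nonneg {f : ArithmeticFunction ℂ} (hf1 : ∀ n, ‖f n‖ ≤ 1) (p : ℕ) :
    0 ≤ dt χ t f p := by
  rw [dt_eq]
  have h1 : ‖f p * (starRingEnd ℂ) (th χ t p)‖ ≤ 1 * 1 := by
    rw [norm_mul, RCLike.norm_conj]
    exact mul_le_mul (hf1 p) (norm_th_le χ t p) (norm_nonneg _) zero_le_one
  have h2 := (abs_le.1 ((Complex.abs_re_le_norm _).trans h1)).2
  have : 0 ≤ 1 - (f p * (starRingEnd ℂ) (th χ t p)).re := by linarith
  positivity

theorem dt_le {f : ArithmeticFunction ℂ} (hf1 : ∀ n, ‖f n‖ ≤ 1) (p : ℕ) :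
    dt χ t f p ≤ 2 * (1 / (p : ℝ)) := by
  rw [dt_eq]
  have h1 : ‖f p * (starRingEnd ℂ) (th χ t p)‖ ≤ 1 * 1 := by
    rw [norm_mul, RCLike.norm_conj]
    exact mul_le_mul (hf1 p) (norm_th_le χ t p) (norm_nonneg _) zero_le_one
  have h2 := (abs_le.1 ((Complex.abs_re_le_norm _).trans h1)).1
  rw [mul_one_div]
  exact div_le_div_of_nonneg_right (by linarith) (Nat.cast_nonneg _)

theorem sum_dt_le {f : ArithmeticFunction ℂ} (hf1 : ∀ n, ‖f n‖ ≤ 1) {C₁ : ℝ}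
    (hC₁ : ∀ (z : ℝ) (y : ℕ), 0 ≤ z →
      ∑ p ∈ (Icc 1 y).filter Nat.Prime, min 1 (z * Real.log p) / p ≤
        C₁ * Real.log (1 + z * Real.log y)) (N : ℕ) :
    ∑ p ∈ (Iic N).filter Nat.Prime, dt χ t f p ≤ 2 * C₁ * Real.log (1 + 2 * Real.log N) := by
  have h1 : (Iic N).filter Nat.Prime = (Icc 1 N).filter Nat.Prime := by
    ext p
    simp only [mem_filter, mem_Iic, mem_Icc]
    constructor
    · rintro ⟨h1, h2⟩; exact ⟨⟨h2.one_le, h1⟩, h2⟩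
    · rintro ⟨⟨_, h1⟩, h2⟩; exact ⟨h1, h2⟩
  rw [h1]
  calc _ ≤ ∑ p ∈ (Icc 1 N).filter Nat.Prime, 2 * (1 / (p : ℝ)) :=
        Finset.sum_le_sum fun p _ => dt_le χ t hf1 p
    _ = 2 * ∑ p ∈ (Icc 1 N).filter Nat.Prime, 1 / (p : ℝ) := by rw [Finset.mul_sum]
    _ ≤ 2 * (C₁ * Real.log (1 + 2 * Real.log N)) :=
        mul_le_mul_of_nonneg_left (sum_inv_prime_le hC₁ N) (by norm_num)
    _ = _ := by ring

theorem sum_dt_split {f : ArithmeticFunction ℂ} (hf1 : ∀ n, ‖f n‖ ≤ 1) {w y N : ℕ} {δ : ℝ}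
    (hδ : ∑ p ∈ (Ioc y N).filter Nat.Prime, dt χ t f p ≤ δ) :
    ∑ p ∈ (Iic N).filter Nat.Prime, dt χ t f p ≤ 2 * (1 + Real.log w) +
      ∑ l ∈ pQ w y, (1 - (GG χ t f l 1).re) / l + δ := by
  have hsub : (Iic N).filter Nat.Prime ⊆
      ((Icc 1 w).filter Nat.Prime ∪ pQ w y) ∪ (Ioc y N).filter Nat.Prime := by
    intro p hp
    rw [mem_filter, mem_Iic] at hp
    obtain ⟨h1, h2⟩ := hp
    have := h2.one_le
    simp only [mem_union, mem_filter, mem_Icc, mem_Ioc, pQ]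
    by_cases h3 : p ≤ w
    · left; left; exact ⟨⟨this, h3⟩, h2⟩
    · by_cases h4 : p ≤ y
      · left; right; exact ⟨⟨by omega, h4⟩, h2⟩
      · right; exact ⟨⟨by omega, h1⟩, h2⟩
  have h0 := fun p => dt_nonneg χ t hf1 p
  refine (Finset.sum_le_sum_of_subset_of_nonneg hsub fun p _ _ => h0 p).trans ?_
  have h1 : ∀ s r : Finset ℕ, ∑ p ∈ s ∪ r, dt χ t f p ≤
      ∑ p ∈ s, dt χ t f p + ∑ p ∈ r, dt χ t f p := by
    intro s r
    rw [← Finset.sum_union_inter]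
    have : 0 ≤ ∑ p ∈ s ∩ r, dt χ t f p := Finset.sum_nonneg fun p _ => h0 p
    linarith
  refine (h1 _ _).trans (add_le_add ((h1 _ _).trans (add_le_add ?_ ?_)) hδ)
  · calc _ ≤ ∑ p ∈ (Icc 1 w).filter Nat.Prime, 2 * (1 / (p : ℝ)) :=
          Finset.sum_le_sum fun p _ => dt_le χ t hf1 p
      _ = 2 * ∑ p ∈ (Icc 1 w).filter Nat.Prime, 1 / (p : ℝ) := by rw [Finset.mul_sum]
      _ ≤ _ := mul_le_mul_of_nonneg_left (sum_inv_le_log w) (by norm_num)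
  · refine Finset.sum_le_sum fun l _ => ?_
    rw [dt_eq]
    unfold GG
    rw [pow_one]

end Pool.Agent.Elliott
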