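import Pool.Agent.Elliott.Corr

set_option autoImplicit false

/-! Sums of the correlation of the smoothed divisor sum over initial intervals. -/

namespace Pool.Agent.Elliott

open Finset MeasureTheory

variable {Q : Finset ℕ} {ψ w : ℝ → ℂ} {lD : ℝ}

theorem PsiData.norm_psi_le (H : PsiData ψ w) {u : ℝ} (hu : 0 ≤ u) :
    ‖ψ u‖ ≤ ∫ ξ, ‖w ξ‖ := by
  rw [H.rep u hu]
  refine (norm_integral_le_integral_norm _).trans ?_
  refine integral_mono_of_nonneg (Filter.Eventually.of_forall fun _ => norm_nonneg _)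
    H.integrable_norm (Filter.Eventually.of_forall fun ξ => ?_)
  simp only
  rw [norm_mul, Complex.norm_exp]
  have : (-((1 + (ξ : ℂ) * Complex.I) * u)).re = -u := by simp
  rw [this]
  have h1 : Real.exp (-u) ≤ 1 := by rw [Real.exp_le_one_iff]; linarith
  calc ‖w ξ‖ * Real.exp (-u) ≤ ‖w ξ‖ * 1 := mul_le_mul_of_nonneg_left h1 (norm_nonneg _)
    _ = ‖w ξ‖ := mul_one _

/-- The total mass of the coefficients. -/
theorem sum_coeff_le (H : PsiData ψ w) (hQ : ∀ l ∈ Q, l.Prime) (G : ℕ → ℕ → ℂ)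
    (hG : ∀ l i, ‖G l i‖ ≤ 1) (V : ℕ) {D : ℕ} (hD : 2 ≤ D) :
    ∑ v ∈ box Q V, ‖bv G v * ψ (Real.log (dd v) / Real.log D)‖ ≤
      (∫ ξ, ‖w ξ‖) * (D : ℝ) ^ 2 := by
  have hlD : 0 < Real.log D := Real.log_pos (by exact_mod_cast hD)
  set Ψ := ∫ ξ, ‖w ξ‖
  have hΨ : 0 ≤ Ψ := integral_nonneg fun _ => norm_nonneg _
  have h1 : ∑ v ∈ box Q V, ‖bv G v * ψ (Real.log (dd v) / Real.log D)‖ ≤
      ∑ v ∈ (box Q V).filter (fun v => dd v < D), (D : ℝ) * Ψ := by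
    rw [Finset.sum_filter]
    refine Finset.sum_le_sum fun v _ => ?_
    split_ifs with h
    · rw [norm_mul]
      refine mul_le_mul ((norm_bv_le hQ G hG v).trans (by exact_mod_cast h.le))
        (H.norm_psi_le (div_nonneg (log_dd_nonneg hQ v) hlD.le)) (norm_nonneg _)
        (Nat.cast_nonneg _)
    · push Not at h
      rw [H.one _ ?_]
      · simp
      · rw [le_div_iff₀ hlD, one_mul]
        exact Real.log_le_log (by positivity) (by exact_mod_cast h)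
  refine h1.trans ?_
  rw [Finset.sum_const, nsmul_eq_mul]
  have h2 : #((box Q V).filter (fun v => dd v < D)) ≤ D := by
    have : ((box Q V).filter (fun v => dd v < D)).image dd ⊆ range D := by
      intro n hn
      rw [mem_image] at hn
      obtain ⟨v, hv, rfl⟩ := hn
      exact mem_range.2 (mem_filter.1 hv).2
    have h3 := card_le_card this
    rwa [card_image_of_injective _ (dd_injective hQ), card_range] at h3
  have h3 : (#((box Q V).filter (fun v => dd v < D)) : ℝ) ≤ D := by exact_mod_cast h2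
  calc (#((box Q V).filter (fun v => dd v < D)) : ℝ) * (D * Ψ) ≤ D * (D * Ψ) :=
        mul_le_mul_of_nonneg_right h3 (by positivity)
    _ = Ψ * (D : ℝ) ^ 2 := by ring

theorem corr_psum (hQ : ∀ l ∈ Q, l.Prime) (G : ℕ → ℕ → ℂ) (V : ℕ)
    {W p p' h₁ h₂ : ℕ} (hW : 0 < W) (hQW : ∀ l ∈ Q, ¬ l ∣ W) (hQp : ∀ l ∈ Q, ¬ l ∣ p)
    (hQp' : ∀ l ∈ Q, ¬ l ∣ p') (hp : h₂ < p) (hp' : h₂ < p') (Φ : ℕ → ℂ)
    (hΦ : ∀ k, 1 ≤ k → Φ (k + W) = Φ k) (hΦ1 : ∀ k, ‖Φ k‖ ≤ 1) (K : ℕ) :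
    ‖∑ k ∈ Icc 1 K, Φ k * (gpsi Q V G ψ lD (p * k + h₁ - h₂) *
        (starRingEnd ℂ) (gpsi Q V G ψ lD (p' * k + h₁ - h₂))) -
      K * ((∑ c ∈ Icc 1 W, Φ c) / W *
        corrM Q V G ψ lD (((h₁ : ℤ) - h₂) * ((p : ℤ) - p')))‖ ≤
      W * (∑ v ∈ box Q V, ‖bv G v * ψ (Real.log (dd v) / lD)‖) ^ 2 := by
  set A : (Q → ℕ) → ℂ := fun v => bv G v * ψ (Real.log (dd v) / lD) with hA
  set Δ : ℤ := ((h₁ : ℤ) - h₂) * ((p : ℤ) - p') with hΔ
  have e1 : ∑ k ∈ Icc 1 K, Φ k * (gpsi Q V G ψ lD (p * k + h₁ - h₂) *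
      (starRingEnd ℂ) (gpsi Q V G ψ lD (p' * k + h₁ - h₂))) =
      ∑ v ∈ box Q V, ∑ v' ∈ box Q V, A v * (starRingEnd ℂ) (A v') *
        ∑ k ∈ (Icc 1 K).filter
          (fun k => dd v ∣ p * k + h₁ - h₂ ∧ dd v' ∣ p' * k + h₁ - h₂), Φ k := by
    have : ∀ k, Φ k * (gpsi Q V G ψ lD (p * k + h₁ - h₂) *
        (starRingEnd ℂ) (gpsi Q V G ψ lD (p' * k + h₁ - h₂))) =
        ∑ v ∈ box Q V, ∑ v' ∈ box Q V, A v * (starRingEnd ℂ) (A v') *
          (if dd v ∣ p * k + h₁ - h₂ ∧ dd v' ∣ p' * k + h₁ - h₂ then Φ k else 0) := by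
      intro k
      unfold gpsi
      rw [map_sum, Finset.sum_filter, Finset.sum_filter, Finset.sum_mul_sum, Finset.mul_sum]
      refine Finset.sum_congr rfl fun v _ => ?_
      rw [Finset.mul_sum]
      refine Finset.sum_congr rfl fun v' _ => ?_
      by_cases h1 : dd v ∣ p * k + h₁ - h₂
      · by_cases h2 : dd v' ∣ p' * k + h₁ - h₂
        · simp only [h1, h2, if_true, and_self, A]; ring
        · simp [h1, h2]
      · simp [h1]
    rw [Finset.sum_congr rfl fun k _ => this k, Finset.sum_comm]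
    refine Finset.sum_congr rfl fun v _ => ?_
    rw [Finset.sum_comm]
    refine Finset.sum_congr rfl fun v' _ => ?_
    rw [← Finset.mul_sum, Finset.sum_filter]
  have e2 : (K : ℂ) * ((∑ c ∈ Icc 1 W, Φ c) / W * corrM Q V G ψ lD Δ) =
      ∑ v ∈ box Q V, ∑ v' ∈ box Q V, A v * (starRingEnd ℂ) (A v') *
        (if (Nat.gcd (dd v) (dd v') : ℤ) ∣ Δ then
          (K : ℂ) / (W * Nat.lcm (dd v) (dd v')) * ∑ c ∈ Icc 1 W, Φ c else 0) := by
    unfold corrM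
    rw [Finset.mul_sum, Finset.mul_sum]
    refine Finset.sum_congr rfl fun v _ => ?_
    rw [Finset.mul_sum, Finset.mul_sum]
    refine Finset.sum_congr rfl fun v' _ => ?_
    unfold kap
    split_ifs with h
    · simp only [A]
      have h1 : (W : ℂ) ≠ 0 := by exact_mod_cast hW.ne'
      have h2 : (Nat.lcm (dd v) (dd v') : ℂ) ≠ 0 := by
        exact_mod_cast Nat.lcm_ne_zero (dd_pos hQ v).ne' (dd_pos hQ v').ne'
      field_simp
    · ring
  rw [e1, e2, ← Finset.sum_sub_distrib]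
  have e3 : ∀ v ∈ box Q V, (∑ v' ∈ box Q V, A v * (starRingEnd ℂ) (A v') *
        ∑ k ∈ (Icc 1 K).filter
          (fun k => dd v ∣ p * k + h₁ - h₂ ∧ dd v' ∣ p' * k + h₁ - h₂), Φ k) -
      (∑ v' ∈ box Q V, A v * (starRingEnd ℂ) (A v') *
        (if (Nat.gcd (dd v) (dd v') : ℤ) ∣ Δ then
          (K : ℂ) / (W * Nat.lcm (dd v) (dd v')) * ∑ c ∈ Icc 1 W, Φ c else 0)) =
      ∑ v' ∈ box Q V, A v * (starRingEnd ℂ) (A v') *
        ((∑ k ∈ (Icc 1 K).filter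
          (fun k => dd v ∣ p * k + h₁ - h₂ ∧ dd v' ∣ p' * k + h₁ - h₂), Φ k) -
        (if (Nat.gcd (dd v) (dd v') : ℤ) ∣ Δ then
          (K : ℂ) / (W * Nat.lcm (dd v) (dd v')) * ∑ c ∈ Icc 1 W, Φ c else 0)) := by
    intro v _
    rw [← Finset.sum_sub_distrib]
    exact Finset.sum_congr rfl fun v' _ => by ring
  rw [Finset.sum_congr rfl e3]
  have e4 : ∀ v v' : Q → ℕ, ‖A v * (starRingEnd ℂ) (A v') *
        ((∑ k ∈ (Icc 1 K).filter
          (fun k => dd v ∣ p * k + h₁ - h₂ ∧ dd v' ∣ p' * k + h₁ - h₂), Φ k) -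
        (if (Nat.gcd (dd v) (dd v') : ℤ) ∣ Δ then
          (K : ℂ) / (W * Nat.lcm (dd v) (dd v')) * ∑ c ∈ Icc 1 W, Φ c else 0))‖ ≤
      W * (‖A v‖ * ‖A v'‖) := by
    intro v v'
    rw [norm_mul, norm_mul, RCLike.norm_conj]
    have := count_sum (W := W) (d := dd v) (e := dd v') (p := p) (p' := p') (h₁ := h₁)
      (h₂ := h₂) hW (dd_pos hQ v) (dd_pos hQ v') (dd_coprime hQ v hQW) (dd_coprime hQ v' hQW)
      (dd_coprime hQ v hQp) (dd_coprime hQ v' hQp') hp hp' Φ hΦ hΦ1 K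
    calc _ ≤ ‖A v‖ * ‖A v'‖ * W := mul_le_mul_of_nonneg_left this (by positivity)
      _ = _ := by ring
  refine (norm_sum_le _ _).trans ?_
  refine (Finset.sum_le_sum fun v _ => (norm_sum_le _ _).trans
    (Finset.sum_le_sum fun v' _ => e4 v v')).trans (le_of_eq ?_)
  rw [sq, Finset.sum_mul_sum, Finset.mul_sum]
  refine Finset.sum_congr rfl fun v _ => ?_
  rw [Finset.mul_sum]

end Pool.Agent.Elliott
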