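import Pool.Agent.Elliott.Expand

set_option autoImplicit false

/-! The smoothed divisor sum as an integral of multiplicative functions, and its `L²` distance
to `gg`. -/

namespace Pool.Agent.Elliott

open Finset MeasureTheory

/-- A smooth cutoff with its Laplace-Fourier representation. -/
structure PsiData (ψ w : ℝ → ℂ) : Prop where
  cont : Continuous w
  int : ∀ m : ℕ, Integrable (fun ξ : ℝ => ‖w ξ‖ * (1 + |ξ|) ^ m)
  zero : ψ 0 = 1
  one : ∀ u, 1 ≤ u → ψ u = 0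
  rep : ∀ u : ℝ, 0 ≤ u → ψ u = ∫ ξ : ℝ, w ξ * Complex.exp (-((1 + ξ * Complex.I) * u))

/-- The complex parameter attached to `ξ`. -/
noncomputable def zz (lD ξ : ℝ) : ℂ := (1 + ξ * Complex.I) / lD

variable {Q : Finset ℕ} {ψ w : ℝ → ℂ} {lD : ℝ}

theorem zz_re (hD : 0 < lD) (ξ : ℝ) : 0 ≤ (zz lD ξ).re := by
  unfold zz
  rw [Complex.div_ofReal_re]
  have : (1 + (ξ : ℂ) * Complex.I).re = 1 := by simp
  rw [this]; positivity

theorem norm_zz (hD : 0 < lD) (ξ : ℝ) : ‖zz lD ξ‖ ≤ (1 + |ξ|) / lD := by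
  unfold zz
  rw [norm_div, Complex.norm_real, Real.norm_of_nonneg hD.le]
  gcongr
  calc ‖(1 : ℂ) + ξ * Complex.I‖ ≤ ‖(1 : ℂ)‖ + ‖(ξ : ℂ) * Complex.I‖ := norm_add_le _ _
    _ = 1 + |ξ| := by simp

theorem PsiData.integrable_norm (H : PsiData ψ w) : Integrable (fun ξ => ‖w ξ‖) := by
  simpa using H.int 0

theorem PsiData.integrable (H : PsiData ψ w) : Integrable w :=
  (integrable_norm_iff H.cont.aestronglyMeasurable).1 H.integrable_norm

theorem norm_exp_zz (hD : 0 < lD) (ξ : ℝ) {u : ℝ} (hu : 0 ≤ u) :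
    ‖Complex.exp (-(zz lD ξ * u))‖ ≤ 1 := by
  rw [Complex.norm_exp, Complex.neg_re, Complex.re_mul_ofReal]
  rw [Real.exp_le_one_iff]
  have := mul_nonneg (zz_re hD ξ) hu
  linarith

theorem continuous_zz : Continuous (zz lD) := by
  unfold zz; fun_prop

theorem PsiData.rep' (H : PsiData ψ w) (hD : 0 < lD) {u : ℝ} (hu : 0 ≤ u) :
    ψ (u / lD) = ∫ ξ : ℝ, w ξ * Complex.exp (-(zz lD ξ * u)) := by
  rw [H.rep _ (by positivity)]
  congr 1
  funext ξ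
  congr 2
  unfold zz
  push_cast
  have : (lD : ℂ) ≠ 0 := by exact_mod_cast hD.ne'
  field_simp

theorem PsiData.integrable_mul (H : PsiData ψ w) {F : ℝ → ℂ} (hF : Continuous F) {B : ℝ}
    (hB : ∀ ξ, ‖F ξ‖ ≤ B) : Integrable (fun ξ => w ξ * F ξ) := by
  refine Integrable.mono' (H.integrable_norm.mul_const B) ?_ (Filter.Eventually.of_forall ?_)
  · exact (H.cont.mul hF).aestronglyMeasurable
  · intro ξ
    rw [norm_mul]
    exact mul_le_mul_of_nonneg_left (hB ξ) (norm_nonneg _)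

theorem PsiData.integral_eq_one (H : PsiData ψ w) : ∫ ξ, w ξ = 1 := by
  have := H.rep 0 le_rfl
  rw [H.zero] at this
  rw [this]
  simp

theorem log_dd_nonneg (hQ : ∀ l ∈ Q, l.Prime) (v : Q → ℕ) : 0 ≤ Real.log (dd v) :=
  Real.log_nonneg (by exact_mod_cast dd_pos hQ v)

theorem continuous_gz (G : ℕ → ℕ → ℂ) (n : ℕ) : Continuous (fun z => gz Q G z n) := by
  unfold gz
  refine continuous_finsetProd _ fun l _ => continuous_finsetSum _ fun i _ => ?_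
  fun_prop

theorem gpsi_eq_integral (H : PsiData ψ w) (hD : 0 < lD) (hQ : ∀ l ∈ Q, l.Prime)
    (G : ℕ → ℕ → ℂ) {V n : ℕ} (hn : n ≠ 0) (hV : ∀ l ∈ Q, n.factorization l ≤ V) :
    gpsi Q V G ψ lD n = ∫ ξ, w ξ * gz Q G (zz lD ξ) n := by
  have h1 : ∀ ξ, w ξ * gz Q G (zz lD ξ) n =
      ∑ v ∈ (box Q V).filter (fun v => dd v ∣ n),
        bv G v * (w ξ * Complex.exp (-(zz lD ξ * Real.log (dd v)))) := by
    intro ξ
    rw [gz_expand hQ G _ hn hV, Finset.mul_sum]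
    refine Finset.sum_congr rfl fun v _ => ?_
    ring
  simp_rw [h1]
  rw [integral_finsetSum]
  · unfold gpsi
    refine Finset.sum_congr rfl fun v _ => ?_
    rw [integral_const_mul, ← H.rep' hD (log_dd_nonneg hQ v)]
  · intro v _
    refine Integrable.const_mul ?_ _
    refine H.integrable_mul (B := 1) ?_ fun ξ => norm_exp_zz hD ξ (log_dd_nonneg hQ v)
    have := continuous_zz (lD := lD)
    fun_prop

/-- A bound for `gz` at a fixed `n`. -/
theorem norm_gz_le (hQ : ∀ l ∈ Q, l.Prime) (G : ℕ → ℕ → ℂ) (hG : ∀ l i, ‖G l i‖ ≤ 1)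
    {z : ℂ} (hz : 0 ≤ z.re) {n : ℕ} (hn : n ≠ 0) :
    ‖gz Q G z n‖ ≤ ∑ v ∈ (box Q n).filter (fun v => dd v ∣ n), (dd v : ℝ) := by
  rw [gz_expand hQ G z hn (V := n) (fun l _ => (Nat.factorization_lt l hn).le)]
  refine (norm_sum_le _ _).trans (Finset.sum_le_sum fun v _ => ?_)
  rw [norm_mul]
  have h1 : ‖Complex.exp (-(z * Real.log (dd v)))‖ ≤ 1 := by
    rw [Complex.norm_exp, Complex.neg_re, Complex.re_mul_ofReal, Real.exp_le_one_iff]
    have := mul_nonneg hz (log_dd_nonneg hQ v)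
    linarith
  calc ‖bv G v‖ * ‖Complex.exp (-(z * Real.log (dd v)))‖ ≤ dd v * 1 :=
        mul_le_mul (norm_bv_le hQ G hG v) h1 (norm_nonneg _) (Nat.cast_nonneg _)
    _ = dd v := mul_one _

theorem one_add_mul_pow_le {κ s : ℝ} (hκ : 0 ≤ κ) (hκ1 : κ ≤ 1) (hs : 0 ≤ s) (C : ℕ) :
    (1 + κ * s) ^ C - 1 ≤ κ * ((1 + s) ^ C - 1) := by
  induction C with
  | zero => simp
  | succ C ih =>
    have h1 : 1 + κ * s ≤ 1 + s := by nlinarith
    have h2 : (0 : ℝ) ≤ (1 + s) ^ C - 1 := by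
      have : (1 : ℝ) ≤ (1 + s) ^ C := one_le_pow₀ (by linarith)
      linarith
    have h0 : 0 ≤ 1 + κ * s := by positivity
    calc (1 + κ * s) ^ (C + 1) - 1 = (1 + κ * s) * ((1 + κ * s) ^ C - 1) + κ * s := by ring
      _ ≤ (1 + κ * s) * (κ * ((1 + s) ^ C - 1)) + κ * s := by
          have := mul_le_mul_of_nonneg_left ih h0
          linarith
      _ ≤ (1 + s) * (κ * ((1 + s) ^ C - 1)) + κ * s := by
          have := mul_le_mul_of_nonneg_right h1 (mul_nonneg hκ h2)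
          linarith
      _ = κ * ((1 + s) ^ (C + 1) - 1) := by ring

/-- Jensen's inequality with the weight `‖w‖`. -/
theorem PsiData.sq_integral_le (H : PsiData ψ w) {F : ℝ → ℝ} (_hF0 : ∀ ξ, 0 ≤ F ξ)
    (hF : Integrable (fun ξ => ‖w ξ‖ * F ξ)) (hF2 : Integrable (fun ξ => ‖w ξ‖ * F ξ ^ 2)) :
    (∫ ξ, ‖w ξ‖ * F ξ) ^ 2 ≤ (∫ ξ, ‖w ξ‖) * ∫ ξ, ‖w ξ‖ * F ξ ^ 2 := by
  set I := ∫ ξ, ‖w ξ‖ * F ξ
  set W := ∫ ξ, ‖w ξ‖
  set J := ∫ ξ, ‖w ξ‖ * F ξ ^ 2
  have hW : 1 ≤ W := by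
    have := norm_integral_le_integral_norm (μ := volume) w
    rw [H.integral_eq_one, norm_one] at this
    exact this
  have key : ∀ s : ℝ, 0 ≤ J - 2 * s * I + s ^ 2 * W := by
    intro s
    have h1 : J - 2 * s * I + s ^ 2 * W = ∫ ξ, ‖w ξ‖ * (F ξ - s) ^ 2 := by
      have : (fun ξ => ‖w ξ‖ * (F ξ - s) ^ 2) =
          fun ξ => (‖w ξ‖ * F ξ ^ 2 - 2 * s * (‖w ξ‖ * F ξ)) + s ^ 2 * ‖w ξ‖ := by
        funext ξ; ring
      rw [this, integral_add, integral_sub, integral_const_mul, integral_const_mul]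
      · exact hF2
      · exact hF.const_mul _
      · exact hF2.sub (hF.const_mul _)
      · exact H.integrable_norm.const_mul _
    rw [h1]
    exact integral_nonneg fun ξ => by positivity
  have := key (I / W)
  have hW0 : 0 < W := by linarith
  have h2 : J - 2 * (I / W) * I + (I / W) ^ 2 * W = J - I ^ 2 / W := by field_simp; ring
  rw [h2] at this
  have h3 : I ^ 2 / W ≤ J := by linarith
  rw [div_le_iff₀ hW0] at h3
  linarith

theorem l2_smooth (H : PsiData ψ w) {C y N V : ℕ} (hD : 0 < lD)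
    (hQ : ∀ l ∈ Q, l.Prime ∧ l ≤ y)
    (G : ℕ → ℕ → ℂ) (hG : ∀ l i, ‖G l i‖ ≤ 1) (_hG0 : ∀ l, G l 0 = 1)
    (hC : ∀ z : ℂ, 0 ≤ z.re → ∑ n ∈ Icc 1 N, ‖gg Q G n - gz Q G z n‖ ^ 2 ≤
      N * ((1 + ‖z‖ * Real.log y) ^ C - 1))
    (hy : Real.log y ≤ lD) (hV : ∀ l ∈ Q, ∀ n ∈ Icc 1 N, n.factorization l ≤ V) :
    ∑ n ∈ Icc 1 N, ‖gg Q G n - gpsi Q V G ψ lD n‖ ^ 2 ≤
      N * (Real.log y / lD) * ((∫ ξ, ‖w ξ‖) * (2 ^ C * ∫ ξ, ‖w ξ‖ * (1 + |ξ|) ^ C)) := by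
  have hQ' : ∀ l ∈ Q, l.Prime := fun l hl => (hQ l hl).1
  set W := ∫ ξ, ‖w ξ‖
  have hW : 0 ≤ W := integral_nonneg fun _ => norm_nonneg _
  -- continuity and boundedness
  have hcont : ∀ n, Continuous (fun ξ => ‖gg Q G n - gz Q G (zz lD ξ) n‖) := fun n =>
    (continuous_const.sub ((continuous_gz G n).comp continuous_zz)).norm
  have hbdd : ∀ n, n ≠ 0 → ∃ B : ℝ, 0 ≤ B ∧ ∀ ξ, ‖gg Q G n - gz Q G (zz lD ξ) n‖ ≤ B := by
    intro n hn
    refine ⟨‖gg Q G n‖ + ∑ v ∈ (box Q n).filter (fun v => dd v ∣ n), (dd v : ℝ), by positivity,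
      fun ξ => ?_⟩
    refine (norm_sub_le _ _).trans ?_
    have := norm_gz_le hQ' G hG (zz_re hD ξ) hn
    linarith
  have hint : ∀ n, n ≠ 0 → ∀ m : ℕ, Integrable
      (fun ξ => ‖w ξ‖ * ‖gg Q G n - gz Q G (zz lD ξ) n‖ ^ m) := by
    intro n hn m
    obtain ⟨B, hB0, hB⟩ := hbdd n hn
    refine Integrable.mono' (H.integrable_norm.mul_const (B ^ m)) ?_
      (Filter.Eventually.of_forall fun ξ => ?_)
    · exact (H.cont.norm.mul ((hcont n).pow m)).aestronglyMeasurable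
    · rw [Real.norm_of_nonneg (by positivity)]
      have := pow_le_pow_left₀ (norm_nonneg _) (hB ξ) m
      exact mul_le_mul_of_nonneg_left this (norm_nonneg _)
  have hpt : ∀ n ∈ Icc 1 N, ‖gg Q G n - gpsi Q V G ψ lD n‖ ^ 2 ≤
      W * ∫ ξ, ‖w ξ‖ * ‖gg Q G n - gz Q G (zz lD ξ) n‖ ^ 2 := by
    intro n hn
    have hn0 : n ≠ 0 := by have := (mem_Icc.1 hn).1; omega
    rw [gpsi_eq_integral H hD hQ' G hn0 (fun l hl => hV l hl n hn)]
    have h1 : gg Q G n - ∫ ξ, w ξ * gz Q G (zz lD ξ) n =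
        ∫ ξ, w ξ * (gg Q G n - gz Q G (zz lD ξ) n) := by
      have : (fun ξ => w ξ * (gg Q G n - gz Q G (zz lD ξ) n)) =
          fun ξ => w ξ * gg Q G n - w ξ * gz Q G (zz lD ξ) n := by funext ξ; ring
      rw [this, integral_sub, integral_mul_const, H.integral_eq_one, one_mul]
      · exact H.integrable.mul_const _
      · refine H.integrable_mul ((continuous_gz G n).comp continuous_zz)
          (fun ξ => norm_gz_le hQ' G hG (zz_re hD ξ) hn0)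
    rw [h1]
    have h2 : ‖∫ ξ, w ξ * (gg Q G n - gz Q G (zz lD ξ) n)‖ ≤
        ∫ ξ, ‖w ξ‖ * ‖gg Q G n - gz Q G (zz lD ξ) n‖ := by
      refine (norm_integral_le_integral_norm _).trans (le_of_eq ?_)
      simp_rw [norm_mul]
    have h3 := H.sq_integral_le (F := fun ξ => ‖gg Q G n - gz Q G (zz lD ξ) n‖)
      (fun _ => norm_nonneg _) (by simpa using hint n hn0 1) (hint n hn0 2)
    calc _ ≤ (∫ ξ, ‖w ξ‖ * ‖gg Q G n - gz Q G (zz lD ξ) n‖) ^ 2 :=
          pow_le_pow_left₀ (norm_nonneg _) h2 2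
      _ ≤ _ := h3
  refine (Finset.sum_le_sum hpt).trans ?_
  rw [← Finset.mul_sum, ← integral_finsetSum]
  swap
  · intro n hn
    exact hint n (by have := (mem_Icc.1 hn).1; omega) 2
  simp_rw [← Finset.mul_sum]
  have hκ0 : 0 ≤ Real.log y / lD := by
    have : 0 ≤ Real.log (y : ℝ) := Real.log_natCast_nonneg y
    positivity
  have hκ1 : Real.log y / lD ≤ 1 := by rw [div_le_one hD]; exact hy
  have h4 : ∀ ξ, ‖w ξ‖ * ∑ n ∈ Icc 1 N, ‖gg Q G n - gz Q G (zz lD ξ) n‖ ^ 2 ≤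
      N * (Real.log y / lD) * 2 ^ C * (‖w ξ‖ * (1 + |ξ|) ^ C) := by
    intro ξ
    have h5 : (1 + ‖zz lD ξ‖ * Real.log y) ^ C - 1 ≤
        (Real.log y / lD) * (2 ^ C * (1 + |ξ|) ^ C) := by
      have h6 : ‖zz lD ξ‖ * Real.log y ≤ Real.log y / lD * (1 + |ξ|) := by
        have := mul_le_mul_of_nonneg_right (norm_zz hD ξ) (Real.log_natCast_nonneg y)
        calc _ ≤ (1 + |ξ|) / lD * Real.log y := this
          _ = _ := by ring
      have h7 : (1 + ‖zz lD ξ‖ * Real.log y) ^ C ≤ (1 + Real.log y / lD * (1 + |ξ|)) ^ C := by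
        refine pow_le_pow_left₀ ?_ (by linarith) C
        have := mul_nonneg (norm_nonneg (zz lD ξ)) (Real.log_natCast_nonneg y)
        linarith
      have h8 := one_add_mul_pow_le hκ0 hκ1 (s := 1 + |ξ|) (by positivity) C
      have h9 : (1 + (1 + |ξ|)) ^ C - 1 ≤ 2 ^ C * (1 + |ξ|) ^ C := by
        rw [← mul_pow]
        have : (1 + (1 + |ξ|)) ^ C ≤ (2 * (1 + |ξ|)) ^ C :=
          pow_le_pow_left₀ (by positivity) (by linarith [abs_nonneg ξ]) C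
        linarith
      have h10 := mul_le_mul_of_nonneg_left h9 hκ0
      linarith
    have h11 := (hC _ (zz_re hD ξ)).trans (mul_le_mul_of_nonneg_left h5 (Nat.cast_nonneg N))
    calc _ ≤ ‖w ξ‖ * (N * (Real.log y / lD * (2 ^ C * (1 + |ξ|) ^ C))) :=
          mul_le_mul_of_nonneg_left h11 (norm_nonneg _)
      _ = _ := by ring
  have h12 : ∫ ξ, ‖w ξ‖ * ∑ n ∈ Icc 1 N, ‖gg Q G n - gz Q G (zz lD ξ) n‖ ^ 2 ≤
      ∫ ξ, N * (Real.log y / lD) * 2 ^ C * (‖w ξ‖ * (1 + |ξ|) ^ C) := by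
    refine integral_mono ?_ ((H.int C).const_mul _) h4
    simp_rw [Finset.mul_sum]
    exact integrable_finsetSum _ fun n hn =>
      hint n (by have := (mem_Icc.1 hn).1; omega) 2
  rw [integral_const_mul] at h12
  calc _ ≤ W * (N * (Real.log y / lD) * 2 ^ C * ∫ ξ, ‖w ξ‖ * (1 + |ξ|) ^ C) :=
        mul_le_mul_of_nonneg_left h12 hW
    _ = _ := by ring

end Pool.Agent.Elliott
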