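import Pool.Agent.Elliott.Defs

set_option autoImplicit false

/-! Decomposition of a multiplicative function which is close to `χ(n) n^(it)` on the large
primes: periodic factor, factor over the medium primes, Archimedean factor. -/

namespace Pool.Agent.Elliott

open Finset

/-- `n ↦ n^(it)`. -/
noncomputable def uu (t : ℝ) (n : ℕ) : ℂ := (n : ℂ) ^ ((t : ℂ) * Complex.I)

/-- `n ↦ χ(n) n^(it)`. -/
noncomputable def th {q : ℕ} (χ : DirichletCharacter ℂ q) (t : ℝ) (n : ℕ) : ℂ :=
  χ (n : ZMod q) * uu t n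

/-- The part of `n` composed of the primes in `S`. -/
def part (S : Finset ℕ) (n : ℕ) : ℕ := ∏ p ∈ S, p ^ n.factorization p

theorem uu_one (t : ℝ) : uu t 1 = 1 := by simp [uu]

theorem uu_mul (t : ℝ) (m n : ℕ) : uu t (m * n) = uu t m * uu t n := by
  unfold uu
  rw [Nat.cast_mul]
  rw [show ((m : ℂ) * (n : ℂ)) = ((m : ℝ) : ℂ) * ((n : ℝ) : ℂ) by push_cast; rfl]
  rw [Complex.mul_cpow_ofReal_nonneg (Nat.cast_nonneg m) (Nat.cast_nonneg n)]
  push_cast
  rfl

theorem norm_uu (t : ℝ) {n : ℕ} (hn : n ≠ 0) : ‖uu t n‖ = 1 := by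
  unfold uu
  rw [Complex.norm_natCast_cpow_of_pos (Nat.pos_of_ne_zero hn)]
  simp

theorem norm_uu_le (t : ℝ) (n : ℕ) : ‖uu t n‖ ≤ 1 := by
  rcases eq_or_ne n 0 with rfl | hn
  · unfold uu
    rw [Nat.cast_zero]
    by_cases h : (t : ℂ) * Complex.I = 0
    · rw [h]; simp
    · rw [Complex.zero_cpow h]; simp
  · exact (norm_uu t hn).le

variable {q : ℕ} (χ : DirichletCharacter ℂ q) (t : ℝ)

theorem th_one : th χ t 1 = 1 := by
  unfold th
  rw [uu_one]
  simp

theorem th_mul (m n : ℕ) : th χ t (m * n) = th χ t m * th χ t n := by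
  unfold th
  rw [uu_mul, Nat.cast_mul, map_mul]
  ring

theorem norm_th_le (n : ℕ) : ‖th χ t n‖ ≤ 1 := by
  unfold th
  rw [norm_mul]
  have h1 := χ.norm_le_one (n : ZMod q)
  have h2 := norm_uu_le t n
  calc _ ≤ (1 : ℝ) * 1 := mul_le_mul h1 h2 (norm_nonneg _) zero_le_one
    _ = 1 := one_mul 1

theorem norm_th_eq {n : ℕ} (hn : n ≠ 0) (h : Nat.Coprime n q) : ‖th χ t n‖ = 1 := by
  unfold th
  rw [norm_mul, norm_uu t hn, mul_one]
  have hu : IsUnit (n : ZMod q) := (ZMod.isUnit_iff_coprime n q).2 h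
  obtain ⟨u, hu⟩ := hu
  rw [← hu]
  exact χ.unit_norm_eq_one u

theorem th_pow (n k : ℕ) : th χ t (n ^ k) = th χ t n ^ k := by
  induction k with
  | zero => simp [th_one]
  | succ k ih => rw [pow_succ, pow_succ, th_mul, ih]

theorem th_prod {ι : Type*} (s : Finset ι) (g : ι → ℕ) :
    th χ t (∏ i ∈ s, g i) = ∏ i ∈ s, th χ t (g i) := by
  classical
  induction s using Finset.induction_on with
  | empty => simp [th_one]
  | insert a s ha ih => rw [prod_insert ha, prod_insert ha, th_mul, ih]

/-! ### The part of an integer over a set of primes -/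

variable {S T : Finset ℕ}

theorem part_pos (hS : ∀ p ∈ S, p.Prime) (n : ℕ) : 0 < part S n :=
  Finset.prod_pos fun p hp => pow_pos (hS p hp).pos _

theorem part_factorization (hS : ∀ p ∈ S, p.Prime) (n : ℕ) {p : ℕ} :
    (part S n).factorization p = if p ∈ S then n.factorization p else 0 := by
  unfold part
  rw [Nat.factorization_prod_apply (fun m hm => (pow_pos (hS m hm).pos _).ne')]
  split_ifs with hp
  · rw [Finset.sum_eq_single p]
    · rw [(hS p hp).factorization_pow]; simp
    · intro m hm hmp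
      rw [(hS m hm).factorization_pow, Finsupp.single_eq_of_ne hmp.symm]
    · intro h; exact absurd hp h
  · refine Finset.sum_eq_zero fun m hm => ?_
    rw [(hS m hm).factorization_pow, Finsupp.single_eq_of_ne]
    rintro rfl; exact hp hm

theorem part_self_dvd (hS : ∀ p ∈ S, p.Prime) {n : ℕ} (hn : n ≠ 0) : part S n ∣ n := by
  rw [← Nat.factorization_le_iff_dvd (part_pos hS n).ne' hn]
  intro p
  rw [part_factorization hS]
  split_ifs
  · exact le_rfl
  · exact Nat.zero_le _

theorem part_coprime (hS : ∀ p ∈ S, p.Prime) (hT : ∀ p ∈ T, p.Prime) (hST : Disjoint S T)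
    (m n : ℕ) : Nat.Coprime (part S m) (part T n) := by
  unfold part
  refine Nat.Coprime.prod_left fun p hp => Nat.Coprime.prod_right fun l hl => ?_
  refine Nat.Coprime.pow _ _ ?_
  rw [Nat.coprime_primes (hS p hp) (hT l hl)]
  rintro rfl
  exact (Finset.disjoint_left.1 hST hp) hl

theorem map_part {f : ArithmeticFunction ℂ} (hf : f.IsMultiplicative)
    (hS : ∀ p ∈ S, p.Prime) (n : ℕ) :
    f (part S n) = ∏ p ∈ S, f (p ^ n.factorization p) := by
  unfold part
  rw [hf.map_prod]
  intro p hp l hl hpl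
  exact Nat.Coprime.pow _ _ ((Nat.coprime_primes (hS p hp) (hS l hl)).2 hpl)

/-- The remaining part of `n`. -/
def rest (S T : Finset ℕ) (n : ℕ) : ℕ := n / (part S n * part T n)

theorem part_mul_dvd (hS : ∀ p ∈ S, p.Prime) (hT : ∀ p ∈ T, p.Prime) (hST : Disjoint S T)
    {n : ℕ} (hn : n ≠ 0) : part S n * part T n ∣ n :=
  (part_coprime hS hT hST n n).mul_dvd_of_dvd_of_dvd (part_self_dvd hS hn) (part_self_dvd hT hn)

theorem eq_mul_rest (hS : ∀ p ∈ S, p.Prime) (hT : ∀ p ∈ T, p.Prime) (hST : Disjoint S T)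
    {n : ℕ} (hn : n ≠ 0) : n = part S n * part T n * rest S T n :=
  (Nat.mul_div_cancel' (part_mul_dvd hS hT hST hn)).symm

theorem rest_ne_zero (hS : ∀ p ∈ S, p.Prime) (hT : ∀ p ∈ T, p.Prime) (hST : Disjoint S T)
    {n : ℕ} (hn : n ≠ 0) : rest S T n ≠ 0 := by
  intro h
  have := eq_mul_rest hS hT hST hn
  rw [h, mul_zero] at this
  exact hn this

theorem rest_factorization (hS : ∀ p ∈ S, p.Prime) (hT : ∀ p ∈ T, p.Prime)
    (hST : Disjoint S T) {n : ℕ} (hn : n ≠ 0) (p : ℕ) :
    (rest S T n).factorization p = if p ∈ S ∨ p ∈ T then 0 else n.factorization p := by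
  have h1 := eq_mul_rest hS hT hST hn
  have h2 : n.factorization p = (part S n * part T n * rest S T n).factorization p := by
    rw [← h1]
  rw [Nat.factorization_mul (mul_pos (part_pos hS n) (part_pos hT n)).ne'
    (rest_ne_zero hS hT hST hn), Nat.factorization_mul (part_pos hS n).ne'
    (part_pos hT n).ne'] at h2
  simp only [Finsupp.add_apply] at h2
  rw [part_factorization hS, part_factorization hT] at h2
  have h3 : ¬ (p ∈ S ∧ p ∈ T) := fun h => (Finset.disjoint_left.1 hST h.1) h.2
  by_cases hpS : p ∈ S <;> by_cases hpT : p ∈ T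
  · exact absurd ⟨hpS, hpT⟩ h3
  · simp only [hpS, hpT, if_true, if_false, or_false] at h2 ⊢; omega
  · simp only [hpS, hpT, if_true, if_false, or_true] at h2 ⊢; omega
  · simp only [hpS, hpT, if_false, or_self] at h2 ⊢; omega

theorem rest_coprime (hS : ∀ p ∈ S, p.Prime) (hT : ∀ p ∈ T, p.Prime) (hST : Disjoint S T)
    {n : ℕ} (hn : n ≠ 0) : Nat.Coprime (part S n * part T n) (rest S T n) := by
  rw [Nat.coprime_iff_gcd_eq_one]
  by_contra h
  obtain ⟨p, hp, hpd⟩ := Nat.exists_prime_and_dvd h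
  have h1 : p ∣ rest S T n := hpd.trans (Nat.gcd_dvd_right _ _)
  have h2 : p ∣ part S n * part T n := hpd.trans (Nat.gcd_dvd_left _ _)
  have h3 := (hp.dvd_iff_one_le_factorization (rest_ne_zero hS hT hST hn)).1 h1
  rw [rest_factorization hS hT hST hn] at h3
  rcases hp.dvd_mul.1 h2 with h4 | h4
  · have h5 := (hp.dvd_iff_one_le_factorization (part_pos hS n).ne').1 h4
    rw [part_factorization hS] at h5
    split_ifs at h5 with h6
    · simp [h6] at h3
    · omega
  · have h5 := (hp.dvd_iff_one_le_factorization (part_pos hT n).ne').1 h4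
    rw [part_factorization hT] at h5
    split_ifs at h5 with h6
    · simp [h6] at h3
    · omega

theorem norm_prod_sub_prod_le {ι : Type*} (s : Finset ι) (a b : ι → ℂ)
    (ha : ∀ i ∈ s, ‖a i‖ ≤ 1) (hb : ∀ i ∈ s, ‖b i‖ ≤ 1) :
    ‖∏ i ∈ s, a i - ∏ i ∈ s, b i‖ ≤ ∑ i ∈ s, ‖a i - b i‖ := by
  classical
  induction s using Finset.induction_on with
  | empty => simp
  | insert i s hi ih =>
    rw [prod_insert hi, prod_insert hi, sum_insert hi]
    have h1 := ih (fun j hj => ha j (mem_insert_of_mem hj)) (fun j hj => hb j (mem_insert_of_mem hj))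
    have h2 : ‖∏ j ∈ s, a j‖ ≤ 1 := by
      rw [norm_prod]
      exact Finset.prod_le_one (fun _ _ => norm_nonneg _)
        fun j hj => ha j (mem_insert_of_mem hj)
    have h3 := hb i (mem_insert_self i s)
    calc ‖a i * ∏ j ∈ s, a j - b i * ∏ j ∈ s, b j‖
        = ‖(a i - b i) * ∏ j ∈ s, a j + b i * (∏ j ∈ s, a j - ∏ j ∈ s, b j)‖ := by
          congr 1; ring
      _ ≤ ‖a i - b i‖ * ‖∏ j ∈ s, a j‖ + ‖b i‖ * ‖∏ j ∈ s, a j - ∏ j ∈ s, b j‖ := by
          refine (norm_add_le _ _).trans ?_
          rw [norm_mul, norm_mul]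
      _ ≤ ‖a i - b i‖ * 1 + 1 * ‖∏ j ∈ s, a j - ∏ j ∈ s, b j‖ :=
          add_le_add (mul_le_mul_of_nonneg_left h2 (norm_nonneg _))
            (mul_le_mul_of_nonneg_right h3 (norm_nonneg _))
      _ ≤ _ := by linarith

/-! ### The decomposition -/

variable (f : ArithmeticFunction ℂ)

/-- The increments of `f` against `χ(n) n^(it)`. -/
noncomputable def GG (l i : ℕ) : ℂ := f (l ^ i) * (starRingEnd ℂ) (th χ t (l ^ i))

/-- The factor of `f` carried by the small primes. -/
noncomputable def FF (S : Finset ℕ) (n : ℕ) : ℂ :=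
  f (part S n) * (starRingEnd ℂ) (uu t (part S n)) * χ ((n / part S n : ℕ) : ZMod q)

theorem struct {f : ArithmeticFunction ℂ} (hf : f.IsMultiplicative)
    (hS : ∀ p ∈ S, p.Prime) (hT : ∀ p ∈ T, p.Prime) (hST : Disjoint S T)
    (hTq : ∀ p ∈ T, Nat.Coprime p q) {n : ℕ} (hn : n ≠ 0) :
    FF χ t f S n * gg T (GG χ t f) n * uu t n =
      f (part S n) * f (part T n) * th χ t (rest S T n) := by
  have h1 : gg T (GG χ t f) n = f (part T n) * (starRingEnd ℂ) (th χ t (part T n)) := by
    unfold gg GG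
    rw [Finset.prod_mul_distrib, ← map_part hf hT, ← map_prod]
    congr 2
    unfold part
    rw [th_prod]
  have h2 : n / part S n = part T n * rest S T n := by
    conv_lhs => rw [eq_mul_rest hS hT hST hn]
    rw [show part S (part S n * part T n * rest S T n) = part S n by
      rw [← eq_mul_rest hS hT hST hn]]
    rw [mul_assoc, Nat.mul_div_cancel_left _ (part_pos hS n)]
  have h3 : uu t n = uu t (part S n) * (uu t (part T n) * uu t (rest S T n)) := by
    conv_lhs => rw [eq_mul_rest hS hT hST hn]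
    rw [mul_assoc, uu_mul, uu_mul]
  have h4 : uu t (part S n) * (starRingEnd ℂ) (uu t (part S n)) = 1 := by
    rw [Complex.mul_conj, Complex.normSq_eq_norm_sq, norm_uu t (part_pos hS n).ne']
    simp
  have h5 : th χ t (part T n) * (starRingEnd ℂ) (th χ t (part T n)) = 1 := by
    rw [Complex.mul_conj, Complex.normSq_eq_norm_sq, norm_th_eq χ t (part_pos hT n).ne']
    · simp
    · unfold part
      exact Nat.Coprime.prod_left fun p hp => (hTq p hp).pow_left _
  unfold FF
  rw [h1, h2, h3, Nat.cast_mul, map_mul]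
  unfold th at h5 ⊢
  calc _ = (f (part S n) * f (part T n) * (χ (rest S T n : ZMod q) * uu t (rest S T n))) *
      (uu t (part S n) * (starRingEnd ℂ) (uu t (part S n))) *
      (χ (part T n : ZMod q) * uu t (part T n) *
        (starRingEnd ℂ) (χ (part T n : ZMod q) * uu t (part T n))) := by ring
    _ = _ := by rw [h4, h5]; ring

theorem struct_diff {f : ArithmeticFunction ℂ} (hf : f.IsMultiplicative)
    (hf1 : ∀ n, ‖f n‖ ≤ 1)
    (hS : ∀ p ∈ S, p.Prime) (hT : ∀ p ∈ T, p.Prime) (hST : Disjoint S T)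
    (hTq : ∀ p ∈ T, Nat.Coprime p q) {n : ℕ} (hn : n ≠ 0) :
    ‖f n - FF χ t f S n * gg T (GG χ t f) n * uu t n‖ ≤
      ∑ p ∈ n.primeFactors.filter (fun p => p ∉ S ∧ p ∉ T),
        ‖f (p ^ n.factorization p) - th χ t (p ^ n.factorization p)‖ := by
  rw [struct χ t hf hS hT hST hTq hn]
  have h1 : f n = f (part S n) * f (part T n) * f (rest S T n) := by
    conv_lhs => rw [eq_mul_rest hS hT hST hn]
    rw [hf.map_mul_of_coprime (rest_coprime hS hT hST hn),
      hf.map_mul_of_coprime (part_coprime hS hT hST n n)]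
  have h2 : f n - f (part S n) * f (part T n) * th χ t (rest S T n) =
      f (part S n) * f (part T n) * (f (rest S T n) - th χ t (rest S T n)) := by
    rw [h1]; ring
  rw [h2, norm_mul, norm_mul]
  have hr := rest_ne_zero hS hT hST hn
  have h3 : (rest S T n).primeFactors = n.primeFactors.filter (fun p => p ∉ S ∧ p ∉ T) := by
    ext p
    rw [mem_filter]
    constructor
    · intro hp
      have hpp := Nat.prime_of_mem_primeFactors hp
      have h4 := (hpp.dvd_iff_one_le_factorization hr).1 (Nat.dvd_of_mem_primeFactors hp)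
      rw [rest_factorization hS hT hST hn] at h4
      split_ifs at h4 with h5
      · omega
      · push Not at h5
        refine ⟨?_, h5⟩
        rw [Nat.mem_primeFactors]
        exact ⟨hpp, (hpp.dvd_iff_one_le_factorization hn).2 h4, hn⟩
    · rintro ⟨hp, h5⟩
      have hpp := Nat.prime_of_mem_primeFactors hp
      rw [Nat.mem_primeFactors]
      refine ⟨hpp, ?_, hr⟩
      rw [hpp.dvd_iff_one_le_factorization hr, rest_factorization hS hT hST hn, if_neg
        (by push Not; exact h5)]
      exact (hpp.dvd_iff_one_le_factorization hn).1 (Nat.dvd_of_mem_primeFactors hp)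
  have h4 : ‖f (rest S T n) - th χ t (rest S T n)‖ ≤
      ∑ p ∈ n.primeFactors.filter (fun p => p ∉ S ∧ p ∉ T),
        ‖f (p ^ n.factorization p) - th χ t (p ^ n.factorization p)‖ := by
    have e1 : rest S T n = ∏ p ∈ (rest S T n).primeFactors, p ^ (rest S T n).factorization p :=
      (Nat.prod_factorization_pow_eq_self hr).symm
    have e2 : f (rest S T n) = ∏ p ∈ (rest S T n).primeFactors,
        f (p ^ (rest S T n).factorization p) := hf.multiplicative_factorization f hr
    have e3 : th χ t (rest S T n) = ∏ p ∈ (rest S T n).primeFactors,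
        th χ t (p ^ (rest S T n).factorization p) := by
      conv_lhs => rw [e1]
      rw [th_prod]
    rw [e2, e3]
    refine (norm_prod_sub_prod_le _ _ _ (fun p _ => hf1 _)
      (fun p _ => norm_th_le χ t _)).trans (le_of_eq ?_)
    rw [h3]
    refine Finset.sum_congr rfl fun p hp => ?_
    have h5 := (mem_filter.1 hp).2
    rw [rest_factorization hS hT hST hn, if_neg (by push Not; exact h5)]
  calc ‖f (part S n)‖ * ‖f (part T n)‖ * ‖f (rest S T n) - th χ t (rest S T n)‖
      ≤ 1 * 1 * ‖f (rest S T n) - th χ t (rest S T n)‖ := by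
        refine mul_le_mul_of_nonneg_right ?_ (norm_nonneg _)
        exact mul_le_mul (hf1 _) (hf1 _) (norm_nonneg _) zero_le_one
    _ ≤ _ := by rw [one_mul, one_mul]; exact h4

end Pool.Agent.Elliott
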